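import Pool.Agent.K3h4.AN.Bi

/-! Block fractional moments: parameters and decay. -/

set_option autoImplicit false
set_option linter.unusedSectionVars false
set_option linter.unusedVariables false

open scoped BigOperators ENNReal
open MeasureTheory

namespace Pool.Agent.K3h4.AN.Bd

open Pool.Agent.H4R2.LO

/-- the centres of the covering balls -/
noncomputable def J {d : ℕ} (l : ℕ) (c : Zd d) : Finset (Zd d) :=
  (Fintype.piFinset fun _ : Fin d => ({-1, 0, 1} : Finset ℤ)).image fun j i => c i + 2 * l * j i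

theorem J_card {d : ℕ} (l : ℕ) (c : Zd d) : (J l c).card ≤ 3 ^ d := by
  refine Finset.card_image_le.trans ?_
  rw [Fintype.card_piFinset, Finset.prod_const, Finset.card_univ, Fintype.card_fin]
  exact le_of_eq (by rw [show ({-1, 0, 1} : Finset ℤ).card = 3 by decide])

theorem J_cover {d : ℕ} (l : ℕ) (hl : 2 ≤ l) (c z : Zd d) (h : dd c z = 2 * l + 2) :
    ∃ c' ∈ J l c, dd c' z ≤ l := by
  have h1 : ∀ i, (c i - z i).natAbs ≤ 2 * l + 2 := fun i => h ▸ Em.le_dd c z i
  refine ⟨fun i => c i + 2 * l * (if (l : ℤ) < z i - c i then 1 else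
    if z i - c i < -(l : ℤ) then -1 else 0), ?_, ?_⟩
  · unfold J
    rw [Finset.mem_image]
    refine ⟨fun i => if (l : ℤ) < z i - c i then 1 else
      if z i - c i < -(l : ℤ) then -1 else 0, ?_, rfl⟩
    rw [Fintype.mem_piFinset]
    intro i
    split_ifs <;> decide
  · rw [Em.dd_le_iff]
    intro i
    have h2 := h1 i
    split_ifs with a b
    · omega
    · omega
    · omega

theorem J_dist {d : ℕ} (l : ℕ) (c c' : Zd d) (h : c' ∈ J l c) : dd c c' ≤ 2 * l := by
  unfold J at h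
  rw [Finset.mem_image] at h
  obtain ⟨j, hj, rfl⟩ := h
  rw [Fintype.mem_piFinset] at hj
  rw [Em.dd_le_iff]
  intro i
  have h1 := hj i
  simp only [Finset.mem_insert, Finset.mem_singleton] at h1
  rcases h1 with h1 | h1 | h1 <;> rw [h1] <;> omega

theorem filt_card {d : ℕ} (Λ : Finset (Zd d)) (c : Zd d) (l : ℕ) :
    (Finset.univ.filter fun j : Λ => dd c j.1 ≤ l).card ≤ (2 * l + 1) ^ d := by
  rw [← Em.card_bx c l]
  refine Finset.card_le_card_of_injOn (fun j : Λ => j.1) ?_ ?_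
  · intro j hj
    have h1 := (Finset.mem_filter.1 (Finset.mem_coe.1 hj)).2
    exact Finset.mem_coe.2 ((Em.mem_bx c j.1 l).2 h1)
  · intro j _ j' _ h
    exact Subtype.ext h

/-- existence of the large parameter -/
theorem exT (c a e : ℝ) : ∃ T : ℝ, 4 ≤ T ∧ c * (a * Real.log (2 * T + 7) + e) ≤ T := by
  have h1 : Filter.Tendsto (fun T : ℝ => 2 * T + 7) Filter.atTop Filter.atTop :=
    Filter.tendsto_atTop_add_const_right _ _ (Filter.tendsto_id.const_mul_atTop (by norm_num))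
  have h2 := (Real.isLittleO_log_id_atTop.comp_tendsto h1).def
    (c := 1 / (8 * (|c| * |a| + 1))) (by positivity)
  obtain ⟨T, ⟨hT1, hT2⟩, hT3⟩ := ((h2.and (Filter.eventually_ge_atTop 4)).and
    (Filter.eventually_ge_atTop (2 * |c| * |e| + 2))).exists
  refine ⟨T, hT2, ?_⟩
  simp only [Function.comp, id] at hT1
  rw [Real.norm_eq_abs, Real.norm_eq_abs, abs_of_nonneg (by positivity : 0 ≤ 2 * T + 7)] at hT1
  have h3 : |c| * |a| * |Real.log (2 * T + 7)| ≤ T / 2 := by
    calc |c| * |a| * |Real.log (2 * T + 7)| ≤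
        |c| * |a| * (1 / (8 * (|c| * |a| + 1)) * (2 * T + 7)) := by gcongr
      _ = (|c| * |a| / (|c| * |a| + 1)) * ((2 * T + 7) / 8) := by
          field_simp
      _ ≤ 1 * ((2 * T + 7) / 8) := by
          gcongr
          rw [div_le_one (by positivity)]
          linarith
      _ ≤ T / 2 := by linarith
  have h4 : c * (a * Real.log (2 * T + 7)) ≤ |c| * |a| * |Real.log (2 * T + 7)| := by
    calc c * (a * Real.log (2 * T + 7)) ≤ |c * (a * Real.log (2 * T + 7))| := le_abs_self _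
      _ = _ := by rw [abs_mul, abs_mul]; ring
  have h5 : c * e ≤ |c| * |e| := by
    calc c * e ≤ |c * e| := le_abs_self _
      _ = _ := abs_mul _ _
  nlinarith

/-- the final interpolation -/
theorem interp {α : Type*} [MeasurableSpace α] (P : Measure α) [IsProbabilityMeasure P]
    (f : α → ℝ≥0∞) (hf : Measurable f) (s : ℝ) (hs : 0 ≤ s) (hs1 : s ≤ 1 / 2) :
    ∫⁻ a, f a ^ (1 / 4 : ℝ) ∂P ≤ (∫⁻ a, f a ^ s ∂P) ^ (1 / 2 : ℝ) *
      (1 + ∫⁻ a, f a ^ (1 / 2 : ℝ) ∂P) ^ (1 / 2 : ℝ) := by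
  have e1 : ∀ a, f a ^ (1 / 4 : ℝ) = (f a ^ s) ^ (1 / 2 : ℝ) * (f a ^ (1 / 2 - s)) ^ (1 / 2 : ℝ) := by
    intro a
    rw [← ENNReal.rpow_mul, ← ENNReal.rpow_mul, ← ENNReal.rpow_add_of_nonneg _ _ (by linarith)
      (by linarith)]
    congr 1
    ring
  simp only [e1]
  refine (ENNReal.lintegral_mul_norm_pow_le (hf.pow_const _).aemeasurable
    (hf.pow_const _).aemeasurable (by norm_num) (by norm_num) (by norm_num)).trans ?_
  refine mul_le_mul' le_rfl (ENNReal.rpow_le_rpow ?_ (by norm_num))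
  calc ∫⁻ a, f a ^ (1 / 2 - s) ∂P ≤ ∫⁻ a, (1 + f a ^ (1 / 2 : ℝ)) ∂P := by
        refine lintegral_mono fun a => ?_
        rcases le_total (f a) 1 with h | h
        · exact (ENNReal.rpow_le_one h (by linarith)).trans le_self_add
        · exact (ENNReal.rpow_le_rpow_of_exponent_le h (by linarith)).trans le_add_self
    _ = _ := by
        rw [lintegral_add_left measurable_const, lintegral_const, measure_univ, mul_one]

/-- real arithmetic -/
theorem arith (d : ℕ) (hd : 1 ≤ d) (B : ℝ) (hB : 0 < B) (T Q : ℝ) (hT : 4 ≤ T)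
    (hQ : Q = 4 * d * Real.log (2 * T + 7) + (4 * d + 1 + 2 * Real.log (1 + B)))
    (hTQ : 8 * Real.sqrt (8 * d) * (1 / 8 + Real.log (16 * 3 ^ d)) * Q ≤ T)
    (lam κ : ℝ) (hlam : 0 < lam) (hlam1 : lam ≤ 1) (hκ : 0 < κ) (hκ1 : κ ≤ 1)
    (l n : ℕ) (hl : l = ⌈T * Real.log (2 / (κ * lam)) / Real.sqrt κ⌉₊)
    (hn : n = (4 * l + 3) ^ d) (θ : ℝ) (hθ : θ = 1 / (2 * Q * Real.log (2 / (κ * lam)))) :
    1 ≤ Q ∧ 0 < θ ∧ 2 * θ ≤ 1 ∧ 2 ≤ l ∧
    (8 * (l : ℝ) + 8 ≤ (8 * T + 32) * Real.log (2 / (κ * lam)) / Real.sqrt κ) ∧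
    (((n * n : ℕ) : ℝ) * (2 * Real.sqrt (Real.sqrt (B / lam)))) ^ θ ≤ 2 ∧
    (((n * n : ℕ) : ℝ) * (2 / κ * Real.exp (-(Real.sqrt (κ / (4 * (2 * d))) * l)))) ^ (θ / 4) ≤
      1 / (16 * 3 ^ d) := by
  set Y : ℝ := 2 / (κ * lam) with hYdef
  have hkl : 0 < κ * lam := mul_pos hκ hlam
  have hY2 : 2 ≤ Y := by
    rw [hYdef, le_div_iff₀ hkl]
    have : κ * lam ≤ 1 := mul_le_one₀ hκ1 hlam.le hlam1
    linarith
  have hY0 : 0 < Y := by linarith
  have hY1 : 1 ≤ Y := by linarith
  have hκY : 1 / κ ≤ Y / 2 := by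
    rw [hYdef]
    have : (2 / (κ * lam)) / 2 = 1 / κ * (1 / lam) := by field_simp
    rw [this]
    have h3 : 1 ≤ 1 / lam := by rw [le_div_iff₀ hlam]; linarith
    have h4 : 0 < 1 / κ := by positivity
    nlinarith
  have hlY : 1 / lam ≤ Y / 2 := by
    rw [hYdef]
    have : (2 / (κ * lam)) / 2 = 1 / κ * (1 / lam) := by field_simp
    rw [this]
    have h3 : 1 ≤ 1 / κ := by rw [le_div_iff₀ hκ]; linarith
    have h4 : 0 < 1 / lam := by positivity
    nlinarith
  set X : ℝ := Real.log Y with hXdef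
  have hX : 1 / 2 ≤ X := by
    have h3 : Real.log 2 ≤ X := Real.log_le_log (by norm_num) hY2
    have h4 := Real.log_two_gt_d9
    linarith
  have hX0 : 0 < X := by linarith
  have hXY : X ≤ Y := Real.log_le_self hY0.le
  have hsκ : 0 < Real.sqrt κ := Real.sqrt_pos.2 hκ
  have hsκ1 : Real.sqrt κ ≤ 1 := Real.sqrt_le_one.2 hκ1
  have hsκ2 : κ ≤ Real.sqrt κ := by
    have h3 : Real.sqrt κ * Real.sqrt κ = κ := Real.mul_self_sqrt hκ.le
    nlinarith
  have hisκ : 1 / Real.sqrt κ ≤ Y / 2 := by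
    refine le_trans ?_ hκY
    exact one_div_le_one_div_of_le hκ hsκ2
  have hd1 : (1 : ℝ) ≤ d := by exact_mod_cast hd
  have hlogT : 0 ≤ Real.log (2 * T + 7) := Real.log_nonneg (by linarith)
  have hlogB : 0 ≤ Real.log (1 + B) := Real.log_nonneg (by linarith)
  have hQ1 : 1 ≤ Q := by
    rw [hQ]
    have : 0 ≤ 4 * d * Real.log (2 * T + 7) := by positivity
    linarith
  have hL1 : T * X / Real.sqrt κ ≤ l := by rw [hl]; exact Nat.le_ceil _
  have hL2 : (l : ℝ) < T * X / Real.sqrt κ + 1 := by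
    rw [hl]; exact Nat.ceil_lt_add_one (by positivity)
  have hL0 : T * X ≤ T * X / Real.sqrt κ := by
    rw [le_div_iff₀ hsκ]
    nlinarith [mul_pos (by linarith : 0 < T) hX0]
  have hl2 : (2 : ℝ) ≤ l := by nlinarith
  have hL3 : T * X / Real.sqrt κ ≤ T * Y ^ 2 / 2 := by
    have : T * X / Real.sqrt κ = T * X * (1 / Real.sqrt κ) := by ring
    rw [this]
    calc T * X * (1 / Real.sqrt κ) ≤ T * Y * (Y / 2) := by gcongr
      _ = T * Y ^ 2 / 2 := by ring
  have hYsq : 1 ≤ Y ^ 2 := one_le_pow₀ hY1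
  have hL4 : 4 * (l : ℝ) + 3 ≤ (2 * T + 7) * Y ^ 2 := by nlinarith
  have hnn : ((n * n : ℕ) : ℝ) ≤ (2 * T + 7) ^ (2 * d) * Y ^ (4 * d) := by
    rw [hn]
    push_cast
    calc (4 * (l : ℝ) + 3) ^ d * (4 * (l : ℝ) + 3) ^ d = (4 * (l : ℝ) + 3) ^ (2 * d) := by ring
      _ ≤ ((2 * T + 7) * Y ^ 2) ^ (2 * d) := by gcongr
      _ = _ := by rw [mul_pow, ← pow_mul]; congr 2; ring
  have hn0 : (0 : ℝ) < ((n * n : ℕ) : ℝ) := by
    rw [hn]; positivity
  have hθ0 : 0 < θ := by rw [hθ]; positivity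
  -- the common bound
  have hcom : ∀ z : ℝ, 0 < z → z ≤ (1 + B) * Y →
      Real.log (((n * n : ℕ) : ℝ) * z) ≤ X * Q := by
    intro z hz hz2
    have h1 : ((n * n : ℕ) : ℝ) * z ≤ (2 * T + 7) ^ (2 * d) * Y ^ (4 * d) * ((1 + B) * Y) := by
      gcongr
    have h2 := Real.log_le_log (by positivity) h1
    have h3 : Real.log ((2 * T + 7) ^ (2 * d) * Y ^ (4 * d) * ((1 + B) * Y)) =
        2 * d * Real.log (2 * T + 7) + 4 * d * X + (Real.log (1 + B) + X) := by
      rw [Real.log_mul (by positivity) (by positivity), Real.log_mul (by positivity) (by positivity),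
        Real.log_mul (by positivity) (by positivity), Real.log_pow, Real.log_pow]
      push_cast
      ring
    rw [h3] at h2
    refine h2.trans ?_
    rw [hQ]
    have h4 : d * Real.log (2 * T + 7) ≤ 2 * X * (d * Real.log (2 * T + 7)) := by
      exact le_mul_of_one_le_left (by positivity) (by linarith)
    have h5 : Real.log (1 + B) ≤ 2 * X * Real.log (1 + B) :=
      le_mul_of_one_le_left hlogB (by linarith)
    have h6 : X * (4 * d * Real.log (2 * T + 7) + (4 * d + 1 + 2 * Real.log (1 + B))) =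
        2 * (2 * X * (d * Real.log (2 * T + 7))) + 4 * d * X + X + 2 * X * Real.log (1 + B) := by
      ring
    rw [h6]
    linarith
  have hθXQ : θ * (X * Q) = 1 / 2 := by
    rw [hθ]; field_simp
  refine ⟨hQ1, hθ0, ?_, by exact_mod_cast hl2, ?_, ?_, ?_⟩
  · rw [hθ]
    have hQ5 : 5 ≤ Q := by
      rw [hQ]
      have h6 : 0 ≤ 4 * d * Real.log (2 * T + 7) := by positivity
      linarith
    have h7 : 5 * (1 / 2) ≤ Q * X := by gcongr
    have h3 : 2 ≤ 2 * Q * X := by linarith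
    have h4 : 1 / (2 * Q * X) ≤ 1 / 2 := one_div_le_one_div_of_le (by norm_num) h3
    linarith
  · have h4 : 16 ≤ 32 * X / Real.sqrt κ := by
      rw [le_div_iff₀ hsκ]; nlinarith
    have h5 : (8 * T + 32) * X / Real.sqrt κ = 8 * (T * X / Real.sqrt κ) +
        32 * X / Real.sqrt κ := by ring
    rw [h5]; linarith
  · have hCs : 2 * Real.sqrt (Real.sqrt (B / lam)) ≤ (1 + B) * Y := by
      have h3 := Dec.ss_le (B / lam) (by positivity)
      have h4 : 1 + B / lam ≤ (1 + B) * (1 / lam) := by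
        have h5 : 1 ≤ 1 / lam := by rw [le_div_iff₀ hlam]; linarith
        have h6 : B / lam = B * (1 / lam) := by ring
        rw [h6]; nlinarith
      have h5 : (1 + B) * (1 / lam) ≤ (1 + B) * (Y / 2) := by gcongr
      linarith
    have hs0 : 0 < 2 * Real.sqrt (Real.sqrt (B / lam)) := by
      have : 0 < B / lam := by positivity
      positivity
    have h1 := hcom _ hs0 hCs
    rw [Real.rpow_def_of_pos (by positivity)]
    calc Real.exp (Real.log (((n * n : ℕ) : ℝ) * (2 * Real.sqrt (Real.sqrt (B / lam)))) * θ)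
        ≤ Real.exp (1 / 2) := by
          refine Real.exp_le_exp.2 ?_
          rw [← hθXQ, mul_comm]
          gcongr
      _ ≤ 2 := by
          have h2 : Real.exp (1 / 2) ^ 2 = Real.exp 1 := by
            rw [← Real.exp_nat_mul]; norm_num
          have h3 := Real.exp_one_lt_d9
          have h4 := Real.exp_pos (1 / 2)
          nlinarith
  · have h3 : 2 / κ ≤ (1 + B) * Y := by
      have : 2 / κ = 2 * (1 / κ) := by ring
      rw [this]; nlinarith
    have h1 := hcom (2 / κ) (by positivity) h3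
    rw [← mul_assoc, Real.rpow_def_of_pos (by positivity), Real.log_mul (by positivity)
      (Real.exp_pos _).ne', Real.log_exp]
    have hs8 : 0 < Real.sqrt (8 * d) := Real.sqrt_pos.2 (by positivity)
    have h4 : T * X / Real.sqrt (8 * d) ≤ Real.sqrt (κ / (4 * (2 * d))) * l := by
      have h5 : Real.sqrt (κ / (4 * (2 * d))) = Real.sqrt κ / Real.sqrt (8 * d) := by
        rw [← Real.sqrt_div hκ.le]; congr 2; ring
      rw [h5]
      calc T * X / Real.sqrt (8 * d) = Real.sqrt κ / Real.sqrt (8 * d) * (T * X / Real.sqrt κ) := by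
            field_simp
        _ ≤ _ := by gcongr
    have h5 : (Real.log (((n * n : ℕ) : ℝ) * (2 / κ)) + -(Real.sqrt (κ / (4 * (2 * d))) * l)) *
        (θ / 4) ≤ -Real.log (16 * 3 ^ d) := by
      have h6 : Real.log (((n * n : ℕ) : ℝ) * (2 / κ)) + -(Real.sqrt (κ / (4 * (2 * d))) * l) ≤
          X * (Q - T / Real.sqrt (8 * d)) := by
        have : X * (Q - T / Real.sqrt (8 * d)) = X * Q - T * X / Real.sqrt (8 * d) := by ring
        rw [this]; linarith
      calc _ ≤ X * (Q - T / Real.sqrt (8 * d)) * (θ / 4) := by gcongr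
        _ = 1 / 8 * (1 - T / (Real.sqrt (8 * d) * Q)) := by
            have : X * (Q - T / Real.sqrt (8 * d)) * (θ / 4) =
              θ * (X * Q) / 4 * (1 - T / (Real.sqrt (8 * d) * Q)) := by
              field_simp
            rw [this, hθXQ]; ring
        _ ≤ _ := by
            have h7 : 8 * (1 / 8 + Real.log (16 * 3 ^ d)) ≤ T / (Real.sqrt (8 * d) * Q) := by
              rw [le_div_iff₀ (by positivity)]
              refine le_trans (le_of_eq ?_) hTQ
              ring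
            linarith
    calc _ ≤ Real.exp (-Real.log (16 * 3 ^ d)) := Real.exp_le_exp.2 h5
      _ = 1 / (16 * 3 ^ d) := by
          rw [Real.exp_neg, Real.exp_log (by positivity), one_div]

end Pool.Agent.K3h4.AN.Bd
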