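import Pool.Agent.K3h4.AN.Bd

/-! Localization from a form bound which holds with a probability close to one on one scale. -/

set_option autoImplicit false
set_option linter.unusedSectionVars false
set_option linter.unusedVariables false

open scoped BigOperators ENNReal
open MeasureTheory

namespace Pool.Agent.K3h4.AN.Be

open Pool.Agent.H4R2.LO
open Pool.Agent.K3h4.AN.Bf
open Pool.Agent.K3h4.AN.Bd

/-- exponential decay of the fractional moments from one scale -/
theorem decS (d : ℕ) (hd : 1 ≤ d) (B : ℝ) (hB : 0 < B) : ∃ C ρ0 : ℝ, 1 ≤ C ∧ 0 < ρ0 ∧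
    ∀ (μ : Measure ℝ) [IsProbabilityMeasure μ], Reg B μ → ∀ lam : ℝ, 0 < lam → lam ≤ 1 →
    ∀ (L0 : ℕ) [NeZero L0] (E1 ε0 : ℝ), 0 ≤ ε0 → ε0 ≤ ρ0 → TorusBound d L0 μ lam E1 ε0 →
    ∀ κ : ℝ, 0 < κ → κ ≤ 1 → C * Real.log (2 / (κ * lam)) / Real.sqrt κ ≤ L0 →
    ∀ (Λ : Finset (Zd d)) (E : ℝ), E ≤ E1 - 2 * d - κ → ∀ x y : Λ,
      ∫⁻ V, ‖Gr (AL Λ) lam V E x y‖ₑ ^ (1 / 4 : ℝ) ∂(Measure.pi fun _ : Λ => μ) ≤
        ENNReal.ofReal (C / lam *
          Real.exp (-(Real.sqrt κ * dd x.1 y.1 / (C * Real.log (2 / (κ * lam)))))) := by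
  obtain ⟨T, hT4, hT⟩ := exT (8 * Real.sqrt (8 * d) * (1 / 8 + Real.log (16 * 3 ^ d))) (4 * d)
    (4 * d + 1 + 2 * Real.log (1 + B))
  set Q : ℝ := 4 * d * Real.log (2 * T + 7) + (4 * d + 1 + 2 * Real.log (1 + B)) with hQ
  set C : ℝ := 8 * T + 32 + 8 * (1 + B) with hCdef
  refine ⟨C, (1 / (16 * 3 ^ d)) ^ 2, by rw [hCdef]; linarith, by positivity, ?_⟩
  intro μ _ hμ lam hlam hlam1 L0 _ E1 ε0 hε0 hε1 hTB κ hκ hκ1 hL0 Λ E hE x y
  obtain ⟨hQ1, hθ0, hθ2, hl2, hl3, hK, hI⟩ := arith d hd B hB T Q hT4 hQ hT lam κ hlam hlam1 hκ hκ1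
    _ _ rfl rfl _ rfl
  set l : ℕ := ⌈T * Real.log (2 / (κ * lam)) / Real.sqrt κ⌉₊ with hldef
  set n : ℕ := (4 * l + 3) ^ d with hndef
  set θ : ℝ := 1 / (2 * Q * Real.log (2 / (κ * lam))) with hθdef
  set X : ℝ := Real.log (2 / (κ * lam)) with hXdef
  have hY2 : 2 ≤ 2 / (κ * lam) := by
    rw [le_div_iff₀ (by positivity)]
    have : κ * lam ≤ 1 := mul_le_one₀ hκ1 hlam.le hlam1
    linarith
  have hX : 1 / 2 ≤ X := by
    have h3 : Real.log 2 ≤ X := Real.log_le_log (by norm_num) hY2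
    have h4 := Real.log_two_gt_d9
    linarith
  have hsκ : 0 < Real.sqrt κ := Real.sqrt_pos.2 hκ
  have hsκ1 : Real.sqrt κ ≤ 1 := Real.sqrt_le_one.2 hκ1
  have hlL0 : 8 * l + 2 ≤ L0 := by
    have h1 : (8 * T + 32) * X / Real.sqrt κ ≤ C * X / Real.sqrt κ := by
      gcongr
      rw [hCdef]; linarith
    have h2 : (8 * (l : ℝ) + 8) ≤ L0 := hl3.trans (h1.trans hL0)
    have h3 : 8 * l + 8 ≤ L0 := by exact_mod_cast h2
    omega
  have hDg : (1 : ℝ) ≤ 2 * d := by
    have : (1 : ℝ) ≤ d := by exact_mod_cast hd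
    linarith
  have hadj : ∀ i j : Λ, AL Λ i j ≠ 0 → dd i.1 j.1 ≤ 1 := fun i j h => Em.dd_adj i.1 j.1 h
  set K : ℝ≥0∞ := (((n * n : ℕ) : ℝ≥0∞) * ENNReal.ofReal (2 * Real.sqrt (Real.sqrt (B / lam)))) ^ θ
    with hKdef
  have hK2 : K ≤ 2 := by
    rw [hKdef, ← ENNReal.ofReal_natCast, ← ENNReal.ofReal_mul (by positivity),
      ENNReal.ofReal_rpow_of_nonneg (by positivity) hθ0.le]
    exact ENNReal.ofReal_le_ofNat.2 hK
  have hI2 : (((n * n : ℕ) : ℝ≥0∞) * ENNReal.ofReal (2 / κ *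
      Real.exp (-(Real.sqrt (κ / (4 * (2 * d))) * l)))) ^ (θ / 4) ≤
      ENNReal.ofReal (1 / (16 * 3 ^ d)) := by
    rw [← ENNReal.ofReal_natCast, ← ENNReal.ofReal_mul (by positivity),
      ENNReal.ofReal_rpow_of_nonneg (by positivity) (by positivity)]
    exact ENNReal.ofReal_le_ofReal hI
  have hcardΩ : ∀ (c : Zd d) (m : ℕ), m ≤ 2 * l + 1 →
      (Finset.univ.filter fun j : Λ => dd c j.1 ≤ m).card ≤ n := by
    intro c m hm
    refine (Bd.filt_card Λ c m).trans ?_
    rw [hndef]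
    exact Nat.pow_le_pow_left (by omega) d
  have hs0 : Real.sqrt ε0 ≤ 1 / (16 * 3 ^ d) := by
    rw [← Real.sqrt_sq (by positivity : (0 : ℝ) ≤ 1 / (16 * 3 ^ d))]
    exact Real.sqrt_le_sqrt hε1
  have hinit : ∀ (Ω : Finset Λ) (c : Zd d), (∀ z ∈ Ω, dd c z.1 ≤ 2 * l) →
      ∫⁻ V, N (AL Λ) Ω lam E (Ω.filter fun z => dd c z.1 ≤ l)
        (Ω.filter fun z => dd c z.1 = 2 * l) V ^ (θ / 4) ∂(Measure.pi fun _ : Λ => μ) ≤
      ENNReal.ofReal (3 / (16 * 3 ^ d)) := by
    intro Ω c hz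
    have hbad : (Measure.pi fun _ : Λ => μ) {V | ¬ FB (AL Λ) Ω lam V (E + κ)} ≤
        ENNReal.ofReal ε0 := by
      rcases Ω.eq_empty_or_nonempty with h | ⟨x0, hx0⟩
      · have h2 : {V : Λ → ℝ | ¬ FB (AL Λ) Ω lam V (E + κ)} = ∅ := by
          rw [Set.eq_empty_iff_forall_notMem]
          intro V hV
          apply hV
          intro f hf
          have h3 : ∀ i, f i = 0 := fun i => hf i (by rw [h]; exact Finset.notMem_empty i)
          simp [h3]
        rw [h2, measure_empty]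
        exact bot_le
      · refine le_trans (measure_mono ?_) (Em.em d L0 μ lam E1 ε0 hTB Λ Ω x0 (4 * l) (by omega)
          (fun z hz' => ?_))
        · intro V hV hV'
          exact hV (Dec.FB_mono _ _ _ _ _ _ (by linarith) hV')
        · have h3 := Em.dd_tri x0.1 c z.1
          rw [Em.dd_comm x0.1 c] at h3
          have h4 := hz x0 hx0
          have h5 := hz z hz'
          omega
    have h3 := Bf.init μ B hμ (AL Λ) (Em.AL_symm Λ) (2 * d) hDg (Em.AL_row Λ) lam hlam E κ ε0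
      hκ hκ1 hε0 (fun i j : Λ => dd i.1 j.1) (fun i => Em.dd_self i.1)
      (fun i j => Em.dd_comm i.1 j.1) (fun i j k => Em.dd_tri i.1 j.1 k.1) hadj Ω
      (Ω.filter fun z => dd c z.1 ≤ l) (Ω.filter fun z => dd c z.1 = 2 * l)
      (Finset.filter_subset _ _) (Finset.filter_subset _ _) l (by
        intro x hx u hu
        have h4 := (Finset.mem_filter.1 hx).2
        have h5 := (Finset.mem_filter.1 hu).2
        have h6 := Em.dd_tri c x.1 u.1
        omega) hbad θ hθ0 hθ2 n (le_trans (Finset.card_le_card fun z hz => Finset.mem_filter.2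
          ⟨Finset.mem_univ _, (Finset.mem_filter.1 hz).2⟩) (hcardΩ c l (by omega)))
        (le_trans (Finset.card_le_card fun z hz => Finset.mem_filter.2
          ⟨Finset.mem_univ _, (Finset.mem_filter.1 hz).2.le⟩) (hcardΩ c (2 * l) (by omega)))
    refine h3.trans ?_
    calc _ ≤ ENNReal.ofReal (1 / (16 * 3 ^ d)) + ENNReal.ofReal (1 / (16 * 3 ^ d)) * 2 := by
          refine add_le_add hI2 (mul_le_mul' (ENNReal.ofReal_le_ofReal hs0) ?_)
          exact hK2
      _ = ENNReal.ofReal (3 / (16 * 3 ^ d)) := by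
          rw [show (2 : ℝ≥0∞) = ENNReal.ofReal 2 by simp, ← ENNReal.ofReal_mul (by positivity),
            ← ENNReal.ofReal_add (by positivity) (by positivity)]
          congr 1
          ring
  have hit := Bf.iter μ B hμ (AL Λ) (Em.AL_symm Λ) (fun i => Em.adj_self i.1)
    (fun i j => Em.adj_abs i.1 j.1) lam hlam E (fun (c : Zd d) (z : Λ) => dd c z.1)
    (fun c i j h => by
      have h1 := hadj i j h
      have h2 := Em.dd_tri c i.1 j.1
      omega) l (2 * l) (by omega) (3 ^ d) (J l) (J_card l)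
    (fun c z h => J_cover l hl2 c z.1 h)
    (fun c c' hc' y => by
      have h1 := J_dist l c c' hc'
      have h2 := Em.dd_tri c c' y.1
      omega) n (fun c => hcardΩ c _ le_rfl) θ hθ0 (by linarith) _ hinit
      (dd x.1 y.1 / (2 * l + 2)) Finset.univ x.1 y (Finset.mem_univ _) (Nat.div_mul_le_self _ _)
  rw [← hKdef] at hit
  set D : ℕ := dd x.1 y.1 with hDdef
  set k : ℕ := D / (2 * l + 2) with hkdef
  -- the small moment
  have hsm : ∫⁻ V, ‖Gr (AL Λ) lam V E x y‖ₑ ^ (θ / 4) ∂(Measure.pi fun _ : Λ => μ) ≤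
      ENNReal.ofReal ((1 / 2) ^ k * 2) := by
    calc _ ≤ ∫⁻ V, N (AL Λ) Finset.univ lam E (Finset.univ.filter fun z => dd x.1 z.1 ≤ l) {y} V ^
          (θ / 4) ∂(Measure.pi fun _ : Λ => μ) := by
          refine lintegral_mono fun V => ENNReal.rpow_le_rpow ?_ (by positivity)
          unfold N
          rw [Dec.cut_univ]
          refine le_trans ?_ (Finset.single_le_sum (f := fun x => ∑ y ∈ {y}, ‖Gr (AL Λ) lam V E x y‖ₑ)
            (fun _ _ => zero_le) (a := x) ?_)
          · simp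
          · exact Finset.mem_filter.2 ⟨Finset.mem_univ _, by rw [Em.dd_self]; exact Nat.zero_le _⟩
      _ ≤ _ := hit
      _ ≤ (ENNReal.ofReal (1 / 2)) ^ k * 2 := by
          refine mul_le_mul' (pow_le_pow_left₀ zero_le ?_ _) hK2
          calc _ ≤ ((3 ^ d : ℕ) : ℝ≥0∞) * 2 * ENNReal.ofReal (3 / (16 * 3 ^ d)) :=
                mul_le_mul' (mul_le_mul' le_rfl hK2) le_rfl
            _ = ENNReal.ofReal (3 ^ d * 2 * (3 / (16 * 3 ^ d))) := by
                rw [show (2 : ℝ≥0∞) = ENNReal.ofReal 2 by simp, ← ENNReal.ofReal_natCast,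
                  ← ENNReal.ofReal_mul (by positivity), ← ENNReal.ofReal_mul (by positivity)]
                push_cast
                rfl
            _ ≤ _ := by
                refine ENNReal.ofReal_le_ofReal ?_
                rw [show (3 : ℝ) ^ d * 2 * (3 / (16 * 3 ^ d)) = 3 / 8 by field_simp; norm_num]
                norm_num
      _ = _ := by
          rw [ENNReal.ofReal_mul (by positivity), ENNReal.ofReal_pow (by norm_num)]
          simp
  have hint := interp (Measure.pi fun _ : Λ => μ) (fun V => ‖Gr (AL Λ) lam V E x y‖ₑ)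
    (Ap.meas_V (AL Λ) lam E x y).enorm (θ / 4) (by positivity) (by linarith)
  have hap := Ap.ap_pi μ B hμ (AL Λ) (Em.AL_symm Λ) lam hlam E x y
  refine hint.trans ?_
  have hBl : 1 + 4 * Real.sqrt (B / lam) ≤ (4 * (1 + B) / lam) ^ 2 := by
    have h1 : Real.sqrt (B / lam) ≤ (1 + B) / lam := by
      rw [Real.sqrt_le_left (by positivity)]
      have h2 : B / lam ≤ (1 + B) / lam := by gcongr; linarith
      have h3 : 1 ≤ (1 + B) / lam := by
        rw [le_div_iff₀ hlam]; linarith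
      nlinarith
    have h3 : 1 ≤ (1 + B) / lam := by
      rw [le_div_iff₀ hlam]; linarith
    have h4 : 4 * (1 + B) / lam = 4 * ((1 + B) / lam) := by ring
    rw [h4]
    nlinarith
  calc _ ≤ (ENNReal.ofReal ((1 / 2) ^ k * 2)) ^ (1 / 2 : ℝ) *
        (ENNReal.ofReal ((4 * (1 + B) / lam) ^ 2)) ^ (1 / 2 : ℝ) := by
        refine mul_le_mul' (ENNReal.rpow_le_rpow hsm (by norm_num))
          (ENNReal.rpow_le_rpow ?_ (by norm_num))
        calc _ ≤ 1 + ENNReal.ofReal (4 * Real.sqrt (B / lam)) := add_le_add le_rfl hap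
          _ = ENNReal.ofReal (1 + 4 * Real.sqrt (B / lam)) := by
              rw [ENNReal.ofReal_add (by norm_num) (by positivity), ENNReal.ofReal_one]
          _ ≤ _ := ENNReal.ofReal_le_ofReal hBl
    _ = ENNReal.ofReal (Real.sqrt ((1 / 2) ^ k * 2) * (4 * (1 + B) / lam)) := by
        rw [ENNReal.ofReal_rpow_of_nonneg (by positivity) (by norm_num),
          ENNReal.ofReal_rpow_of_nonneg (by positivity) (by norm_num), ← Real.sqrt_eq_rpow,
          ← Real.sqrt_eq_rpow, Real.sqrt_sq (by positivity), ← ENNReal.ofReal_mul (Real.sqrt_nonneg _)]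
    _ ≤ _ := by
        refine ENNReal.ofReal_le_ofReal ?_
        have hk : (D : ℝ) / (2 * l + 2) ≤ (k : ℝ) + 1 := by
          rw [div_le_iff₀ (by positivity)]
          have h3 : D < (2 * l + 2) * (D / (2 * l + 2) + 1) := Nat.lt_mul_div_succ D (by omega)
          have h4 : (D : ℝ) ≤ (2 * l + 2) * (((D / (2 * l + 2) : ℕ) : ℝ) + 1) := by
            exact_mod_cast h3.le
          rw [hkdef]
          linarith
        have hX0 : 0 < X := by linarith
        have hC0 : 0 < C := by rw [hCdef]; linarith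
        have hexp : 2 * (Real.sqrt κ * D / (C * X)) ≤ Real.log 2 * ((D : ℝ) / (2 * l + 2)) := by
          have h3 : 2 * (l : ℝ) + 2 ≤ (2 * T + 8) * X / Real.sqrt κ := by
            have h4 : (8 * T + 32) * X / Real.sqrt κ = 4 * ((2 * T + 8) * X / Real.sqrt κ) := by ring
            rw [h4] at hl3
            linarith
          have h4 : Real.sqrt κ / ((2 * T + 8) * X) ≤ 1 / (2 * (l : ℝ) + 2) := by
            rw [div_le_div_iff₀ (by positivity) (by positivity)]
            rw [le_div_iff₀ hsκ] at h3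
            linarith
          have h5 : 2 * (Real.sqrt κ * D / (C * X)) ≤
              (1 / 2) * (D * (Real.sqrt κ / ((2 * T + 8) * X))) := by
            have h6 : (1 / 2) * (D * (Real.sqrt κ / ((2 * T + 8) * X))) =
                2 * (Real.sqrt κ * D / ((8 * T + 32) * X)) := by
              field_simp
              ring
            rw [h6]
            have h7 : 8 * T + 32 ≤ C := by rw [hCdef]; linarith
            gcongr
          refine h5.trans ?_
          have h7 : (1 / 2 : ℝ) ≤ Real.log 2 := by linarith [Real.log_two_gt_d9]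
          calc (1 / 2 : ℝ) * (D * (Real.sqrt κ / ((2 * T + 8) * X))) ≤
              Real.log 2 * (D * (1 / (2 * (l : ℝ) + 2))) := by gcongr
            _ = _ := by ring
        have hpow : Real.sqrt ((1 / 2) ^ k * 2) ≤ 2 * Real.exp (-(Real.sqrt κ * D / (C * X))) := by
          rw [Real.sqrt_le_left (by positivity), mul_pow, ← Real.exp_nat_mul]
          have h3 : (1 / 2 : ℝ) ^ k = 2 * Real.exp (-(Real.log 2 * ((k : ℝ) + 1))) := by
            have h4 : Real.exp (-(Real.log 2 * ((k : ℝ) + 1))) = (1 / 2) ^ (k + 1) := by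
              rw [Real.exp_neg, show Real.log 2 * ((k : ℝ) + 1) =
                ((k + 1 : ℕ) : ℝ) * Real.log 2 by push_cast; ring, Real.exp_nat_mul,
                Real.exp_log (by norm_num), one_div, inv_pow]
            rw [h4, pow_succ]; ring
          rw [h3]
          have h4 : Real.log 2 * ((D : ℝ) / (2 * l + 2)) ≤ Real.log 2 * ((k : ℝ) + 1) := by
            have : 0 < Real.log 2 := Real.log_pos (by norm_num)
            gcongr
          have h5 : Real.exp (-(Real.log 2 * ((k : ℝ) + 1))) ≤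
              Real.exp ((2 : ℕ) * -(Real.sqrt κ * D / (C * X))) := by
            refine Real.exp_le_exp.2 ?_
            push_cast
            linarith
          nlinarith
        calc Real.sqrt ((1 / 2) ^ k * 2) * (4 * (1 + B) / lam)
            ≤ 2 * Real.exp (-(Real.sqrt κ * D / (C * X))) * (4 * (1 + B) / lam) := by gcongr
          _ = (8 * (1 + B)) / lam * Real.exp (-(Real.sqrt κ * D / (C * X))) := by ring
          _ ≤ C / lam * Real.exp (-(Real.sqrt κ * D / (C * X))) := by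
              gcongr
              rw [hCdef]; linarith

/-- main localization statement below the edge -/
theorem belowS (d : ℕ) (hd : 1 ≤ d) (B : ℝ) (hB : 0 < B) : ∃ C ρ0 : ℝ, 1 ≤ C ∧ 0 < ρ0 ∧
    ∀ (μ : Measure ℝ) [IsProbabilityMeasure μ], Reg B μ → ∀ lam : ℝ, 0 < lam → lam ≤ 1 →
    ∀ (L0 : ℕ) [NeZero L0] (E1 ε0 : ℝ), 0 ≤ ε0 → ε0 ≤ ρ0 → TorusBound d L0 μ lam E1 ε0 →
    ∀ κ : ℝ, 0 < κ → κ ≤ 1 → C * Real.log (2 / (κ * lam)) / Real.sqrt κ ≤ L0 →
    ∀ᵐ ω ∂(Measure.infinitePi fun _ : Zd d => μ),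
      Main.Dec d (-1) (fun x => lam * ω x) (Set.Iic (E1 - 2 * d - κ))
        (Real.sqrt κ / (C * Real.log (2 / (κ * lam)))) := by
  obtain ⟨C, ρ0, hC, hρ0, H⟩ := decS d hd B hB
  refine ⟨50 * C, ρ0, by linarith, hρ0, ?_⟩
  intro μ _ hμ lam hlam hlam1 L0 _ E1 ε0 hε0 hε1 hT κ hκ hκ1 h1
  have hb2 : 2 ≤ 2 / (κ * lam) := by
    rw [le_div_iff₀ (by positivity)]
    have : κ * lam ≤ 1 := mul_le_one₀ hκ1 hlam.le hlam1
    linarith
  have hX : 0 < Real.log (2 / (κ * lam)) := Real.log_pos (by linarith)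
  have hC0 : 0 < C := by linarith
  have hsκ : 0 < Real.sqrt κ := Real.sqrt_pos.2 hκ
  have h1' : C * Real.log (2 / (κ * lam)) / Real.sqrt κ ≤ L0 := by
    refine le_trans ?_ h1
    gcongr
    linarith
  have h3 := H μ hμ lam hlam hlam1 L0 E1 ε0 hε0 hε1 hT κ hκ hκ1 h1'
  set m0 : ℝ := Real.sqrt κ / (C * Real.log (2 / (κ * lam))) with hm0
  have hm0pos : 0 < m0 := by positivity
  have h4 := Gef.gef d hd μ B hμ lam hlam (E1 - 2 * d - κ) (C / lam) m0 hm0pos (by
    intro Λ E hE x y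
    refine (h3 Λ E hE x y).trans (le_of_eq ?_)
    rw [hm0]
    congr 4
    ring)
  filter_upwards [h4] with ω hω E hE ψ hψ hg
  obtain ⟨K, hK⟩ := hω E hE ψ hψ hg
  refine ⟨K, fun x => ?_⟩
  have h5 : Real.sqrt κ / (50 * C * Real.log (2 / (κ * lam))) = m0 / 50 := by
    rw [hm0]
    field_simp
  rw [h5]
  exact hK x

end Pool.Agent.K3h4.AN.Be
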