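import Pool.Agent.H4R2.LO.Main

/-! Block fractional moments with a small exponent. -/

set_option autoImplicit false
set_option linter.unusedSectionVars false
set_option linter.unusedVariables false

open scoped BigOperators ENNReal
open MeasureTheory

namespace Pool.Agent.K3h4.AN.Bf

open Pool.Agent.H4R2.LO

/-- Hölder, weighted -/
theorem holder_w {α : Type*} [MeasurableSpace α] (P : Measure α) (X F : α → ℝ≥0∞)
    (hX : Measurable X) (hF : Measurable F) (θ : ℝ) (h0 : 0 ≤ θ) (h1 : θ ≤ 1) (K : ℝ≥0∞)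
    (h : ∫⁻ a, F a * X a ∂P ≤ K * ∫⁻ a, F a ∂P) :
    ∫⁻ a, F a * X a ^ θ ∂P ≤ K ^ θ * ∫⁻ a, F a ∂P := by
  have hadd : ∀ z : ℝ≥0∞, z ^ θ * z ^ (1 - θ) = z := by
    intro z
    rw [← ENNReal.rpow_add_of_nonneg _ _ h0 (by linarith), add_sub_cancel, ENNReal.rpow_one]
  have e1 : ∫⁻ a, F a * X a ^ θ ∂P = ∫⁻ a, (F a * X a) ^ θ * (F a) ^ (1 - θ) ∂P := by
    apply lintegral_congr
    intro a
    rw [ENNReal.mul_rpow_of_nonneg _ _ h0]
    conv_lhs => rw [← hadd (F a)]
    ring
  rw [e1]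
  refine (ENNReal.lintegral_mul_norm_pow_le (hF.mul hX).aemeasurable hF.aemeasurable h0
    (by linarith) (by ring)).trans ?_
  calc (∫⁻ a, F a * X a ∂P) ^ θ * (∫⁻ a, F a ∂P) ^ (1 - θ)
      ≤ (K * ∫⁻ a, F a ∂P) ^ θ * (∫⁻ a, F a ∂P) ^ (1 - θ) := by
        gcongr
    _ = K ^ θ * ((∫⁻ a, F a ∂P) ^ θ * (∫⁻ a, F a ∂P) ^ (1 - θ)) := by
        rw [ENNReal.mul_rpow_of_nonneg _ _ h0, mul_assoc]
    _ = _ := by rw [hadd]

variable {ι : Type*} [Fintype ι] [DecidableEq ι]

/-- block sums of the resolvent -/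
noncomputable def N (A : Matrix ι ι ℝ) (Ω : Finset ι) (lam E : ℝ) (S T : Finset ι)
    (V : ι → ℝ) : ℝ≥0∞ := ∑ x ∈ S, ∑ y ∈ T, ‖Gr (cut A Ω) lam V E x y‖ₑ

theorem meas_N (A : Matrix ι ι ℝ) (Ω : Finset ι) (lam E : ℝ) (S T : Finset ι) :
    Measurable (N A Ω lam E S T) := by
  unfold N
  refine Finset.measurable_sum _ fun x _ => Finset.measurable_sum _ fun y _ => ?_
  exact (Ap.meas_V (cut A Ω) lam E x y).enorm

theorem sum_rpow_le {α : Type*} (s : Finset α) (f : α → ℝ≥0∞) (p : ℝ) (hp : 0 < p) (hp1 : p ≤ 1) :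
    (∑ a ∈ s, f a) ^ p ≤ ∑ a ∈ s, f a ^ p := by
  classical
  induction s using Finset.induction_on with
  | empty => simp [hp]
  | insert a s ha ih =>
    rw [Finset.sum_insert ha, Finset.sum_insert ha]
    exact (ENNReal.rpow_add_le_add_rpow _ _ hp.le hp1).trans (add_le_add le_rfl ih)

/-- a priori bound for block sums, weighted -/
theorem apN (μ : Measure ℝ) [IsProbabilityMeasure μ] (B : ℝ) (hμ : Reg B μ)
    (A : Matrix ι ι ℝ) (hA : A.IsSymm) (lam : ℝ) (hlam : 0 < lam) (E : ℝ) (Ω S T : Finset ι)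
    (F : (ι → ℝ) → ℝ≥0∞) (hF : Measurable F)
    (hFi : ∀ V, ∀ u ∈ S, ∀ v ∈ T, ∀ a b,
      F (Function.update (Function.update V u a) v b) = F V)
    (θ : ℝ) (h0 : 0 ≤ θ) (h1 : θ ≤ 1) :
    ∫⁻ V, F V * N A Ω lam E S T V ^ (θ / 4) ∂(Measure.pi fun _ : ι => μ) ≤
      ((S.card * T.card : ℕ) * ENNReal.ofReal (2 * Real.sqrt (Real.sqrt (B / lam)))) ^ θ *
        ∫⁻ V, F V ∂(Measure.pi fun _ : ι => μ) := by
  have e : ∀ V, N A Ω lam E S T V ^ (θ / 4) ≤
      (∑ x ∈ S, ∑ y ∈ T, ‖Gr (cut A Ω) lam V E x y‖ₑ ^ (1 / 4 : ℝ)) ^ θ := by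
    intro V
    rw [show θ / 4 = (1 / 4) * θ by ring, ENNReal.rpow_mul]
    refine ENNReal.rpow_le_rpow ?_ h0
    unfold N
    refine (sum_rpow_le _ _ _ (by norm_num) (by norm_num)).trans (Finset.sum_le_sum fun x _ => ?_)
    exact sum_rpow_le _ _ _ (by norm_num) (by norm_num)
  refine (lintegral_mono fun V => mul_le_mul_right (e V) (F V)).trans ?_
  refine holder_w _ _ F ?_ hF θ h0 h1 _ ?_
  · refine Finset.measurable_sum _ fun x _ => Finset.measurable_sum _ fun y _ => ?_
    exact (Ap.meas_V (cut A Ω) lam E x y).enorm.pow_const _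
  · have hm : ∀ x y, Measurable fun V : ι → ℝ => F V * ‖Gr (cut A Ω) lam V E x y‖ₑ ^ (1 / 4 : ℝ) :=
      fun x y => hF.mul ((Ap.meas_V (cut A Ω) lam E x y).enorm.pow_const _)
    have e2 : ∫⁻ V, F V * (∑ x ∈ S, ∑ y ∈ T, ‖Gr (cut A Ω) lam V E x y‖ₑ ^ (1 / 4 : ℝ))
        ∂(Measure.pi fun _ : ι => μ) = ∑ x ∈ S, ∑ y ∈ T, ∫⁻ V, F V *
          ‖Gr (cut A Ω) lam V E x y‖ₑ ^ (1 / 4 : ℝ) ∂(Measure.pi fun _ : ι => μ) := by
      rw [← lintegral_congr (fun V => show (∑ x ∈ S, ∑ y ∈ T, F V *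
        ‖Gr (cut A Ω) lam V E x y‖ₑ ^ (1 / 4 : ℝ)) = _ by
          rw [Finset.mul_sum]
          exact Finset.sum_congr rfl fun x _ => (Finset.mul_sum _ _ _).symm)]
      rw [lintegral_finsetSum _ fun x _ => Finset.measurable_sum _ fun y _ => hm x y]
      exact Finset.sum_congr rfl fun x _ => lintegral_finsetSum _ fun y _ => hm x y
    rw [e2]
    have hsymm : (cut A Ω).IsSymm := Fm.cut_symm hA Ω
    calc _ ≤ ∑ x ∈ S, ∑ y ∈ T, ENNReal.ofReal (2 * Real.sqrt (Real.sqrt (B / lam))) *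
          ∫⁻ V, F V ∂(Measure.pi fun _ : ι => μ) := by
          refine Finset.sum_le_sum fun x hx => Finset.sum_le_sum fun y hy => ?_
          exact Ap.ap4_weight μ B hμ (cut A Ω) hsymm lam hlam E x y F hF
            (fun V a b => hFi V x hx y hy a b)
      _ = _ := by
          rw [Finset.sum_const, Finset.sum_const, smul_smul, nsmul_eq_mul]
          push_cast
          ring

/-! ### resolvent expansions with a Lipschitz function -/

/-- first resolvent expansion -/
theorem exp1 {A : Matrix ι ι ℝ} {lam : ℝ} {V : ι → ℝ} {E : ℝ} {r : ι → ℕ}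
    (hr : ∀ i j, A i j ≠ 0 → r j ≤ r i + 1) (L : ℕ)
    (Ω : Finset ι) (x y : ι) (hx : x ∈ Ω) (hxx : r x ≤ L) (hy : y ∈ Ω) (hxy : L < r y)
    (hdet : IsUnit (Hm (cut A Ω) lam V E).det)
    (hdet1 : IsUnit (Hm (cut A (Ω.filter fun z => r z ≤ L)) lam V E).det) :
    Gr (cut A Ω) lam V E x y = -∑ u ∈ Ω.filter (fun z => r z = L),
      ∑ u' ∈ Ω.filter (fun z => r z = L + 1),
        Gr (cut A (Ω.filter fun z => r z ≤ L)) lam V E x u * A u u' *
          Gr (cut A Ω) lam V E u' y := by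
  set O1 := Ω.filter fun z => r z ≤ L with hO1
  have hx1 : x ∈ O1 := by
    rw [hO1, Finset.mem_filter]
    exact ⟨hx, hxx⟩
  have hy1 : y ∉ O1 := by
    rw [hO1, Finset.mem_filter]
    exact fun h => absurd h.2 (not_le.2 hxy)
  have e1 : Gr (cut A Ω) lam V E = Gr (cut A O1) lam V E - Gr (cut A O1) lam V E *
      (Hm (cut A Ω) lam V E - Hm (cut A O1) lam V E) * Gr (cut A Ω) lam V E := by
    rw [Matrix.mul_sub, Matrix.sub_mul]
    have h1 : Gr (cut A O1) lam V E * Hm (cut A O1) lam V E = 1 := by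
      unfold Gr
      exact Matrix.nonsing_inv_mul _ hdet1
    have h2 : Hm (cut A Ω) lam V E * Gr (cut A Ω) lam V E = 1 := by
      unfold Gr
      exact Matrix.mul_nonsing_inv _ hdet
    rw [h1, Matrix.mul_assoc, h2, Matrix.mul_one, Matrix.one_mul]
    abel
  have e2 : Gr (cut A Ω) lam V E x y = Gr (cut A O1) lam V E x y - ∑ u, ∑ u',
      Gr (cut A O1) lam V E x u * (cut A Ω u u' - cut A O1 u u') *
        Gr (cut A Ω) lam V E u' y := by
    have := congrFun (congrFun e1 x) y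
    rw [Matrix.sub_apply, Matrix.mul_apply] at this
    rw [this]
    congr 1
    rw [Finset.sum_comm]
    apply Finset.sum_congr rfl
    intro u' _
    rw [Matrix.mul_apply, Finset.sum_mul]
    apply Finset.sum_congr rfl
    intro u _
    rw [Fm.diff_apply]
  rw [e2, Fm.Gr_off hdet1 hx1 hy1, zero_sub]
  congr 1
  apply Fm.sum2
  · intro u hu u' hu'
    rw [Finset.mem_filter] at hu hu'
    have a1 : cut A Ω u u' = A u u' := by
      unfold cut
      exact if_pos ⟨hu.1, hu'.1⟩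
    have a2 : cut A O1 u u' = 0 := by
      unfold cut
      apply if_neg
      rintro ⟨_, h⟩
      rw [hO1, Finset.mem_filter, hu'.2] at h
      omega
    rw [a1, a2, sub_zero]
  · intro u u' hn
    by_cases hu : u ∈ O1
    · by_cases hu' : u' ∈ O1
      · have a1 : cut A Ω u u' = A u u' := by
          unfold cut
          exact if_pos ⟨(Finset.mem_filter.1 hu).1, (Finset.mem_filter.1 hu').1⟩
        have a2 : cut A O1 u u' = A u u' := by
          unfold cut
          exact if_pos ⟨hu, hu'⟩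
        rw [a1, a2, sub_self, mul_zero, zero_mul]
      · have a2 : cut A O1 u u' = 0 := by
          unfold cut
          exact if_neg fun h => hu' h.2
        by_cases hΩ : u' ∈ Ω
        · have a0 : A u u' = 0 := by
            by_contra hne
            have b1 := hr u u' hne
            rw [hO1, Finset.mem_filter] at hu hu'
            have b3 : L < r u' := by
              by_contra hcon
              exact hu' ⟨hΩ, by omega⟩
            apply hn
            rw [Finset.mem_filter, Finset.mem_filter]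
            exact ⟨⟨hu.1, by omega⟩, hΩ, by omega⟩
          have a1 : cut A Ω u u' = 0 := by
            unfold cut
            rw [a0, ite_self]
          rw [a1, a2, sub_self, mul_zero, zero_mul]
        · have a1 : cut A Ω u u' = 0 := by
            unfold cut
            exact if_neg fun h => hΩ h.2
          rw [a1, a2, sub_self, mul_zero, zero_mul]
    · rw [Fm.Gr_off hdet1 hx1 hu, zero_mul, zero_mul]

/-- second resolvent expansion -/
theorem exp2 {A : Matrix ι ι ℝ} {lam : ℝ} {V : ι → ℝ} {E : ℝ} {r : ι → ℕ}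
    (hr : ∀ i j, A i j ≠ 0 → r j ≤ r i + 1) (L : ℕ)
    (Ω : Finset ι) (y u' : ι) (hy : y ∈ Ω) (hxy : L + 2 ≤ r y)
    (hu'2 : r u' = L + 1)
    (hdet : IsUnit (Hm (cut A Ω) lam V E).det)
    (hdet2 : IsUnit (Hm (cut A (Ω.filter fun z => L + 2 ≤ r z)) lam V E).det) :
    Gr (cut A Ω) lam V E u' y = -∑ v ∈ Ω.filter (fun z => r z = L + 1),
      ∑ v' ∈ Ω.filter (fun z => r z = L + 2),
        Gr (cut A Ω) lam V E u' v * A v v' *
          Gr (cut A (Ω.filter fun z => L + 2 ≤ r z)) lam V E v' y := by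
  set O2 := Ω.filter fun z => L + 2 ≤ r z with hO2
  have hy2 : y ∈ O2 := by
    rw [hO2, Finset.mem_filter]
    exact ⟨hy, hxy⟩
  have hu2 : u' ∉ O2 := by
    rw [hO2, Finset.mem_filter, hu'2]
    exact fun h => absurd h.2 (by omega)
  have e1 : Gr (cut A Ω) lam V E = Gr (cut A O2) lam V E - Gr (cut A Ω) lam V E *
      (Hm (cut A Ω) lam V E - Hm (cut A O2) lam V E) * Gr (cut A O2) lam V E := by
    rw [Matrix.mul_sub, Matrix.sub_mul]
    have h1 : Hm (cut A O2) lam V E * Gr (cut A O2) lam V E = 1 := by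
      unfold Gr
      exact Matrix.mul_nonsing_inv _ hdet2
    have h2 : Gr (cut A Ω) lam V E * Hm (cut A Ω) lam V E = 1 := by
      unfold Gr
      exact Matrix.nonsing_inv_mul _ hdet
    rw [h2, Matrix.one_mul, Matrix.mul_assoc, h1, Matrix.mul_one]
    abel
  have e2 : Gr (cut A Ω) lam V E u' y = Gr (cut A O2) lam V E u' y - ∑ v, ∑ v',
      Gr (cut A Ω) lam V E u' v * (cut A Ω v v' - cut A O2 v v') *
        Gr (cut A O2) lam V E v' y := by
    have := congrFun (congrFun e1 u') y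
    rw [Matrix.sub_apply, Matrix.mul_apply] at this
    rw [this]
    congr 1
    rw [Finset.sum_comm]
    apply Finset.sum_congr rfl
    intro v' _
    rw [Matrix.mul_apply, Finset.sum_mul]
    apply Finset.sum_congr rfl
    intro v _
    rw [Fm.diff_apply]
  rw [e2, Fm.Gr_off' hdet2 hu2 hy2, zero_sub]
  congr 1
  apply Fm.sum2
  · intro v hv v' hv'
    rw [Finset.mem_filter] at hv hv'
    have a1 : cut A Ω v v' = A v v' := by
      unfold cut
      exact if_pos ⟨hv.1, hv'.1⟩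
    have a2 : cut A O2 v v' = 0 := by
      unfold cut
      apply if_neg
      rintro ⟨h, _⟩
      rw [hO2, Finset.mem_filter, hv.2] at h
      omega
    rw [a1, a2, sub_zero]
  · intro v v' hn
    by_cases hv' : v' ∈ O2
    · by_cases hv : v ∈ O2
      · have a1 : cut A Ω v v' = A v v' := by
          unfold cut
          exact if_pos ⟨(Finset.mem_filter.1 hv).1, (Finset.mem_filter.1 hv').1⟩
        have a2 : cut A O2 v v' = A v v' := by
          unfold cut
          exact if_pos ⟨hv, hv'⟩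
        rw [a1, a2, sub_self, mul_zero, zero_mul]
      · have a2 : cut A O2 v v' = 0 := by
          unfold cut
          exact if_neg fun h => hv h.1
        by_cases hΩ : v ∈ Ω
        · have a0 : A v v' = 0 := by
            by_contra hne
            have b1 := hr v v' hne
            rw [hO2, Finset.mem_filter] at hv hv'
            have b3 : r v < L + 2 := by
              by_contra hcon
              exact hv ⟨hΩ, by omega⟩
            apply hn
            rw [Finset.mem_filter, Finset.mem_filter]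
            exact ⟨⟨hΩ, by omega⟩, hv'.1, by omega⟩
          have a1 : cut A Ω v v' = 0 := by
            unfold cut
            rw [a0, ite_self]
          rw [a1, a2, sub_self, mul_zero, zero_mul]
        · have a1 : cut A Ω v v' = 0 := by
            unfold cut
            exact if_neg fun h => hΩ h.1
          rw [a1, a2, sub_self, mul_zero, zero_mul]
    · rw [Fm.Gr_off' hdet2 hv' hy2, mul_zero]

/-- deterministic block inequality -/
theorem det_block {A : Matrix ι ι ℝ} (h1 : ∀ i j, |A i j| ≤ 1) {lam : ℝ} {V : ι → ℝ} {E : ℝ}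
    {r : ι → ℕ} (hr : ∀ i j, A i j ≠ 0 → r j ≤ r i + 1) (L : ℕ)
    (Ω S : Finset ι) (hS : S ⊆ Ω) (hSr : ∀ x ∈ S, r x ≤ L) (y : ι) (hy : y ∈ Ω)
    (hxy : L + 2 ≤ r y)
    (hdet : IsUnit (Hm (cut A Ω) lam V E).det)
    (hdet1 : IsUnit (Hm (cut A (Ω.filter fun z => r z ≤ L)) lam V E).det)
    (hdet2 : IsUnit (Hm (cut A (Ω.filter fun z => L + 2 ≤ r z)) lam V E).det) :
    N A Ω lam E S {y} V ≤
      (N A (Ω.filter fun z => r z ≤ L) lam E S (Ω.filter fun z => r z = L) V *
        N A (Ω.filter fun z => L + 2 ≤ r z) lam E (Ω.filter fun z => r z = L + 2) {y} V) *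
        N A Ω lam E (Ω.filter fun z => r z = L + 1) (Ω.filter fun z => r z = L + 1) V := by
  set O1 := Ω.filter fun z => r z ≤ L
  set O2 := Ω.filter fun z => L + 2 ≤ r z
  have hA : ∀ i j, ‖A i j‖ₑ ≤ 1 := by
    intro i j
    rw [← ofReal_norm, Real.norm_eq_abs]
    exact ENNReal.ofReal_le_one.2 (h1 i j)
  have key : ∀ x ∈ S, ‖Gr (cut A Ω) lam V E x y‖ₑ ≤
      ∑ u ∈ Ω.filter (fun z => r z = L), ∑ u' ∈ Ω.filter (fun z => r z = L + 1),
        ∑ v ∈ Ω.filter (fun z => r z = L + 1), ∑ v' ∈ Ω.filter (fun z => r z = L + 2),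
        ‖Gr (cut A O1) lam V E x u‖ₑ * (‖Gr (cut A Ω) lam V E u' v‖ₑ *
          ‖Gr (cut A O2) lam V E v' y‖ₑ) := by
    intro x hx
    rw [exp1 hr L Ω x y (hS hx) (hSr x hx) hy (by omega) hdet hdet1, enorm_neg]
    refine (enorm_sum_le _ _).trans (Finset.sum_le_sum fun u _ => ?_)
    refine (enorm_sum_le _ _).trans (Finset.sum_le_sum fun u' hu' => ?_)
    rw [exp2 hr L Ω y u' hy hxy (Finset.mem_filter.1 hu').2 hdet hdet2, enorm_mul, enorm_mul,
      enorm_neg]
    calc _ ≤ ‖Gr (cut A O1) lam V E x u‖ₑ * 1 * ∑ v ∈ Ω.filter (fun z => r z = L + 1),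
          ∑ v' ∈ Ω.filter (fun z => r z = L + 2), (‖Gr (cut A Ω) lam V E u' v‖ₑ *
          ‖Gr (cut A O2) lam V E v' y‖ₑ) := by
          refine mul_le_mul' (mul_le_mul' le_rfl (hA _ _)) ?_
          refine (enorm_sum_le _ _).trans (Finset.sum_le_sum fun v _ => ?_)
          refine (enorm_sum_le _ _).trans (Finset.sum_le_sum fun v' hv' => ?_)
          rw [enorm_mul, enorm_mul]
          calc _ ≤ ‖Gr (cut A Ω) lam V E u' v‖ₑ * 1 * ‖Gr (cut A O2) lam V E v' y‖ₑ :=
                mul_le_mul' (mul_le_mul' le_rfl (hA _ _)) le_rfl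
            _ = _ := by rw [mul_one]
      _ = _ := by
          rw [mul_one, Finset.mul_sum]
          exact Finset.sum_congr rfl fun v _ => Finset.mul_sum _ _ _
  have e : ∀ x, ∑ u ∈ Ω.filter (fun z => r z = L), ∑ u' ∈ Ω.filter (fun z => r z = L + 1),
        ∑ v ∈ Ω.filter (fun z => r z = L + 1), ∑ v' ∈ Ω.filter (fun z => r z = L + 2),
        ‖Gr (cut A O1) lam V E x u‖ₑ * (‖Gr (cut A Ω) lam V E u' v‖ₑ *
          ‖Gr (cut A O2) lam V E v' y‖ₑ) =
      (∑ u ∈ Ω.filter (fun z => r z = L), ‖Gr (cut A O1) lam V E x u‖ₑ) *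
        ((∑ u' ∈ Ω.filter (fun z => r z = L + 1), ∑ v ∈ Ω.filter (fun z => r z = L + 1),
          ‖Gr (cut A Ω) lam V E u' v‖ₑ) * ∑ v' ∈ Ω.filter (fun z => r z = L + 2),
          ‖Gr (cut A O2) lam V E v' y‖ₑ) := by
    intro x
    rw [Finset.sum_mul]
    refine Finset.sum_congr rfl fun u _ => ?_
    rw [Finset.sum_mul, Finset.mul_sum]
    refine Finset.sum_congr rfl fun u' _ => ?_
    rw [Finset.sum_mul, Finset.mul_sum]
    refine Finset.sum_congr rfl fun v _ => ?_
    rw [Finset.mul_sum, Finset.mul_sum]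
  unfold N
  simp only [Finset.sum_singleton]
  calc ∑ x ∈ S, ‖Gr (cut A Ω) lam V E x y‖ₑ ≤ ∑ x ∈ S, _ :=
        Finset.sum_le_sum fun x hx => (key x hx).trans (e x).le
    _ = _ := by
        rw [← Finset.sum_mul]
        ring

end Pool.Agent.K3h4.AN.Bf
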