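import Pool.Agent.K3h4.AN.Bf

/-! Block fractional moments: the iteration. -/

set_option autoImplicit false
set_option linter.unusedSectionVars false
set_option linter.unusedVariables false

open scoped BigOperators ENNReal
open MeasureTheory

namespace Pool.Agent.K3h4.AN.Bf

open Pool.Agent.H4R2.LO

variable {ι : Type*} [Fintype ι] [DecidableEq ι]

theorem sum_bi {α β : Type*} [DecidableEq β] (s : Finset α) (t : α → Finset β) (f : β → ℝ≥0∞) :
    ∑ x ∈ s.biUnion t, f x ≤ ∑ a ∈ s, ∑ x ∈ t a, f x := by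
  classical
  induction s using Finset.induction_on with
  | empty => simp
  | insert a s ha ih =>
    rw [Finset.biUnion_insert, Finset.sum_insert ha]
    refine le_trans ?_ (add_le_add le_rfl ih)
    rw [← Finset.sum_union_inter]
    exact le_self_add

theorem N_local {A : Matrix ι ι ℝ} {O : Finset ι} {lam : ℝ} {V V' : ι → ℝ} {E : ℝ}
    (hV : ∀ i ∈ O, V' i = V i) (hV' : ∀ i, i ∉ O → lam * V' i - E = 1)
    (hdet : IsUnit (Hm (cut A O) lam V E).det) {S : Finset ι} (hS : S ⊆ O) (T : Finset ι) :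
    N A O lam E S T V = N A O lam E S T V' := by
  unfold N
  refine Finset.sum_congr rfl fun x hx => Finset.sum_congr rfl fun u _ => ?_
  rw [Fm.local_dep hV hV' hdet (hS hx) u]

/-- one step -/
theorem step (μ : Measure ℝ) [IsProbabilityMeasure μ] (B : ℝ) (hμ : Reg B μ) (A : Matrix ι ι ℝ)
    (hA : A.IsSymm) (hd : ∀ i, A i i = 0) (h1 : ∀ i j, |A i j| ≤ 1) (lam : ℝ) (hlam : 0 < lam)
    (E : ℝ) {r : ι → ℕ} (hr : ∀ i j, A i j ≠ 0 → r j ≤ r i + 1) (L : ℕ)
    (Ω S : Finset ι) (hS : S ⊆ Ω) (hSr : ∀ x ∈ S, r x ≤ L) (y : ι) (hy : y ∈ Ω)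
    (hxy : L + 2 ≤ r y) (θ : ℝ) (h0 : 0 ≤ θ) (hθ1 : θ ≤ 1) (n : ℕ)
    (hn : (Finset.univ.filter fun z => r z = L + 1).card ≤ n) (b1 b2 : ℝ≥0∞)
    (hb1 : ∫⁻ V, N A (Ω.filter fun z => r z ≤ L) lam E S (Ω.filter fun z => r z = L) V ^ (θ / 4)
      ∂(Measure.pi fun _ : ι => μ) ≤ b1)
    (hb2 : ∫⁻ V, N A (Ω.filter fun z => L + 2 ≤ r z) lam E (Ω.filter fun z => r z = L + 2) {y} V ^
      (θ / 4) ∂(Measure.pi fun _ : ι => μ) ≤ b2) :
    ∫⁻ V, N A Ω lam E S {y} V ^ (θ / 4) ∂(Measure.pi fun _ : ι => μ) ≤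
      ((n * n : ℕ) * ENNReal.ofReal (2 * Real.sqrt (Real.sqrt (B / lam)))) ^ θ * (b1 * b2) := by
  classical
  set O1 := Ω.filter fun z => r z ≤ L with hO1
  set O2 := Ω.filter fun z => L + 2 ≤ r z with hO2
  set S0 := Ω.filter fun z => r z = L with hS0
  set S1 := Ω.filter fun z => r z = L + 1 with hS1
  set S2 := Ω.filter fun z => r z = L + 2 with hS2
  have hSO : S ⊆ O1 := fun x hx => Finset.mem_filter.2 ⟨hS hx, hSr x hx⟩
  have hS2O : S2 ⊆ O2 := fun x hx => Finset.mem_filter.2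
    ⟨(Finset.mem_filter.1 hx).1, (Finset.mem_filter.1 hx).2.ge⟩
  have hO : Disjoint O1 O2 := by
    rw [Finset.disjoint_left]
    intro z hz hz'
    rw [hO1, Finset.mem_filter] at hz
    rw [hO2, Finset.mem_filter] at hz'
    omega
  set c : ℝ := (E + 1) / lam with hc
  have hcE : lam * c - E = 1 := by
    rw [hc]; field_simp; ring
  set f1 : (O1 → ℝ) → ℝ≥0∞ := fun W => N A O1 lam E S S0 (Fm.ext O1 c W) ^ (θ / 4) with hf1
  set f2 : (O2 → ℝ) → ℝ≥0∞ := fun W => N A O2 lam E S2 {y} (Fm.ext O2 c W) ^ (θ / 4) with hf2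
  have mf1 : Measurable f1 := ((meas_N A O1 lam E S S0).pow_const _).comp (Fm.meas_ext O1 c)
  have mf2 : Measurable f2 := ((meas_N A O2 lam E S2 {y}).pow_const _).comp (Fm.meas_ext O2 c)
  have mr : ∀ S : Finset ι, Measurable fun V : ι → ℝ => fun i : S => V i := by
    intro S
    rw [measurable_pi_iff]
    intro i
    exact measurable_pi_apply _
  have hae : ∀ S : Finset ι, ∀ᵐ V ∂(Measure.pi fun _ : ι => μ),
      IsUnit (Hm (cut A S) lam V E).det := fun S =>
    Wg.inv_ae μ B hμ.1 hμ.2.1 (cut A S) (Fm.cut_symm hA S) (Fm.cut_diag hd S) lam hlam E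
  have e1 : ∀ᵐ V ∂(Measure.pi fun _ : ι => μ),
      N A O1 lam E S S0 V ^ (θ / 4) = f1 (fun i => V i) := by
    filter_upwards [hae O1] with V hV
    rw [hf1]
    simp only
    rw [N_local (V := V) (V' := Fm.ext O1 c fun i => V i) _ _ hV hSO S0]
    · intro i hi
      simp only [Fm.ext, hi, dif_pos]
    · intro i hi
      simp only [Fm.ext, hi, dif_neg, not_false_eq_true]
      exact hcE
  have e2 : ∀ᵐ V ∂(Measure.pi fun _ : ι => μ),
      N A O2 lam E S2 {y} V ^ (θ / 4) = f2 (fun i => V i) := by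
    filter_upwards [hae O2] with V hV
    rw [hf2]
    simp only
    rw [N_local (V := V) (V' := Fm.ext O2 c fun i => V i) _ _ hV hS2O {y}]
    · intro i hi
      simp only [Fm.ext, hi, dif_pos]
    · intro i hi
      simp only [Fm.ext, hi, dif_neg, not_false_eq_true]
      exact hcE
  set F : (ι → ℝ) → ℝ≥0∞ := fun V => f1 (fun i => V i) * f2 (fun i => V i) with hF
  have mF : Measurable F := (mf1.comp (mr O1)).mul (mf2.comp (mr O2))
  have step1 : ∫⁻ V, N A Ω lam E S {y} V ^ (θ / 4) ∂(Measure.pi fun _ : ι => μ) ≤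
      ∫⁻ V, F V * N A Ω lam E S1 S1 V ^ (θ / 4) ∂(Measure.pi fun _ : ι => μ) := by
    apply lintegral_mono_ae
    filter_upwards [e1, e2, hae Ω, hae O1, hae O2] with V a1 a2 d0 d1 d2
    have h := det_block h1 hr L Ω S hS hSr y hy hxy d0 d1 d2
    calc N A Ω lam E S {y} V ^ (θ / 4) ≤ _ := ENNReal.rpow_le_rpow h (by positivity)
      _ = _ := by
        rw [ENNReal.mul_rpow_of_nonneg _ _ (by positivity : 0 ≤ θ / 4),
          ENNReal.mul_rpow_of_nonneg _ _ (by positivity : 0 ≤ θ / 4), a1, a2]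
  have hFi : ∀ V, ∀ u ∈ S1, ∀ v ∈ S1, ∀ a b,
      F (Function.update (Function.update V u a) v b) = F V := by
    intro V u' hu' v hv a b
    have hu1 : u' ∉ O1 := by
      rw [hS1, Finset.mem_filter] at hu'
      rw [hO1, Finset.mem_filter]; intro h; omega
    have hu2 : u' ∉ O2 := by
      rw [hS1, Finset.mem_filter] at hu'
      rw [hO2, Finset.mem_filter]; intro h; omega
    have hv1 : v ∉ O1 := by
      rw [hS1, Finset.mem_filter] at hv
      rw [hO1, Finset.mem_filter]; intro h; omega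
    have hv2 : v ∉ O2 := by
      rw [hS1, Finset.mem_filter] at hv
      rw [hO2, Finset.mem_filter]; intro h; omega
    rw [hF]
    simp only
    congr 1
    · congr 1
      funext i
      have n1 : (i : ι) ≠ v := by
        intro h; exact hv1 (h ▸ i.2)
      have n2 : (i : ι) ≠ u' := by
        intro h; exact hu1 (h ▸ i.2)
      rw [Function.update_of_ne n1, Function.update_of_ne n2]
    · congr 1
      funext i
      have n1 : (i : ι) ≠ v := by
        intro h; exact hv2 (h ▸ i.2)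
      have n2 : (i : ι) ≠ u' := by
        intro h; exact hu2 (h ▸ i.2)
      rw [Function.update_of_ne n1, Function.update_of_ne n2]
  have step2 := apN μ B hμ A hA lam hlam E Ω S1 S1 F mF hFi θ h0 hθ1
  have hind : ProbabilityTheory.IndepFun (fun (V : ι → ℝ) (i : O1) => V i)
      (fun (V : ι → ℝ) (i : O2) => V i) (Measure.pi fun _ : ι => μ) := by
    have h0 : ProbabilityTheory.iIndepFun (fun (i : ι) (V : ι → ℝ) => V i)
        (Measure.pi fun _ : ι => μ) :=
      ProbabilityTheory.iIndepFun_pi (μ := fun _ : ι => μ) (X := fun _ (t : ℝ) => t)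
        (fun _ => aemeasurable_id)
    exact h0.indepFun_finset O1 O2 hO (fun i => measurable_pi_apply i)
  have step3 : ∫⁻ V, F V ∂(Measure.pi fun _ : ι => μ) =
      (∫⁻ V, f1 (fun i => V i) ∂(Measure.pi fun _ : ι => μ)) *
        ∫⁻ V, f2 (fun i => V i) ∂(Measure.pi fun _ : ι => μ) := by
    have := ProbabilityTheory.lintegral_mul_eq_lintegral_mul_lintegral_of_indepFun''
      (μ := Measure.pi fun _ : ι => μ) (mf1.comp (mr O1)).aemeasurable
      (mf2.comp (mr O2)).aemeasurable (hind.comp mf1 mf2)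
    exact this
  have hcard : S1.card ≤ n := le_trans (Finset.card_le_card fun z hz => Finset.mem_filter.2
    ⟨Finset.mem_univ _, (Finset.mem_filter.1 hz).2⟩) hn
  refine step1.trans (step2.trans ?_)
  refine mul_le_mul' ?_ ?_
  · refine ENNReal.rpow_le_rpow ?_ h0
    refine mul_le_mul' ?_ le_rfl
    exact_mod_cast Nat.mul_le_mul hcard hcard
  · rw [step3]
    apply mul_le_mul' _ _
    · rw [← lintegral_congr_ae e1]; exact hb1
    · rw [← lintegral_congr_ae e2]; exact hb2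

/-- block fractional moment iteration -/
theorem iter (μ : Measure ℝ) [IsProbabilityMeasure μ] (B : ℝ) (hμ : Reg B μ) (A : Matrix ι ι ℝ)
    (hA : A.IsSymm) (hd : ∀ i, A i i = 0) (h1 : ∀ i j, |A i j| ≤ 1) (lam : ℝ) (hlam : 0 < lam)
    (E : ℝ) {γ : Type*} (r : γ → ι → ℕ) (hr : ∀ c i j, A i j ≠ 0 → r c j ≤ r c i + 1) (l R : ℕ)
    (hlR : l ≤ R) (M : ℕ) (J : γ → Finset γ) (hJM : ∀ c, (J c).card ≤ M)
    (hJ1 : ∀ c z, r c z = R + 2 → ∃ c' ∈ J c, r c' z ≤ l)
    (hJ2 : ∀ c, ∀ c' ∈ J c, ∀ y, r c y ≤ r c' y + (R + 2))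
    (n : ℕ) (hn : ∀ c, (Finset.univ.filter fun z => r c z ≤ R + 1).card ≤ n)
    (θ : ℝ) (h0 : 0 < θ) (hθ1 : θ ≤ 1) (ε : ℝ≥0∞)
    (hinit : ∀ (Ω : Finset ι) (c : γ), (∀ z ∈ Ω, r c z ≤ R) →
      ∫⁻ V, N A Ω lam E (Ω.filter fun z => r c z ≤ l) (Ω.filter fun z => r c z = R) V ^ (θ / 4)
        ∂(Measure.pi fun _ : ι => μ) ≤ ε) :
    ∀ (k : ℕ) (Ω : Finset ι) (c : γ) (y : ι), y ∈ Ω → k * (R + 2) ≤ r c y →
      ∫⁻ V, N A Ω lam E (Ω.filter fun z => r c z ≤ l) {y} V ^ (θ / 4)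
        ∂(Measure.pi fun _ : ι => μ) ≤
        (M * ((n * n : ℕ) * ENNReal.ofReal (2 * Real.sqrt (Real.sqrt (B / lam)))) ^ θ * ε) ^ k *
          ((n * n : ℕ) * ENNReal.ofReal (2 * Real.sqrt (Real.sqrt (B / lam)))) ^ θ := by
  classical
  set C := ((n * n : ℕ) * ENNReal.ofReal (2 * Real.sqrt (Real.sqrt (B / lam)))) ^ θ with hC
  have hθ4 : 0 < θ / 4 := by positivity
  intro k
  induction k with
  | zero =>
    intro Ω c y _ _
    rw [pow_zero, one_mul]
    have := apN μ B hμ A hA lam hlam E Ω (Ω.filter fun z => r c z ≤ l) {y} (fun _ => 1)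
      measurable_const (fun _ _ _ _ _ _ _ => rfl) θ h0.le hθ1
    simp only [one_mul, lintegral_const, measure_univ, mul_one] at this
    refine this.trans ?_
    rw [hC]
    refine ENNReal.rpow_le_rpow (mul_le_mul' ?_ le_rfl) h0.le
    have h2 : (Ω.filter fun z => r c z ≤ l).card ≤ n := by
      refine le_trans (Finset.card_le_card fun z hz => ?_) (hn c)
      rw [Finset.mem_filter] at hz ⊢
      exact ⟨Finset.mem_univ _, by omega⟩
    have h3 : (Ω.filter fun z => r c z ≤ l).card * ({y} : Finset ι).card ≤ n * n := by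
      rw [Finset.card_singleton, mul_one]
      nlinarith [Nat.zero_le n, h2, Nat.le_mul_self n]
    exact_mod_cast h3
  | succ k ih =>
    intro Ω c y hy hk
    have hxy : R + 2 ≤ r c y := by nlinarith
    set O1 := Ω.filter fun z => r c z ≤ R with hO1
    set O2 := Ω.filter fun z => R + 2 ≤ r c z with hO2
    have hb1 : ∫⁻ V, N A O1 lam E (Ω.filter fun z => r c z ≤ l) (Ω.filter fun z => r c z = R) V ^
        (θ / 4) ∂(Measure.pi fun _ : ι => μ) ≤ ε := by
      have h2 := hinit O1 c (fun z hz => (Finset.mem_filter.1 hz).2)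
      have e1 : O1.filter (fun z => r c z ≤ l) = Ω.filter fun z => r c z ≤ l := by
        ext z
        simp only [hO1, Finset.mem_filter]
        constructor
        · rintro ⟨⟨a, _⟩, b⟩
          exact ⟨a, b⟩
        · rintro ⟨a, b⟩
          exact ⟨⟨a, by omega⟩, b⟩
      have e2 : O1.filter (fun z => r c z = R) = Ω.filter fun z => r c z = R := by
        ext z
        simp only [hO1, Finset.mem_filter]
        constructor
        · rintro ⟨⟨a, _⟩, b⟩
          exact ⟨a, b⟩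
        · rintro ⟨a, b⟩
          exact ⟨⟨a, by omega⟩, b⟩
      rwa [e1, e2] at h2
    have hb2 : ∫⁻ V, N A O2 lam E (Ω.filter fun z => r c z = R + 2) {y} V ^
      (θ / 4) ∂(Measure.pi fun _ : ι => μ) ≤ M * ((M * C * ε) ^ k * C) := by
      have e1 : ∀ V, N A O2 lam E (Ω.filter fun z => r c z = R + 2) {y} V ^ (θ / 4) ≤
          ∑ c' ∈ J c, N A O2 lam E (O2.filter fun z => r c' z ≤ l) {y} V ^ (θ / 4) := by
        intro V
        refine le_trans (ENNReal.rpow_le_rpow ?_ hθ4.le)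
          (sum_rpow_le _ _ _ hθ4 (by linarith))
        unfold N
        calc ∑ x ∈ Ω.filter (fun z => r c z = R + 2), ∑ y ∈ {y}, ‖Gr (cut A O2) lam V E x y‖ₑ
            ≤ ∑ x ∈ (J c).biUnion fun c' => O2.filter fun z => r c' z ≤ l,
              ∑ y ∈ {y}, ‖Gr (cut A O2) lam V E x y‖ₑ := by
              refine Finset.sum_le_sum_of_subset ?_
              intro z hz
              rw [Finset.mem_filter] at hz
              obtain ⟨c', hc', hz'⟩ := hJ1 c z hz.2
              rw [Finset.mem_biUnion]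
              exact ⟨c', hc', Finset.mem_filter.2 ⟨Finset.mem_filter.2 ⟨hz.1, hz.2.ge⟩, hz'⟩⟩
          _ ≤ _ := sum_bi _ _ _
      calc _ ≤ ∫⁻ V, ∑ c' ∈ J c, N A O2 lam E (O2.filter fun z => r c' z ≤ l) {y} V ^ (θ / 4)
            ∂(Measure.pi fun _ : ι => μ) := lintegral_mono e1
        _ = ∑ c' ∈ J c, ∫⁻ V, N A O2 lam E (O2.filter fun z => r c' z ≤ l) {y} V ^ (θ / 4)
            ∂(Measure.pi fun _ : ι => μ) :=
          lintegral_finsetSum _ fun c' _ => (meas_N A O2 lam E _ _).pow_const _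
        _ ≤ ∑ c' ∈ J c, ((M * C * ε) ^ k * C) := by
          refine Finset.sum_le_sum fun c' hc' => ih O2 c' y ?_ ?_
          · exact Finset.mem_filter.2 ⟨hy, hxy⟩
          · have h2 := hJ2 c c' hc' y
            have h5 : (k + 1) * (R + 2) = k * (R + 2) + (R + 2) := by ring
            omega
        _ ≤ _ := by
          rw [Finset.sum_const, nsmul_eq_mul]
          refine mul_le_mul' ?_ le_rfl
          exact_mod_cast hJM c
    have hnc : (Finset.univ.filter fun z => r c z = R + 1).card ≤ n := by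
      refine le_trans (Finset.card_le_card fun z hz => ?_) (hn c)
      rw [Finset.mem_filter] at hz ⊢
      exact ⟨Finset.mem_univ _, by omega⟩
    have h3 := step μ B hμ A hA hd h1 lam hlam E (hr c) R Ω (Ω.filter fun z => r c z ≤ l)
      (Finset.filter_subset _ _) (fun x hx => by
        have := (Finset.mem_filter.1 hx).2
        omega) y hy hxy θ h0.le hθ1 n hnc ε (M * ((M * C * ε) ^ k * C)) hb1 hb2
    refine h3.trans (le_of_eq ?_)
    rw [← hC]
    ring

/-- initial estimate -/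
theorem init (μ : Measure ℝ) [IsProbabilityMeasure μ] (B : ℝ) (hμ : Reg B μ) (A : Matrix ι ι ℝ)
    (hA : A.IsSymm) (Dg : ℝ) (hDg : 1 ≤ Dg)
    (h1 : ∀ i, ∑ j, |A i j| ≤ Dg) (lam : ℝ) (hlam : 0 < lam) (E κ ε0 : ℝ)
    (hκ : 0 < κ) (hκ' : κ ≤ 1) (hε0 : 0 ≤ ε0) (δ : ι → ι → ℕ) (hδ0 : ∀ i, δ i i = 0)
    (hδs : ∀ i j, δ i j = δ j i) (hδt : ∀ i j k, δ i k ≤ δ i j + δ j k)
    (hδ1 : ∀ i j, A i j ≠ 0 → δ i j ≤ 1) (Ω S T : Finset ι) (hS : S ⊆ Ω) (hT : T ⊆ Ω) (D : ℕ)
    (hD : ∀ x ∈ S, ∀ u ∈ T, D ≤ δ x u)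
    (hbad : (Measure.pi fun _ : ι => μ) {V | ¬ FB A Ω lam V (E + κ)} ≤ ENNReal.ofReal ε0)
    (θ : ℝ) (h0 : 0 < θ) (hθ1 : 2 * θ ≤ 1) (n : ℕ) (hSn : S.card ≤ n) (hTn : T.card ≤ n) :
    ∫⁻ V, N A Ω lam E S T V ^ (θ / 4) ∂(Measure.pi fun _ : ι => μ) ≤
      ((n * n : ℕ) * ENNReal.ofReal (2 / κ * Real.exp (-(Real.sqrt (κ / (4 * Dg)) * D)))) ^ (θ / 4) +
        ENNReal.ofReal (Real.sqrt ε0) *
          ((n * n : ℕ) * ENNReal.ofReal (2 * Real.sqrt (Real.sqrt (B / lam)))) ^ θ := by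
  obtain ⟨ν, hν⟩ : ∃ ν : Measure (ι → ℝ), ν = Measure.pi fun _ : ι => μ := ⟨_, rfl⟩
  have hνp : IsProbabilityMeasure ν := by rw [hν]; infer_instance
  have hθ4 : 0 ≤ θ / 4 := by positivity
  obtain ⟨f, hf⟩ : ∃ f : (ι → ℝ) → ℝ≥0∞, ∀ V, f V = N A Ω lam E S T V ^ (θ / 4) :=
    ⟨_, fun _ => rfl⟩
  have hfm : Measurable f := by
    have h3 : f = fun V => N A Ω lam E S T V ^ (θ / 4) := funext hf
    rw [h3]
    exact (meas_N A Ω lam E S T).pow_const _
  obtain ⟨U, hUm, hbU, hUν⟩ : ∃ U : Set (ι → ℝ), MeasurableSet U ∧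
      {V | ¬ FB A Ω lam V (E + κ)} ⊆ U ∧ ν U ≤ ENNReal.ofReal ε0 := by
    refine ⟨toMeasurable ν {V | ¬ FB A Ω lam V (E + κ)}, measurableSet_toMeasurable _ _,
      subset_toMeasurable _ _, ?_⟩
    rw [measure_toMeasurable, hν]
    exact hbad
  set b : ℝ := 2 / κ * Real.exp (-(Real.sqrt (κ / (4 * Dg)) * D)) with hb
  set K : ℝ≥0∞ := (n * n : ℕ) * ENNReal.ofReal (2 * Real.sqrt (Real.sqrt (B / lam))) with hK
  have hcard : S.card * T.card ≤ n * n := Nat.mul_le_mul hSn hTn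
  have hgood : ∀ V ∈ Uᶜ, f V ≤ ((n * n : ℕ) * ENNReal.ofReal b) ^ (θ / 4) := by
    intro V hV
    have hFB : FB A Ω lam V (E + κ) := by
      by_contra h
      exact hV (hbU h)
    rw [hf]
    refine ENNReal.rpow_le_rpow ?_ hθ4
    unfold N
    calc _ ≤ ∑ x ∈ S, ∑ y ∈ T, ENNReal.ofReal b := by
          refine Finset.sum_le_sum fun x hx => Finset.sum_le_sum fun u hu => ?_
          have h2 := Ct.ct A hA Dg hDg h1 δ hδ0 hδs hδt hδ1 Ω lam V E κ hκ hκ' hFB x u (hS hx) (hT hu)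
          rw [Real.enorm_eq_ofReal_abs]
          apply ENNReal.ofReal_le_ofReal
          refine h2.trans ?_
          rw [hb]
          refine mul_le_mul_of_nonneg_left (Real.exp_le_exp.2 (neg_le_neg ?_)) (by positivity)
          refine mul_le_mul_of_nonneg_left ?_ (Real.sqrt_nonneg _)
          exact_mod_cast hD x hx u hu
      _ = (S.card * T.card : ℕ) * ENNReal.ofReal b := by
          rw [Finset.sum_const, Finset.sum_const, smul_smul, nsmul_eq_mul]
      _ ≤ _ := by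
          refine mul_le_mul' ?_ le_rfl
          exact_mod_cast hcard
  have hsplit : ∫⁻ V, f V ∂ν = ∫⁻ V in U, f V ∂ν + ∫⁻ V in Uᶜ, f V ∂ν :=
    (lintegral_add_compl f hUm).symm
  have h2 : ∫⁻ V in Uᶜ, f V ∂ν ≤ ((n * n : ℕ) * ENNReal.ofReal b) ^ (θ / 4) := by
    calc ∫⁻ V in Uᶜ, f V ∂ν ≤ ∫⁻ _ in Uᶜ, ((n * n : ℕ) * ENNReal.ofReal b) ^ (θ / 4) ∂ν :=
          setLIntegral_mono' hUm.compl hgood
      _ = ((n * n : ℕ) * ENNReal.ofReal b) ^ (θ / 4) * ν Uᶜ := by rw [setLIntegral_const]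
      _ ≤ ((n * n : ℕ) * ENNReal.ofReal b) ^ (θ / 4) * 1 := by
          gcongr
          exact prob_le_one
      _ = _ := mul_one _
  have hsq : ∫⁻ V, f V ^ (2 : ℝ) ∂ν ≤ K ^ (2 * θ) := by
    have h3 := apN μ B hμ A hA lam hlam E Ω S T (fun _ => 1)
      measurable_const (fun _ _ _ _ _ _ _ => rfl) (2 * θ) (by positivity) hθ1
    simp only [one_mul, lintegral_const, measure_univ, mul_one] at h3
    rw [← hν] at h3
    have h4 : ∀ V, f V ^ (2 : ℝ) = N A Ω lam E S T V ^ (2 * θ / 4) := by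
      intro V
      rw [hf, ← ENNReal.rpow_mul]
      congr 1
      ring
    simp only [h4]
    refine h3.trans (ENNReal.rpow_le_rpow (mul_le_mul' ?_ le_rfl) (by positivity))
    exact_mod_cast hcard
  have h5 : ∫⁻ V in U, f V ∂ν ≤ ENNReal.ofReal (Real.sqrt ε0) * K ^ θ := by
    have h6 := ENNReal.lintegral_mul_le_Lp_mul_Lq (ν.restrict U) Real.HolderConjugate.two_two
      hfm.aemeasurable (g := fun _ => 1) aemeasurable_const
    have h7 : ∫⁻ V in U, f V ∂ν = ∫⁻ V in U, (f * (fun _ => 1 : (ι → ℝ) → ℝ≥0∞)) V ∂ν := by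
      apply lintegral_congr
      intro V
      rw [Pi.mul_apply, mul_one]
    rw [h7]
    refine h6.trans ?_
    have h8 : ∫⁻ _ in U, (1 : ℝ≥0∞) ^ (2 : ℝ) ∂ν = ν U := by
      rw [ENNReal.one_rpow, setLIntegral_const, one_mul]
    rw [h8]
    have h9 : (∫⁻ V in U, f V ^ (2 : ℝ) ∂ν) ^ (1 / 2 : ℝ) ≤ K ^ θ := by
      calc (∫⁻ V in U, f V ^ (2 : ℝ) ∂ν) ^ (1 / 2 : ℝ)
          ≤ (K ^ (2 * θ)) ^ (1 / 2 : ℝ) :=
            ENNReal.rpow_le_rpow ((setLIntegral_le_lintegral _ _).trans hsq) (by norm_num)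
        _ = K ^ θ := by
            rw [← ENNReal.rpow_mul]
            congr 1
            ring
    have h10 : (ν U) ^ (1 / 2 : ℝ) ≤ ENNReal.ofReal (Real.sqrt ε0) := by
      calc (ν U) ^ (1 / 2 : ℝ) ≤ (ENNReal.ofReal ε0) ^ (1 / 2 : ℝ) :=
            ENNReal.rpow_le_rpow hUν (by norm_num)
        _ = _ := by
            rw [ENNReal.ofReal_rpow_of_nonneg hε0 (by norm_num), ← Real.sqrt_eq_rpow]
    rw [mul_comm]
    exact mul_le_mul' h10 h9
  have h11 : ∫⁻ V, N A Ω lam E S T V ^ (θ / 4) ∂(Measure.pi fun _ : ι => μ) =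
      ∫⁻ V, f V ∂ν := by
    rw [hν]
    exact lintegral_congr fun V => (hf V).symm
  rw [h11, hsplit, add_comm]
  exact add_le_add h2 h5

end Pool.Agent.K3h4.AN.Bf
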