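import Pool.Agent.H541R3.AND.Deloc

/-! # Polynomial filters of degree `h` resolve energies of order `h⁻²` -/

set_option autoImplicit false

open scoped BigOperators
open MeasureTheory

namespace Pool.Agent.K3h4.AN.Dl

/-- `P(A) f` -/
noncomputable def pol {X : Type*} (P : Polynomial ℝ) (A : (X → ℝ) → X → ℝ) (f : X → ℝ) (x : X) : ℝ :=
  ∑ j ∈ Finset.range (P.natDegree + 1), P.coeff j * (A^[j] f) x

theorem spec {ι : Type*} [Fintype ι] (A : (ι → ℝ) →ₗ[ℝ] (ι → ℝ))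
    (hs : ∀ f g : ι → ℝ, ∑ x, A f x * g x = ∑ x, f x * A g x)
    (h0 : ∀ f : ι → ℝ, 0 ≤ ∑ x, f x * A f x)
    (h1 : ∀ f : ι → ℝ, ∑ x, f x * A f x ≤ ∑ x, f x ^ 2) (f : ι → ℝ) :
    ∃ (n : ℕ) (t c : Fin n → ℝ), (∀ i, 0 ≤ t i ∧ t i ≤ 1) ∧
      ∀ P : Polynomial ℝ, ∑ x, (pol P A f x) ^ 2 = ∑ i, c i ^ 2 * (P.eval (t i)) ^ 2 := by
  classical
  set e := WithLp.linearEquiv 2 ℝ (ι → ℝ) with he
  set T : EuclideanSpace ℝ ι →ₗ[ℝ] EuclideanSpace ℝ ι :=
    e.symm.toLinearMap ∘ₗ A ∘ₗ e.toLinearMap with hT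
  have hTapp : ∀ (v : EuclideanSpace ℝ ι) (x : ι), (T v) x = A (e v) x := fun v x => rfl
  have hsym : T.IsSymmetric := by
    intro v w
    rw [PiLp.inner_apply, PiLp.inner_apply]
    simp only [hTapp]
    have h := hs (e v) (e w)
    have e1 : ∀ x : ι, inner ℝ (A (e v) x) (w x) = A (e v) x * (e w) x := fun x => by
      simp
      rw [mul_comm]
      rfl
    have e2 : ∀ x : ι, inner ℝ (v x) (A (e w) x) = (e v) x * A (e w) x := fun x => by
      simp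
      rw [mul_comm]
      rfl
    rw [Finset.sum_congr rfl fun x _ => e1 x, Finset.sum_congr rfl fun x _ => e2 x]
    exact h
  set n := Module.finrank ℝ (EuclideanSpace ℝ ι) with hn
  set b := hsym.eigenvectorBasis (n := n) rfl with hb
  set t := hsym.eigenvalues (n := n) rfl with ht
  set v : EuclideanSpace ℝ ι := e.symm f with hv
  have hnorm : ∀ w : EuclideanSpace ℝ ι, ∑ x, (w x) ^ 2 = ∑ i, (b.repr w i) ^ 2 := by
    intro w
    have a1 := EuclideanSpace.norm_sq_eq w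
    have a2 := EuclideanSpace.norm_sq_eq (b.repr w)
    rw [LinearIsometryEquiv.norm_map] at a2
    rw [a1] at a2
    simpa using a2
  have hrep : ∀ (w : EuclideanSpace ℝ ι) (i : Fin n), b.repr (T w) i = t i * b.repr w i := by
    intro w i
    exact hsym.eigenvectorBasis_apply_self_apply rfl w i
  have hrepj : ∀ (j : ℕ) (i : Fin n), b.repr (T^[j] v) i = t i ^ j * b.repr v i := by
    intro j
    induction j with
    | zero => intro i; simp
    | succ j ih =>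
      intro i
      rw [Function.iterate_succ_apply', hrep, ih, pow_succ]
      ring
  have hiter : ∀ (j : ℕ) (x : ι), (T^[j] v) x = (A^[j] f) x := by
    intro j
    have : ∀ j : ℕ, e (T^[j] v) = A^[j] f := by
      intro j
      induction j with
      | zero => rfl
      | succ j ih =>
        rw [Function.iterate_succ_apply', Function.iterate_succ_apply', ← ih]
        rfl
    intro x
    rw [← this j]
    rfl
  refine ⟨n, t, fun i => b.repr v i, fun i => ?_, fun P => ?_⟩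
  · have hbn : ‖b i‖ = 1 := b.norm_eq_one i
    have hbi : ∑ x, (b i x) ^ 2 = 1 := by
      have a1 := EuclideanSpace.norm_sq_eq (b i)
      rw [hbn] at a1
      simpa using a1.symm
    have heig : T (b i) = t i • b i := hsym.apply_eigenvectorBasis rfl i
    have hA : ∀ x, A (e (b i)) x = t i * b i x := by
      intro x
      rw [← hTapp, heig]
      rfl
    have k0 := h0 (e (b i))
    have k1 := h1 (e (b i))
    have e3 : ∑ x, (e (b i)) x * A (e (b i)) x = t i := by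
      have : ∀ x, (e (b i)) x * A (e (b i)) x = t i * (b i x) ^ 2 := by
        intro x
        rw [hA]
        have : (e (b i)) x = b i x := rfl
        rw [this]
        ring
      rw [Finset.sum_congr rfl fun x _ => this x, ← Finset.mul_sum, hbi, mul_one]
    have e4 : ∑ x, (e (b i)) x ^ 2 = 1 := hbi
    rw [e3] at k0
    rw [e3, e4] at k1
    exact ⟨k0, k1⟩
  · set w : EuclideanSpace ℝ ι :=
      ∑ j ∈ Finset.range (P.natDegree + 1), P.coeff j • (T^[j] v) with hw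
    have e5 : ∀ x, pol P A f x = w x := by
      intro x
      unfold pol
      rw [hw]
      rw [show ((∑ j ∈ Finset.range (P.natDegree + 1), P.coeff j • (T^[j] v) :
        EuclideanSpace ℝ ι)) x = ∑ j ∈ Finset.range (P.natDegree + 1), (P.coeff j • (T^[j] v)) x
        from by simp]
      refine Finset.sum_congr rfl fun j _ => ?_
      rw [PiLp.smul_apply, smul_eq_mul, hiter]
    have e6 : ∀ i, b.repr w i = P.eval (t i) * b.repr v i := by
      intro i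
      rw [hw, map_sum]
      rw [show ((∑ j ∈ Finset.range (P.natDegree + 1), b.repr (P.coeff j • (T^[j] v)) :
        EuclideanSpace ℝ (Fin n))) i =
          ∑ j ∈ Finset.range (P.natDegree + 1), (b.repr (P.coeff j • (T^[j] v))) i from by simp]
      rw [Polynomial.eval_eq_sum_range, Finset.sum_mul]
      refine Finset.sum_congr rfl fun j _ => ?_
      rw [map_smul, PiLp.smul_apply, smul_eq_mul, hrepj]
      ring
    rw [Finset.sum_congr rfl fun x _ => by rw [e5 x], hnorm w]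
    refine Finset.sum_congr rfl fun i _ => ?_
    rw [e6]
    ring

/-- the averaged powers -/
theorem kern (N : ℕ) (hN : 1 ≤ N) (s : ℝ) (h0 : 0 ≤ s) (h1 : s ≤ 1) :
    1 ≤ (1 / (N : ℝ) * ∑ n ∈ Finset.range N, s ^ n) * (1 + N * (1 - s)) := by
  have hN0 : (0 : ℝ) < N := by exact_mod_cast hN
  have h2 : (∑ n ∈ Finset.range N, s ^ n) * (1 - s) = 1 - s ^ N := geom_sum_mul_neg s N
  have h3 : (N : ℝ) * s ^ N ≤ ∑ n ∈ Finset.range N, s ^ n := by
    have : ∑ _n ∈ Finset.range N, s ^ N ≤ ∑ n ∈ Finset.range N, s ^ n :=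
      Finset.sum_le_sum fun n hn => pow_le_pow_of_le_one h0 h1 (Finset.mem_range.1 hn).le
    simpa using this
  have e : (1 / (N : ℝ) * ∑ n ∈ Finset.range N, s ^ n) * (1 + N * (1 - s)) =
      1 / (N : ℝ) * (∑ n ∈ Finset.range N, s ^ n) +
        ((∑ n ∈ Finset.range N, s ^ n) * (1 - s)) := by
    field_simp
  rw [e, h2]
  have h4 : s ^ N ≤ 1 / (N : ℝ) * ∑ n ∈ Finset.range N, s ^ n := by
    rw [one_div, inv_mul_eq_div, le_div_iff₀ hN0]
    linarith
  linarith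

theorem sum_pow (α : ℝ) (h0 : 0 ≤ α) (h1 : α < 1) (N : ℕ) :
    ∑ n ∈ Finset.range N, ((n : ℝ) + 1) ^ (-α) ≤ (N : ℝ) ^ (1 - α) / (1 - α) := by
  have hb : 0 < 1 - α := by linarith
  induction N with
  | zero => simp [Real.zero_rpow hb.ne']
  | succ N ih =>
    rw [Finset.sum_range_succ]
    refine (add_le_add_left ih _).trans ?_
    push_cast
    have hN : (0 : ℝ) < (N : ℝ) + 1 := by positivity
    have h2 : (1 + -(1 / ((N : ℝ) + 1))) ^ (1 - α) ≤ 1 + (1 - α) * -(1 / ((N : ℝ) + 1)) := by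
      refine rpow_one_add_le_one_add_mul_self ?_ hb.le (by linarith)
      have : 1 / ((N : ℝ) + 1) ≤ 1 := by
        rw [div_le_one hN]
        have : (0 : ℝ) ≤ N := Nat.cast_nonneg N
        linarith
      linarith
    have h3 : (N : ℝ) ^ (1 - α) = ((N : ℝ) + 1) ^ (1 - α) * (1 + -(1 / ((N : ℝ) + 1))) ^ (1 - α) := by
      rw [← Real.mul_rpow hN.le]
      · congr 1
        field_simp
        ring
      · have : 1 / ((N : ℝ) + 1) ≤ 1 := by
          rw [div_le_one hN]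
          have : (0 : ℝ) ≤ N := Nat.cast_nonneg N
          linarith
        linarith
    have h4 : ((N : ℝ) + 1) ^ (1 - α) = ((N : ℝ) + 1) ^ (-α) * ((N : ℝ) + 1) := by
      rw [show 1 - α = -α + 1 by ring, Real.rpow_add hN, Real.rpow_one]
    have h5 : 0 < ((N : ℝ) + 1) ^ (1 - α) := Real.rpow_pos_of_pos hN _
    have h6 : (N : ℝ) ^ (1 - α) ≤ ((N : ℝ) + 1) ^ (1 - α) - (1 - α) * ((N : ℝ) + 1) ^ (-α) := by
      rw [h3]
      refine (mul_le_mul_of_nonneg_left h2 h5.le).trans (le_of_eq ?_)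
      rw [h4]
      field_simp
      ring
    rw [div_add' _ _ _ hb.ne', div_le_div_iff_of_pos_right hb]
    linarith

/-- `pol` of a monomial -/
theorem pol_pow {X : Type*} (A : (X → ℝ) → X → ℝ) (f : X → ℝ) (k : ℕ) (x : X) :
    pol (Polynomial.X ^ k : Polynomial ℝ) A f x = (A^[k] f) x := by
  unfold pol
  rw [Polynomial.natDegree_X_pow, Finset.sum_eq_single k]
  · rw [Polynomial.coeff_X_pow_self, one_mul]
  · intro j _ hj
    rw [Polynomial.coeff_X_pow, if_neg hj, zero_mul]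
  · intro h
    exact absurd (Finset.mem_range.2 (Nat.lt_succ_self k)) h

/-- the filter bound -/
theorem filter {ι : Type*} [Fintype ι] (A : (ι → ℝ) →ₗ[ℝ] (ι → ℝ))
    (hs : ∀ f g : ι → ℝ, ∑ x, A f x * g x = ∑ x, f x * A g x)
    (h0 : ∀ f : ι → ℝ, 0 ≤ ∑ x, f x * A f x)
    (h1 : ∀ f : ι → ℝ, ∑ x, f x * A f x ≤ ∑ x, f x ^ 2) (f : ι → ℝ) (α D : ℝ)
    (hα : 0 ≤ α) (hα1 : α < 1) (hD : 0 ≤ D) (hf : ∑ x, f x ^ 2 ≤ 1)
    (hdec : ∀ n : ℕ, (∑ x, ((A^[n] f) x) ^ 2) * (n : ℝ) ^ (2 * α) ≤ D)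
    (N : ℕ) (hN : 1 ≤ N) (P : Polynomial ℝ)
    (hP : ∀ t : ℝ, 0 ≤ t → t ≤ 1 → |P.eval t| * (1 + N * (1 - t ^ 2)) ≤ 2) :
    (∑ x, (pol P A f x) ^ 2) * (N : ℝ) ^ (2 * α) ≤ 4 * (1 + 4 * D) / (1 - α) ^ 2 := by
  obtain ⟨n, t, c, ht, hsp⟩ := spec A hs h0 h1 f
  have hN0 : (0 : ℝ) < N := by exact_mod_cast hN
  have hb : 0 < 1 - α := by linarith
  -- pointwise
  have hpt : ∀ i, c i ^ 2 * (P.eval (t i)) ^ 2 ≤
      c i ^ 2 * (4 * (1 / (N : ℝ) ^ 2 * ∑ k ∈ Finset.range N, ∑ l ∈ Finset.range N,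
        ((t i) ^ (k + l)) ^ 2)) := by
    intro i
    refine mul_le_mul_of_nonneg_left ?_ (sq_nonneg _)
    obtain ⟨t0, t1⟩ := ht i
    have hsq0 : 0 ≤ (t i) ^ 2 := sq_nonneg _
    have hsq1 : (t i) ^ 2 ≤ 1 := by nlinarith
    have k1 := kern N hN ((t i) ^ 2) hsq0 hsq1
    have k2 := hP (t i) t0 t1
    set W := 1 + (N : ℝ) * (1 - (t i) ^ 2) with hW
    have hW1 : 1 ≤ W := by nlinarith
    set Z := 1 / (N : ℝ) * ∑ n ∈ Finset.range N, ((t i) ^ 2) ^ n with hZ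
    have hZ0 : 0 ≤ Z := by
      have : 0 ≤ ∑ n ∈ Finset.range N, ((t i) ^ 2) ^ n :=
        Finset.sum_nonneg fun n _ => by positivity
      positivity
    have h3 : |P.eval (t i)| ≤ 2 * Z := by
      have : |P.eval (t i)| * W ≤ (2 * Z) * W := by nlinarith
      exact le_of_mul_le_mul_right this (by linarith)
    have h4 : (P.eval (t i)) ^ 2 ≤ (2 * Z) ^ 2 := by
      rw [← sq_abs]
      exact pow_le_pow_left₀ (abs_nonneg _) h3 2
    refine h4.trans (le_of_eq ?_)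
    rw [hZ, mul_pow, mul_pow]
    norm_num
    rw [pow_two (∑ n ∈ Finset.range N, ((t i) ^ 2) ^ n), Finset.sum_mul_sum]
    refine Or.inl (Finset.sum_congr rfl fun k _ => Finset.sum_congr rfl fun l _ => ?_)
    ring
  have hmom : ∀ k : ℕ, ∑ i, c i ^ 2 * ((t i) ^ k) ^ 2 = ∑ x, ((A^[k] f) x) ^ 2 := by
    intro k
    have := hsp (Polynomial.X ^ k)
    rw [Finset.sum_congr rfl fun x _ => by rw [pol_pow A f k x]] at this
    rw [this]
    exact Finset.sum_congr rfl fun i _ => by simp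
  have hmain : ∑ x, (pol P A f x) ^ 2 ≤ 4 / (N : ℝ) ^ 2 * ∑ k ∈ Finset.range N,
      ∑ l ∈ Finset.range N, ∑ x, ((A^[k + l] f) x) ^ 2 := by
    rw [hsp P]
    refine (Finset.sum_le_sum fun i _ => hpt i).trans (le_of_eq ?_)
    simp only [← hmom]
    have e1 : ∀ i, c i ^ 2 * (4 * (1 / (N : ℝ) ^ 2 * ∑ k ∈ Finset.range N,
        ∑ l ∈ Finset.range N, ((t i) ^ (k + l)) ^ 2)) =
        ∑ k ∈ Finset.range N, ∑ l ∈ Finset.range N,
          4 / (N : ℝ) ^ 2 * (c i ^ 2 * ((t i) ^ (k + l)) ^ 2) := by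
      intro i
      simp only [Finset.mul_sum]
      refine Finset.sum_congr rfl fun k _ => Finset.sum_congr rfl fun l _ => ?_
      ring
    rw [Finset.sum_congr rfl fun i _ => e1 i, Finset.sum_comm, Finset.mul_sum]
    refine Finset.sum_congr rfl fun k _ => ?_
    rw [Finset.sum_comm, Finset.mul_sum]
    refine Finset.sum_congr rfl fun l _ => ?_
    rw [Finset.mul_sum]
  -- decay in product form
  set D' : ℝ := 1 + 4 * D with hD'
  have hdk : ∀ k l : ℕ, ∑ x, ((A^[k + l] f) x) ^ 2 ≤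
      D' * (((k : ℝ) + 1) ^ (-α) * ((l : ℝ) + 1) ^ (-α)) := by
    intro k l
    set a := ∑ x, ((A^[k + l] f) x) ^ 2 with ha
    have ha0 : 0 ≤ a := Finset.sum_nonneg fun x _ => sq_nonneg _
    have hk : (0 : ℝ) < (k : ℝ) + 1 := by positivity
    have hl : (0 : ℝ) < (l : ℝ) + 1 := by positivity
    have hkl : (0 : ℝ) < (k : ℝ) + l + 1 := by positivity
    have h5 : a * ((k : ℝ) + l + 1) ^ (2 * α) ≤ D' := by
      rcases Nat.eq_zero_or_pos (k + l) with h6 | h6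
      · have hk0 : k = 0 := by omega
        have hl0 : l = 0 := by omega
        subst hk0; subst hl0
        have : a ≤ 1 := by rw [ha]; simpa using hf
        simp
        linarith
      · have h7 : (1 : ℝ) ≤ (k : ℝ) + l := by exact_mod_cast h6
        have h8 : ((k : ℝ) + l + 1) ^ (2 * α) ≤ 4 * ((k : ℝ) + l) ^ (2 * α) := by
          have h9 : ((k : ℝ) + l + 1) ^ (2 * α) ≤ (2 * ((k : ℝ) + l)) ^ (2 * α) :=
            Real.rpow_le_rpow hkl.le (by linarith) (by linarith)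
          rw [Real.mul_rpow (by norm_num) (by linarith)] at h9
          have h10 : (2 : ℝ) ^ (2 * α) ≤ 4 := by
            calc (2 : ℝ) ^ (2 * α) ≤ 2 ^ (2 : ℝ) :=
                  Real.rpow_le_rpow_of_exponent_le (by norm_num) (by linarith)
              _ = 4 := by norm_num
          exact h9.trans (mul_le_mul_of_nonneg_right h10 (Real.rpow_nonneg (by linarith) _))
        have h11 := hdec (k + l)
        push_cast at h11
        have h12 : a * ((k : ℝ) + l + 1) ^ (2 * α) ≤ a * (4 * ((k : ℝ) + l) ^ (2 * α)) :=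
          mul_le_mul_of_nonneg_left h8 ha0
        linarith
    have h6 : (((k : ℝ) + 1) * ((l : ℝ) + 1)) ^ α ≤ ((k : ℝ) + l + 1) ^ (2 * α) := by
      rw [Real.rpow_mul hkl.le, Real.rpow_two]
      refine Real.rpow_le_rpow (by positivity) ?_ hα
      have : (0 : ℝ) ≤ k := Nat.cast_nonneg k
      have : (0 : ℝ) ≤ l := Nat.cast_nonneg l
      nlinarith [sq_nonneg ((k : ℝ) - l)]
    have h7 : a * (((k : ℝ) + 1) * ((l : ℝ) + 1)) ^ α ≤ D' :=
      (mul_le_mul_of_nonneg_left h6 ha0).trans h5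
    rw [Real.rpow_neg hk.le, Real.rpow_neg hl.le, ← mul_inv, ← Real.mul_rpow hk.le hl.le,
      ← div_eq_mul_inv, le_div_iff₀ (Real.rpow_pos_of_pos (by positivity) _)]
    exact h7
  have hD'0 : 0 ≤ D' := by rw [hD']; linarith
  have hsum : ∑ k ∈ Finset.range N, ∑ l ∈ Finset.range N, ∑ x, ((A^[k + l] f) x) ^ 2 ≤
      D' * ((N : ℝ) ^ (1 - α) / (1 - α)) ^ 2 := by
    refine (Finset.sum_le_sum fun k _ => Finset.sum_le_sum fun l _ => hdk k l).trans ?_
    have e2 : ∑ k ∈ Finset.range N, ∑ l ∈ Finset.range N,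
        D' * (((k : ℝ) + 1) ^ (-α) * ((l : ℝ) + 1) ^ (-α)) =
        D' * ((∑ k ∈ Finset.range N, ((k : ℝ) + 1) ^ (-α)) *
          ∑ l ∈ Finset.range N, ((l : ℝ) + 1) ^ (-α)) := by
      rw [Finset.sum_mul_sum, Finset.mul_sum]
      refine Finset.sum_congr rfl fun k _ => ?_
      rw [Finset.mul_sum]
    rw [e2, pow_two ((N : ℝ) ^ (1 - α) / (1 - α))]
    have h6 := sum_pow α hα hα1 N
    have h7 : 0 ≤ ∑ k ∈ Finset.range N, ((k : ℝ) + 1) ^ (-α) :=
      Finset.sum_nonneg fun k _ => Real.rpow_nonneg (by positivity) _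
    exact mul_le_mul_of_nonneg_left (mul_le_mul h6 h6 h7 (h7.trans h6)) hD'0
  have h8 : ∑ x, (pol P A f x) ^ 2 ≤ 4 / (N : ℝ) ^ 2 * (D' * ((N : ℝ) ^ (1 - α) / (1 - α)) ^ 2) :=
    hmain.trans (mul_le_mul_of_nonneg_left hsum (by positivity))
  refine (mul_le_mul_of_nonneg_right h8 (Real.rpow_nonneg hN0.le _)).trans (le_of_eq ?_)
  have h9 : ((N : ℝ) ^ (1 - α)) ^ 2 * (N : ℝ) ^ (2 * α) = (N : ℝ) ^ 2 := by
    rw [← Real.rpow_natCast ((N : ℝ) ^ (1 - α)) 2, ← Real.rpow_mul hN0.le, ← Real.rpow_add hN0]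
    rw [show (1 - α) * ((2 : ℕ) : ℝ) + 2 * α = (2 : ℕ) by push_cast; ring]
    rw [Real.rpow_natCast]
  have e3 : 4 / (N : ℝ) ^ 2 * (D' * ((N : ℝ) ^ (1 - α) / (1 - α)) ^ 2) * (N : ℝ) ^ (2 * α) =
      4 * D' / (1 - α) ^ 2 * ((((N : ℝ) ^ (1 - α)) ^ 2 * (N : ℝ) ^ (2 * α)) / (N : ℝ) ^ 2) := by
    field_simp
  rw [e3, h9, div_self (by positivity), mul_one]

/-! ### Chebyshev polynomials -/

open Polynomial Polynomial.Chebyshev in
theorem U_abs (n : ℕ) (t : ℝ) (h : |t| ≤ 1) : |(U ℝ n).eval t| ≤ n + 1 := by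
  induction n with
  | zero => simp
  | succ n ih =>
    have e := U_eq_X_mul_U_add_T (R := ℝ) (n : ℤ)
    push_cast
    rw [e, eval_add, eval_mul, eval_X]
    refine (abs_add_le _ _).trans ?_
    rw [abs_mul]
    have h1 := abs_eval_T_real_le_one ((n : ℤ) + 1) h
    have h2 : |t| * |(U ℝ n).eval t| ≤ 1 * ((n : ℝ) + 1) :=
      mul_le_mul h ih (abs_nonneg _) zero_le_one
    linarith

open Polynomial Polynomial.Chebyshev in
theorem U_big (n : ℕ) (t : ℝ) (h : 1 ≤ t) : (n : ℝ) + 1 ≤ (U ℝ n).eval t := by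
  induction n with
  | zero => simp
  | succ n ih =>
    have e := U_eq_X_mul_U_add_T (R := ℝ) (n : ℤ)
    push_cast
    rw [e, eval_add, eval_mul, eval_X]
    have h1 := one_le_eval_T_real ((n : ℤ) + 1) h
    have h2 : (0 : ℝ) ≤ (n : ℝ) + 1 := by positivity
    nlinarith

open Polynomial Polynomial.Chebyshev in
theorem U_sin (n : ℕ) (t : ℝ) (h0 : -1 ≤ t) (h1 : t ≤ 1) :
    (1 - t ^ 2) * (U ℝ n).eval t ^ 2 ≤ 1 := by
  have e := U_real_cos (Real.arccos t) (n : ℤ)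
  rw [Real.cos_arccos h0 h1] at e
  have e2 : Real.sin (Real.arccos t) ^ 2 = 1 - t ^ 2 := by
    rw [Real.sin_arccos, Real.sq_sqrt]
    nlinarith
  calc (1 - t ^ 2) * (U ℝ n).eval t ^ 2 = ((U ℝ n).eval t * Real.sin (Real.arccos t)) ^ 2 := by
        rw [mul_pow, e2]; ring
    _ = Real.sin (((n : ℤ) + 1) * Real.arccos t) ^ 2 := by rw [e]
    _ ≤ 1 := Real.sin_sq_le_one _

open Polynomial Polynomial.Chebyshev in
theorem U_low (r : ℕ) (hr : 1 ≤ r) (t : ℝ) (h0 : 1 - 1 / (2 * (r : ℝ) ^ 2) ≤ t) :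
    (r : ℝ) / 2 ≤ (U ℝ ((r - 1 : ℕ) : ℤ)).eval t := by
  have hr0 : (1 : ℝ) ≤ r := by exact_mod_cast hr
  have hcast : (((r - 1 : ℕ) : ℝ)) = (r : ℝ) - 1 := by
    rw [Nat.cast_sub hr]; simp
  rcases le_or_gt 1 t with h1 | h1
  · have := U_big (r - 1) t h1
    rw [hcast] at this
    linarith
  · have hhalf : 1 / (2 * (r : ℝ) ^ 2) ≤ 1 / 2 := by
      apply one_div_le_one_div_of_le (by norm_num)
      nlinarith
    have hm1 : -1 ≤ t := by linarith
    set θ := Real.arccos t with hθ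
    have hc : Real.cos θ = t := Real.cos_arccos hm1 h1.le
    have hθ0 : 0 < θ := Real.arccos_pos.2 h1
    have hθpi : θ < Real.pi := by
      rcases lt_or_eq_of_le (Real.arccos_le_pi t) with h | h
      · exact h
      · exfalso
        rw [Real.arccos_eq_pi] at h
        linarith
    have hsin : 0 < Real.sin θ := Real.sin_pos_of_pos_of_lt_pi hθ0 hθpi
    have hpi := Real.pi_pos
    have hbd : θ ≤ Real.pi / (2 * r) := by
      have h2 : Real.cos (Real.pi / (2 * r)) ≤ t := by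
        refine (Real.cos_le_one_sub_mul_cos_sq ?_).trans (le_trans (le_of_eq ?_) h0)
        · rw [abs_of_nonneg (by positivity), div_le_iff₀ (by positivity)]
          nlinarith
        · field_simp
      have h3 := Real.antitone_arccos h2
      rwa [Real.arccos_cos (by positivity)] at h3
      rw [div_le_iff₀ (by positivity)]
      nlinarith
    have hrθ : (r : ℝ) * θ ≤ Real.pi / 2 := by
      rw [le_div_iff₀ (by positivity)] at hbd
      linarith
    have h4 := Real.mul_le_sin (x := (r : ℝ) * θ) (by positivity) hrθ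
    have e := U_real_cos θ (((r - 1 : ℕ) : ℤ))
    rw [hc] at e
    have e2 : (((((r - 1 : ℕ) : ℤ) : ℝ)) + 1) * θ = r * θ := by
      push_cast
      rw [hcast]
      ring
    rw [e2] at e
    have h5 : Real.sin θ ≤ θ := Real.sin_le hθ0.le
    have h6 : (r : ℝ) / 2 ≤ 2 / Real.pi * r := by
      have : (1 : ℝ) / 2 ≤ 2 / Real.pi := by
        rw [div_le_div_iff₀ (by norm_num) hpi]
        linarith [Real.pi_le_four]
      nlinarith
    have h7 : (r : ℝ) / 2 * Real.sin θ ≤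
        (U ℝ ((r - 1 : ℕ) : ℤ)).eval t * Real.sin θ := by
      rw [e]
      calc (r : ℝ) / 2 * Real.sin θ ≤ 2 / Real.pi * r * θ :=
            mul_le_mul h6 h5 hsin.le (by positivity)
        _ = 2 / Real.pi * (r * θ) := by ring
        _ ≤ _ := h4
    exact le_of_mul_le_mul_right h7 hsin

open Polynomial Polynomial.Chebyshev in
/-- the filter polynomial -/
theorem cheb (r : ℕ) (hr : 1 ≤ r) : ∃ P : Polynomial ℝ, P.natDegree ≤ 2 * (r - 1) ∧
    (∀ t : ℝ, 0 ≤ t → t ≤ 1 → |P.eval t| * (1 + (r ^ 2 : ℕ) * (1 - t ^ 2)) ≤ 2) ∧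
    ∀ t : ℝ, 1 - 1 / (2 * (r : ℝ) ^ 2) ≤ t → 1 / 4 ≤ P.eval t := by
  have hr0 : (1 : ℝ) ≤ r := by exact_mod_cast hr
  have hcast : (((r - 1 : ℕ) : ℝ)) = (r : ℝ) - 1 := by
    rw [Nat.cast_sub hr]; simp
  refine ⟨Polynomial.C (1 / (r : ℝ) ^ 2) * (U ℝ ((r - 1 : ℕ) : ℤ)) ^ 2, ?_, ?_, ?_⟩
  · refine (Polynomial.natDegree_C_mul_le _ _).trans ?_
    refine (Polynomial.natDegree_pow_le).trans ?_
    rw [natDegree_U_natCast]
  · intro t t0 t1
    rw [eval_mul, eval_C, eval_pow]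
    set u := (U ℝ ((r - 1 : ℕ) : ℤ)).eval t with hu
    have h1 : |u| ≤ r := by
      have := U_abs (r - 1) t (by rw [abs_of_nonneg t0]; exact t1)
      rw [hcast] at this
      linarith
    have h2 := U_sin (r - 1) t (by linarith) t1
    have h3 : u ^ 2 ≤ (r : ℝ) ^ 2 := by
      rw [← sq_abs]
      exact pow_le_pow_left₀ (abs_nonneg _) h1 2
    rw [abs_of_nonneg (by positivity)]
    push_cast
    have e : 1 / (r : ℝ) ^ 2 * u ^ 2 * (1 + (r : ℝ) ^ 2 * (1 - t ^ 2)) =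
        u ^ 2 / (r : ℝ) ^ 2 + (1 - t ^ 2) * u ^ 2 := by
      field_simp
    rw [e]
    have h4 : u ^ 2 / (r : ℝ) ^ 2 ≤ 1 := by
      rw [div_le_one (by positivity)]; exact h3
    linarith
  · intro t ht
    rw [eval_mul, eval_C, eval_pow]
    have h1 := U_low r hr t ht
    have h2 : ((r : ℝ) / 2) ^ 2 ≤ (U ℝ ((r - 1 : ℕ) : ℤ)).eval t ^ 2 :=
      pow_le_pow_left₀ (by positivity) h1 2
    calc (1 : ℝ) / 4 = 1 / (r : ℝ) ^ 2 * ((r : ℝ) / 2) ^ 2 := by field_simp; norm_num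
      _ ≤ _ := mul_le_mul_of_nonneg_left h2 (by positivity)

/-! ### The torus -/

open Pool.Agent.H4R2.AE Pool.Agent.H541R3.AND.Heat Pool.Agent.H541R3.AND.Nash

/-- `1 - (H - c₀)/b` as a linear map -/
noncomputable def QL {d L : ℕ} (c0 b lam : ℝ) (V : T d L → ℝ) :
    (T d L → ℝ) →ₗ[ℝ] (T d L → ℝ) where
  toFun f := QT c0 b lam V f
  map_add' f g := by
    funext x
    show QT c0 b lam V (f + g) x = QT c0 b lam V f x + QT c0 b lam V g x
    unfold QT Hop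
    have h : ∑ i : Fin d, (2 * (f + g) x - (f + g) (x + Pi.single i 1) -
        (f + g) (x - Pi.single i 1)) =
        ∑ i : Fin d, (2 * f x - f (x + Pi.single i 1) - f (x - Pi.single i 1)) +
        ∑ i : Fin d, (2 * g x - g (x + Pi.single i 1) - g (x - Pi.single i 1)) := by
      rw [← Finset.sum_add_distrib]
      refine Finset.sum_congr rfl fun i _ => ?_
      simp only [Pi.add_apply]
      ring
    rw [h]
    simp only [Pi.add_apply]
    ring
  map_smul' a f := by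
    funext x
    show QT c0 b lam V (a • f) x = a * QT c0 b lam V f x
    unfold QT Hop
    have h : ∑ i : Fin d, (2 * (a • f) x - (a • f) (x + Pi.single i 1) -
        (a • f) (x - Pi.single i 1)) =
        a * ∑ i : Fin d, (2 * f x - f (x + Pi.single i 1) - f (x - Pi.single i 1)) := by
      rw [Finset.mul_sum]
      refine Finset.sum_congr rfl fun i _ => ?_
      simp only [Pi.smul_apply, smul_eq_mul]
      ring
    rw [h]
    simp only [Pi.smul_apply, smul_eq_mul]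
    ring

theorem ql_symm {d L : ℕ} [NeZero L] (c0 b lam : ℝ) (V f g : T d L → ℝ) :
    ∑ x, QL c0 b lam V f x * g x = ∑ x, f x * QL c0 b lam V g x := by
  show ∑ x, QT c0 b lam V f x * g x = ∑ x, f x * QT c0 b lam V g x
  have h := Pool.Agent.H4R2.AE.Core.hop_symm lam V f g
  have e1 : ∀ x, QT c0 b lam V f x * g x =
      (1 + c0 / b) * (f x * g x) - 1 / b * (g x * Hop lam V f x) := by
    intro x; unfold QT; ring
  have e2 : ∀ x, f x * QT c0 b lam V g x =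
      (1 + c0 / b) * (f x * g x) - 1 / b * (f x * Hop lam V g x) := by
    intro x; unfold QT; ring
  rw [Finset.sum_congr rfl fun x _ => e1 x, Finset.sum_congr rfl fun x _ => e2 x,
    Finset.sum_sub_distrib, Finset.sum_sub_distrib, ← Finset.mul_sum, ← Finset.mul_sum,
    ← Finset.mul_sum, h]

theorem ql_bounds {d L : ℕ} [NeZero L] (b : ℝ) (hb : 2 * (4 * (d : ℝ) + 1) ≤ b) (lam E0 : ℝ)
    (V ψ : T d L → ℝ) (h1 : ∀ x, 1 ≤ ψ x) (h2 : ∀ x, ψ x ≤ 2)
    (he : ∀ x, Hop lam V ψ x = E0 * ψ x) (f : T d L → ℝ) :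
    0 ≤ ∑ x, f x * QL (E0 - 1 / (L : ℝ) ^ 2) b lam V f x ∧
      ∑ x, f x * QL (E0 - 1 / (L : ℝ) ^ 2) b lam V f x ≤ ∑ x, f x ^ 2 := by
  have hb0 : 0 < b := by
    have : (0 : ℝ) ≤ d := Nat.cast_nonneg d
    linarith
  obtain ⟨g, hg⟩ : ∃ g : T d L → ℝ, f = fun x => ψ x * g x :=
    ⟨fun x => f x / ψ x, by
      funext x
      have : ψ x ≠ 0 := by have := h1 x; positivity
      field_simp⟩
  have e1 : ∑ x, f x * QL (E0 - 1 / (L : ℝ) ^ 2) b lam V f x =
      ∑ x, ψ x ^ 2 * g x ^ 2 - 1 / b * Qf ψ g := by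
    show ∑ x, f x * QT (E0 - 1 / (L : ℝ) ^ 2) b lam V f x = _
    rw [hg, conj b lam E0 V ψ g h1 he, ← form ψ g h1, Finset.mul_sum, ← Finset.sum_sub_distrib]
    refine Finset.sum_congr rfl fun x _ => ?_
    unfold Pg
    ring
  have e2 : ∑ x, f x ^ 2 = ∑ x, ψ x ^ 2 * g x ^ 2 := by
    rw [hg]
    exact Finset.sum_congr rfl fun x _ => by ring
  have hQ := Qf_nonneg ψ g h1
  have hS0 : 0 ≤ ∑ x, ψ x ^ 2 * g x ^ 2 := Finset.sum_nonneg fun x _ => by positivity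
  have hN := normA ψ g h1 h2
  have hcs := Finset.sum_mul_sq_le_sq_mul_sq Finset.univ (fun x => ψ x * g x)
    (fun x => ψ x * Ag ψ g x)
  have e3 : ∑ x, ψ x * g x * (ψ x * Ag ψ g x) = Qf ψ g := by
    rw [← form ψ g h1]
    exact Finset.sum_congr rfl fun x _ => by ring
  have e4 : ∑ x, (ψ x * g x) ^ 2 = ∑ x, ψ x ^ 2 * g x ^ 2 :=
    Finset.sum_congr rfl fun x _ => by ring
  have e5 : ∑ x, (ψ x * Ag ψ g x) ^ 2 = ∑ x, ψ x ^ 2 * Ag ψ g x ^ 2 :=
    Finset.sum_congr rfl fun x _ => by ring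
  rw [e3, e4, e5] at hcs
  have h3 : Qf ψ g ≤ b * ∑ x, ψ x ^ 2 * g x ^ 2 := by
    rcases hQ.lt_or_eq with h4 | h4
    · have h5 : Qf ψ g ^ 2 ≤ (∑ x, ψ x ^ 2 * g x ^ 2) * (b * Qf ψ g) := by
        refine hcs.trans (mul_le_mul_of_nonneg_left (hN.trans ?_) hS0)
        exact mul_le_mul_of_nonneg_right hb hQ
      have h6 : Qf ψ g * Qf ψ g ≤ (b * ∑ x, ψ x ^ 2 * g x ^ 2) * Qf ψ g := by
        linarith [pow_two (Qf ψ g)]
      exact le_of_mul_le_mul_right h6 h4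
    · rw [← h4]; positivity
  have h4 : 1 / b * Qf ψ g ≤ ∑ x, ψ x ^ 2 * g x ^ 2 := by
    rw [one_div, inv_mul_eq_div, div_le_iff₀ hb0]
    linarith
  have h5 : 0 ≤ 1 / b * Qf ψ g := by positivity
  rw [e1, e2]
  exact ⟨by linarith, by linarith⟩

theorem ql_iter {d L : ℕ} (c0 b lam : ℝ) (V f : T d L → ℝ) (n : ℕ) :
    (QL c0 b lam V)^[n] f = (QT c0 b lam V)^[n] f := rfl

/-! ### The lattice -/

open Pool.Agent.H541R3.AND.Trans

theorem pol_box {d : ℕ} (h : ℕ) (c0 b lam : ℝ) (V : Zd d → ℝ) (x0 : Zd d) (P : Polynomial ℝ)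
    (hP : P.natDegree ≤ h) :
    (∀ x, x ∉ box h x0 → pol P (QZ c0 b lam V) (Pi.single x0 1) x = 0) ∧
    ∑ x ∈ box h x0, (pol P (QZ c0 b lam V) (Pi.single x0 1) x) ^ 2 =
      ∑ t : T d (2 * h + 1), (pol P (QT c0 b lam (VT h V x0)) (Pi.single 0 1) t) ^ 2 := by
  refine ⟨fun x hx => ?_, ?_⟩
  · unfold pol
    refine Finset.sum_eq_zero fun j hj => ?_
    rw [(iter_props h c0 b lam V x0 j (by have := Finset.mem_range.1 hj; omega)).1 x hx, mul_zero]
  · rw [sum_box]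
    refine Finset.sum_congr rfl fun t _ => ?_
    congr 1
    unfold pol
    refine Finset.sum_congr rfl fun j hj => ?_
    rw [(matching h c0 b lam V x0 j (by have := Finset.mem_range.1 hj; omega)).1 (lift t)
      (lift_abs t), pr_lift]

theorem pol_eig {d : ℕ} (c0 b lam E : ℝ) (V φ : Zd d → ℝ) (P : Polynomial ℝ) (x0 : Zd d)
    (hE : ∀ x, HZ lam V φ x = E * φ x) :
    ∑' x, pol P (QZ c0 b lam V) (Pi.single x0 1) x * φ x =
      P.eval (Pool.Agent.H541R3.AND.Deloc.q c0 b E) * φ x0 := by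
  unfold pol
  have e1 : ∀ x, (∑ j ∈ Finset.range (P.natDegree + 1),
      P.coeff j * ((QZ c0 b lam V)^[j] (Pi.single x0 1) x)) * φ x =
      ∑ j ∈ Finset.range (P.natDegree + 1),
        P.coeff j * ((QZ c0 b lam V)^[j] (Pi.single x0 1) x * φ x) := by
    intro x
    rw [Finset.sum_mul]
    exact Finset.sum_congr rfl fun j _ => by ring
  rw [tsum_congr e1, Summable.tsum_finsetSum (fun j _ =>
    (((FS.single x0).iter c0 b lam V j).summable φ).mul_left _), Polynomial.eval_eq_sum_range,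
    Finset.sum_mul]
  refine Finset.sum_congr rfl fun j _ => ?_
  rw [tsum_mul_left, symm_iter c0 b lam V φ j _ (FS.single x0), pair_single,
    Pool.Agent.H541R3.AND.Deloc.qz_eig c0 b lam E V φ hE j]
  ring

theorem pol_moment {d : ℕ} (c0 b lam : ℝ) (V : Zd d → ℝ) (P : Polynomial ℝ) (x0 : Zd d) (h : ℕ)
    (hP : P.natDegree ≤ h) (m : Measure ℝ)
    (hm : ∀ j : ℕ, Integrable (fun E : ℝ => E ^ j) m ∧
      ∫ E, E ^ j ∂m = (HZ lam V)^[j] (Pi.single x0 1) x0) :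
    Integrable (fun E : ℝ => P.eval (Pool.Agent.H541R3.AND.Deloc.q c0 b E) ^ 2) m ∧
    ∫ E, P.eval (Pool.Agent.H541R3.AND.Deloc.q c0 b E) ^ 2 ∂m =
      ∑ x ∈ box h x0, (pol P (QZ c0 b lam V) (Pi.single x0 1) x) ^ 2 := by
  have hmom : ∀ n : ℕ, Integrable (fun E : ℝ => Pool.Agent.H541R3.AND.Deloc.q c0 b E ^ n) m ∧
      ∫ E, Pool.Agent.H541R3.AND.Deloc.q c0 b E ^ n ∂m =
        (QZ c0 b lam V)^[n] (Pi.single x0 1) x0 := by
    intro n
    have := Pool.Agent.H541R3.AND.Deloc.moments c0 b lam V x0 m hm n 0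
    simpa using this
  have e1 : ∀ E : ℝ, P.eval (Pool.Agent.H541R3.AND.Deloc.q c0 b E) ^ 2 =
      ∑ j ∈ Finset.range (P.natDegree + 1), ∑ k ∈ Finset.range (P.natDegree + 1),
        P.coeff j * P.coeff k * Pool.Agent.H541R3.AND.Deloc.q c0 b E ^ (j + k) := by
    intro E
    rw [Polynomial.eval_eq_sum_range, pow_two, Finset.sum_mul_sum]
    refine Finset.sum_congr rfl fun j _ => Finset.sum_congr rfl fun k _ => ?_
    rw [pow_add]
    ring
  have hint : ∀ j k : ℕ, Integrable (fun E : ℝ => P.coeff j * P.coeff k *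
      Pool.Agent.H541R3.AND.Deloc.q c0 b E ^ (j + k)) m := fun j k => (hmom (j + k)).1.const_mul _
  have hfun : (fun E : ℝ => P.eval (Pool.Agent.H541R3.AND.Deloc.q c0 b E) ^ 2) = fun E =>
      ∑ j ∈ Finset.range (P.natDegree + 1), ∑ k ∈ Finset.range (P.natDegree + 1),
        P.coeff j * P.coeff k * Pool.Agent.H541R3.AND.Deloc.q c0 b E ^ (j + k) := funext e1
  rw [hfun]
  refine ⟨integrable_finsetSum _ fun j _ => integrable_finsetSum _ fun k _ => hint j k, ?_⟩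
  rw [integral_finsetSum _ fun j _ => integrable_finsetSum _ fun k _ => hint j k]
  have e2 : ∀ j ∈ Finset.range (P.natDegree + 1), ∫ E, ∑ k ∈ Finset.range (P.natDegree + 1),
      P.coeff j * P.coeff k * Pool.Agent.H541R3.AND.Deloc.q c0 b E ^ (j + k) ∂m =
      ∑ k ∈ Finset.range (P.natDegree + 1), P.coeff j * P.coeff k *
        (QZ c0 b lam V)^[j + k] (Pi.single x0 1) x0 := by
    intro j _
    rw [integral_finsetSum _ fun k _ => hint j k]
    refine Finset.sum_congr rfl fun k _ => ?_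
    rw [integral_const_mul, (hmom (j + k)).2]
  rw [Finset.sum_congr rfl e2]
  have e3 : ∀ x ∈ box h x0, (pol P (QZ c0 b lam V) (Pi.single x0 1) x) ^ 2 =
      ∑ j ∈ Finset.range (P.natDegree + 1), ∑ k ∈ Finset.range (P.natDegree + 1),
        P.coeff j * P.coeff k * ((QZ c0 b lam V)^[j] (Pi.single x0 1) x *
          (QZ c0 b lam V)^[k] (Pi.single x0 1) x) := by
    intro x _
    unfold pol
    rw [pow_two, Finset.sum_mul_sum]
    refine Finset.sum_congr rfl fun j _ => Finset.sum_congr rfl fun k _ => ?_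
    ring
  have e4 : ∑ x ∈ box h x0, ∑ j ∈ Finset.range (P.natDegree + 1),
      ∑ k ∈ Finset.range (P.natDegree + 1),
        P.coeff j * P.coeff k * ((QZ c0 b lam V)^[j] (Pi.single x0 1) x *
          (QZ c0 b lam V)^[k] (Pi.single x0 1) x) =
      ∑ j ∈ Finset.range (P.natDegree + 1), ∑ k ∈ Finset.range (P.natDegree + 1),
        P.coeff j * P.coeff k * ∑ x ∈ box h x0, ((QZ c0 b lam V)^[j] (Pi.single x0 1) x *
          (QZ c0 b lam V)^[k] (Pi.single x0 1) x) := by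
    rw [Finset.sum_comm]
    refine Finset.sum_congr rfl fun j _ => ?_
    rw [Finset.sum_comm]
    refine Finset.sum_congr rfl fun k _ => ?_
    rw [Finset.mul_sum]
  rw [Finset.sum_congr rfl e3, e4]
  refine Finset.sum_congr rfl fun j hj => ?_
  refine Finset.sum_congr rfl fun k hk => ?_
  congr 1
  have hkh : k ≤ h := by have := Finset.mem_range.1 hk; omega
  rw [add_comm j k, Function.iterate_add_apply, ← pair_single x0 ((QZ c0 b lam V)^[k]
    ((QZ c0 b lam V)^[j] (Pi.single x0 1))),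
    ← symm_iter c0 b lam V ((QZ c0 b lam V)^[j] (Pi.single x0 1)) k _ (FS.single x0)]
  rw [tsum_eq_sum (s := box h x0) fun x hx => by
    rw [(iter_props h c0 b lam V x0 k hkh).1 x hx, zero_mul]]
  exact Finset.sum_congr rfl fun x _ => by ring

open Pool.Agent.H541R3.AND.Deloc in
/-- delocalization down to energies of order `h⁻²`, from the decay of the heat kernel -/
theorem gen (d : ℕ) (hd : 1 ≤ d) (hd4 : d < 4) (K : ℝ) (hK : 0 ≤ K) (b D : ℝ)
    (hb : 2 * (4 * (d : ℝ) + 1) ≤ b) (hb2 : 2 * (K + 2) ≤ b) (hD : 0 < D)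
    (HT : ∀ (L : ℕ) [NeZero L] (lam E0 : ℝ) (V ψ : T d L → ℝ), (∀ x, 1 ≤ ψ x) → (∀ x, ψ x ≤ 2) →
      (∀ x, Hop lam V ψ x = E0 * ψ x) → ∀ (z : T d L) (n : ℕ),
        (∑ x, ((QT (E0 - 1 / (L : ℝ) ^ 2) b lam V)^[n] (Pi.single z 1) x) ^ 2) *
          (n : ℝ) ^ ((d : ℝ) / 2) ≤ D) :
    ∃ C : ℝ, 0 < C ∧
    ∀ (h : ℕ) (lam Es : ℝ) (V : Zd d → ℝ) (x0 : Zd d), 0 < h → GoodAt h lam K Es V x0 →
      ∀ κ : ℝ, 4 / (h : ℝ) ^ 2 ≤ κ → κ ≤ 1 →
      (∀ E : ℝ, E ≤ Es + κ → ∀ φ : Zd d → ℝ, Summable (fun x => φ x ^ 2) →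
        (∀ x, HZ lam V φ x = E * φ x) → φ x0 ^ 2 ≤ C * κ ^ ((d : ℝ) / 2) * ∑' x, φ x ^ 2) ∧
      ∀ m : Measure ℝ, IsFiniteMeasure m → (∀ j : ℕ, Integrable (fun E : ℝ => E ^ j) m ∧
        ∫ E, E ^ j ∂m = (HZ lam V)^[j] (Pi.single x0 1) x0) →
        m.real (Set.Iic (Es + κ)) ≤ C * κ ^ ((d : ℝ) / 2) := by
  have hd0 : (0 : ℝ) ≤ d := Nat.cast_nonneg d
  have hd4' : (d : ℝ) < 4 := by exact_mod_cast hd4
  have hb0 : 0 < b := by linarith
  obtain ⟨B, hB⟩ : ∃ B : ℝ, B = 4 * (1 + 4 * D) / (1 - (d : ℝ) / 4) ^ 2 := ⟨_, rfl⟩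
  have h14 : 0 < 1 - (d : ℝ) / 4 := by linarith
  have hB0 : 0 < B := by rw [hB]; positivity
  refine ⟨16 * (B * 4 ^ ((d : ℝ) / 2)), by positivity, ?_⟩
  intro h lam Es V x0 hpos hgood κ hκh hκ1
  obtain ⟨E0, ψ, hE0, hψ, heig⟩ := hgood
  have hh0 : (0 : ℝ) < h := by exact_mod_cast hpos
  have hκ0 : 0 < κ := lt_of_lt_of_le (by positivity) hκh
  obtain ⟨L, hL⟩ : ∃ L : ℕ, L = 2 * h + 1 := ⟨_, rfl⟩
  have hLh : ((2 * h + 1 : ℕ) : ℝ) = 2 * h + 1 := by push_cast; ring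
  -- the number of steps
  have hs0 : 0 < Real.sqrt κ := Real.sqrt_pos.2 hκ0
  have hs1 : Real.sqrt κ ≤ 1 := Real.sqrt_le_one.2 hκ1
  have hss : Real.sqrt κ ^ 2 = κ := Real.sq_sqrt hκ0.le
  obtain ⟨r, hr⟩ : ∃ r : ℕ, r = ⌊1 / Real.sqrt κ⌋₊ := ⟨_, rfl⟩
  have hinv : 1 ≤ 1 / Real.sqrt κ := by rw [le_div_iff₀ hs0]; linarith
  have hr1 : 1 ≤ r := by rw [hr]; exact Nat.floor_pos.2 hinv
  have hr1' : (1 : ℝ) ≤ r := by exact_mod_cast hr1
  have hrle : (r : ℝ) ≤ 1 / Real.sqrt κ := by rw [hr]; exact Nat.floor_le (by positivity)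
  have hrlt : 1 / Real.sqrt κ < r + 1 := by rw [hr]; exact Nat.lt_floor_add_one _
  have hrge : 1 / Real.sqrt κ ≤ 2 * r := by linarith
  have hrs : (r : ℝ) * Real.sqrt κ ≤ 1 := by
    rw [le_div_iff₀ hs0] at hrle; exact hrle
  have hrk : (r : ℝ) ^ 2 * κ ≤ 1 := by
    have : ((r : ℝ) * Real.sqrt κ) ^ 2 ≤ 1 := by
      have h0 : 0 ≤ (r : ℝ) * Real.sqrt κ := by positivity
      nlinarith
    rw [mul_pow, hss] at this
    exact this
  have hrh : 2 * (r - 1) ≤ h := by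
    have h1 : (2 : ℝ) / h ≤ Real.sqrt κ := by
      apply Real.le_sqrt_of_sq_le
      refine le_trans (le_of_eq ?_) hκh
      field_simp
      norm_num
    have h2 : 2 * (r : ℝ) ≤ h := by
      rw [div_le_iff₀ hh0] at h1
      have h3 : 2 * (r : ℝ) ≤ (Real.sqrt κ * h) * r :=
        mul_le_mul_of_nonneg_right h1 (by linarith)
      nlinarith
    have h3 : 2 * r ≤ h := by exact_mod_cast h2
    omega
  obtain ⟨P, hP1, hP2, hP3⟩ := cheb r hr1
  have hPh : P.natDegree ≤ h := hP1.trans hrh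
  obtain ⟨c0, hc0⟩ : ∃ c0 : ℝ, c0 = E0 - 1 / ((2 * h + 1 : ℕ) : ℝ) ^ 2 := ⟨_, rfl⟩
  have hLκ : 1 / ((2 * h + 1 : ℕ) : ℝ) ^ 2 ≤ κ := by
    refine le_trans ?_ hκh
    rw [hLh, div_le_div_iff₀ (by positivity) (by positivity)]
    nlinarith
  -- the torus estimate
  have hfil := filter (QL c0 b lam (VT h V x0)) (ql_symm c0 b lam (VT h V x0))
    (fun f => by
      rw [hc0]
      exact (ql_bounds b hb lam E0 (VT h V x0) ψ (fun x => (hψ x).1) (fun x => (hψ x).2) heig f).1)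
    (fun f => by
      rw [hc0]
      exact (ql_bounds b hb lam E0 (VT h V x0) ψ (fun x => (hψ x).1) (fun x => (hψ x).2) heig f).2)
    (Pi.single 0 1) ((d : ℝ) / 4) D (by positivity) (by linarith) hD.le
    (by
      rw [Finset.sum_eq_single 0]
      · simp
      · intro y _ hy
        rw [Pi.single_eq_of_ne hy]; simp
      · intro hn; exact absurd (Finset.mem_univ _) hn)
    (fun n => by
      have := HT (2 * h + 1) lam E0 (VT h V x0) ψ (fun x => (hψ x).1) (fun x => (hψ x).2) heig 0 n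
      rw [← hc0] at this
      rw [show 2 * ((d : ℝ) / 4) = (d : ℝ) / 2 by ring]
      exact this) (r ^ 2) (Nat.one_le_pow _ _ hr1) P hP2
  rw [show 2 * ((d : ℝ) / 4) = (d : ℝ) / 2 by ring, ← hB] at hfil
  obtain ⟨hp1, hp2⟩ := pol_box h c0 b lam V x0 P hPh
  have hfil' : (∑ x ∈ box h x0, (pol P (QZ c0 b lam V) (Pi.single x0 1) x) ^ 2) *
      (((r ^ 2 : ℕ) : ℝ)) ^ ((d : ℝ) / 2) ≤ B := by
    rw [hp2]; exact hfil
  obtain ⟨f, hf⟩ : ∃ f : Zd d → ℝ, f = pol P (QZ c0 b lam V) (Pi.single x0 1) := ⟨_, rfl⟩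
  rw [← hf] at hfil' hp1
  have hS0 : 0 ≤ ∑ x ∈ box h x0, f x ^ 2 := Finset.sum_nonneg fun x _ => sq_nonneg _
  have hS1 : ∑ x ∈ box h x0, f x ^ 2 ≤ B * 4 ^ ((d : ℝ) / 2) * κ ^ ((d : ℝ) / 2) := by
    have h1 : 1 ≤ (((r ^ 2 : ℕ) : ℝ)) ^ ((d : ℝ) / 2) * (4 ^ ((d : ℝ) / 2) * κ ^ ((d : ℝ) / 2)) := by
      rw [← Real.mul_rpow (by norm_num) hκ0.le, ← Real.mul_rpow (by positivity) (by positivity)]
      apply Real.one_le_rpow _ (by positivity)
      rw [div_le_iff₀ hs0] at hrge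
      push_cast
      have h2 : 1 ≤ (2 * (r : ℝ) * Real.sqrt κ) ^ 2 := by nlinarith
      rw [mul_pow, mul_pow, hss] at h2
      linarith
    calc ∑ x ∈ box h x0, f x ^ 2 ≤ (∑ x ∈ box h x0, f x ^ 2) *
          ((((r ^ 2 : ℕ) : ℝ)) ^ ((d : ℝ) / 2) * (4 ^ ((d : ℝ) / 2) * κ ^ ((d : ℝ) / 2))) :=
          le_mul_of_one_le_right hS0 h1
      _ = ((∑ x ∈ box h x0, f x ^ 2) * (((r ^ 2 : ℕ) : ℝ)) ^ ((d : ℝ) / 2)) *
          (4 ^ ((d : ℝ) / 2) * κ ^ ((d : ℝ) / 2)) := by ring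
      _ ≤ B * (4 ^ ((d : ℝ) / 2) * κ ^ ((d : ℝ) / 2)) :=
          mul_le_mul_of_nonneg_right hfil' (by positivity)
      _ = _ := by ring
  have hq : ∀ E : ℝ, E ≤ Es + κ → 1 / 4 ≤ P.eval (q c0 b E) := by
    intro E hE
    apply hP3
    have h1 : K / ((2 * h + 1 : ℕ) : ℝ) ^ 2 ≤ K * κ := by
      rw [div_eq_mul_one_div]
      exact mul_le_mul_of_nonneg_left hLκ hK
    have h2 : E - c0 ≤ (K + 2) * κ := by
      rw [hc0]
      have := (abs_le.1 hE0).1
      linarith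
    unfold q
    have h3 : 1 / b * (E - c0) ≤ 1 / b * ((K + 2) * κ) :=
      mul_le_mul_of_nonneg_left h2 (by positivity)
    have h4 : 1 / b * ((K + 2) * κ) ≤ 1 / (2 * (r : ℝ) ^ 2) := by
      rw [← mul_div_right_comm, one_mul, div_le_div_iff₀ hb0 (by positivity)]
      have h5 : (K + 2) * κ * (2 * (r : ℝ) ^ 2) = 2 * (K + 2) * ((r : ℝ) ^ 2 * κ) := by ring
      rw [h5, one_mul]
      have h6 : 2 * (K + 2) * ((r : ℝ) ^ 2 * κ) ≤ 2 * (K + 2) * 1 :=
        mul_le_mul_of_nonneg_left hrk (by linarith)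
      linarith
    linarith
  refine ⟨fun E hE φ hφ hφE => ?_, fun m _ hm => ?_⟩
  · have h1 := pol_eig c0 b lam E V φ P x0 hφE
    rw [← hf] at h1
    have h2 : ∑' x, f x * φ x = ∑ x ∈ box h x0, f x * φ x :=
      tsum_eq_sum fun x hx => by rw [hp1 x hx, zero_mul]
    rw [h2] at h1
    have h3 := Finset.sum_mul_sq_le_sq_mul_sq (box h x0) f φ
    rw [h1] at h3
    have h4 : ∑ x ∈ box h x0, φ x ^ 2 ≤ ∑' x, φ x ^ 2 :=
      hφ.sum_le_tsum _ (fun x _ => sq_nonneg _)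
    have h6 := hq E hE
    have h7 : (1 / 4 : ℝ) ^ 2 * φ x0 ^ 2 ≤ (P.eval (q c0 b E) * φ x0) ^ 2 := by
      rw [mul_pow]
      exact mul_le_mul_of_nonneg_right (pow_le_pow_left₀ (by norm_num) h6 2) (sq_nonneg _)
    have h8 : (∑ x ∈ box h x0, f x ^ 2) * ∑ x ∈ box h x0, φ x ^ 2 ≤
        B * 4 ^ ((d : ℝ) / 2) * κ ^ ((d : ℝ) / 2) * ∑' x, φ x ^ 2 :=
      mul_le_mul hS1 h4 (Finset.sum_nonneg fun x _ => sq_nonneg _) (by positivity)
    have e4 : 16 * (B * 4 ^ ((d : ℝ) / 2)) * κ ^ ((d : ℝ) / 2) * ∑' x, φ x ^ 2 =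
        16 * (B * 4 ^ ((d : ℝ) / 2) * κ ^ ((d : ℝ) / 2) * ∑' x, φ x ^ 2) := by ring
    rw [e4]
    linarith
  · obtain ⟨hi, h1⟩ := pol_moment c0 b lam V P x0 h hPh m hm
    rw [← hf] at h1
    have h3 : m.real (Set.Iic (Es + κ)) * (1 / 16) ≤ ∫ E, P.eval (q c0 b E) ^ 2 ∂m := by
      have h4 : ∫ E in Set.Iic (Es + κ), (1 / 16 : ℝ) ∂m ≤
          ∫ E in Set.Iic (Es + κ), P.eval (q c0 b E) ^ 2 ∂m := by
        refine setIntegral_mono_on (integrable_const _).integrableOn hi.integrableOn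
          measurableSet_Iic fun E hE => ?_
        have h5 := hq E hE
        nlinarith
      rw [setIntegral_const, smul_eq_mul] at h4
      refine h4.trans (setIntegral_le_integral hi ?_)
      exact Filter.Eventually.of_forall fun E => sq_nonneg _
    rw [h1] at h3
    have e4 : 16 * (B * 4 ^ ((d : ℝ) / 2)) * κ ^ ((d : ℝ) / 2) =
        16 * (B * 4 ^ ((d : ℝ) / 2) * κ ^ ((d : ℝ) / 2)) := by ring
    rw [e4]
    linarith

open Pool.Agent.H541R3.AND.Deloc in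
theorem main3 (K : ℝ) (hK : 0 ≤ K) : ∃ C : ℝ, 0 < C ∧
    ∀ (h : ℕ) (lam Es : ℝ) (V : Zd 3 → ℝ) (x0 : Zd 3), 0 < h → GoodAt h lam K Es V x0 →
      ∀ κ : ℝ, 4 / (h : ℝ) ^ 2 ≤ κ → κ ≤ 1 →
      (∀ E : ℝ, E ≤ Es + κ → ∀ φ : Zd 3 → ℝ, Summable (fun x => φ x ^ 2) →
        (∀ x, HZ lam V φ x = E * φ x) →
          φ x0 ^ 2 ≤ C * κ ^ (((3 : ℕ) : ℝ) / 2) * ∑' x, φ x ^ 2) ∧
      ∀ m : Measure ℝ, IsFiniteMeasure m → (∀ j : ℕ, Integrable (fun E : ℝ => E ^ j) m ∧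
        ∫ E, E ^ j ∂m = (HZ lam V)^[j] (Pi.single x0 1) x0) →
        m.real (Set.Iic (Es + κ)) ≤ C * κ ^ (((3 : ℕ) : ℝ) / 2) := by
  have hb : 2 * (4 * (((3 : ℕ) : ℝ)) + 1) ≤ 2 * (4 * (((3 : ℕ) : ℝ)) + 1) + 2 * (K + 2) := by
    linarith
  obtain ⟨D, hD, HT⟩ := torus 3 le_rfl _ hb
  exact gen 3 (by norm_num) (by norm_num) K hK _ D hb (by push_cast; linarith) hD HT

end Pool.Agent.K3h4.AN.Dl
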