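import Pool.Agent.Y663.Mg
import Pool.Agent.K3h4.AN.Dl

/-! # Two dimensions: Green functions, heat kernels, flat ground states -/

set_option autoImplicit false

open scoped BigOperators

namespace Pool.Agent.K3h4.AN.G2

open Pool.Agent.H4R2
open Pool.Agent.H4R2.AE (T LapW Hop)

variable {L : ℕ} [NeZero L]

theorem pw (p : ℕ) (a b : ℝ) (ha : 0 ≤ a) (hb : 0 ≤ b) :
    |b ^ (p + 1) - a ^ (p + 1)| ≤ (p + 1) * ((a ^ p + b ^ p) * |b - a|) := by
  have h := abs_pow_sub_pow_le b a (p + 1)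
  rw [Nat.add_sub_cancel, abs_of_nonneg ha, abs_of_nonneg hb] at h
  refine h.trans ?_
  push_cast
  have h1 : max b a ^ p ≤ a ^ p + b ^ p := by
    rcases le_total a b with hab | hab
    · rw [max_eq_left hab]
      have := pow_nonneg ha p
      linarith
    · rw [max_eq_right hab]
      have := pow_nonneg hb p
      linarith
  calc |b - a| * ((p : ℝ) + 1) * max b a ^ p ≤ |b - a| * ((p : ℝ) + 1) * (a ^ p + b ^ p) := by
        gcongr
    _ = _ := by ring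

/-- Gagliardo-Nirenberg type inequality, `d = 2` -/
theorem gn (p : ℕ) (v : T 2 L → ℝ) (hv : ∀ x, 0 ≤ v x) :
    ∑ x, v x ^ (2 * (p + 1)) ≤ (8 * (p + 1) ^ 2 + 4) *
      (∑ i : Fin 2, ∑ x, (v (x + Pi.single i 1) - v x) ^ 2 + 1 / (L : ℝ) ^ 2 * ∑ x, v x ^ 2) *
        ∑ x, v x ^ (2 * p) := by
  have hL := AE.Core.L_pos (L := L)
  have hs := AE.Sob.sobolev 2 L le_rfl (fun x => v x ^ (p + 1)) (fun x => pow_nonneg (hv x) _)
  obtain ⟨E, hE⟩ : ∃ z : ℝ, z = ∑ i : Fin 2, ∑ x, (v (x + Pi.single i 1) - v x) ^ 2 := ⟨_, rfl⟩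
  obtain ⟨B, hB⟩ : ∃ z : ℝ, z = ∑ x, v x ^ 2 := ⟨_, rfl⟩
  obtain ⟨S, hS⟩ : ∃ z : ℝ, z = ∑ x, v x ^ (2 * p) := ⟨_, rfl⟩
  obtain ⟨W, hW⟩ : ∃ z : ℝ, z = ∑ x, v x ^ (2 * (p + 1)) := ⟨_, rfl⟩
  have hE0 : 0 ≤ E := by
    rw [hE]; exact Finset.sum_nonneg fun i _ => Finset.sum_nonneg fun x _ => sq_nonneg _
  have hB0 : 0 ≤ B := by rw [hB]; exact Finset.sum_nonneg fun x _ => sq_nonneg _
  have hS0 : 0 ≤ S := by rw [hS]; exact Finset.sum_nonneg fun x _ => pow_nonneg (hv x) _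
  have hW0 : 0 ≤ W := by rw [hW]; exact Finset.sum_nonneg fun x _ => pow_nonneg (hv x) _
  rw [← hE, ← hB, ← hS, ← hW]
  have e1 : ∑ x, (fun x => v x ^ (p + 1)) x ^ (((2 : ℕ) : ℝ) / (((2 : ℕ) : ℝ) - 1)) = W := by
    rw [hW]
    refine Finset.sum_congr rfl fun x _ => ?_
    have : ((2 : ℕ) : ℝ) / (((2 : ℕ) : ℝ) - 1) = ((2 : ℕ) : ℝ) := by norm_num
    rw [this, Real.rpow_natCast, ← pow_mul]
    congr 1
    ring
  have e2 : (((2 : ℕ) : ℝ) - 1) / ((2 : ℕ) : ℝ) = 1 / 2 := by norm_num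
  rw [e1, e2, ← Real.sqrt_eq_rpow] at hs
  -- gradient part
  have hD : ∑ i : Fin 2, ∑ x, |v (x + Pi.single i 1) ^ (p + 1) - v x ^ (p + 1)| ≤
      (p + 1) * (Real.sqrt (8 * S) * Real.sqrt E) := by
    have st : ∀ i : Fin 2, ∀ x : T 2 L, |v (x + Pi.single i 1) ^ (p + 1) - v x ^ (p + 1)| ≤
        (p + 1) * (Real.sqrt ((v x ^ p + v (x + Pi.single i 1) ^ p) ^ 2) *
          Real.sqrt ((v (x + Pi.single i 1) - v x) ^ 2)) := by
      intro i x
      rw [Real.sqrt_sq (add_nonneg (pow_nonneg (hv _) _) (pow_nonneg (hv _) _)), Real.sqrt_sq_eq_abs]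
      exact pw p _ _ (hv _) (hv _)
    have h1 : ∑ i : Fin 2, ∑ x : T 2 L, Real.sqrt ((v x ^ p + v (x + Pi.single i 1) ^ p) ^ 2) *
          Real.sqrt ((v (x + Pi.single i 1) - v x) ^ 2) ≤ Real.sqrt (∑ i : Fin 2, ∑ x : T 2 L,
            (v x ^ p + v (x + Pi.single i 1) ^ p) ^ 2) * Real.sqrt E := by
      rw [hE, ← Finset.sum_product', ← Finset.sum_product', ← Finset.sum_product']
      exact Real.sum_sqrt_mul_sqrt_le _ (fun y => sq_nonneg _) (fun y => sq_nonneg _)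
    have h2 : ∑ i : Fin 2, ∑ x : T 2 L, (v x ^ p + v (x + Pi.single i 1) ^ p) ^ 2 ≤ 8 * S := by
      have h3 : ∀ i : Fin 2, ∑ x : T 2 L, (v x ^ p + v (x + Pi.single i 1) ^ p) ^ 2 ≤ 4 * S := by
        intro i
        have h4 : ∑ x : T 2 L, (v x ^ p + v (x + Pi.single i 1) ^ p) ^ 2 ≤
            ∑ x : T 2 L, (2 * v x ^ (2 * p) + 2 * v (x + Pi.single i 1) ^ (2 * p)) := by
          refine Finset.sum_le_sum fun x _ => ?_
          rw [pow_mul' (v x) 2 p, pow_mul' (v (x + Pi.single i 1)) 2 p]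
          nlinarith [sq_nonneg (v x ^ p - v (x + Pi.single i 1) ^ p)]
        refine h4.trans (le_of_eq ?_)
        rw [Finset.sum_add_distrib, ← Finset.mul_sum, ← Finset.mul_sum,
          AE.Green.sum_shift (fun x => v x ^ (2 * p)) (Pi.single i 1), ← hS]
        ring
      refine (Finset.sum_le_sum fun i _ => h3 i).trans (le_of_eq ?_)
      rw [Finset.sum_const, Finset.card_univ, Fintype.card_fin, nsmul_eq_mul]
      push_cast
      ring
    calc ∑ i : Fin 2, ∑ x, |v (x + Pi.single i 1) ^ (p + 1) - v x ^ (p + 1)|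
        ≤ ∑ i : Fin 2, ∑ x : T 2 L, ((p : ℝ) + 1) * (Real.sqrt ((v x ^ p +
          v (x + Pi.single i 1) ^ p) ^ 2) * Real.sqrt ((v (x + Pi.single i 1) - v x) ^ 2)) :=
          Finset.sum_le_sum fun i _ => Finset.sum_le_sum fun x _ => st i x
      _ = ((p : ℝ) + 1) * ∑ i : Fin 2, ∑ x : T 2 L, Real.sqrt ((v x ^ p +
          v (x + Pi.single i 1) ^ p) ^ 2) * Real.sqrt ((v (x + Pi.single i 1) - v x) ^ 2) := by
          rw [Finset.mul_sum]
          refine Finset.sum_congr rfl fun i _ => ?_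
          rw [Finset.mul_sum]
      _ ≤ ((p : ℝ) + 1) * (Real.sqrt (∑ i : Fin 2, ∑ x : T 2 L,
            (v x ^ p + v (x + Pi.single i 1) ^ p) ^ 2) * Real.sqrt E) := by gcongr
      _ ≤ _ := by gcongr
  have hM : ∑ x, v x ^ (p + 1) ≤ Real.sqrt B * Real.sqrt S := by
    have st : ∀ x, v x ^ (p + 1) = Real.sqrt (v x ^ 2) * Real.sqrt (v x ^ (2 * p)) := by
      intro x
      rw [Real.sqrt_sq (hv x), pow_mul' (v x) 2 p, Real.sqrt_sq (pow_nonneg (hv x) _), pow_succ]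
      ring
    rw [Finset.sum_congr rfl fun x _ => st x, hB, hS]
    exact Real.sum_sqrt_mul_sqrt_le _ (fun x => sq_nonneg _) (fun x => pow_nonneg (hv x) _)
  have hmain : Real.sqrt W ≤ Real.sqrt S * (((p : ℝ) + 1) * (Real.sqrt 8 * Real.sqrt E) +
      2 * (Real.sqrt B / L)) := by
    refine hs.trans ?_
    have h8 : Real.sqrt (8 * S) = Real.sqrt 8 * Real.sqrt S := Real.sqrt_mul (by norm_num) S
    have h1 : ((2 : ℕ) : ℝ) / (L : ℝ) * ∑ x, v x ^ (p + 1) ≤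
        ((2 : ℕ) : ℝ) / (L : ℝ) * (Real.sqrt B * Real.sqrt S) := by gcongr
    rw [h8] at hD
    refine (add_le_add hD h1).trans (le_of_eq ?_)
    push_cast
    ring
  have hfin : W ≤ (Real.sqrt S * (((p : ℝ) + 1) * (Real.sqrt 8 * Real.sqrt E) +
      2 * (Real.sqrt B / L))) ^ 2 := by
    rw [← Real.sqrt_le_left (by positivity)]
    exact hmain
  refine hfin.trans ?_
  rw [mul_pow, Real.sq_sqrt hS0]
  have e8 : Real.sqrt 8 ^ 2 = 8 := Real.sq_sqrt (by norm_num)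
  have eE : Real.sqrt E ^ 2 = E := Real.sq_sqrt hE0
  have eB : (Real.sqrt B / L) ^ 2 = 1 / (L : ℝ) ^ 2 * B := by
    rw [div_pow, Real.sq_sqrt hB0]; ring
  obtain ⟨a, ha⟩ : ∃ z : ℝ, z = ((p : ℝ) + 1) * Real.sqrt 8 := ⟨_, rfl⟩
  obtain ⟨y, hy⟩ : ∃ z : ℝ, z = Real.sqrt B / L := ⟨_, rfl⟩
  have ha2 : 8 * ((p : ℝ) + 1) ^ 2 = a ^ 2 := by rw [ha, mul_pow, e8]; ring
  have h9 : (((p : ℝ) + 1) * (Real.sqrt 8 * Real.sqrt E) + 2 * (Real.sqrt B / L)) ^ 2 ≤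
      (8 * ((p : ℝ) + 1) ^ 2 + 4) * (E + 1 / (L : ℝ) ^ 2 * B) := by
    rw [← eB, ← hy, ha2]
    nth_rewrite 2 [← eE]
    have : ((p : ℝ) + 1) * (Real.sqrt 8 * Real.sqrt E) = a * Real.sqrt E := by rw [ha]; ring
    rw [this]
    nlinarith [sq_nonneg (a * y - 2 * Real.sqrt E)]
  calc S * (((p : ℝ) + 1) * (Real.sqrt 8 * Real.sqrt E) + 2 * (Real.sqrt B / L)) ^ 2 ≤
        S * ((8 * ((p : ℝ) + 1) ^ 2 + 4) * (E + 1 / (L : ℝ) ^ 2 * B)) := by gcongr
    _ = _ := by ring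

/-- weak `ℓ³` bound, `d = 2` -/
theorem weak2 (κ : ℝ) (hκ : 0 < κ) (hκL : 1 / (8 * (L : ℝ) ^ 2) ≤ κ) (u h : T 2 L → ℝ) (z : T 2 L)
    (hu : ∀ x, 1 / 2 ≤ u x) (hh : ∀ x, 0 ≤ h x)
    (he : ∀ x, LapW u h x + κ * h x = if x = z then 1 else 0) (t : ℝ) (ht : 0 < t) :
    ((Finset.univ.filter fun x => t ≤ h x).card : ℝ) * t ^ (3 : ℝ) ≤ 2 ^ 19 / κ := by
  have hL := AE.Core.L_pos (L := L)
  obtain ⟨v, hv⟩ : ∃ v : T 2 L → ℝ, v = fun x => min (h x) t := ⟨_, rfl⟩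
  have hvx : ∀ x, v x = min (h x) t := fun x => by rw [hv]
  have hv0 : ∀ x, 0 ≤ v x := fun x => by rw [hvx]; exact le_min (hh x) ht.le
  have hvh : ∀ x, v x ≤ h x := fun x => by rw [hvx]; exact min_le_left _ _
  have hvt : ∀ x, v x ≤ t := fun x => by rw [hvx]; exact min_le_right _ _
  obtain ⟨E, hE⟩ : ∃ z : ℝ, z = ∑ i : Fin 2, ∑ x, (v (x + Pi.single i 1) - v x) ^ 2 := ⟨_, rfl⟩
  obtain ⟨B, hB⟩ : ∃ z : ℝ, z = ∑ x, v x ^ 2 := ⟨_, rfl⟩
  have hE0 : 0 ≤ E := by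
    rw [hE]; exact Finset.sum_nonneg fun i _ => Finset.sum_nonneg fun x _ => sq_nonneg _
  have hB0 : 0 ≤ B := by rw [hB]; exact Finset.sum_nonneg fun x _ => sq_nonneg _
  have h1 : ∑ x, v x * LapW u h x + κ * ∑ x, v x * h x ≤ t := by
    rw [Finset.mul_sum, ← Finset.sum_add_distrib]
    have e1 : ∑ x, (v x * LapW u h x + κ * (v x * h x)) = v z := by
      have : ∀ x, v x * LapW u h x + κ * (v x * h x) = v x * (if x = z then 1 else 0) := by
        intro x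
        rw [← he x]; ring
      simp only [this]
      simp
    rw [e1]
    exact hvt z
  have h2 : 1 / 4 * E ≤ ∑ x, v x * LapW u h x := by
    rw [AE.Lin.bilin, hE, Finset.sum_comm, Finset.mul_sum]
    refine Finset.sum_le_sum fun x _ => ?_
    rw [Finset.mul_sum]
    refine Finset.sum_le_sum fun i _ => ?_
    have a1 : 1 / 4 ≤ u x * u (x + Pi.single i 1) := by
      have := hu x
      have := hu (x + Pi.single i 1)
      nlinarith
    have a2 : (v (x + Pi.single i 1) - v x) ^ 2 ≤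
        (v x - v (x + Pi.single i 1)) * (h x - h (x + Pi.single i 1)) := by
      rw [hvx, hvx]
      exact AE.Weak.trunc _ _ _
    calc 1 / 4 * (v (x + Pi.single i 1) - v x) ^ 2 ≤
          (u x * u (x + Pi.single i 1)) * (v (x + Pi.single i 1) - v x) ^ 2 :=
          mul_le_mul_of_nonneg_right a1 (sq_nonneg _)
      _ ≤ _ := mul_le_mul_of_nonneg_left a2 (by linarith)
  have h3 : B ≤ ∑ x, v x * h x := by
    rw [hB]
    refine Finset.sum_le_sum fun x _ => ?_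
    rw [pow_two]
    exact mul_le_mul_of_nonneg_left (hvh x) (hv0 x)
  have h3' : κ * B ≤ κ * ∑ x, v x * h x := mul_le_mul_of_nonneg_left h3 hκ.le
  have hκB0 : 0 ≤ κ * B := by positivity
  have hEt : E ≤ 4 * t := by linarith
  have hBt : B ≤ t / κ := by
    rw [le_div_iff₀ hκ]
    linarith
  have hBL : 1 / (L : ℝ) ^ 2 * B ≤ 8 * t := by
    have h5 : 1 / (L : ℝ) ^ 2 ≤ 8 * κ := by
      have : 1 / (L : ℝ) ^ 2 = 8 * (1 / (8 * (L : ℝ) ^ 2)) := by field_simp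
      rw [this]; gcongr
    calc 1 / (L : ℝ) ^ 2 * B ≤ 8 * κ * B := by gcongr
      _ ≤ 8 * t := by linarith
  have hQ : E + 1 / (L : ℝ) ^ 2 * B ≤ 12 * t := by linarith
  have hQ0 : 0 ≤ E + 1 / (L : ℝ) ^ 2 * B := by positivity
  have g1 := gn 1 v hv0
  have g2 := gn 2 v hv0
  rw [← hE] at g1 g2
  norm_num at g1 g2
  rw [← hB] at g1 g2
  have hQ' : E + ((L : ℝ) ^ 2)⁻¹ * B ≤ 12 * t := by rw [← one_div]; exact hQ
  have hQ0' : 0 ≤ E + ((L : ℝ) ^ 2)⁻¹ * B := by positivity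
  have h4 : ∑ x, v x ^ 4 ≤ 36 * (12 * t) * (t / κ) := by
    refine g1.trans ?_
    gcongr
  have h6 : ∑ x, v x ^ 6 ≤ 76 * (12 * t) * (36 * (12 * t) * (t / κ)) := by
    refine g2.trans ?_
    gcongr
  have h7 : ((Finset.univ.filter fun x => t ≤ h x).card : ℝ) * t ^ 6 ≤ ∑ x, v x ^ 6 := by
    have e1 : ∑ x ∈ Finset.univ.filter (fun x => t ≤ h x), v x ^ 6 ≤ ∑ x, v x ^ 6 :=
      Finset.sum_le_sum_of_subset_of_nonneg (Finset.filter_subset _ _)
        fun x _ _ => pow_nonneg (hv0 x) _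
    refine le_trans (le_of_eq ?_) e1
    have e2 : ∀ x ∈ Finset.univ.filter (fun x => t ≤ h x), v x ^ 6 = t ^ 6 := by
      intro x hx
      rw [Finset.mem_filter] at hx
      rw [hvx, min_eq_right hx.2]
    rw [Finset.sum_congr rfl e2, Finset.sum_const, nsmul_eq_mul]
  have h8 : ((Finset.univ.filter fun x => t ≤ h x).card : ℝ) * t ^ 3 * t ^ 3 ≤
      (2 ^ 19 / κ) * t ^ 3 := by
    calc ((Finset.univ.filter fun x => t ≤ h x).card : ℝ) * t ^ 3 * t ^ 3 =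
          ((Finset.univ.filter fun x => t ≤ h x).card : ℝ) * t ^ 6 := by ring
      _ ≤ 76 * (12 * t) * (36 * (12 * t) * (t / κ)) := h7.trans h6
      _ = (393984 / κ) * t ^ 3 := by ring
      _ ≤ _ := by gcongr; norm_num
  have h9 := le_of_mul_le_mul_right h8 (by positivity)
  have e3 : t ^ (3 : ℝ) = t ^ 3 := by
    rw [show (3 : ℝ) = ((3 : ℕ) : ℝ) by norm_num, Real.rpow_natCast]
  rw [e3]
  exact h9

/-- `ℓ²` bound for massive Green functions, `d = 2` -/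
theorem green2 (κ : ℝ) (hκ : 0 < κ) (hκL : 1 / (8 * (L : ℝ) ^ 2) ≤ κ) (u Gr : T 2 L → ℝ)
    (z : T 2 L) (hu : ∀ x, 1 / 2 ≤ u x) (hGr : ∀ x, 0 ≤ Gr x)
    (hh : ∀ x, LapW u Gr x + κ * Gr x = if x = z then 1 else 0) :
    ∑ x, Gr x ^ 2 ≤ 2 ^ 12 / κ := by
  have h1 := weak2 κ hκ hκL u Gr z hu hGr hh
  have h2 : ∑ x, Gr x ≤ 1 / κ := by
    have h3 : ∑ x, (LapW u Gr x + κ * Gr x) = 1 := by
      rw [Finset.sum_congr rfl fun x _ => hh x]
      simp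
    rw [Finset.sum_add_distrib, AE.Lin.sum_lapW, zero_add, ← Finset.mul_sum] at h3
    rw [le_div_iff₀ hκ]
    linarith
  have h3 := Pool.Agent.Y663.Mg.l2_of_weak Gr (2 ^ 19 / κ) (1 / κ) hGr (by positivity)
    (by positivity) h1 h2
  refine h3.trans ?_
  have h4 : Real.sqrt (2 ^ 19 / κ * (1 / κ)) ≤ 2 ^ 10 / κ := by
    rw [Real.sqrt_le_left (by positivity)]
    have : 2 ^ 19 / κ * (1 / κ) = 2 ^ 19 / κ ^ 2 := by field_simp
    rw [this, div_pow]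
    gcongr
    norm_num
  calc 4 * Real.sqrt (2 ^ 19 / κ * (1 / κ)) ≤ 4 * (2 ^ 10 / κ) := by linarith
    _ = 2 ^ 12 / κ := by ring

/-- Nash inequality, `d = 2` -/
theorem nash (g : T 2 L → ℝ) :
    (∑ x, g x ^ 2) ^ 2 ≤ 36 * (∑ i : Fin 2, ∑ x, (g (x + Pi.single i 1) - g x) ^ 2 +
      1 / (L : ℝ) ^ 2 * ∑ x, g x ^ 2) * (∑ x, |g x|) ^ 2 := by
  have hL := AE.Core.L_pos (L := L)
  obtain ⟨E, hE⟩ : ∃ z : ℝ, z = ∑ i : Fin 2, ∑ x, (|g (x + Pi.single i 1)| - |g x|) ^ 2 := ⟨_, rfl⟩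
  obtain ⟨E', hE'⟩ : ∃ z : ℝ, z = ∑ i : Fin 2, ∑ x, (g (x + Pi.single i 1) - g x) ^ 2 := ⟨_, rfl⟩
  obtain ⟨B, hB⟩ : ∃ z : ℝ, z = ∑ x, g x ^ 2 := ⟨_, rfl⟩
  obtain ⟨W, hW⟩ : ∃ z : ℝ, z = ∑ x, |g x| := ⟨_, rfl⟩
  obtain ⟨S3, hS3⟩ : ∃ z : ℝ, z = ∑ x, |g x| ^ 3 := ⟨_, rfl⟩
  obtain ⟨S4, hS4⟩ : ∃ z : ℝ, z = ∑ x, |g x| ^ 4 := ⟨_, rfl⟩
  have hEE : E ≤ E' := by
    rw [hE, hE']
    refine Finset.sum_le_sum fun i _ => Finset.sum_le_sum fun x _ => ?_
    rw [← sq_abs (|g (x + Pi.single i 1)| - |g x|), ← sq_abs (g (x + Pi.single i 1) - g x)]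
    exact pow_le_pow_left₀ (abs_nonneg _) (abs_abs_sub_abs_le _ _) 2
  have hB0 : 0 ≤ B := by rw [hB]; exact Finset.sum_nonneg fun x _ => sq_nonneg _
  have hE'0 : 0 ≤ E' := by
    rw [hE']; exact Finset.sum_nonneg fun i _ => Finset.sum_nonneg fun x _ => sq_nonneg _
  have hW0 : 0 ≤ W := by rw [hW]; exact Finset.sum_nonneg fun x _ => abs_nonneg _
  have hS30 : 0 ≤ S3 := by rw [hS3]; exact Finset.sum_nonneg fun x _ => by positivity
  have hS40 : 0 ≤ S4 := by rw [hS4]; exact Finset.sum_nonneg fun x _ => by positivity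
  rw [← hB, ← hE', ← hW]
  have g1 := gn 1 (fun x => |g x|) (fun x => abs_nonneg _)
  beta_reduce at g1
  rw [← hE] at g1
  norm_num at g1
  rw [← hB, ← hS4] at g1
  have g2 : S4 ≤ 36 * (E' + 1 / (L : ℝ) ^ 2 * B) * B := by
    rw [one_div]
    refine g1.trans ?_
    gcongr
  have c1 : B ^ 2 ≤ W * S3 := by
    have h := Finset.sum_mul_sq_le_sq_mul_sq Finset.univ (fun x => Real.sqrt |g x|)
      (fun x => Real.sqrt |g x| * |g x|)
    have e1 : ∑ x, Real.sqrt |g x| * (Real.sqrt |g x| * |g x|) = B := by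
      rw [hB]
      refine Finset.sum_congr rfl fun x _ => ?_
      rw [← mul_assoc, Real.mul_self_sqrt (abs_nonneg _), ← pow_two, sq_abs]
    have e2 : ∑ x, Real.sqrt |g x| ^ 2 = W := by
      rw [hW]
      exact Finset.sum_congr rfl fun x _ => Real.sq_sqrt (abs_nonneg _)
    have e3 : ∑ x, (Real.sqrt |g x| * |g x|) ^ 2 = S3 := by
      rw [hS3]
      refine Finset.sum_congr rfl fun x _ => ?_
      rw [mul_pow, Real.sq_sqrt (abs_nonneg _)]
      ring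
    rw [e1, e2, e3] at h
    exact h
  have c2 : S3 ^ 2 ≤ B * S4 := by
    have h := Finset.sum_mul_sq_le_sq_mul_sq Finset.univ (fun x => |g x|) (fun x => |g x| ^ 2)
    have e1 : ∑ x, |g x| * |g x| ^ 2 = S3 := by
      rw [hS3]
      exact Finset.sum_congr rfl fun x _ => by ring
    have e2 : ∑ x, |g x| ^ 2 = B := by
      rw [hB]
      exact Finset.sum_congr rfl fun x _ => sq_abs _
    have e3 : ∑ x, (|g x| ^ 2) ^ 2 = S4 := by
      rw [hS4]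
      exact Finset.sum_congr rfl fun x _ => by ring
    rw [e1, e2, e3] at h
    exact h
  rcases hB0.lt_or_eq with hBp | hBz
  · have h1 : B ^ 4 ≤ W ^ 2 * (B * S4) := by
      calc B ^ 4 = (B ^ 2) ^ 2 := by ring
        _ ≤ (W * S3) ^ 2 := pow_le_pow_left₀ (by positivity) c1 2
        _ = W ^ 2 * S3 ^ 2 := by ring
        _ ≤ W ^ 2 * (B * S4) := by gcongr
    have h2 : B ^ 4 ≤ W ^ 2 * (B * (36 * (E' + 1 / (L : ℝ) ^ 2 * B) * B)) := by
      refine h1.trans ?_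
      gcongr
    have h3 : B ^ 2 * B ^ 2 ≤ (36 * (E' + 1 / (L : ℝ) ^ 2 * B) * W ^ 2) * B ^ 2 := by
      calc B ^ 2 * B ^ 2 = B ^ 4 := by ring
        _ ≤ _ := h2
        _ = _ := by ring
    exact le_of_mul_le_mul_right h3 (by positivity)
  · rw [← hBz]
    have : 0 ≤ 36 * (E' + 1 / (L : ℝ) ^ 2 * 0) * W ^ 2 := by
      rw [mul_zero, add_zero]; positivity
    simpa using this

open Pool.Agent.H541R3.AND.Nash in
theorem decay (d : ℕ) (hd : 2 ≤ d) (C : ℝ) (hC : 1 ≤ C)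
    (hnash : ∀ (L : ℕ) [NeZero L] (u g : T d L → ℝ), (∀ x, 1 ≤ u x) →
      (∑ x, g x ^ 2) ^ (((d : ℝ) + 2) / d) ≤ C * Qf u g * (∑ x, |g x|) ^ (4 / (d : ℝ)))
    (b : ℝ) (hb : 2 * (4 * (d : ℝ) + 1) ≤ b) : ∃ C : ℝ, 0 < C ∧
    ∀ (L : ℕ) [NeZero L] (u g : T d L → ℝ), (∀ x, 1 ≤ u x) → (∀ x, u x ≤ 2) →
      ∑ x, u x ^ 2 * |g x| ≤ 2 → ∀ n : ℕ,
        (∑ x, u x ^ 2 * ((Pg b u)^[n] g x) ^ 2) * (n : ℝ) ^ ((d : ℝ) / 2) ≤ C := by
  have hd3 : (2 : ℝ) ≤ d := by exact_mod_cast hd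
  have hd0 : 0 < (d : ℝ) := by linarith
  have hb0 : 0 < b := by linarith
  set c : ℝ := 1 / b * ((1 / 4 : ℝ) ^ (((d : ℝ) + 2) / d) / (C * 2 ^ (4 / (d : ℝ)))) with hc
  have hC0 : 0 < C := by linarith
  have hc0 : 0 < c := by positivity
  set D : ℝ := 2 / d * c with hD
  have hD0 : 0 < D := by positivity
  refine ⟨(1 / D) ^ ((d : ℝ) / 2), by positivity, ?_⟩
  intro L _ u g hu hu2 hg n
  set a : ℕ → ℝ := fun n => ∑ x, u x ^ 2 * ((Pg b u)^[n] g x) ^ 2 with ha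
  have ha0 : ∀ n, 0 ≤ a n := fun n => Finset.sum_nonneg fun x _ => by positivity
  have hl1 : ∀ n, ∑ x, u x ^ 2 * |(Pg b u)^[n] g x| ≤ 2 := by
    intro n
    induction n with
    | zero => simpa using hg
    | succ n ih =>
      rw [Function.iterate_succ_apply']
      exact (stepl1 b (by linarith) u _ hu hu2).trans ih
  have hrec : ∀ n, a (n + 1) ≤ a n - c * a n ^ (1 + 2 / (d : ℝ)) := by
    intro n
    set h := (Pg b u)^[n] g with hh
    have h1 : a (n + 1) ≤ a n - 1 / b * Qf u h := by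
      have := stepl2 b hb u h hu hu2
      simp only [ha, Function.iterate_succ_apply']
      exact this
    have h2 := hnash L u h hu
    have hW : ∑ x, |h x| ≤ 2 := by
      refine le_trans (Finset.sum_le_sum fun x _ => ?_) (hl1 n)
      have : 1 ≤ u x ^ 2 := by have := hu x; nlinarith
      nlinarith [abs_nonneg (h x)]
    have hW0 : 0 ≤ ∑ x, |h x| := Finset.sum_nonneg fun x _ => abs_nonneg _
    have h3 : a n / 4 ≤ ∑ x, h x ^ 2 := by
      have : a n ≤ ∑ x, 4 * h x ^ 2 := by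
        refine Finset.sum_le_sum fun x _ => ?_
        have h4 : u x ^ 2 ≤ 4 := by have := hu x; have := hu2 x; nlinarith
        exact mul_le_mul_of_nonneg_right h4 (sq_nonneg _)
      rw [← Finset.mul_sum] at this
      linarith
    have hQ := Qf_nonneg u h hu
    have h5 : (a n / 4) ^ (((d : ℝ) + 2) / d) ≤ C * Qf u h * 2 ^ (4 / (d : ℝ)) := by
      refine (Real.rpow_le_rpow (by have := ha0 n; positivity) h3 (by positivity)).trans
        (h2.trans ?_)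
      exact mul_le_mul_of_nonneg_left (Real.rpow_le_rpow hW0 hW (by positivity)) (by positivity)
    have e1 : (a n / 4) ^ (((d : ℝ) + 2) / d) =
        a n ^ (1 + 2 / (d : ℝ)) * (1 / 4 : ℝ) ^ (((d : ℝ) + 2) / d) := by
      rw [div_eq_mul_one_div, Real.mul_rpow (ha0 n) (by norm_num)]
      congr 2
      field_simp
    rw [e1] at h5
    have h6 : c * a n ^ (1 + 2 / (d : ℝ)) ≤ 1 / b * Qf u h := by
      rw [hc]
      have : (1 / 4 : ℝ) ^ (((d : ℝ) + 2) / d) / (C * 2 ^ (4 / (d : ℝ))) *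
          a n ^ (1 + 2 / (d : ℝ)) ≤ Qf u h := by
        rw [div_mul_eq_mul_div, div_le_iff₀ (by positivity)]
        linarith
      rw [mul_assoc]
      exact mul_le_mul_of_nonneg_left this (by positivity)
    linarith
  have hα1 : 2 / (d : ℝ) ≤ 1 := by rw [div_le_one hd0]; linarith
  have h7 := recur c (2 / d) hc0 (by positivity) hα1 a ha0 hrec n
  have h8 : a n ^ (2 / (d : ℝ)) * n ≤ 1 / D := by
    rw [le_div_iff₀ hD0]
    calc a n ^ (2 / (d : ℝ)) * n * D = a n ^ (2 / (d : ℝ)) * (2 / d * c * n) := by rw [hD]; ring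
      _ ≤ 1 := h7
  have hn0 : (0 : ℝ) ≤ n := Nat.cast_nonneg n
  have h9 := Real.rpow_le_rpow (mul_nonneg (Real.rpow_nonneg (ha0 n) _) hn0) h8
    (show (0 : ℝ) ≤ (d : ℝ) / 2 by positivity)
  rw [Real.mul_rpow (Real.rpow_nonneg (ha0 n) _) hn0, ← Real.rpow_mul (ha0 n)] at h9
  have e2 : 2 / (d : ℝ) * ((d : ℝ) / 2) = 1 := by field_simp
  rw [e2, Real.rpow_one] at h9
  exact h9

/-- decay of `‖(1 - (H - E₀ + L⁻²)/b)^n δ_z‖²` -/
theorem torus (d : ℕ) (hd : 2 ≤ d) (C : ℝ) (hC : 1 ≤ C)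
    (hnash : ∀ (L : ℕ) [NeZero L] (u g : T d L → ℝ), (∀ x, 1 ≤ u x) →
      (∑ x, g x ^ 2) ^ (((d : ℝ) + 2) / d) ≤
        C * Pool.Agent.H541R3.AND.Nash.Qf u g * (∑ x, |g x|) ^ (4 / (d : ℝ)))
    (b : ℝ) (hb : 2 * (4 * (d : ℝ) + 1) ≤ b) : ∃ C : ℝ, 0 < C ∧
    ∀ (L : ℕ) [NeZero L] (lam E0 : ℝ) (V ψ : T d L → ℝ), (∀ x, 1 ≤ ψ x) → (∀ x, ψ x ≤ 2) →
      (∀ x, Hop lam V ψ x = E0 * ψ x) → ∀ (z : T d L) (n : ℕ),
        (∑ x, ((Pool.Agent.H541R3.AND.Heat.QT (E0 - 1 / (L : ℝ) ^ 2) b lam V)^[n] (Pi.single z 1) x) ^ 2) *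
          (n : ℝ) ^ ((d : ℝ) / 2) ≤ C := by
  obtain ⟨C', hC', h⟩ := decay d hd C hC hnash b hb
  refine ⟨C', hC', ?_⟩
  intro L _ lam E0 V ψ h1 h2 he z n
  have hz : 0 < ψ z := by have := h1 z; linarith
  have e1 : (Pi.single z 1 : T d L → ℝ) = fun y => ψ y * (Pi.single z (ψ z)⁻¹ : T d L → ℝ) y := by
    funext y
    by_cases hy : y = z
    · subst hy
      rw [Pi.single_eq_same, Pi.single_eq_same, mul_inv_cancel₀ hz.ne']
    · rw [Pi.single_eq_of_ne hy, Pi.single_eq_of_ne hy, mul_zero]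
  have h3 := h L ψ (Pi.single z (ψ z)⁻¹) h1 h2 (by
    rw [Finset.sum_eq_single z]
    · rw [Pi.single_eq_same, abs_of_pos (inv_pos.2 hz)]
      have : ψ z ^ 2 * (ψ z)⁻¹ = ψ z := by field_simp
      rw [this]
      exact h2 z
    · intro y _ hy
      rw [Pi.single_eq_of_ne hy]
      simp
    · intro hn
      exact absurd (Finset.mem_univ _) hn) n
  rw [e1, Pool.Agent.H541R3.AND.Heat.conj_iter b lam E0 V ψ h1 he]
  refine le_trans (le_of_eq ?_) h3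
  congr 1
  exact Finset.sum_congr rfl fun x _ => by ring


open Pool.Agent.H541R3.AND.Nash in
theorem nashQ (L : ℕ) [NeZero L] (u g : T 2 L → ℝ) (hu : ∀ x, 1 ≤ u x) :
    (∑ x, g x ^ 2) ^ ((((2 : ℕ) : ℝ) + 2) / ((2 : ℕ) : ℝ)) ≤
      36 * Qf u g * (∑ x, |g x|) ^ (4 / ((2 : ℕ) : ℝ)) := by
  have e1 : (((2 : ℕ) : ℝ) + 2) / ((2 : ℕ) : ℝ) = ((2 : ℕ) : ℝ) := by norm_num
  have e2 : 4 / ((2 : ℕ) : ℝ) = ((2 : ℕ) : ℝ) := by norm_num
  rw [e1, e2, Real.rpow_natCast, Real.rpow_natCast]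
  refine (nash g).trans ?_
  have h : ∑ i : Fin 2, ∑ x, (g (x + Pi.single i 1) - g x) ^ 2 +
      1 / (L : ℝ) ^ 2 * ∑ x, g x ^ 2 ≤ Qf u g := by
    unfold Qf
    refine add_le_add ?_ ?_
    · refine Finset.sum_le_sum fun i _ => Finset.sum_le_sum fun x _ => ?_
      have h2 : 1 ≤ u x * u (x + Pi.single i 1) := by
        have := hu x
        have := hu (x + Pi.single i 1)
        nlinarith
      exact le_mul_of_one_le_left (sq_nonneg _) h2
    · refine mul_le_mul_of_nonneg_left (Finset.sum_le_sum fun x _ => ?_) (by positivity)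
      have h2 : 1 ≤ u x ^ 2 := by
        have := hu x
        nlinarith
      exact le_mul_of_one_le_left (sq_nonneg _) h2
  have h0 : 0 ≤ (∑ x, |g x|) ^ 2 := sq_nonneg _
  have h1 : 36 * (∑ i : Fin 2, ∑ x, (g (x + Pi.single i 1) - g x) ^ 2 +
      1 / (L : ℝ) ^ 2 * ∑ x, g x ^ 2) ≤ 36 * Qf u g := by linarith
  exact mul_le_mul_of_nonneg_right h1 h0

open Pool.Agent.H541R3.AND.Deloc Pool.Agent.H541R3.AND.Trans in
/-- spread-out states, `d = 2` -/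
theorem main2 (K : ℝ) (hK : 0 ≤ K) : ∃ C : ℝ, 0 < C ∧
    ∀ (h : ℕ) (lam Es : ℝ) (V : Zd 2 → ℝ) (x0 : Zd 2), 0 < h → GoodAt h lam K Es V x0 →
      ∀ κ : ℝ, 4 / (h : ℝ) ^ 2 ≤ κ → κ ≤ 1 →
      (∀ E : ℝ, E ≤ Es + κ → ∀ φ : Zd 2 → ℝ, Summable (fun x => φ x ^ 2) →
        (∀ x, HZ lam V φ x = E * φ x) → φ x0 ^ 2 ≤ C * κ * ∑' x, φ x ^ 2) ∧
      ∀ m : MeasureTheory.Measure ℝ, MeasureTheory.IsFiniteMeasure m →
        (∀ j : ℕ, MeasureTheory.Integrable (fun E : ℝ => E ^ j) m ∧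
          ∫ E, E ^ j ∂m = (HZ lam V)^[j] (Pi.single x0 1) x0) →
        m.real (Set.Iic (Es + κ)) ≤ C * κ := by
  have hb : 2 * (4 * (((2 : ℕ) : ℝ)) + 1) ≤ 2 * (4 * (((2 : ℕ) : ℝ)) + 1) + 2 * (K + 2) := by
    linarith
  obtain ⟨D, hD, HT⟩ := torus 2 le_rfl 36 (by norm_num) (fun L _ u g hu => nashQ L u g hu) _ hb
  obtain ⟨C, hC, H⟩ := Pool.Agent.K3h4.AN.Dl.gen 2 (by norm_num) (by norm_num) K hK _ D hb
    (by push_cast; linarith) hD HT
  refine ⟨C, hC, fun h lam Es V x0 hpos hgood κ hκ hκ1 => ?_⟩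
  have e : κ ^ (((2 : ℕ) : ℝ) / 2) = κ := by norm_num
  have := H h lam Es V x0 hpos hgood κ hκ hκ1
  rw [e] at this
  exact this

/-! ### Flat ground states from the massive equation -/

theorem hop_cons (lam : ℝ) (V : T 2 L → ℝ) (ψ : T 3 L → ℝ) (t : ZMod L) (y : T 2 L) :
    Hop lam (fun x : T 3 L => V (fun i => x i.succ)) ψ (Fin.cons t y) =
      ∑ i : Fin 2, (2 * ψ (Fin.cons t y) - ψ (Fin.cons t (y + Pi.single i 1)) -
        ψ (Fin.cons t (y - Pi.single i 1))) + lam * V y * ψ (Fin.cons t y) +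
      (2 * ψ (Fin.cons t y) - ψ (Fin.cons (t + 1) y) - ψ (Fin.cons (t - 1) y)) := by
  unfold Hop
  have e0 : (Fin.cons t y + Pi.single 0 1 : T 3 L) = Fin.cons (t + 1) y := by
    funext j
    refine Fin.cases ?_ (fun i => ?_) j
    · simp
    · simp
  have e1 : (Fin.cons t y - Pi.single 0 1 : T 3 L) = Fin.cons (t - 1) y := by
    funext j
    refine Fin.cases ?_ (fun i => ?_) j
    · simp
    · simp
  have e2 : ∀ i : Fin 2, (Fin.cons t y + Pi.single i.succ 1 : T 3 L) =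
      Fin.cons t (y + Pi.single i 1) := by
    intro i
    funext j
    refine Fin.cases ?_ (fun k => ?_) j
    · simp [Pi.single_apply]
    · simp [Pi.single_apply]
  have e3 : ∀ i : Fin 2, (Fin.cons t y - Pi.single i.succ 1 : T 3 L) =
      Fin.cons t (y - Pi.single i 1) := by
    intro i
    funext j
    refine Fin.cases ?_ (fun k => ?_) j
    · simp [Pi.single_apply]
    · simp [Pi.single_apply]
  rw [Fin.sum_univ_succ, e0, e1, Finset.sum_congr rfl fun i _ => by rw [e2 i, e3 i]]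
  simp only [Fin.cons_succ]
  ring

theorem gen2 : ∃ C : ℝ, 1 ≤ C ∧ ∀ (L : ℕ) [NeZero L] (lam η E : ℝ),
    0 < η → η ≤ 1 → ∀ (V w : T 2 L → ℝ), (∀ x, |w x| ≤ η / C) →
    (∀ x, ∑ i : Fin 2, ((1 - Real.exp (w (x + Pi.single i 1) - w x)) +
      (1 - Real.exp (w (x - Pi.single i 1) - w x))) + lam * V x - E +
        1 / (4 * (L : ℝ) ^ 2) * w x = 0) →
    AE.Core.FlatE lam η (1 / (L : ℝ) ^ 2) E V := by
  obtain ⟨C, hC, H⟩ := AE.Core2.gen 3 le_rfl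
  refine ⟨C, hC, ?_⟩
  intro L _ lam η E hη hη' V w hw heq
  have hL := AE.Core.L_pos (L := L)
  have hfl := H L lam η E hη hη' (fun x => V (fun i => x i.succ)) (fun x => w (fun i => x i.succ))
    (fun x => hw _) (fun x => by
      rw [Fin.sum_univ_succ]
      have h0 : (fun i : Fin 2 => (x + Pi.single 0 1 : T 3 L) i.succ) = fun i => x i.succ := by
        funext i; simp
      have h0' : (fun i : Fin 2 => (x - Pi.single 0 1 : T 3 L) i.succ) = fun i => x i.succ := by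
        funext i; simp
      have h1 : ∀ j : Fin 2, (fun i : Fin 2 => (x + Pi.single j.succ 1 : T 3 L) i.succ) =
          (fun i => x i.succ) + Pi.single j 1 := by
        intro j; funext i; simp [Pi.single_apply]
      have h1' : ∀ j : Fin 2, (fun i : Fin 2 => (x - Pi.single j.succ 1 : T 3 L) i.succ) =
          (fun i => x i.succ) - Pi.single j 1 := by
        intro j; funext i; simp [Pi.single_apply]
      rw [h0, h0']
      simp only [h1, h1', sub_self, Real.exp_zero]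
      have := heq (fun i => x i.succ)
      linarith)
  obtain ⟨E0, ψ, hE0, hψ, heig, -⟩ := hfl
  have hLc : (Fintype.card (ZMod L) : ℝ) = L := by rw [ZMod.card]
  obtain ⟨φ, hφ⟩ : ∃ φ : T 2 L → ℝ, φ = fun y => 1 / (L : ℝ) * ∑ t : ZMod L, ψ (Fin.cons t y) :=
    ⟨_, rfl⟩
  have hφx : ∀ y, φ y = 1 / (L : ℝ) * ∑ t : ZMod L, ψ (Fin.cons t y) := fun y => by rw [hφ]
  have hb : ∀ y, 1 ≤ φ y ∧ φ y ≤ 1 + η := by
    intro y
    rw [hφx]
    constructor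
    · have : ∑ _t : ZMod L, (1 : ℝ) ≤ ∑ t : ZMod L, ψ (Fin.cons t y) :=
        Finset.sum_le_sum fun t _ => (hψ _).1
      rw [Finset.sum_const, Finset.card_univ, nsmul_eq_mul, mul_one, hLc] at this
      rw [one_div, inv_mul_eq_div, le_div_iff₀ hL]
      linarith
    · have : ∑ t : ZMod L, ψ (Fin.cons t y) ≤ ∑ _t : ZMod L, (1 + η) :=
        Finset.sum_le_sum fun t _ => (hψ _).2
      rw [Finset.sum_const, Finset.card_univ, nsmul_eq_mul, hLc] at this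
      rw [one_div, inv_mul_eq_div, div_le_iff₀ hL]
      linarith
  have he : ∀ y, Hop lam V φ y = E0 * φ y := by
    intro y
    have h1 : ∑ t : ZMod L, Hop lam (fun x : T 3 L => V (fun i => x i.succ)) ψ (Fin.cons t y) =
        E0 * ∑ t : ZMod L, ψ (Fin.cons t y) := by
      rw [Finset.mul_sum]
      exact Finset.sum_congr rfl fun t _ => heig _
    simp only [hop_cons] at h1
    rw [Finset.sum_add_distrib, Finset.sum_add_distrib] at h1
    have hs1 : ∑ t : ZMod L, ψ (Fin.cons (t + 1) y) = ∑ t : ZMod L, ψ (Fin.cons t y) :=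
      Fintype.sum_equiv (Equiv.addRight 1) _ _ fun _ => rfl
    have hs2 : ∑ t : ZMod L, ψ (Fin.cons (t - 1) y) = ∑ t : ZMod L, ψ (Fin.cons t y) :=
      Fintype.sum_equiv (Equiv.subRight 1) _ _ fun _ => rfl
    have h3 : ∑ t : ZMod L, (2 * ψ (Fin.cons t y) - ψ (Fin.cons (t + 1) y) -
        ψ (Fin.cons (t - 1) y)) = 0 := by
      rw [Finset.sum_sub_distrib, Finset.sum_sub_distrib, ← Finset.mul_sum, hs1, hs2]
      ring
    rw [h3, add_zero, Finset.sum_comm] at h1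
    unfold Hop
    have h4 : ∀ i : Fin 2, 2 * φ y - φ (y + Pi.single i 1) - φ (y - Pi.single i 1) =
        1 / (L : ℝ) * ∑ t : ZMod L, (2 * ψ (Fin.cons t y) - ψ (Fin.cons t (y + Pi.single i 1)) -
          ψ (Fin.cons t (y - Pi.single i 1))) := by
      intro i
      rw [hφx, hφx, hφx, Finset.sum_sub_distrib, Finset.sum_sub_distrib, ← Finset.mul_sum]
      ring
    rw [Finset.sum_congr rfl fun i _ => h4 i, ← Finset.mul_sum]
    have h5 : lam * V y * φ y = 1 / (L : ℝ) * ∑ t : ZMod L, lam * V y * ψ (Fin.cons t y) := by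
      rw [hφx, ← Finset.mul_sum]; ring
    rw [h5, ← mul_add, h1, hφx]
    ring
  refine ⟨E0, φ, hE0, hb, he, fun f hf => ?_⟩
  exact AE.Gs.gap (by norm_num) lam E0 V φ (fun x => (hb x).1) (fun x => by linarith [(hb x).2]) he f hf

end Pool.Agent.K3h4.AN.G2
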