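import Pool.Agent.K3h4.AN.F3
import Pool.Agent.K3h4.AN.G2

/-! Dimension two: assembly. -/

set_option autoImplicit false
set_option linter.unusedSectionVars false
set_option linter.unusedVariables false

open scoped BigOperators
open MeasureTheory Filter Topology

namespace Pool.Agent.K3h4.AN.F2

open Pool.Agent.H4R2
open Pool.Agent.H4R2.AE (T LapW Hop)
open Pool.Agent.K3h4.AN.Pe
open Pool.Agent.K3h4.AN.Pf
open Pool.Agent.K3h4.AN.Tp
open Pool.Agent.K3h4.AN.Ch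
open Pool.Agent.K3h4.AN.F3
open Pool.Agent.Y663
open Pool.Agent.H4R2.LO (Zd)

theorem rh2 (A : ℝ) (hA : A = 2 ^ 13) (L : ℕ) [NeZero L] :
    RH 2 L (1 / (4 * (L : ℝ) ^ 2)) (2 ^ 14) (2 ^ 14) (fun κ => A / κ) := by
  have hL := AE.Core.L_pos (L := L)
  have hA0 : 0 < A := by rw [hA]; norm_num
  have hm : 0 < 1 / (4 * (L : ℝ) ^ 2) := by positivity
  have h4 : Real.exp (-(2 * (1 / 4))) ≥ 1 / 2 := by
    have := Real.add_one_le_exp (-(2 * (1 / 4)) : ℝ)
    linarith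
  refine ⟨hm, ?_, ?_, ?_, by norm_num, ?_, ?_, ?_⟩
  · intro κ hκ u Gr x0 hu hGr hh
    have hκ0 : 0 < κ := lt_of_lt_of_le hm hκ
    have hκ8 : 1 / (8 * (L : ℝ) ^ 2) ≤ κ := by
      refine le_trans ?_ hκ
      apply one_div_le_one_div_of_le (by positivity)
      linarith [show 0 < (L : ℝ) ^ 2 by positivity]
    refine (G2.green2 κ hκ0 hκ8 u Gr x0 hu hGr hh).trans ?_
    beta_reduce
    rw [hA]
    gcongr <;> norm_num
  · intro κ hκ u Gr x0 hu hGr hh
    have hκ0 : 0 < κ := lt_of_lt_of_le hm hκ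
    have hκ8 : 1 / (8 * (L : ℝ) ^ 2) ≤ κ * Real.exp (-(2 * (1 / 4))) := by
      have e : 1 / (8 * (L : ℝ) ^ 2) = 1 / (4 * (L : ℝ) ^ 2) * (1 / 2) := by field_simp; norm_num
      rw [e]
      gcongr
    have hκp : 0 < κ * Real.exp (-(2 * (1 / 4))) := by positivity
    refine (G2.green2 (κ * Real.exp (-(2 * (1 / 4)))) hκp hκ8 u Gr x0 hu hGr hh).trans ?_
    beta_reduce
    rw [hA, div_le_div_iff₀ hκp hκ0]
    have h5 : κ * (1 / 2) ≤ κ * Real.exp (-(2 * (1 / 4))) := by gcongr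
    linarith
  · intro κ hκ
    have hκ0 : 0 < κ := lt_of_lt_of_le hm hκ
    positivity
  · intro κ hκ
    have hκ0 : 0 < κ := lt_of_lt_of_le hm hκ
    apply le_of_eq
    field_simp
    norm_num
  · intro κ hκ
    have hκ0 : 0 < κ := lt_of_lt_of_le hm hκ
    apply le_of_eq
    field_simp
  · intro κ hκ
    have hκ0 : 0 < κ := lt_of_lt_of_le hm hκ
    have e1 : (2 ^ 14 * κ) ^ 2 * (A / (2 ^ 14 * κ)) = 2 ^ 14 * (κ ^ 2 * (A / κ)) := by
      field_simp
    rw [e1]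
    have h1 : 0 ≤ κ ^ 2 * (A / κ) := by positivity
    linarith

theorem nn2 (L : ℕ) (A κ : ℝ) (hκ : 0 < κ) :
    nn 2 L (fun κ => A / κ) (2 ^ 14) κ = 2 ^ 16 * A * (κ * (L : ℝ) ^ 2) := by
  unfold nn
  beta_reduce
  have e : (2 ^ 14 * κ) ^ 2 * (A / (2 ^ 14 * κ)) = 2 ^ 14 * A * κ := by
    field_simp
  rw [e]
  ring

theorem fin2 (B : ℝ) (hB : 0 < B) (η : ℝ) (hη : 0 < η) (hη' : η ≤ 1) :
    ∃ K : ℝ, 1 ≤ K ∧
    ∀ (μ : Measure ℝ) [IsProbabilityMeasure μ], μ (Set.Icc (-1) 1)ᶜ = 0 → LO.Reg B μ →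
    ∀ lam : ℝ, 0 < lam → K * lam ≤ 1 → ∃ Es : ℝ, |Es| ≤ lam ∧
      (∀ (L : ℕ) [NeZero L], K * (lam * L) ≤ 1 →
        ∃ G : Set (AE.T 2 L → ℝ), MeasurableSet G ∧
          1 - K * Real.exp (-(1 / (K * (lam * L) ^ 2))) ≤
            (Measure.pi fun _ : AE.T 2 L => μ).real G ∧
          ∀ V ∈ G, AE.Core.FlatE lam η (K / (L : ℝ) ^ 2) Es V) ∧
      ∀ κ : ℝ, K * (lam ^ 2 * Real.log (Real.log (1 / lam))) ≤ κ → κ ≤ 1 →
        ∀ᵐ ω ∂(Measure.infinitePi fun _ : Zd 2 => μ),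
          LO.Main.Dec 2 (-1) (fun x => lam * ω x) (Set.Iic (Es - 2 * (2 : ℕ) - κ))
            (Real.sqrt κ / (K * Real.log (2 / (κ * lam)))) := by
  obtain ⟨C, ρ0, hC, hρ0, Hb⟩ := Be.belowS 2 (by norm_num) B hB
  obtain ⟨A, hAdef⟩ : ∃ z : ℝ, z = 2 ^ 13 := ⟨_, rfl⟩
  have hA : 1 ≤ A := by rw [hAdef]; norm_num
  have HA : ∀ (L : ℕ) [NeZero L],
      RH 2 L (1 / (4 * (L : ℝ) ^ 2)) (2 ^ 14) (2 ^ 14) (fun κ => A / κ) :=
    fun L _ => rh2 A hAdef L
  obtain ⟨C2, hC2, Hflat⟩ := G2.gen2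
  have hC0 : 0 < C := by linarith
  have hA0 : 0 < A := by linarith
  have hC20 : 0 < C2 := by linarith
  have hP16 : (2 : ℝ) ^ 14 * Real.exp (-(3 * 16)) ≤ 1 / 64 := by
    have h1 : Real.exp (-(3 * 16)) = (Real.exp (-1)) ^ 48 := by
      rw [← Real.exp_nat_mul]; norm_num
    have h2 : Real.exp (-1) ≤ 2 / 5 := by
      rw [Real.exp_neg, inv_le_comm₀ (Real.exp_pos _) (by norm_num)]
      have := Real.exp_one_gt_d9
      norm_num
      linarith
    rw [h1]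
    have h3 : Real.exp (-1) ^ 48 ≤ (2 / 5) ^ 48 := pow_le_pow_left₀ (Real.exp_pos _).le h2 48
    calc (2 : ℝ) ^ 14 * Real.exp (-1) ^ 48 ≤ 2 ^ 14 * (2 / 5) ^ 48 := by gcongr
      _ ≤ 1 / 64 := by norm_num
  obtain ⟨a, ha⟩ : ∃ z : ℝ, z = min (1 / 8) (η / C2) := ⟨_, rfl⟩
  have ha0 : 0 < a := by rw [ha]; positivity
  have ha8 : a ≤ 1 / 8 := by rw [ha]; exact min_le_left _ _
  have haC : a ≤ η / C2 := by rw [ha]; exact min_le_right _ _
  obtain ⟨c0, hc0⟩ : ∃ z : ℝ, z = a ^ 2 / (1536 * A) := ⟨_, rfl⟩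
  have hc00 : 0 < c0 := by rw [hc0]; positivity
  obtain ⟨S, hS⟩ : ∃ z : ℝ, z = 122880 * A := ⟨_, rfl⟩
  have hS0 : 0 < S := by rw [hS]; positivity
  have hS1 : 1 ≤ S := by rw [hS]; linarith
  -- the constant for the flat part
  obtain ⟨N0, hN0⟩ : ∃ z : ℝ, z = 2 ^ 14 * A := ⟨_, rfl⟩
  have hN00 : 0 < N0 := by rw [hN0]; positivity
  have hlog0 : 0 ≤ Real.log (32 * N0 / a) := by
    apply Real.log_nonneg
    rw [le_div_iff₀ ha0, hN0]
    linarith
  obtain ⟨kf, hkf⟩ : ∃ z : ℝ, z = 16 / c0 + Real.log (32 * N0 / a) / c0 + S := ⟨_, rfl⟩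
  have hkfp1 : 0 ≤ 16 / c0 := by positivity
  have hkfp2 : 0 ≤ Real.log (32 * N0 / a) / c0 := by positivity
  have hkf1 : 1 ≤ kf := by linarith
  have hkf0 : 0 < kf := by linarith
  have hkfc1 : 16 ≤ c0 * kf := by
    have h1 : c0 * kf = 16 + Real.log (32 * N0 / a) + c0 * S := by
      rw [hkf]; field_simp
    rw [h1]
    have : 0 < c0 * S := by positivity
    linarith
  have hkfc2 : Real.log (32 * N0 / a) ≤ c0 * kf := by
    have h1 : c0 * kf = 16 + Real.log (32 * N0 / a) + c0 * S := by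
      rw [hkf]; field_simp
    rw [h1]
    have : 0 < c0 * S := by positivity
    linarith
  obtain ⟨Z, hZ⟩ : ∃ z : ℝ, z = 2 ^ 16 * A * (81 * C ^ 2) := ⟨_, rfl⟩
  have hZ0 : 0 < Z := by rw [hZ]; positivity
  obtain ⟨m0, hm0⟩ : ∃ z : ℝ, z = min (ρ0 / 2) (1 / 256) := ⟨_, rfl⟩
  have hm00 : 0 < m0 := by rw [hm0]; positivity
  obtain ⟨lm, hlm⟩ : ∃ z : ℝ, z = Z / m0 + 81 := ⟨_, rfl⟩
  have hZm0 : 0 < Z / m0 := by positivity
  obtain ⟨K, hK⟩ : ∃ z : ℝ, z = kf + 1 / c0 + 2 * N0 + 4 * S + 30000 * kf ^ 2 + Real.exp lm + 8 * C + 8 := ⟨_, rfl⟩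
  have hKc0 : 0 ≤ 1 / c0 := by positivity
  have hKkf : 0 ≤ 30000 * kf ^ 2 := by positivity
  have hKe : 0 < Real.exp lm := Real.exp_pos _
  have hkf2 : 1 ≤ kf ^ 2 := one_le_pow₀ hkf1
  have hK8 : 30000 ≤ K := by linarith
  have hK0 : 0 < K := by linarith
  have hK4C : 4 * C ≤ K := by linarith
  refine ⟨K, by linarith, ?_⟩
  intro μ _ hμ hreg lam hlam hKl
  have hlam8 : lam ≤ 1 / 8 := by
    have : 30000 * lam ≤ K * lam := by gcongr
    linarith
  have hlam1 : lam ≤ 1 := by linarith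
  have hlam2 : 0 < lam ^ 2 := by positivity
  have hlamK : K ≤ 1 / lam := by rw [le_div_iff₀ hlam]; exact hKl
  obtain ⟨l, hl⟩ : ∃ z : ℝ, z = Real.log (1 / lam) := ⟨_, rfl⟩
  have hllm : lm ≤ l := by
    rw [hl, Real.le_log_iff_exp_le (by positivity)]
    linarith
  have hl81 : 81 ≤ l := by linarith
  have hl3 : 3 ≤ l := by linarith
  have hl0 : 0 < l := by linarith
  have hlle : l ≤ 1 / lam := by
    rw [hl]; exact Real.log_le_self (by positivity)
  obtain ⟨ll, hll⟩ : ∃ z : ℝ, z = Real.log l := ⟨_, rfl⟩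
  have hll1 : 1 ≤ ll := by
    rw [hll, Real.le_log_iff_exp_le hl0]
    have := Real.exp_one_lt_d9
    linarith
  have hll4 : 4 ≤ ll := by
    rw [hll, Real.le_log_iff_exp_le hl0]
    have h1 : Real.exp 4 = Real.exp 1 ^ 4 := by
      rw [← Real.exp_nat_mul]; norm_num
    have h2 : Real.exp 1 ^ 4 ≤ 3 ^ 4 :=
      pow_le_pow_left₀ (Real.exp_pos _).le (by linarith [Real.exp_one_lt_d9]) 4
    rw [h1]
    norm_num at h2
    linarith
  have hlll : ll ≤ l := by rw [hll]; exact Real.log_le_self hl0.le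
  have hll0 : 0 < ll := by linarith
  have hCl : 3 ≤ C * l := by
    calc (3 : ℝ) = 1 * 3 := by norm_num
      _ ≤ C * l := by gcongr
  -- the flat tori
  have hflat : ∀ (L : ℕ) [NeZero L], kf * (lam * L) ^ 2 ≤ 1 → ∃ E : ℝ, |E| ≤ lam ∧
      ∃ G : Set (AE.T 2 L → ℝ), MeasurableSet G ∧
          1 - 2 * (N0 * Real.exp (-(c0 / (lam * L) ^ 2))) ≤
            (Measure.pi fun _ : AE.T 2 L => μ).real G ∧
          N0 * Real.exp (-(c0 / (lam * L) ^ 2)) ≤ a / 32 ∧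
          ∀ V ∈ G, AE.Core.FlatE lam η (1 / (L : ℝ) ^ 2) E V := by
    intro L _ hL
    have hLpos : (0 : ℝ) < L := AE.Core.L_pos (L := L)
    have hyy : yy (fun κ => A / κ) lam (1 / (4 * (L : ℝ) ^ 2)) a = c0 / (lam * L) ^ 2 := by
      unfold yy
      beta_reduce
      rw [hc0]
      field_simp
      norm_num
    have hnn : nn 2 L (fun κ => A / κ) (2 ^ 14) (1 / (4 * (L : ℝ) ^ 2)) = N0 := by
      rw [nn2 L A _ (by positivity), hN0]
      field_simp
      norm_num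
    have hcy : c0 * kf ≤ c0 / (lam * L) ^ 2 := by
      rw [le_div_iff₀ (by positivity)]
      calc c0 * kf * (lam * L) ^ 2 = c0 * (kf * (lam * L) ^ 2) := by ring
        _ ≤ c0 * 1 := by gcongr
        _ = c0 := mul_one _
    have hne : N0 * Real.exp (-(c0 / (lam * L) ^ 2)) ≤ a / 32 := by
      have h1 : Real.exp (-(c0 / (lam * L) ^ 2)) ≤ Real.exp (-Real.log (32 * N0 / a)) :=
        Real.exp_le_exp.2 (by linarith)
      rw [Real.exp_neg (Real.log _), Real.exp_log (by positivity)] at h1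
      calc N0 * Real.exp (-(c0 / (lam * L) ^ 2)) ≤ N0 * (32 * N0 / a)⁻¹ := by gcongr
        _ = a / 32 := by field_simp
    obtain ⟨E, hE, G, hG, hP, hw⟩ := good (HA L) μ hμ lam hlam 16 (by norm_num) hP16
      (1 / (4 * (L : ℝ) ^ 2)) a le_rfl ha0 ha8 (by rw [hyy]; linarith) (by rw [hyy, hnn]; exact hne)
    rw [hyy, hnn] at hP
    refine ⟨E, hE, G, hG, hP, hne, fun V hV => ?_⟩
    obtain ⟨w, hw1, hw2⟩ := hw V hV
    exact Hflat L lam η E hη hη' V w (fun x => (hw1 x).trans haC) hw2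
  -- the largest flat torus
  obtain ⟨Ls, hLs⟩ : ∃ n : ℕ, n = ⌊1 / (kf * lam)⌋₊ := ⟨_, rfl⟩
  have hkl1 : kf * lam ≤ 1 := by
    calc kf * lam ≤ K * lam := by gcongr; linarith
      _ ≤ 1 := hKl
  have hX1 : 1 ≤ 1 / (kf * lam) := by rw [le_div_iff₀ (by positivity)]; linarith
  have hLs1 : 1 ≤ Ls := by rw [hLs]; exact Nat.le_floor (by push_cast; exact hX1)
  have hLs0 : (0 : ℝ) < Ls := by exact_mod_cast hLs1
  have : NeZero Ls := ⟨by omega⟩
  have hLsle : (Ls : ℝ) ≤ 1 / (kf * lam) := by rw [hLs]; exact Nat.floor_le (by positivity)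
  have hLsge : 1 / (2 * (kf * lam)) ≤ Ls := by
    have h1 : 1 / (kf * lam) < Ls + 1 := by rw [hLs]; exact Nat.lt_floor_add_one _
    have h2 : (1 : ℝ) ≤ Ls := by exact_mod_cast hLs1
    have h3 : 1 / (2 * (kf * lam)) = (1 / (kf * lam)) / 2 := by field_simp
    rw [h3]; linarith
  have hLsk1 : kf * (lam * Ls) ≤ 1 := by
    rw [le_div_iff₀ (by positivity)] at hLsle
    linarith
  have hLsk : kf * (lam * Ls) ^ 2 ≤ 1 := by
    have h1 : lam * Ls ≤ 1 := by
      calc lam * (Ls : ℝ) = 1 * (lam * Ls) := (one_mul _).symm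
        _ ≤ kf * (lam * Ls) := by gcongr
        _ ≤ 1 := hLsk1
    calc kf * (lam * Ls) ^ 2 = (kf * (lam * Ls)) * (lam * Ls) := by ring
      _ ≤ 1 * 1 := by gcongr
      _ = 1 := by norm_num
  obtain ⟨Es, hEs, Gs, hGs, hPs, hnes, hfs⟩ := hflat Ls hLsk
  have hPs2 : 1 / 2 < (Measure.pi fun _ : AE.T 2 Ls => μ).real Gs := by
    linarith
  have haps : ∀ V ∈ Gs, Mc.ApE lam (1 / (Ls : ℝ) ^ 2) Es V := fun V hV =>
    Mc.of_flat lam η _ Es hη' V (hfs V hV)
  have hLsinv : 1 / (Ls : ℝ) ^ 2 ≤ 4 * kf ^ 2 * lam ^ 2 := by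
    rw [div_le_iff₀ (by positivity)]
    have h1 : 1 ≤ 2 * (kf * lam) * Ls := by
      rw [div_le_iff₀ (by positivity)] at hLsge
      linarith
    have h2 : 1 ^ 2 ≤ (2 * (kf * lam) * Ls) ^ 2 := pow_le_pow_left₀ (by norm_num) h1 2
    linarith
  refine ⟨Es, hEs, ?_, ?_⟩
  · -- flat ground states
    intro L _ hL
    have hLpos : (0 : ℝ) < L := AE.Core.L_pos (L := L)
    have hkL1 : kf * (lam * L) ≤ 1 := by
      refine le_trans ?_ hL
      gcongr
      linarith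
    have hKL : kf * (lam * L) ^ 2 ≤ 1 := by
      have h1 : lam * L ≤ 1 := by
        calc lam * (L : ℝ) = 1 * (lam * L) := (one_mul _).symm
          _ ≤ kf * (lam * L) := by gcongr
          _ ≤ 1 := hkL1
      calc kf * (lam * L) ^ 2 = (kf * (lam * L)) * (lam * L) := by ring
        _ ≤ 1 * 1 := by gcongr
        _ = 1 := by norm_num
    have hLLs : L ≤ Ls := by
      rw [hLs]
      apply Nat.le_floor
      rw [le_div_iff₀ (by positivity)]
      linarith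
    obtain ⟨E, hE, G, hG, hP, hne, hf⟩ := hflat L hKL
    have hPG : 1 / 2 < (Measure.pi fun _ : AE.T 2 L => μ).real G := by linarith
    have hel := Mc.el 2 (by norm_num) μ lam L Ls hLLs E Es (1 / (L : ℝ) ^ 2) (1 / (Ls : ℝ) ^ 2)
      G Gs hG hPG hPs2 (fun V hV => Mc.of_flat lam η _ E hη' V (hf V hV)) haps
    refine ⟨G, hG, ?_, fun V hV => ?_⟩
    · refine le_trans ?_ hP
      have h1 : Real.exp (-(c0 / (lam * L) ^ 2)) ≤ Real.exp (-(1 / (K * (lam * L) ^ 2))) := by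
        refine Real.exp_le_exp.2 (neg_le_neg ?_)
        rw [← div_div]
        gcongr
        rw [div_le_iff₀ hK0]
        have h2 : 1 / c0 ≤ K := by linarith
        rw [div_le_iff₀ hc00] at h2
        linarith
      have h2 : 2 * (N0 * Real.exp (-(c0 / (lam * L) ^ 2))) ≤
          K * Real.exp (-(1 / (K * (lam * L) ^ 2))) := by
        calc 2 * (N0 * Real.exp (-(c0 / (lam * L) ^ 2))) =
              (2 * N0) * Real.exp (-(c0 / (lam * L) ^ 2)) := by ring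
          _ ≤ K * Real.exp (-(1 / (K * (lam * L) ^ 2))) := by
              gcongr
              linarith
      linarith
    · obtain ⟨E0, ψ, h1, h2⟩ := hf V hV
      refine ⟨E0, ψ, ?_, h2⟩
      have e1 : E0 - Es = (E0 - E) + (E - Es) := by ring
      rw [e1]
      refine (abs_add_le _ _).trans ?_
      have e2 : 1 / (Ls : ℝ) ^ 2 ≤ 1 / (L : ℝ) ^ 2 := by
        apply one_div_le_one_div_of_le (by positivity)
        have : (L : ℝ) ≤ Ls := by exact_mod_cast hLLs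
        gcongr
      have e3 : 2051 / (L : ℝ) ^ 2 ≤ K / (L : ℝ) ^ 2 := by
        gcongr
        linarith
      have e4 : 2051 / (L : ℝ) ^ 2 = 1 / (L : ℝ) ^ 2 + (1 / (L : ℝ) ^ 2 + 1 / (L : ℝ) ^ 2 +
          1024 * (2 : ℕ) / (L : ℝ) ^ 2) := by
        push_cast
        ring
      linarith
  · -- localization
    obtain ⟨κ0, hκ0⟩ : ∃ z : ℝ, z = S * (lam ^ 2 * ll) := ⟨_, rfl⟩
    have hκ00 : 0 < κ0 := by rw [hκ0]; positivity
    have hκ01 : κ0 ≤ 1 := by
      rw [hκ0]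
      have h1 : ll ≤ 1 / lam := hlll.trans hlle
      have h2 : lam ^ 2 * ll ≤ lam := by
        calc lam ^ 2 * ll ≤ lam ^ 2 * (1 / lam) := by gcongr
          _ = lam := by field_simp
      have h3 : S ≤ K := by linarith
      calc S * (lam ^ 2 * ll) ≤ K * lam := by gcongr
        _ ≤ 1 := hKl
    have hsκ01 : Real.sqrt κ0 ≤ 1 := Real.sqrt_le_one.2 hκ01
    have hsκ00 : 0 < Real.sqrt κ0 := Real.sqrt_pos.2 hκ00
    have hsκ0 : Real.sqrt κ0 ^ 2 = κ0 := Real.sq_sqrt hκ00.le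
    obtain ⟨X, hX⟩ : ∃ z : ℝ, z = 8 * C * l / Real.sqrt κ0 := ⟨_, rfl⟩
    have hX0 : 0 < X := by rw [hX]; positivity
    obtain ⟨L0, hL0⟩ : ∃ n : ℕ, n = ⌈X⌉₊ := ⟨_, rfl⟩
    have hL0ge : X ≤ L0 := by rw [hL0]; exact Nat.le_ceil X
    have hL0lt : (L0 : ℝ) < X + 1 := by rw [hL0]; exact Nat.ceil_lt_add_one hX0.le
    have hL0pos' : (0 : ℝ) < L0 := by linarith
    have hL0pos : 0 < L0 := by exact_mod_cast hL0pos'
    have : NeZero L0 := ⟨hL0pos.ne'⟩
    have hsL : Real.sqrt κ0 * L0 ≤ 9 * C * l := by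
      calc Real.sqrt κ0 * L0 ≤ Real.sqrt κ0 * (X + 1) := by gcongr
        _ = 8 * C * l + Real.sqrt κ0 := by rw [hX]; field_simp
        _ ≤ 9 * C * l := by linarith
    have hsL2 : 8 * C * l ≤ Real.sqrt κ0 * L0 := by
      calc 8 * C * l = Real.sqrt κ0 * X := by rw [hX]; field_simp
        _ ≤ _ := by gcongr
    have hκL0 : 1 / (4 * (L0 : ℝ) ^ 2) ≤ κ0 := by
      rw [div_le_iff₀ (by positivity)]
      have h1 : (1 : ℝ) ≤ 8 * C * l := by linarith
      have h2 : 1 ^ 2 ≤ (Real.sqrt κ0 * L0) ^ 2 := pow_le_pow_left₀ (by norm_num) (h1.trans hsL2) 2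
      rw [mul_pow, hsκ0] at h2
      linarith
    have hyy : yy (fun κ => A / κ) lam κ0 (1 / 8) = 5 * ll := by
      unfold yy
      beta_reduce
      rw [hκ0, hS]
      field_simp
      norm_num
    have hexp : Real.exp (-(5 * ll)) = 1 / l ^ 5 := by
      rw [Real.exp_neg, show (5 : ℝ) * ll = ((5 : ℕ) : ℝ) * ll by norm_num, Real.exp_nat_mul, hll,
        Real.exp_log hl0, one_div]
    have hnn : nn 2 L0 (fun κ => A / κ) (2 ^ 14) κ0 * Real.exp (-(5 * ll)) ≤ m0 := by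
      rw [nn2 L0 A κ0 hκ00, hexp]
      have h1 : κ0 * (L0 : ℝ) ^ 2 ≤ (9 * C * l) ^ 2 := by
        have h2 : (Real.sqrt κ0 * L0) ^ 2 ≤ (9 * C * l) ^ 2 :=
          pow_le_pow_left₀ (by positivity) hsL 2
        rw [mul_pow, hsκ0] at h2
        exact h2
      calc 2 ^ 16 * A * (κ0 * (L0 : ℝ) ^ 2) * (1 / l ^ 5) ≤
            2 ^ 16 * A * (9 * C * l) ^ 2 * (1 / l ^ 5) := by gcongr
        _ = Z / l ^ 3 := by rw [hZ]; field_simp; norm_num
        _ ≤ m0 := by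
            rw [div_le_iff₀ (by positivity)]
            have h2 : Z / m0 ≤ l := by linarith
            rw [div_le_iff₀ hm00] at h2
            have h3 : l * m0 ≤ m0 * l ^ 3 := by
              have h4 : 1 ≤ l ^ 2 := one_le_pow₀ (by linarith)
              have : 1 * (l * m0) ≤ l ^ 2 * (l * m0) := by gcongr
              linarith
            linarith
    have hm0a : m0 ≤ 1 / 256 := by rw [hm0]; exact min_le_right _ _
    have hm0b : m0 ≤ ρ0 / 2 := by rw [hm0]; exact min_le_left _ _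
    obtain ⟨E0, hE0, G0, hG0, hP0, hw0⟩ := good (HA L0) μ hμ lam hlam 16 (by norm_num) hP16
      κ0 (1 / 8) hκL0 (by norm_num) le_rfl (by
        rw [hyy]
        linarith) (by rw [hyy]; linarith)
    rw [hyy] at hP0
    have hap0 : ∀ V ∈ G0, Mc.ApE lam (κ0 * (1 / 8)) E0 V := by
      intro V hV
      obtain ⟨w, hw1, hw2⟩ := hw0 V hV
      exact Mc.of_sol lam κ0 (1 / 8) E0 hκ00.le (by norm_num) V w hw1 hw2
    obtain ⟨ε0, hε0⟩ : ∃ z : ℝ, z = 2 * (nn 2 L0 (fun κ => A / κ) (2 ^ 14) κ0 *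
      Real.exp (-(5 * ll))) := ⟨_, rfl⟩
    rw [← hε0] at hP0
    have hε00 : 0 ≤ ε0 := by
      rw [hε0, nn2 L0 A κ0 hκ00]; positivity
    have hε0ρ : ε0 ≤ ρ0 := by linarith
    have hε0h : ε0 ≤ 1 / 128 := by linarith
    have hLsL0 : Ls ≤ L0 := by
      have h1 : 1 / (kf * lam) ≤ X := by
        rw [hX, div_le_div_iff₀ (by positivity) hsκ00, one_mul]
        have h2 : Real.sqrt κ0 ≤ S * ll * lam := by
          rw [Real.sqrt_le_left (by positivity), hκ0]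
          have h3 : 1 ≤ S * ll := by
            calc (1 : ℝ) = 1 * 1 := by norm_num
              _ ≤ S * ll := by gcongr
          calc S * (lam ^ 2 * ll) = (S * ll) * lam ^ 2 * 1 := by ring
            _ ≤ (S * ll) * lam ^ 2 * (S * ll) := by gcongr
            _ = (S * ll * lam) ^ 2 := by ring
        refine h2.trans ?_
        have h3 : S ≤ kf := by linarith
        have h4 : ll ≤ 8 * C * l := by
          have h5 : 1 * l ≤ C * l := by gcongr
          linarith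
        calc S * ll * lam ≤ kf * (8 * C * l) * lam := by gcongr
          _ = 8 * C * l * (kf * lam) := by ring
      have h2 : (Ls : ℝ) ≤ L0 := hLsle.trans (h1.trans hL0ge)
      exact_mod_cast h2
    have hel := Mc.el 2 (by norm_num) μ lam Ls L0 hLsL0 Es E0 (1 / (Ls : ℝ) ^ 2) (κ0 * (1 / 8))
      Gs G0 hGs hPs2 (by linarith) haps hap0
    have hE0s : |Es - E0| ≤ 8196 * kf ^ 2 * (lam ^ 2 * ll) + κ0 * (1 / 8) := by
      have e1 : 1024 * ((2 : ℕ) : ℝ) / (Ls : ℝ) ^ 2 = 2048 * (1 / (Ls : ℝ) ^ 2) := by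
        push_cast; ring
      rw [e1] at hel
      have h1 : lam ^ 2 * 1 ≤ lam ^ 2 * ll := by
        gcongr
      have h2 : 8196 * kf ^ 2 * (lam ^ 2 * 1) ≤ 8196 * kf ^ 2 * (lam ^ 2 * ll) := by gcongr
      linarith
    have hT := Mc.torusBound μ lam (κ0 * (1 / 8)) E0 ε0 G0 hG0 hP0 hap0
    intro κ hκ hκ1
    rw [← hl, ← hll] at hκ
    have hκK : 4 * κ0 + 30000 * kf ^ 2 * (lam ^ 2 * ll) + 8 * (lam ^ 2 * ll) ≤ κ := by
      refine le_trans ?_ hκ
      rw [hκ0]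
      have h1 : 0 < lam ^ 2 * ll := by positivity
      have h2 : 4 * S + 30000 * kf ^ 2 + 8 ≤ K := by linarith
      have h3 := mul_le_mul_of_nonneg_right h2 h1.le
      linarith
    have hkfl : 0 ≤ 30000 * kf ^ 2 * (lam ^ 2 * ll) := by positivity
    have hlp : 0 < lam ^ 2 * ll := by positivity
    have hκκ0 : κ0 ≤ κ := by linarith
    have hκpos : 0 < κ := by linarith
    have hκ8 : 8 * lam ^ 4 ≤ κ := by
      have h1 : lam ^ 4 ≤ lam ^ 2 * ll := by
        calc lam ^ 4 = lam ^ 2 * lam ^ 2 := by ring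
          _ ≤ lam ^ 2 * ll := by
              gcongr
              have : lam ^ 2 ≤ 1 := pow_le_one₀ hlam.le hlam1
              linarith
      linarith
    have hlogκ : Real.log (2 / (κ / 2 * lam)) ≤ 5 * l := by
      have h1 : 2 / (κ / 2 * lam) ≤ (1 / lam) ^ 5 := by
        rw [div_le_iff₀ (by positivity)]
        have h3 : (1 / lam) ^ 5 * (κ / 2 * lam) = κ / (2 * lam ^ 4) := by
          field_simp
        rw [h3, le_div_iff₀ (by positivity)]
        have h4 := pow_pos hlam 4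
        linarith
      have h2 := Real.log_le_log (by positivity) h1
      rw [Real.log_pow] at h2
      rw [hl]
      exact_mod_cast h2
    have hsqκ : Real.sqrt κ0 ≤ Real.sqrt (κ / 2) := Real.sqrt_le_sqrt (by linarith)
    have hcond : C * Real.log (2 / (κ / 2 * lam)) / Real.sqrt (κ / 2) ≤ L0 := by
      refine le_trans ?_ hL0ge
      rw [hX]
      calc C * Real.log (2 / (κ / 2 * lam)) / Real.sqrt (κ / 2) ≤ C * (5 * l) / Real.sqrt κ0 := by
            gcongr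
        _ ≤ 8 * C * l / Real.sqrt κ0 := by
            apply div_le_div_of_nonneg_right _ hsκ00.le
            have : 0 < C * l := by positivity
            linarith
    have hb := Hb μ hreg lam hlam hlam1 L0 (E0 - κ0 * (1 / 8)) ε0 hε00 hε0ρ hT (κ / 2) (by positivity)
      (by linarith) hcond
    filter_upwards [hb] with ω hω
    refine LO.Main.dec_mono _ _ _ _ _ _ hω ?_ ?_
    · apply Set.Iic_subset_Iic.2
      obtain ⟨h1, h2⟩ := abs_le.1 hE0s
      linarith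
    · exact rate C K κ lam hC hK4C hκpos hκ1 hlam hlam1

end Pool.Agent.K3h4.AN.F2
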