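import Pool.Agent.K3h4.AN.Gz
import Pool.Agent.H4R2.AE.Lin

/-! # The massive Green function of the two dimensional torus at the origin: asymptotics -/

set_option autoImplicit false

open scoped BigOperators

namespace Pool.Agent.K3h4.AN.Gz

open Pool.Agent.H4R2
open Pool.Agent.H4R2.AE (T LapW Hop)

theorem sum_inv (a : ℝ) (ha : 0 < a) (n : ℕ) :
    Real.log ((n + 1 + a) / (1 + a)) ≤ ∑ j ∈ Finset.range n, 1 / (a + (j + 1)) ∧
      ∑ j ∈ Finset.range n, 1 / (a + (j + 1)) ≤ Real.log ((n + a) / a) := by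
  induction n with
  | zero =>
    simp only [Finset.range_zero, Finset.sum_empty, Nat.cast_zero]
    rw [zero_add, zero_add, div_self (by positivity), div_self (by positivity), Real.log_one]
    exact ⟨le_rfl, le_rfl⟩
  | succ n ih =>
    obtain ⟨h1, h2⟩ := ih
    rw [Finset.sum_range_succ]
    push_cast
    have hn : (0 : ℝ) ≤ n := Nat.cast_nonneg n
    constructor
    · have e : ((n : ℝ) + 1 + 1 + a) / (1 + a) = (n + 1 + a) / (1 + a) * ((n + 1 + 1 + a) / (n + 1 + a)) := by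
        field_simp
      rw [e, Real.log_mul (by positivity) (by positivity)]
      have h3 : Real.log (((n : ℝ) + 1 + 1 + a) / (n + 1 + a)) ≤ 1 / (a + (n + 1)) := by
        refine (Real.log_le_sub_one_of_pos (by positivity)).trans (le_of_eq ?_)
        field_simp
        ring
      linarith
    · have e : ((n : ℝ) + 1 + a) / a = (n + a) / a * ((n + 1 + a) / (n + a)) := by
        field_simp
      rw [e, Real.log_mul (by positivity) (by positivity)]
      have h3 : 1 / (a + ((n : ℝ) + 1)) ≤ Real.log (((n : ℝ) + 1 + a) / (n + a)) := by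
        have h4 := Real.log_le_sub_one_of_pos (show 0 < ((n : ℝ) + a) / (n + 1 + a) by positivity)
        have h5 : Real.log ((n + a) / ((n : ℝ) + 1 + a)) = -Real.log (((n : ℝ) + 1 + a) / (n + a)) := by
          rw [← Real.log_inv, inv_div]
        rw [h5] at h4
        have h6 : ((n : ℝ) + a) / (n + 1 + a) - 1 = -(1 / (a + (n + 1))) := by
          field_simp
          ring
        linarith
      linarith

theorem sum_sq2 (a : ℝ) (ha : 0 < a) (n : ℕ) :
    ∑ j ∈ Finset.range n, a / (a + (j + 1)) ^ 2 ≤ 1 - a / (a + n) := by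
  induction n with
  | zero => simp [ha.ne']
  | succ n ih =>
    rw [Finset.sum_range_succ]
    push_cast
    have hn : (0 : ℝ) ≤ n := Nat.cast_nonneg n
    have h : a / (a + ((n : ℝ) + 1)) ^ 2 ≤ a / (a + n) - a / (a + (n + 1)) := by
      rw [div_sub_div _ _ (by positivity) (by positivity), div_le_div_iff₀ (by positivity) (by positivity)]
      have e : (a * (a + ((n : ℝ) + 1)) - (a + n) * a) = a := by ring
      rw [e]
      have : (a + (n : ℝ)) * (a + (n + 1)) ≤ (a + (n + 1)) ^ 2 := by nlinarith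
      exact mul_le_mul_of_nonneg_left this ha.le
    linarith

theorem sum_sq1 (n : ℕ) :
    ∑ j ∈ Finset.range n, 1 / ((j : ℝ) + 1) ^ 2 ≤ 2 - 2 / ((n : ℝ) + 1) := by
  induction n with
  | zero => simp
  | succ n ih =>
    rw [Finset.sum_range_succ]
    push_cast
    have hn : (0 : ℝ) ≤ n := Nat.cast_nonneg n
    have h : 1 / ((n : ℝ) + 1) ^ 2 ≤ 2 / (n + 1) - 2 / (n + 1 + 1) := by
      rw [div_sub_div _ _ (by positivity) (by positivity), div_le_div_iff₀ (by positivity) (by positivity)]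
      nlinarith
    linarith

/-- the continuum symbol -/
noncomputable def hh (κ y : ℝ) : ℝ := 1 / (2 * Real.sqrt (κ + y ^ 2))

/-- the lattice symbol -/
noncomputable def ff (κ y : ℝ) : ℝ :=
  1 / Real.sqrt ((κ + (2 - 2 * Real.cos y)) * (4 + (κ + (2 - 2 * Real.cos y))))

theorem s_low (y : ℝ) (hy : |y| ≤ Real.pi) : 2 / 5 * y ^ 2 ≤ 2 - 2 * Real.cos y := by
  have h := Real.cos_le_one_sub_mul_cos_sq hy
  have h1 : 1 / 5 ≤ 2 / Real.pi ^ 2 := by
    rw [div_le_div_iff₀ (by norm_num) (by positivity)]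
    have h3 := Real.pi_lt_d2
    have h4 : Real.pi ^ 2 ≤ 3.15 ^ 2 := pow_le_pow_left₀ Real.pi_pos.le h3.le 2
    norm_num at h4 ⊢
    linarith
  have h2 : 1 / 5 * y ^ 2 ≤ 2 / Real.pi ^ 2 * y ^ 2 := mul_le_mul_of_nonneg_right h1 (sq_nonneg y)
  linarith

theorem s_high (y : ℝ) : y ^ 2 - y ^ 4 ≤ 2 - 2 * Real.cos y := by
  rcases le_total |y| 1 with h | h
  · have h1 := (abs_le.1 (Real.cos_bound h)).2
    have h2 : |y| ^ 4 = y ^ 4 := by
      rw [show (4 : ℕ) = 2 * 2 from rfl, pow_mul, pow_mul, sq_abs]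
    rw [h2] at h1
    have h3 : 0 ≤ y ^ 4 := by positivity
    linarith
  · have h1 : 1 ≤ y ^ 2 := by
      rw [← sq_abs]; exact one_le_pow₀ h
    have h2 := Real.cos_le_one y
    have h3 : y ^ 2 ≤ y ^ 4 := by
      calc y ^ 2 = 1 * y ^ 2 := (one_mul _).symm
        _ ≤ y ^ 2 * y ^ 2 := by gcongr
        _ = y ^ 4 := by ring
    linarith

theorem fh (κ y : ℝ) (hκ : 0 < κ) (hκ1 : κ ≤ 1) (hy : |y| ≤ Real.pi) :
    |ff κ y - hh κ y| ≤ 4 := by
  have h1 := s_low y hy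
  have h2 := s_high y
  have h3 : 2 - 2 * Real.cos y ≤ y ^ 2 := by
    have := Real.one_sub_sq_div_two_le_cos (x := y)
    linarith
  have hyp : y ^ 2 ≤ 10 := by
    rw [← sq_abs]
    have h3 := Real.pi_lt_d2
    have h4 : |y| ^ 2 ≤ 3.15 ^ 2 := pow_le_pow_left₀ (abs_nonneg _) (by linarith) 2
    norm_num at h4 ⊢
    linarith
  have hy2 := sq_nonneg y
  unfold ff hh
  obtain ⟨q, hq⟩ : ∃ z : ℝ, z = κ + y ^ 2 := ⟨_, rfl⟩
  obtain ⟨s, hs⟩ : ∃ z : ℝ, z = κ + (2 - 2 * Real.cos y) := ⟨_, rfl⟩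
  rw [← hq, ← hs]
  have hq0 : 0 < q := by rw [hq]; positivity
  have hsq : s ≤ q := by linarith
  have hqs : 2 / 5 * q ≤ s := by rw [hq, hs]; nlinarith
  have hs0 : 0 < s := by linarith
  have hd : q - s ≤ q ^ 2 := by
    have e : y ^ 4 ≤ q ^ 2 := by
      rw [hq]
      nlinarith
    linarith
  have hq16 : q ≤ 16 := by linarith
  obtain ⟨A, hA⟩ : ∃ z : ℝ, z = Real.sqrt (s * (4 + s)) := ⟨_, rfl⟩
  obtain ⟨B, hB⟩ : ∃ z : ℝ, z = 2 * Real.sqrt q := ⟨_, rfl⟩
  have hA2 : A ^ 2 = s * (4 + s) := by rw [hA]; exact Real.sq_sqrt (by positivity)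
  have hB2 : B ^ 2 = 4 * q := by rw [hB, mul_pow, Real.sq_sqrt hq0.le]; ring
  have hA0 : 0 < A := by rw [hA]; exact Real.sqrt_pos.2 (by positivity)
  have hB0 : 0 < B := by rw [hB]; have := Real.sqrt_pos.2 hq0; positivity
  rw [← hA, ← hB]
  have hAB : |A ^ 2 - B ^ 2| ≤ 4 * q ^ 2 := by
    rw [hA2, hB2, abs_le]
    constructor
    · nlinarith
    · nlinarith
  have e1 : 1 / A - 1 / B = (B - A) / (A * B) := by field_simp
  rw [e1, abs_div, abs_of_pos (show 0 < A * B by positivity), div_le_iff₀ (by positivity)]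
  have h4 : |B - A| * B ≤ 4 * q ^ 2 := by
    calc |B - A| * B ≤ |B - A| * (A + B) := by
          apply mul_le_mul_of_nonneg_left _ (abs_nonneg _); linarith
      _ = |A ^ 2 - B ^ 2| := by
          rw [show A ^ 2 - B ^ 2 = -((B - A) * (A + B)) by ring, abs_neg, abs_mul,
            abs_of_pos (show 0 < A + B by positivity)]
      _ ≤ 4 * q ^ 2 := hAB
  have h5 : |B - A| * B ≤ 4 * (A * B) * B := by
    refine h4.trans ?_
    have e2 : 4 * (A * B) * B = 16 * q * A := by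
      calc 4 * (A * B) * B = 4 * A * B ^ 2 := by ring
        _ = _ := by rw [hB2]; ring
    rw [e2]
    have h6 : q ≤ 4 * A := by
      have h7 : q ^ 2 ≤ (4 * A) ^ 2 := by
        rw [mul_pow, hA2]
        nlinarith
      exact (pow_le_pow_iff_left₀ hq0.le (by positivity) (by norm_num)).1 h7
    nlinarith
  exact le_of_mul_le_mul_right h5 hB0

theorem hh_le (κ y : ℝ) (hκ : 0 < κ) (hy : 1 ≤ |y|) : 0 ≤ hh κ y ∧ hh κ y ≤ 1 := by
  unfold hh
  refine ⟨by positivity, ?_⟩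
  rw [div_le_one (by positivity)]
  have : 1 ≤ Real.sqrt (κ + y ^ 2) := by
    apply Real.le_sqrt_of_sq_le
    rw [← sq_abs y]
    nlinarith
  linarith

/-- the sum of the continuum symbol -/
theorem sum_hh (κ : ℝ) (hκ : 0 < κ) (hκ1 : κ ≤ 1) (L : ℕ) (hL : 1 ≤ κ * (L : ℝ) ^ 2) (hL0 : 0 < L) :
    |2 / L * ∑ j ∈ Finset.range (L - 1), hh κ (2 * Real.pi * (j + 1 : ℕ) / L) -
      1 / (4 * Real.pi) * Real.log (1 / κ)| ≤ 4 := by
  have hLp : (0 : ℝ) < L := by exact_mod_cast hL0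
  have hpi := Real.pi_pos
  have hpi3 := Real.pi_gt_three
  have hpi4 := Real.pi_lt_d2
  obtain ⟨a, ha⟩ : ∃ z : ℝ, z = L * Real.sqrt κ / (2 * Real.pi) := ⟨_, rfl⟩
  have hsκ : 0 < Real.sqrt κ := Real.sqrt_pos.2 hκ
  have hsκ1 : Real.sqrt κ ≤ 1 := Real.sqrt_le_one.2 hκ1
  have ha0 : 0 < a := by rw [ha]; positivity
  have hLs : 1 ≤ L * Real.sqrt κ := by
    have h1 : 1 ^ 2 ≤ (L * Real.sqrt κ) ^ 2 := by
      rw [mul_pow, Real.sq_sqrt hκ.le]; linarith
    exact (pow_le_pow_iff_left₀ (by norm_num) (by positivity) (by norm_num)).1 h1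
  have ha1 : 1 ≤ 2 * Real.pi * a := by
    rw [ha]
    have : 2 * Real.pi * (L * Real.sqrt κ / (2 * Real.pi)) = L * Real.sqrt κ := by field_simp
    rw [this]; exact hLs
  have ha2 : a ^ 2 = (L : ℝ) ^ 2 * κ / (4 * Real.pi ^ 2) := by
    rw [ha, div_pow, mul_pow, Real.sq_sqrt hκ.le]; ring
  -- rewriting the summand
  have hterm : ∀ j : ℕ, 2 / L * hh κ (2 * Real.pi * (j + 1 : ℕ) / L) =
      1 / (2 * Real.pi) * (1 / Real.sqrt (a ^ 2 + ((j : ℝ) + 1) ^ 2)) := by
    intro j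
    unfold hh
    have e : κ + (2 * Real.pi * ((j + 1 : ℕ) : ℝ) / L) ^ 2 =
        (2 * Real.pi / L) ^ 2 * (a ^ 2 + ((j : ℝ) + 1) ^ 2) := by
      rw [ha2]
      push_cast
      field_simp
      ring
    rw [e, Real.sqrt_mul (by positivity), Real.sqrt_sq (by positivity)]
    have : 0 < Real.sqrt (a ^ 2 + ((j : ℝ) + 1) ^ 2) := Real.sqrt_pos.2 (by positivity)
    field_simp
  rw [Finset.mul_sum, Finset.sum_congr rfl fun j _ => hterm j, ← Finset.mul_sum]
  -- bounds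
  have hlow : ∀ j : ℕ, 1 / (a + ((j : ℝ) + 1)) ≤ 1 / Real.sqrt (a ^ 2 + ((j : ℝ) + 1) ^ 2) := by
    intro j
    have hj : (0 : ℝ) < (j : ℝ) + 1 := by positivity
    apply one_div_le_one_div_of_le (Real.sqrt_pos.2 (by positivity))
    rw [Real.sqrt_le_left (by positivity)]
    nlinarith
  have hup : ∀ j : ℕ, 1 / Real.sqrt (a ^ 2 + ((j : ℝ) + 1) ^ 2) ≤
      1 / (a + ((j : ℝ) + 1)) + 2 * (a / (a + ((j : ℝ) + 1)) ^ 2) := by
    intro j
    obtain ⟨b, hb⟩ : ∃ z : ℝ, z = (j : ℝ) + 1 := ⟨_, rfl⟩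
    have hb0 : 0 < b := by rw [hb]; positivity
    rw [← hb]
    obtain ⟨r, hr⟩ : ∃ z : ℝ, z = Real.sqrt (a ^ 2 + b ^ 2) := ⟨_, rfl⟩
    have hr0 : 0 < r := by rw [hr]; exact Real.sqrt_pos.2 (by positivity)
    have hr2 : r ^ 2 = a ^ 2 + b ^ 2 := by rw [hr]; exact Real.sq_sqrt (by positivity)
    rw [← hr]
    have hbr : b ≤ r := by
      rw [hr]; apply Real.le_sqrt_of_sq_le; nlinarith
    have h1 : (a + b - r) * (a + b) ≤ 2 * a * b := by
      have h2 : (a + b - r) * (a + b + r) = 2 * a * b := by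
        calc (a + b - r) * (a + b + r) = (a + b) ^ 2 - r ^ 2 := by ring
          _ = _ := by rw [hr2]; ring
      have h3 : 0 ≤ a + b - r := by
        have : r ≤ a + b := by
          rw [hr, Real.sqrt_le_left (by positivity)]; nlinarith
        linarith
      nlinarith
    have e : 1 / (a + b) + 2 * (a / (a + b) ^ 2) = (a + b + 2 * a) / (a + b) ^ 2 := by
      field_simp
    rw [e, div_le_div_iff₀ hr0 (by positivity), one_mul]
    nlinarith
  obtain ⟨S, hS⟩ : ∃ z : ℝ, z = ∑ j ∈ Finset.range (L - 1), 1 / Real.sqrt (a ^ 2 + ((j : ℝ) + 1) ^ 2) :=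
    ⟨_, rfl⟩
  rw [← hS]
  have hcast : ((L - 1 : ℕ) : ℝ) = L - 1 := by
    rw [Nat.cast_sub (by omega)]; simp
  obtain ⟨b1, b2⟩ := sum_inv a ha0 (L - 1)
  rw [hcast] at b1 b2
  have hS1 : Real.log ((L - 1 + 1 + a) / (1 + a)) ≤ S := by
    refine b1.trans ?_
    rw [hS]
    exact Finset.sum_le_sum fun j _ => hlow j
  have hS2 : S ≤ Real.log ((L - 1 + a) / a) + 2 := by
    have h1 : S ≤ ∑ j ∈ Finset.range (L - 1), (1 / (a + ((j : ℝ) + 1)) +
        2 * (a / (a + ((j : ℝ) + 1)) ^ 2)) := by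
      rw [hS]
      exact Finset.sum_le_sum fun j _ => hup j
    rw [Finset.sum_add_distrib, ← Finset.mul_sum] at h1
    have h2 := sum_sq2 a ha0 (L - 1)
    have h3 : 0 ≤ a / (a + ((L - 1 : ℕ) : ℝ)) := by positivity
    linarith
  -- the logarithms
  obtain ⟨l, hl⟩ : ∃ z : ℝ, z = Real.log (1 / κ) := ⟨_, rfl⟩
  have hlog : Real.log (1 / Real.sqrt κ) = l / 2 := by
    rw [hl, one_div, one_div, Real.log_inv, Real.log_inv, Real.log_sqrt hκ.le]; ring
  have hl0 : 0 ≤ l := by rw [hl]; exact Real.log_nonneg (by rw [le_div_iff₀ hκ]; linarith)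
  have hLa : (L : ℝ) / a = 2 * Real.pi / Real.sqrt κ := by rw [ha]; field_simp
  have hlo : l / 2 - 1 ≤ Real.log ((L - 1 + 1 + a) / (1 + a)) := by
    have h1 : 2 * Real.pi / (2 * Real.pi + 1) * (1 / Real.sqrt κ) ≤ (L - 1 + 1 + a) / (1 + a) := by
      rw [le_div_iff₀ (by positivity)]
      have h2 : (1 + a) ≤ (2 * Real.pi + 1) * a := by linarith
      calc 2 * Real.pi / (2 * Real.pi + 1) * (1 / Real.sqrt κ) * (1 + a) ≤
            2 * Real.pi / (2 * Real.pi + 1) * (1 / Real.sqrt κ) * ((2 * Real.pi + 1) * a) := by gcongr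
        _ = 2 * Real.pi / Real.sqrt κ * a := by field_simp
        _ = L := by rw [← hLa]; field_simp
        _ ≤ _ := by linarith
    have h2 : 1 / 2 * (1 / Real.sqrt κ) ≤ 2 * Real.pi / (2 * Real.pi + 1) * (1 / Real.sqrt κ) := by
      apply mul_le_mul_of_nonneg_right _ (by positivity)
      rw [div_le_div_iff₀ (by norm_num) (by positivity)]
      linarith
    have h3 := Real.log_le_log (by positivity) (h2.trans h1)
    rw [Real.log_mul (by norm_num) (by positivity), hlog, Real.log_div (by norm_num) (by norm_num),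
      Real.log_one] at h3
    have := Real.log_two_lt_d9
    linarith
  have hhi : Real.log ((L - 1 + a) / a) ≤ l / 2 + 3 := by
    have h1 : (L - 1 + a) / a ≤ 8 * (1 / Real.sqrt κ) := by
      have e : ((L : ℝ) - 1 + a) / a = L / a + 1 - 1 / a := by field_simp; ring
      have h2 : 0 < 1 / a := by positivity
      have h3 : 1 ≤ 1 / Real.sqrt κ := by rw [le_div_iff₀ hsκ]; linarith
      rw [e, hLa]
      have h4 : 2 * Real.pi / Real.sqrt κ = 2 * Real.pi * (1 / Real.sqrt κ) := by ring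
      rw [h4]
      have h5 : 2 * Real.pi * (1 / Real.sqrt κ) ≤ 7 * (1 / Real.sqrt κ) := by gcongr; linarith
      linarith
    have hpos : 0 < ((L : ℝ) - 1 + a) / a := by
      have : (1 : ℝ) ≤ L := by exact_mod_cast hL0
      have h2 : 0 < (L : ℝ) - 1 + a := by linarith
      positivity
    have h3 := Real.log_le_log hpos h1
    rw [Real.log_mul (by norm_num) (by positivity), hlog] at h3
    have h8 : Real.log 8 ≤ 3 := by
      have : Real.log 8 = 3 * Real.log 2 := by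
        rw [show (8 : ℝ) = 2 ^ 3 by norm_num, Real.log_pow]; norm_num
      rw [this]
      have := Real.log_two_lt_d9
      linarith
    linarith
  have hc : 1 / (4 * Real.pi) * l = 1 / (2 * Real.pi) * (l / 2) := by field_simp; ring
  rw [← hl, hc, ← mul_sub, abs_mul, abs_of_pos (show 0 < 1 / (2 * Real.pi) by positivity)]
  have h9 : |S - l / 2| ≤ 5 := by
    rw [abs_le]; constructor <;> linarith
  have h10 : 1 / (2 * Real.pi) ≤ 1 / 6 := by
    apply one_div_le_one_div_of_le (by norm_num); linarith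
  calc 1 / (2 * Real.pi) * |S - l / 2| ≤ 1 / 6 * 5 := by gcongr
    _ ≤ 4 := by norm_num

theorem ff_refl (κ y : ℝ) : ff κ (2 * Real.pi - y) = ff κ y := by
  unfold ff
  rw [Real.cos_two_pi_sub]

/-- one term of the sum -/
theorem term (κ : ℝ) (hκ : 0 < κ) (hκ1 : κ ≤ 1) (L k k' : ℕ) (hk : 0 < k) (hk' : 0 < k')
    (hL : k + k' = L) :
    |ff κ (2 * Real.pi * k / L) - hh κ (2 * Real.pi * k / L) - hh κ (2 * Real.pi * k' / L)| ≤ 5 ∧
      3 / (2 * (L : ℝ) ^ 2 * (κ + (2 - 2 * Real.cos (2 * Real.pi * k / L)))) ≤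
        3 / 2 * (1 / (k : ℝ) ^ 2 + 1 / (k' : ℝ) ^ 2) := by
  have hpi := Real.pi_pos
  have hpi3 := Real.pi_gt_three
  have hk0 : (0 : ℝ) < k := by exact_mod_cast hk
  have hk0' : (0 : ℝ) < k' := by exact_mod_cast hk'
  have hLe : (L : ℝ) = k + k' := by rw [← hL]; push_cast; ring
  have hL0 : (0 : ℝ) < L := by rw [hLe]; positivity
  have hsum : 2 * Real.pi * k / L = 2 * Real.pi - 2 * Real.pi * k' / L := by
    rw [eq_sub_iff_add_eq, ← add_div, ← mul_add, ← hLe]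
    field_simp
  have hone : ∀ (m n : ℕ), 0 < m → 0 < n → (L : ℝ) = m + n → m ≤ n →
      |ff κ (2 * Real.pi * m / L) - hh κ (2 * Real.pi * m / L)| ≤ 4 ∧
        0 ≤ hh κ (2 * Real.pi * n / L) ∧ hh κ (2 * Real.pi * n / L) ≤ 1 ∧
        3 / (2 * (L : ℝ) ^ 2 * (κ + (2 - 2 * Real.cos (2 * Real.pi * m / L)))) ≤
          3 / 2 * (1 / (m : ℝ) ^ 2) := by
    intro m n hm hn hmn hle
    have hm0 : (0 : ℝ) < m := by exact_mod_cast hm
    have hn0 : (0 : ℝ) < n := by exact_mod_cast hn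
    have hle' : (m : ℝ) ≤ n := by exact_mod_cast hle
    have hy0 : 0 < 2 * Real.pi * m / L := by positivity
    have hy1 : 2 * Real.pi * m / L ≤ Real.pi := by
      rw [div_le_iff₀ hL0, hmn]
      nlinarith
    have hz1 : 1 ≤ 2 * Real.pi * n / L := by
      rw [le_div_iff₀ hL0, hmn]
      nlinarith
    have ha : |2 * Real.pi * (m : ℝ) / L| ≤ Real.pi := by rw [abs_of_pos hy0]; exact hy1
    have hb := hh_le κ (2 * Real.pi * n / L) hκ (by
      rw [abs_of_nonneg (by linarith)]; exact hz1)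
    refine ⟨fh κ _ hκ hκ1 ha, hb.1, hb.2, ?_⟩
    have h1 := s_low _ ha
    have h2 : (m : ℝ) ^ 2 / (L : ℝ) ^ 2 ≤ 2 / 5 * (2 * Real.pi * m / L) ^ 2 := by
      have : 2 / 5 * (2 * Real.pi * (m : ℝ) / L) ^ 2 =
          (8 / 5 * Real.pi ^ 2) * ((m : ℝ) ^ 2 / (L : ℝ) ^ 2) := by field_simp; ring
      rw [this]
      have h3 : 1 ≤ 8 / 5 * Real.pi ^ 2 := by nlinarith
      have h4 : 0 ≤ (m : ℝ) ^ 2 / (L : ℝ) ^ 2 := by positivity
      nlinarith
    have h3 : (m : ℝ) ^ 2 / (L : ℝ) ^ 2 ≤ κ + (2 - 2 * Real.cos (2 * Real.pi * m / L)) := by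
      linarith
    have h4 : 0 < (m : ℝ) ^ 2 / (L : ℝ) ^ 2 := by positivity
    calc 3 / (2 * (L : ℝ) ^ 2 * (κ + (2 - 2 * Real.cos (2 * Real.pi * m / L)))) ≤
          3 / (2 * (L : ℝ) ^ 2 * ((m : ℝ) ^ 2 / (L : ℝ) ^ 2)) := by gcongr
      _ = 3 / 2 * (1 / (m : ℝ) ^ 2) := by field_simp
  rcases le_total k k' with h | h
  · obtain ⟨h1, h2, h3, h4⟩ := hone k k' hk hk' hLe h
    constructor
    · rw [abs_le] at h1 ⊢
      constructor <;> linarith [h1.1, h1.2]
    · have : 0 ≤ 1 / (k' : ℝ) ^ 2 := by positivity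
      linarith
  · obtain ⟨h1, h2, h3, h4⟩ := hone k' k hk' hk (by rw [hLe]; ring) h
    constructor
    · have e : ff κ (2 * Real.pi * k / L) = ff κ (2 * Real.pi * k' / L) := by
        rw [hsum, ff_refl]
      rw [e]
      rw [abs_le] at h1 ⊢
      constructor <;> linarith [h1.1, h1.2]
    · have e : Real.cos (2 * Real.pi * k / L) = Real.cos (2 * Real.pi * k' / L) := by
        rw [hsum, Real.cos_two_pi_sub]
      rw [e]
      have : 0 ≤ 1 / (k : ℝ) ^ 2 := by positivity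
      linarith

/-- **the Green function at the origin** -/
theorem green_zero (L : ℕ) [NeZero L] (κ : ℝ) (hκ : 0 < κ) (hκ1 : κ ≤ 1)
    (hL : 1 ≤ κ * (L : ℝ) ^ 2) : ∃ g : T 2 L → ℝ, (∀ x, 0 ≤ g x) ∧
      (∀ x, LapW (fun _ => 1) g x + κ * g x = if x = 0 then 1 else 0) ∧
      |g 0 - 1 / (4 * Real.pi) * Real.log (1 / κ)| ≤ 20 := by
  have hLn : 0 < L := NeZero.pos L
  have hLp : (0 : ℝ) < L := by exact_mod_cast hLn
  have hs : ∀ k : ℕ, 0 < κ + (2 - 2 * Real.cos (2 * Real.pi * k / L)) := fun k => by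
    have := Real.cos_le_one (2 * Real.pi * k / L)
    linarith
  have hs5 : ∀ k : ℕ, κ + (2 - 2 * Real.cos (2 * Real.pi * k / L)) ≤ 5 := fun k => by
    have := Real.neg_one_le_cos (2 * Real.pi * k / L)
    linarith
  choose G hG1 hG2 hG3 using fun k : ℕ => green1 (L := L)
    (κ + (2 - 2 * Real.cos (2 * Real.pi * k / L))) (hs k)
  obtain ⟨g, hg⟩ : ∃ g : T 2 L → ℝ, g = fun x =>
    1 / (L : ℝ) * ∑ k ∈ Finset.range L, Real.cos (2 * Real.pi * k / L * (x 0).val) * G k (x 1) :=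
    ⟨_, rfl⟩
  have heq : ∀ x, LapW (fun _ => 1) g x + κ * g x = if x = 0 then 1 else 0 := by
    intro x
    unfold LapW
    simp only [one_mul]
    rw [Fin.sum_univ_two]
    have e00 : (x + Pi.single 0 1 : T 2 L) 0 = x 0 + 1 := by simp
    have e01 : (x + Pi.single 0 1 : T 2 L) 1 = x 1 := by simp
    have e10 : (x + Pi.single 1 1 : T 2 L) 0 = x 0 := by simp
    have e11 : (x + Pi.single 1 1 : T 2 L) 1 = x 1 + 1 := by simp
    have f00 : (x - Pi.single 0 1 : T 2 L) 0 = x 0 - 1 := by simp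
    have f01 : (x - Pi.single 0 1 : T 2 L) 1 = x 1 := by simp
    have f10 : (x - Pi.single 1 1 : T 2 L) 0 = x 0 := by simp
    have f11 : (x - Pi.single 1 1 : T 2 L) 1 = x 1 - 1 := by simp
    rw [hg]
    beta_reduce
    rw [e00, e01, e10, e11, f00, f01, f10, f11]
    have h1 : ∀ k : ℕ, Real.cos (2 * Real.pi * k / L * (x 0).val) * (if x 1 = 0 then 1 else 0) =
        (2 * Real.cos (2 * Real.pi * k / L * (x 0).val) -
          Real.cos (2 * Real.pi * k / L * (x 0 + 1).val) -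
          Real.cos (2 * Real.pi * k / L * (x 0 - 1).val)) * G k (x 1) +
        Real.cos (2 * Real.pi * k / L * (x 0).val) * (2 * G k (x 1) - G k (x 1 + 1) -
          G k (x 1 - 1)) + κ * (Real.cos (2 * Real.pi * k / L * (x 0).val) * G k (x 1)) := by
      intro k
      rw [cos_step, ← hG1 k (x 1)]
      ring
    have h2 : ∑ k ∈ Finset.range L, Real.cos (2 * Real.pi * k / L * (x 0).val) *
        (if x 1 = 0 then 1 else 0) = (if x 0 = 0 then (L : ℝ) else 0) * (if x 1 = 0 then 1 else 0) := by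
      rw [← Finset.sum_mul, cos_sum]
    rw [Finset.sum_congr rfl fun k _ => h1 k] at h2
    have h3 : (if x = 0 then (1 : ℝ) else 0) = 1 / (L : ℝ) * ((if x 0 = 0 then (L : ℝ) else 0) *
        (if x 1 = 0 then 1 else 0)) := by
      by_cases h : x = 0
      · rw [if_pos h, h]
        simp [hLp.ne']
      · rw [if_neg h]
        by_cases h0 : x 0 = 0
        · by_cases h1 : x 1 = 0
          · exfalso
            apply h
            funext i
            fin_cases i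
            · exact h0
            · exact h1
          · rw [if_neg h1]; ring
        · rw [if_neg h0]; ring
    rw [h3, ← h2]
    simp only [Finset.mul_sum, ← Finset.sum_sub_distrib, ← Finset.sum_add_distrib]
    refine Finset.sum_congr rfl fun k _ => ?_
    ring
  have hnn : ∀ x, 0 ≤ g x := by
    apply AE.Lin.nonneg (fun _ => 1) (fun _ => κ) g (fun _ => one_pos) (fun _ => hκ)
    intro x
    rw [heq x]
    split_ifs <;> norm_num
  refine ⟨g, hnn, heq, ?_⟩
  -- the value at the origin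
  have hg0 : g 0 = 1 / (L : ℝ) * ∑ k ∈ Finset.range L, G k 0 := by
    rw [hg]
    beta_reduce
    congr 1
    refine Finset.sum_congr rfl fun k _ => ?_
    have : ((0 : T 2 L) 0).val = 0 := by
      rw [Pi.zero_apply, ZMod.val_zero]
    rw [this]
    simp
  obtain ⟨n, hn⟩ : ∃ n, L = n + 1 := ⟨L - 1, by omega⟩
  have hn1 : L - 1 = n := by omega
  have hsh := sum_hh κ hκ hκ1 L hL hLn
  rw [hn1] at hsh
  obtain ⟨Sh, hSh⟩ : ∃ z : ℝ, z = ∑ j ∈ Finset.range n, hh κ (2 * Real.pi * (j + 1 : ℕ) / L) :=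
    ⟨_, rfl⟩
  rw [← hSh] at hsh
  have hterm : ∀ j ∈ Finset.range n, |ff κ (2 * Real.pi * (j + 1 : ℕ) / L) -
      hh κ (2 * Real.pi * (j + 1 : ℕ) / L) - hh κ (2 * Real.pi * ((n - 1 - j) + 1 : ℕ) / L)| ≤ 5 ∧
      3 / (2 * (L : ℝ) ^ 2 * (κ + (2 - 2 * Real.cos (2 * Real.pi * (j + 1 : ℕ) / L)))) ≤
        3 / 2 * (1 / ((j + 1 : ℕ) : ℝ) ^ 2 + 1 / (((n - 1 - j) + 1 : ℕ) : ℝ) ^ 2) := by
    intro j hj
    have hj' := Finset.mem_range.1 hj
    exact term κ hκ hκ1 L (j + 1) ((n - 1 - j) + 1) (by omega) (by omega) (by omega)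
  have hrefl1 : ∑ j ∈ Finset.range n, hh κ (2 * Real.pi * ((n - 1 - j) + 1 : ℕ) / L) = Sh := by
    rw [hSh]
    exact Finset.sum_range_reflect (fun j : ℕ => hh κ (2 * Real.pi * (j + 1 : ℕ) / L)) n
  have hsq1 := sum_sq1 n
  have hsq0 : ∑ j ∈ Finset.range n, 1 / ((j + 1 : ℕ) : ℝ) ^ 2 ≤ 2 := by
    have h1 : 0 ≤ 2 / ((n : ℝ) + 1) := by positivity
    have h2 : ∑ j ∈ Finset.range n, 1 / ((j + 1 : ℕ) : ℝ) ^ 2 =
        ∑ j ∈ Finset.range n, 1 / ((j : ℝ) + 1) ^ 2 := by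
      refine Finset.sum_congr rfl fun j _ => ?_
      push_cast
      rfl
    linarith
  have hsq2 : ∑ j ∈ Finset.range n, 1 / (((n - 1 - j) + 1 : ℕ) : ℝ) ^ 2 ≤ 2 := by
    have := Finset.sum_range_reflect (fun j : ℕ => 1 / ((j + 1 : ℕ) : ℝ) ^ 2) n
    beta_reduce at this
    rw [this]
    exact hsq0
  have hff : |∑ j ∈ Finset.range n, ff κ (2 * Real.pi * (j + 1 : ℕ) / L) - 2 * Sh| ≤ 5 * n := by
    have e : ∑ j ∈ Finset.range n, ff κ (2 * Real.pi * (j + 1 : ℕ) / L) - 2 * Sh =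
        ∑ j ∈ Finset.range n, (ff κ (2 * Real.pi * (j + 1 : ℕ) / L) -
          hh κ (2 * Real.pi * (j + 1 : ℕ) / L) -
          hh κ (2 * Real.pi * ((n - 1 - j) + 1 : ℕ) / L)) := by
      rw [Finset.sum_sub_distrib, Finset.sum_sub_distrib, hrefl1, ← hSh]
      ring
    rw [e]
    refine (Finset.abs_sum_le_sum_abs _ _).trans ?_
    refine (Finset.sum_le_sum fun j hj => (hterm j hj).1).trans ?_
    rw [Finset.sum_const, Finset.card_range, nsmul_eq_mul]
    linarith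
  have hnL : (n : ℝ) ≤ L := by
    have : n ≤ L := by omega
    exact_mod_cast this
  obtain ⟨Sf, hSf⟩ : ∃ z : ℝ, z = ∑ j ∈ Finset.range n, ff κ (2 * Real.pi * (j + 1 : ℕ) / L) :=
    ⟨_, rfl⟩
  rw [← hSf] at hff
  have hsplit : ∑ k ∈ Finset.range L, G k 0 = ∑ j ∈ Finset.range n, G (j + 1) 0 + G 0 0 := by
    have h1 : Finset.range L = Finset.range (n + 1) := congrArg _ hn
    rw [h1, Finset.sum_range_succ']
  have hs0 : κ + (2 - 2 * Real.cos (2 * Real.pi * (0 : ℕ) / L)) = κ := by simp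
  have hlow : Sf ≤ ∑ k ∈ Finset.range L, G k 0 := by
    rw [hsplit, hSf]
    have h1 : ∑ j ∈ Finset.range n, ff κ (2 * Real.pi * (j + 1 : ℕ) / L) ≤
        ∑ j ∈ Finset.range n, G (j + 1) 0 := Finset.sum_le_sum fun j _ => hG2 (j + 1)
    have h2 := hG2 0
    have h3 : 0 ≤ 1 / Real.sqrt ((κ + (2 - 2 * Real.cos (2 * Real.pi * (0 : ℕ) / L))) *
        (4 + (κ + (2 - 2 * Real.cos (2 * Real.pi * (0 : ℕ) / L))))) := by positivity
    linarith
  have hkL : 1 / L ≤ Real.sqrt κ := by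
    apply Real.le_sqrt_of_sq_le
    rw [div_pow, one_pow, div_le_iff₀ (by positivity)]
    exact hL
  have hG00 : G 0 0 ≤ 2 * L := by
    have h1 := hG3 0 (hs5 0)
    rw [hs0] at h1
    have hsk : 0 < Real.sqrt κ := Real.sqrt_pos.2 hκ
    have h2 : 1 / Real.sqrt (κ * (4 + κ)) ≤ L / 2 := by
      have h3 : 2 * Real.sqrt κ ≤ Real.sqrt (κ * (4 + κ)) := by
        apply Real.le_sqrt_of_sq_le
        rw [mul_pow, Real.sq_sqrt hκ.le]
        nlinarith
      have h4 : 1 / Real.sqrt (κ * (4 + κ)) ≤ 1 / (2 * (1 / L)) := by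
        apply one_div_le_one_div_of_le (by positivity)
        linarith
      refine h4.trans (le_of_eq ?_)
      field_simp
    have h5 : 3 / (2 * L * κ) ≤ 3 / 2 * L := by
      rw [div_le_iff₀ (by positivity)]
      nlinarith
    linarith
  have hup : ∑ k ∈ Finset.range L, G k 0 ≤ Sf + 8 * L := by
    rw [hsplit]
    have h1 : ∑ j ∈ Finset.range n, G (j + 1) 0 ≤ Sf + 6 * L := by
      have h2 : ∀ j ∈ Finset.range n, G (j + 1) 0 ≤ ff κ (2 * Real.pi * (j + 1 : ℕ) / L) +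
          (L : ℝ) * (3 / 2 * (1 / ((j + 1 : ℕ) : ℝ) ^ 2 + 1 / (((n - 1 - j) + 1 : ℕ) : ℝ) ^ 2)) := by
        intro j hj
        refine (hG3 (j + 1) (hs5 (j + 1))).trans ?_
        refine add_le_add le_rfl ?_
        have h3 := (hterm j hj).2
        have h4 : 3 / (2 * L * (κ + (2 - 2 * Real.cos (2 * Real.pi * (j + 1 : ℕ) / L)))) =
            L * (3 / (2 * (L : ℝ) ^ 2 * (κ + (2 - 2 * Real.cos (2 * Real.pi * (j + 1 : ℕ) / L))))) := by
          have := (hs (j + 1)).ne'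
          field_simp
        rw [h4]
        exact mul_le_mul_of_nonneg_left h3 hLp.le
      refine (Finset.sum_le_sum h2).trans ?_
      rw [Finset.sum_add_distrib, ← hSf, ← Finset.mul_sum, ← Finset.mul_sum, Finset.sum_add_distrib]
      have h5 : (L : ℝ) * (3 / 2 * (∑ j ∈ Finset.range n, 1 / ((j + 1 : ℕ) : ℝ) ^ 2 +
          ∑ j ∈ Finset.range n, 1 / (((n - 1 - j) + 1 : ℕ) : ℝ) ^ 2)) ≤
          (L : ℝ) * (3 / 2 * (2 + 2)) := by
        gcongr
      linarith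
    linarith
  rw [hg0]
  obtain ⟨SG, hSG⟩ : ∃ z : ℝ, z = ∑ k ∈ Finset.range L, G k 0 := ⟨_, rfl⟩
  rw [← hSG] at hlow hup ⊢
  obtain ⟨a1, a2⟩ := abs_le.1 hff
  obtain ⟨b1, b2⟩ := abs_le.1 hsh
  have c1 : 1 / (L : ℝ) * SG ≤ 2 / (L : ℝ) * Sh + 13 := by
    have : 1 / (L : ℝ) * SG ≤ 1 / (L : ℝ) * (2 * Sh + 13 * L) := by
      gcongr
      linarith
    refine this.trans (le_of_eq ?_)
    field_simp
  have c2 : 2 / (L : ℝ) * Sh - 5 ≤ 1 / (L : ℝ) * SG := by
    have : 1 / (L : ℝ) * (2 * Sh - 5 * L) ≤ 1 / (L : ℝ) * SG := by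
      gcongr
      linarith
    refine le_trans (le_of_eq ?_) this
    field_simp
  rw [abs_le]
  constructor <;> linarith

end Pool.Agent.K3h4.AN.Gz
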