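import Pool.Agent.K3h4.AN.Sb
import Pool.Agent.K3h4.AN.Gz2
import Pool.Agent.K3h4.AN.F2

/-! # Dimension two: asymptotics of the effective band edge -/

set_option autoImplicit false
set_option linter.unusedSectionVars false
set_option linter.unusedVariables false

open scoped BigOperators
open MeasureTheory Filter Topology

namespace Pool.Agent.K3h4.AN.Es

open Pool.Agent.H4R2
open Pool.Agent.H4R2.AE (T LapW Hop)
open Pool.Agent.H4R2.AE.Good (clamp good_clamp_le good_clamp_eq)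
open Pool.Agent.K3h4.AN.Pe
open Pool.Agent.K3h4.AN.Pf
open Pool.Agent.K3h4.AN.Ch
open Pool.Agent.K3h4.AN.Sa

variable {d L : ℕ} [NeZero L]

theorem hop_exp (lam E : ℝ) (β : ℝ → ℝ) (V w : T d L → ℝ) (h : IsS β lam V E w) (x : T d L) :
    Hop lam V (fun y => Real.exp (w y)) x = (E - β (w x)) * Real.exp (w x) := by
  have h1 : ∑ i : Fin d, (2 * Real.exp (w x) - Real.exp (w (x + Pi.single i 1)) -
      Real.exp (w (x - Pi.single i 1))) = Real.exp (w x) *
      ∑ i : Fin d, ((1 - Real.exp (w (x + Pi.single i 1) - w x)) +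
      (1 - Real.exp (w (x - Pi.single i 1) - w x))) := by
    rw [Finset.mul_sum]
    refine Finset.sum_congr rfl fun i _ => ?_
    rw [Real.exp_sub, Real.exp_sub]
    field_simp
    ring
  have h2 := h x
  show ∑ i : Fin d, (2 * Real.exp (w x) - Real.exp (w (x + Pi.single i 1)) -
      Real.exp (w (x - Pi.single i 1))) + lam * V x * Real.exp (w x) = _
  rw [h1]
  have h3 : ∑ i : Fin d, ((1 - Real.exp (w (x + Pi.single i 1) - w x)) +
      (1 - Real.exp (w (x - Pi.single i 1) - w x))) = E - β (w x) - lam * V x := by linarith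
  rw [h3]
  ring

theorem det (lam E E0 η b : ℝ) (hb : 0 ≤ b) (hη : η ≤ 1) (β : ℝ → ℝ) (V w ψ : T d L → ℝ)
    (h : IsS β lam V E w) (hw : ∀ x, |w x| ≤ 1 / 4) (hψ : ∀ x, 1 ≤ ψ x ∧ ψ x ≤ 1 + η)
    (heig : ∀ x, Hop lam V ψ x = E0 * ψ x)
    (hF : ∑ x, β (w x) ^ 2 ≤ (Fintype.card (T d L) : ℝ) * b ^ 2) : |E - E0| ≤ 4 * b := by
  obtain ⟨N, hN⟩ : ∃ z : ℝ, z = (Fintype.card (T d L) : ℝ) := ⟨_, rfl⟩
  have hN0 : 0 < N := by rw [hN]; exact card_pos'
  have h1 := AE.Core.hop_symm lam V (fun y => Real.exp (w y)) ψ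
  simp only [hop_exp lam E β V w h, heig] at h1
  obtain ⟨S, hS⟩ : ∃ z : ℝ, z = ∑ x, ψ x * Real.exp (w x) := ⟨_, rfl⟩
  have he : Real.exp (1 / 4) ^ 2 ≤ 2 := by
    rw [← Real.exp_nat_mul]
    have h5 : Real.exp (((2 : ℕ) : ℝ) * (1 / 4)) ^ 2 = Real.exp 1 := by
      rw [← Real.exp_nat_mul]
      norm_num
    have h6 := Real.exp_one_lt_d9
    have h7 := Real.exp_pos (((2 : ℕ) : ℝ) * (1 / 4))
    nlinarith
  obtain ⟨e, hedef⟩ : ∃ z : ℝ, z = Real.exp (1 / 4) := ⟨_, rfl⟩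
  rw [← hedef] at he
  have he0 : 0 < e := by rw [hedef]; exact Real.exp_pos _
  have hu1 : ∀ x, Real.exp (w x) ≤ e := fun x => by
    rw [hedef]; exact Real.exp_le_exp.2 (abs_le.1 (hw x)).2
  have hu2 : ∀ x, 1 / e ≤ Real.exp (w x) := fun x => by
    rw [hedef, one_div, ← Real.exp_neg]
    exact Real.exp_le_exp.2 (abs_le.1 (hw x)).1
  have hSlow : N / e ≤ S := by
    have h2 : ∑ _x : T d L, 1 / e ≤ S := by
      rw [hS]
      refine Finset.sum_le_sum fun x _ => ?_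
      calc 1 / e = 1 * (1 / e) := (one_mul _).symm
        _ ≤ ψ x * Real.exp (w x) := mul_le_mul (hψ x).1 (hu2 x) (by positivity)
            (by linarith [(hψ x).1])
    rw [Finset.sum_const, Finset.card_univ, nsmul_eq_mul, ← hN] at h2
    refine le_trans (le_of_eq ?_) h2
    ring
  have hSpos : 0 < S := lt_of_lt_of_le (by positivity) hSlow
  have h2 : (E - E0) * S = ∑ x, ψ x * Real.exp (w x) * β (w x) := by
    have e1 : ∑ x, ψ x * ((E - β (w x)) * Real.exp (w x)) =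
        E * S - ∑ x, ψ x * Real.exp (w x) * β (w x) := by
      rw [hS, Finset.mul_sum, ← Finset.sum_sub_distrib]
      refine Finset.sum_congr rfl fun x _ => ?_
      ring
    have e2 : ∑ x, Real.exp (w x) * (E0 * ψ x) = E0 * S := by
      rw [hS, Finset.mul_sum]
      refine Finset.sum_congr rfl fun x _ => ?_
      ring
    rw [e1, e2] at h1
    linarith
  have hsum : ∑ x, |β (w x)| ≤ N * b := by
    have h3 := sq_sum_le_card_mul_sum_sq (s := Finset.univ) (f := fun x : T d L => |β (w x)|)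
    simp only [sq_abs, Finset.card_univ] at h3
    have h4 : (∑ x, |β (w x)|) ^ 2 ≤ (N * b) ^ 2 := by
      refine h3.trans ?_
      rw [← hN] at hF ⊢
      calc N * ∑ x, β (w x) ^ 2 ≤ N * (N * b ^ 2) := by gcongr
        _ = (N * b) ^ 2 := by ring
    exact (pow_le_pow_iff_left₀ (Finset.sum_nonneg fun _ _ => abs_nonneg _) (by positivity)
      (by norm_num)).1 h4
  have h3 : |E - E0| * S ≤ 2 * e * (N * b) := by
    rw [← abs_of_pos hSpos, ← abs_mul, h2]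
    refine (Finset.abs_sum_le_sum_abs _ _).trans ?_
    calc ∑ x, |ψ x * Real.exp (w x) * β (w x)| ≤ ∑ x, 2 * e * |β (w x)| := by
          refine Finset.sum_le_sum fun x _ => ?_
          have hψ0 : 0 ≤ ψ x := by linarith [(hψ x).1]
          rw [abs_mul, abs_of_nonneg (mul_nonneg hψ0 (Real.exp_pos _).le)]
          refine mul_le_mul_of_nonneg_right ?_ (abs_nonneg _)
          exact mul_le_mul ((hψ x).2.trans (by linarith)) (hu1 x) (Real.exp_pos _).le (by norm_num)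
      _ = 2 * e * ∑ x, |β (w x)| := by rw [Finset.mul_sum]
      _ ≤ _ := by gcongr
  have h4 : |E - E0| * (N / e) ≤ 2 * e * (N * b) :=
    (mul_le_mul_of_nonneg_left hSlow (abs_nonneg _)).trans h3
  have h5 : |E - E0| * N ≤ 4 * b * N := by
    calc |E - E0| * N = |E - E0| * (N / e) * e := by field_simp
      _ ≤ 2 * e * (N * b) * e := by gcongr
      _ = 2 * e ^ 2 * (N * b) := by ring
      _ ≤ 2 * 2 * (N * b) := by gcongr
      _ = 4 * b * N := by ring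
  exact le_of_mul_le_mul_right h5 hN0

theorem near {lam κ A : ℝ} {β : ℝ → ℝ} (hp : Pen lam κ (1 / 4) A β) (μ : Measure ℝ)
    [IsProbabilityMeasure μ] (hμ : μ (Set.Icc (-1) 1)ᶜ = 0) (E : ℝ) (hE : |E| ≤ lam)
    (b : ℝ) (hb : 0 < b)
    (hB2 : ∀ x, ∫ V, β (W β lam E V x) ^ 2 ∂(Measure.pi fun _ : T d L => μ) ≤ b ^ 2)
    (η ε Es : ℝ) (hη : η ≤ 1) (G : Set (T d L → ℝ)) (hG : MeasurableSet G)
    (hP : 1 / 2 ≤ (Measure.pi fun _ : T d L => μ).real G)
    (hf : ∀ V ∈ G, AE.Core.FlatE lam η ε Es V) : |E - Es| ≤ 8 * b + ε := by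
  obtain ⟨N, hN⟩ : ∃ z : ℝ, z = (Fintype.card (T d L) : ℝ) := ⟨_, rfl⟩
  have hN0 : 0 < N := by rw [hN]; exact card_pos'
  have hwc : ∀ x, Continuous fun V : T d L → ℝ => W β lam E V x := fun x => W_cont hp E hE x
  have hwb : ∀ (V : T d L → ℝ) x, |W β lam E V x| ≤ 1 / 4 := fun V x => W_bound hp E hE V x
  have hβc : ∀ x, Continuous fun V : T d L → ℝ => β (W β lam E V x) ^ 2 := fun x =>
    (hp.cont.comp (hwc x)).pow 2
  have hβb : ∃ B : ℝ, ∀ t : ℝ, |t| ≤ 1 / 4 → |β t ^ 2| ≤ B := by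
    have hc : ContinuousOn (fun t : ℝ => β t ^ 2) (Set.Icc (-(1 / 4)) (1 / 4)) :=
      (hp.cont.pow 2).continuousOn
    obtain ⟨B, hB⟩ := isCompact_Icc.exists_bound_of_continuousOn hc
    exact ⟨B, fun t ht => hB t (abs_le.1 ht)⟩
  obtain ⟨B, hB⟩ := hβb
  have iβ : ∀ x, Integrable (fun V => β (W β lam E V x) ^ 2) (Measure.pi fun _ : T d L => μ) :=
    fun x => int_cb μ B (hβc x) fun V => hB _ (hwb V x)
  have hmk := mul_meas_ge_le_integral_of_nonneg (μ := Measure.pi fun _ : T d L => μ)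
    (f := fun V : T d L → ℝ => ∑ x, β (W β lam E V x) ^ 2)
    (Filter.Eventually.of_forall fun V => Finset.sum_nonneg fun _ _ => sq_nonneg _)
    (integrable_finsetSum _ fun x _ => iβ x) (N * (2 * b) ^ 2)
  rw [integral_finsetSum _ fun x _ => iβ x] at hmk
  have hsum : ∑ x : T d L, ∫ V, β (W β lam E V x) ^ 2 ∂(Measure.pi fun _ : T d L => μ) ≤
      N * b ^ 2 := by
    refine (Finset.sum_le_sum fun x _ => hB2 x).trans (le_of_eq ?_)
    rw [Finset.sum_const, Finset.card_univ, nsmul_eq_mul, ← hN]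
  have hpr : (Measure.pi fun _ : T d L => μ).real
      {V | N * (2 * b) ^ 2 ≤ ∑ x, β (W β lam E V x) ^ 2} ≤ 1 / 4 := by
    have h1 := hmk.trans hsum
    have h2 : N * b ^ 2 * (4 * (Measure.pi fun _ : T d L => μ).real
      {V | N * (2 * b) ^ 2 ≤ ∑ x, β (W β lam E V x) ^ 2}) ≤ N * b ^ 2 * 1 := by
      refine le_trans (le_of_eq ?_) (h1.trans (le_of_eq (mul_one _).symm))
      ring
    have h3 := le_of_mul_le_mul_left h2 (by positivity)
    linarith
  have hmS : MeasurableSet {V : T d L → ℝ | ∑ x, β (W β lam E V x) ^ 2 < N * (2 * b) ^ 2} :=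
    measurableSet_lt (continuous_finsetSum _ fun x _ => hβc x).measurable measurable_const
  obtain ⟨G', hG', hP', hV'⟩ := AE.Arith.pi_real_inter μ hμ
    {V : T d L → ℝ | ∑ x, β (W β lam E V x) ^ 2 < N * (2 * b) ^ 2} hmS (1 / 4) (by
      have e : {V : T d L → ℝ | ∑ x, β (W β lam E V x) ^ 2 < N * (2 * b) ^ 2}ᶜ =
          {V | N * (2 * b) ^ 2 ≤ ∑ x, β (W β lam E V x) ^ 2} := by
        ext V
        simp only [Set.mem_compl_iff, Set.mem_ofPred_eq, not_lt]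
      rw [e]
      exact hpr)
  have hne : (G ∩ G').Nonempty := by
    by_contra hcon
    rw [Set.not_nonempty_iff_eq_empty] at hcon
    have hd : Disjoint G G' := Set.disjoint_iff_inter_eq_empty.2 hcon
    have h1 := measureReal_union (μ := Measure.pi fun _ : T d L => μ) hd hG'
    have h2 : (Measure.pi fun _ : T d L => μ).real (G ∪ G') ≤ 1 := measureReal_le_one
    linarith
  obtain ⟨V, hV1, hV2⟩ := hne
  obtain ⟨h1, h2⟩ := hV' V hV2
  obtain ⟨E0, ψ, h3, h4, h5, -⟩ := hf V hV1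
  have hs := W_sol hp E hE V
  rw [good_clamp_eq V h2] at hs
  have hd := det lam E E0 η (2 * b) (by positivity) hη β V (W β lam E V) ψ hs (hwb V) h4 h5 (by
    rw [← hN]
    have : ∑ x, β (W β lam E V x) ^ 2 < N * (2 * b) ^ 2 := h1
    exact this.le)
  have e : E - Es = (E - E0) + (E0 - Es) := by ring
  rw [e]
  refine (abs_add_le _ _).trans ?_
  linarith

theorem vr_bd (μ : Measure ℝ) [IsProbabilityMeasure μ] : 0 ≤ vr μ ∧ vr μ ≤ 4 := by
  unfold vr
  refine ⟨integral_nonneg fun t => sq_nonneg _, ?_⟩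
  have := norm_integral_le_of_norm_le_const (μ := μ) (f := fun t => (ph t - mn μ) ^ 2) (C := 4)
    (Filter.Eventually.of_forall fun t => by
      rw [Real.norm_eq_abs, abs_of_nonneg (sq_nonneg _), ← sq_abs]
      have h1 := ph_abs t
      have h2 := mn_abs μ
      have h3 : |ph t - mn μ| ≤ 2 := (abs_sub _ _).trans (by linarith)
      have h4 : |ph t - mn μ| ^ 2 ≤ 2 ^ 2 := pow_le_pow_left₀ (abs_nonneg _) h3 2
      linarith)
  rw [probReal_univ, mul_one, Real.norm_eq_abs] at this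
  exact (le_abs_self _).trans this

/-- bounds for the penalty term -/
theorem pen_mom (μ : Measure ℝ) [IsProbabilityMeasure μ] (lam κ E R : ℝ) (hlam : 0 < lam)
    (hlam1 : lam ≤ 1) (hκ : 0 < κ) (hκ1 : κ ≤ 1) (hR : 0 < R) (hE : |E| ≤ lam)
    (hG : GH d L (κ * Real.exp (-(2 * (1 / 4)))) R)
    (hmean : ∀ x, ∫ V, W (d := d) (L := L) (bk lam κ) lam E V x
      ∂(Measure.pi fun _ : T d L => μ) = 0) (x : T d L) :
    |∫ V, bk lam κ (W (bk lam κ) lam E V x) ∂(Measure.pi fun _ : T d L => μ)| ≤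
        20 * Real.exp (-(1 / (9216 * lam ^ 2 * R))) ∧
      ∫ V, bk lam κ (W (bk lam κ) lam E V x) ^ 2 ∂(Measure.pi fun _ : T d L => μ) ≤
        144 * κ ^ 2 * lam ^ 2 * R + 162 * Real.exp (-(1 / (9216 * lam ^ 2 * R))) := by
  have hp := pen lam κ hlam hκ
  have hwc : Continuous fun V : T d L → ℝ => W (bk lam κ) lam E V x := W_cont hp E hE x
  have hwb : ∀ (V : T d L → ℝ), |W (bk lam κ) lam E V x| ≤ 1 / 4 := fun V => W_bound hp E hE V x
  obtain ⟨Q, hQ⟩ : ∃ z : ℝ, z = Real.exp (-(1 / (9216 * lam ^ 2 * R))) := ⟨_, rfl⟩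
  rw [← hQ]
  have ht := tail hp R hR hG μ E hE x (hmean x) (1 / 8) (by norm_num)
  have e1 : (1 / 8 : ℝ) ^ 2 / (144 * lam ^ 2 * R) = 1 / (9216 * lam ^ 2 * R) := by
    field_simp; norm_num
  rw [e1, ← hQ] at ht
  have hm := sq_of_mgf μ (fun V : T d L → ℝ => W (bk lam κ) lam E V x) hwc (1 / 4) hwb
    (36 * lam ^ 2 * R) (by positivity) (fun θ => mgf hp R hR.le hG μ E hE x (hmean x) θ)
  have hβb : ∀ V : T d L → ℝ, |bk lam κ (W (bk lam κ) lam E V x)| ≤ 9 := by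
    intro V
    have hb := hwb V
    rcases le_total 0 (W (bk lam κ) lam E V x) with h | h
    · have h1 := hp.lip 0 _ h
      have h2 := hp.mono _ 0 h
      rw [hp.zero, sub_zero, sub_zero] at h1 h2
      have h3 : 0 ≤ bk lam κ (W (bk lam κ) lam E V x) := le_trans (by positivity) h2
      rw [abs_of_nonneg h] at hb
      rw [abs_of_nonneg h3]
      nlinarith
    · have h1 := hp.lip _ 0 h
      have h2 := hp.mono 0 _ h
      rw [hp.zero, zero_sub, zero_sub] at h1 h2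
      have h4 : 0 ≤ -W (bk lam κ) lam E V x := by linarith
      have h3 : 0 ≤ -bk lam κ (W (bk lam κ) lam E V x) := le_trans (by positivity) h2
      rw [abs_of_nonpos h] at hb
      rw [abs_of_nonpos (by linarith)]
      nlinarith
  have hβc : Continuous fun V : T d L → ℝ => bk lam κ (W (bk lam κ) lam E V x) :=
    hp.cont.comp hwc
  have hmS : MeasurableSet {V : T d L → ℝ | 1 / 8 ≤ |W (bk lam κ) lam E V x|} :=
    measurableSet_le measurable_const hwc.abs.measurable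
  have hind : ∫ V, Set.indicator {V : T d L → ℝ | 1 / 8 ≤ |W (bk lam κ) lam E V x|}
      (fun _ => (1 : ℝ)) V ∂(Measure.pi fun _ : T d L => μ) ≤ 2 * Q := by
    rw [integral_indicator hmS]
    simp only [integral_const, smul_eq_mul, mul_one, measureReal_restrict_apply_univ]
    exact ht
  have iind : Integrable (Set.indicator {V : T d L → ℝ | 1 / 8 ≤ |W (bk lam κ) lam E V x|}
      (fun _ => (1 : ℝ))) (Measure.pi fun _ : T d L => μ) :=
    (integrable_const (1 : ℝ)).indicator hmS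
  have iβ : Integrable (fun V : T d L → ℝ => bk lam κ (W (bk lam κ) lam E V x))
      (Measure.pi fun _ : T d L => μ) := int_cb μ 9 hβc hβb
  have iw : Integrable (fun V : T d L → ℝ => W (bk lam κ) lam E V x)
      (Measure.pi fun _ : T d L => μ) := int_cb μ (1 / 4) hwc hwb
  have iβ2 : Integrable (fun V : T d L → ℝ => bk lam κ (W (bk lam κ) lam E V x) ^ 2)
      (Measure.pi fun _ : T d L => μ) := int_cb μ 81 (hβc.pow 2) fun V => by
    rw [abs_of_nonneg (sq_nonneg _), ← sq_abs]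
    have := pow_le_pow_left₀ (abs_nonneg _) (hβb V) 2
    norm_num at this
    rw [sq_abs]
    exact this
  have iw2 : Integrable (fun V : T d L → ℝ => W (bk lam κ) lam E V x ^ 2)
      (Measure.pi fun _ : T d L => μ) := int_cb μ ((1 / 4) ^ 2) (hwc.pow 2) fun V => by
    rw [abs_of_nonneg (sq_nonneg _), ← sq_abs]
    exact pow_le_pow_left₀ (abs_nonneg _) (hwb V) 2
  constructor
  · have e2 : ∫ V, bk lam κ (W (bk lam κ) lam E V x) ∂(Measure.pi fun _ : T d L => μ) =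
        ∫ V, (bk lam κ (W (bk lam κ) lam E V x) - κ * W (bk lam κ) lam E V x)
          ∂(Measure.pi fun _ : T d L => μ) := by
      rw [integral_sub iβ (iw.const_mul κ), integral_const_mul, hmean x]
      ring
    rw [e2]
    have h1 := norm_integral_le_integral_norm (μ := Measure.pi fun _ : T d L => μ)
      (fun V : T d L → ℝ => bk lam κ (W (bk lam κ) lam E V x) - κ * W (bk lam κ) lam E V x)
    rw [Real.norm_eq_abs] at h1
    refine h1.trans ?_
    have h2 : ∫ V, ‖bk lam κ (W (bk lam κ) lam E V x) - κ * W (bk lam κ) lam E V x‖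
        ∂(Measure.pi fun _ : T d L => μ) ≤ ∫ V, 10 * Set.indicator
          {V : T d L → ℝ | 1 / 8 ≤ |W (bk lam κ) lam E V x|} (fun _ => (1 : ℝ)) V
          ∂(Measure.pi fun _ : T d L => μ) := by
      refine integral_mono (iβ.sub (iw.const_mul κ)).norm (iind.const_mul 10) fun V => ?_
      beta_reduce
      rw [Real.norm_eq_abs]
      by_cases h : V ∈ {V : T d L → ℝ | 1 / 8 ≤ |W (bk lam κ) lam E V x|}
      · rw [Set.indicator_of_mem h, mul_one]
        refine (abs_sub _ _).trans ?_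
        have h3 := hβb V
        have h4 : |κ * W (bk lam κ) lam E V x| ≤ 1 := by
          rw [abs_mul, abs_of_pos hκ]
          have := hwb V
          nlinarith [abs_nonneg (W (bk lam κ) lam E V x)]
        linarith
      · rw [Set.indicator_of_notMem h, mul_zero]
        have h3 : |W (bk lam κ) lam E V x| ≤ 1 / 8 := by
          have : ¬ (1 / 8 ≤ |W (bk lam κ) lam E V x|) := h
          push Not at this
          exact this.le
        rw [bk_lin lam κ _ h3, sub_self, abs_zero]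
    refine h2.trans ?_
    rw [integral_const_mul]
    linarith
  · have h2 : ∫ V, bk lam κ (W (bk lam κ) lam E V x) ^ 2 ∂(Measure.pi fun _ : T d L => μ) ≤
        ∫ V, (κ ^ 2 * W (bk lam κ) lam E V x ^ 2 + 81 * Set.indicator
          {V : T d L → ℝ | 1 / 8 ≤ |W (bk lam κ) lam E V x|} (fun _ => (1 : ℝ)) V)
          ∂(Measure.pi fun _ : T d L => μ) := by
      refine integral_mono iβ2 ((iw2.const_mul _).add (iind.const_mul 81)) fun V => ?_
      beta_reduce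
      by_cases h : V ∈ {V : T d L → ℝ | 1 / 8 ≤ |W (bk lam κ) lam E V x|}
      · rw [Set.indicator_of_mem h, mul_one]
        have h3 := pow_le_pow_left₀ (abs_nonneg _) (hβb V) 2
        rw [sq_abs] at h3
        have h4 : 0 ≤ κ ^ 2 * W (bk lam κ) lam E V x ^ 2 := by positivity
        linarith
      · rw [Set.indicator_of_notMem h, mul_zero, add_zero]
        have h3 : |W (bk lam κ) lam E V x| ≤ 1 / 8 := by
          have : ¬ (1 / 8 ≤ |W (bk lam κ) lam E V x|) := h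
          push Not at this
          exact this.le
        rw [bk_lin lam κ _ h3, mul_pow]
    refine h2.trans ?_
    rw [integral_add (iw2.const_mul _) (iind.const_mul 81), integral_const_mul, integral_const_mul]
    have h5 : κ ^ 2 * ∫ V, W (bk lam κ) lam E V x ^ 2 ∂(Measure.pi fun _ : T d L => μ) ≤
        κ ^ 2 * (4 * (36 * lam ^ 2 * R)) := by gcongr
    linarith

/-- the level on one torus -/
theorem lev (L : ℕ) [NeZero L] (μ : Measure ℝ) [IsProbabilityMeasure μ]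
    (hμ : μ (Set.Icc (-1) 1)ᶜ = 0) (lam s : ℝ) (hlam : 0 < lam) (hlam1 : lam ≤ 1)
    (hs : 2 ^ 15 ≤ s) (hl : Real.exp (-(s ^ 4)) = lam) (hκ1 : lam ^ 2 * s ^ 6 ≤ 1)
    (hL : 1 ≤ lam ^ 2 * s ^ 6 * (L : ℝ) ^ 2)
    (η ε Es : ℝ) (hη : η ≤ 1) (G : Set (T 2 L → ℝ)) (hG : MeasurableSet G)
    (hP : 1 / 2 ≤ (Measure.pi fun _ : T 2 L => μ).real G)
    (hf : ∀ V ∈ G, AE.Core.FlatE lam η ε Es V) :
    |lam * mn μ - Es - lam ^ 2 * (vr μ * (s ^ 4 / (2 * Real.pi)))| ≤ 2 ^ 24 * lam ^ 2 * s ^ 3 + ε := by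
  have hs0 : 0 < s := lt_of_lt_of_le (by norm_num) hs
  have hs1 : 1 ≤ s := le_trans (by norm_num) hs
  obtain ⟨κ, hκdef⟩ : ∃ z : ℝ, z = lam ^ 2 * s ^ 6 := ⟨_, rfl⟩
  rw [← hκdef] at hκ1 hL
  have hκ : 0 < κ := by rw [hκdef]; positivity
  have hLp : (0 : ℝ) < L := AE.Core.L_pos (L := L)
  have hκL : 1 / (4 * (L : ℝ) ^ 2) ≤ κ := by
    rw [div_le_iff₀ (by positivity)]
    have : 0 < κ * (L : ℝ) ^ 2 := by positivity
    linarith
  obtain ⟨R, hR⟩ : ∃ z : ℝ, z = 2 ^ 13 / κ := ⟨_, rfl⟩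
  have hR0 : 0 < R := by rw [hR]; positivity
  have hrh := F2.rh2 (2 ^ 13) rfl L
  have hG1 : GH 2 L κ R := by rw [hR]; exact hrh.g1 κ hκL
  have hG2 : GH 2 L (κ * Real.exp (-(2 * (1 / 4)))) R := by rw [hR]; exact hrh.g2 κ hκL
  have hτ : lam ^ 2 * R = 2 ^ 13 / s ^ 6 := by
    rw [hR, hκdef]
    field_simp
  have hp := pen lam κ hlam hκ
  obtain ⟨E, hE, hmean⟩ := W_E (d := 2) (L := L) hp μ
  obtain ⟨g, hg0, hg, hgz⟩ := Gz.green_zero L κ hκ hκ1 hL
  have hg2 : ∑ x, g x ^ 2 ≤ R := hG1 (fun _ => 1) g 0 (fun _ => by norm_num) hg0 hg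
  -- powers of exp
  have hexp : ∀ n : ℕ, Real.exp (-(n * s ^ 4)) = lam ^ n := by
    intro n
    rw [← hl, ← Real.exp_nat_mul]
    congr 1
    ring
  have hpow : ∀ n : ℕ, 1 ≤ n → lam ^ n ≤ lam := fun n hn => by
    have := pow_le_pow_of_le_one hlam.le hlam1 hn
    rwa [pow_one] at this
  -- the tail at 1/8
  have hQ : Real.exp (-(1 / (9216 * lam ^ 2 * R))) ≤ lam ^ 8 := by
    rw [← hexp 8]
    refine Real.exp_le_exp.2 (neg_le_neg ?_)
    have e : 1 / (9216 * lam ^ 2 * R) = s ^ 6 / (9216 * 2 ^ 13) := by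
      rw [mul_assoc, hτ]
      field_simp
    rw [e, le_div_iff₀ (by norm_num)]
    have h1 : (2 ^ 15) ^ 2 ≤ s ^ 2 := pow_le_pow_left₀ (by norm_num) hs 2
    calc ((8 : ℕ) : ℝ) * s ^ 4 * (9216 * 2 ^ 13) = 603979776 * s ^ 4 := by norm_num; ring
      _ ≤ (2 ^ 15) ^ 2 * s ^ 4 := by gcongr; norm_num
      _ ≤ s ^ 2 * s ^ 4 := by gcongr
      _ = s ^ 6 := by ring
  have hmom := fun x => pen_mom μ lam κ E R hlam hlam1 hκ hκ1 hR0 hE hG2 hmean x
  have hlam8 : lam ^ 8 ≤ lam ^ 4 := pow_le_pow_of_le_one hlam.le hlam1 (by norm_num)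
  have hlam42 : lam ^ 4 ≤ lam ^ 2 := pow_le_pow_of_le_one hlam.le hlam1 (by norm_num)
  have hs3 : 1 ≤ s ^ 3 := one_le_pow₀ hs1
  have hs6 : 1 ≤ s ^ 6 := one_le_pow₀ hs1
  -- B1
  have hB1 : ∀ x, |∫ V, bk lam κ (W (bk lam κ) lam E V x) ∂(Measure.pi fun _ : T 2 L => μ)| ≤
      20 * lam ^ 2 := by
    intro x
    refine (hmom x).1.trans ?_
    linarith
  obtain ⟨b, hb⟩ : ∃ z : ℝ, z = 2 ^ 11 * lam ^ 2 * s ^ 3 := ⟨_, rfl⟩
  have hb0 : 0 < b := by rw [hb]; positivity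
  have hb2 : b ^ 2 = 4194304 * (lam ^ 4 * s ^ 6) := by rw [hb]; ring
  have hB2 : ∀ x, ∫ V, bk lam κ (W (bk lam κ) lam E V x) ^ 2
      ∂(Measure.pi fun _ : T 2 L => μ) ≤ b ^ 2 := by
    intro x
    refine (hmom x).2.trans ?_
    have e : 144 * κ ^ 2 * lam ^ 2 * R = 1179648 * (lam ^ 4 * s ^ 6) := by
      calc 144 * κ ^ 2 * lam ^ 2 * R = 144 * κ ^ 2 * (lam ^ 2 * R) := by ring
        _ = 144 * (lam ^ 2 * s ^ 6) ^ 2 * (2 ^ 13 / s ^ 6) := by rw [hτ, hκdef]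
        _ = _ := by field_simp; norm_num
    rw [e, hb2]
    have h2 : lam ^ 4 ≤ lam ^ 4 * s ^ 6 := le_mul_of_one_le_right (by positivity) hs6
    have h3 : 0 < lam ^ 4 * s ^ 6 := by positivity
    linarith
  have hnear := near hp μ hμ E hE b hb0 hB2 η ε Es hη G hG hP hf
  -- the tails
  obtain ⟨δ, hδ⟩ : ∃ z : ℝ, z = 2 ^ 12 / s := ⟨_, rfl⟩
  have hδ0 : 0 < δ := by rw [hδ]; positivity
  have hpx : ∀ x, (Measure.pi fun _ : T 2 L => μ).real {V | δ ≤ |W (bk lam κ) lam E V x|} ≤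
      2 * lam ^ 8 := by
    intro x
    refine (tail hp R hR0 hG2 μ E hE x (hmean x) δ hδ0).trans ?_
    refine mul_le_mul_of_nonneg_left ?_ (by norm_num)
    rw [← hexp 8]
    refine Real.exp_le_exp.2 (neg_le_neg ?_)
    have e : δ ^ 2 / (144 * lam ^ 2 * R) = 2 ^ 11 / 144 * s ^ 4 := by
      rw [mul_assoc, hτ, hδ]
      field_simp
    rw [e]
    refine mul_le_mul_of_nonneg_right ?_ (by positivity)
    norm_num
  obtain ⟨t, ht⟩ : ∃ z : ℝ, z = δ / lam := ⟨_, rfl⟩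
  have ht0 : 0 < t := by rw [ht]; positivity
  have hqx : ∀ x, (Measure.pi fun _ : T 2 L => μ).real {V | t ≤ |lf (mn μ) g V x|} ≤
      2 * lam ^ 8 := by
    intro x
    refine (tail_of_mgf μ (fun V => lf (mn μ) g V x) (lf_cont (mn μ) g x) (2 / κ)
      (fun V => lf_abs (mn μ) κ hκ (mn_abs μ) g hg0 hg V x) (4 * R) (by positivity)
      (fun θ => lf_mgf μ κ R hκ hR0.le g hg0 hg hg2 x θ) t ht0).trans ?_
    refine mul_le_mul_of_nonneg_left ?_ (by norm_num)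
    rw [← hexp 8]
    refine Real.exp_le_exp.2 (neg_le_neg ?_)
    have e : t ^ 2 / (4 * (4 * R)) = 2 ^ 7 * s ^ 4 := by
      have h1 : t ^ 2 / (4 * (4 * R)) = δ ^ 2 / (16 * (lam ^ 2 * R)) := by
        rw [ht]; field_simp; norm_num
      rw [h1, hτ, hδ]
      field_simp
      norm_num
    rw [e]
    refine mul_le_mul_of_nonneg_right ?_ (by positivity)
    norm_num
  have hlev := level hp μ E hE hmean g hg0 hg δ t (2 * lam ^ 8) (2 * lam ^ 8) (20 * lam ^ 2) (b ^ 2)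
    hδ0.le ht0.le hpx hqx hB1 hB2
  -- the Green function at the origin
  have hpi := Real.pi_gt_three
  obtain ⟨hv0, hv4⟩ := vr_bd μ
  have hlogκ : Real.log (1 / κ) = 2 * s ^ 4 - 6 * Real.log s := by
    rw [one_div, Real.log_inv, hκdef, Real.log_mul (by positivity) (by positivity), Real.log_pow,
      Real.log_pow, ← hl, Real.log_exp]
    push_cast
    ring
  have hlogs0 : 0 ≤ Real.log s := Real.log_nonneg hs1
  have hlogs : Real.log s ≤ s := Real.log_le_self hs0.le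
  have hss3 : s ≤ s ^ 3 := by
    calc s = s * 1 := (mul_one s).symm
      _ ≤ s * s ^ 2 := by gcongr; exact one_le_pow₀ hs1
      _ = s ^ 3 := by ring
  have hgl : |g 0 - s ^ 4 / (2 * Real.pi)| ≤ 21 * s ^ 3 := by
    have e : g 0 - s ^ 4 / (2 * Real.pi) = (g 0 - 1 / (4 * Real.pi) * Real.log (1 / κ)) -
        6 / (4 * Real.pi) * Real.log s := by
      rw [hlogκ]
      field_simp
      ring
    rw [e]
    refine (abs_sub _ _).trans ?_
    have h1 : |6 / (4 * Real.pi) * Real.log s| ≤ s ^ 3 := by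
      rw [abs_of_nonneg (by positivity)]
      have h2 : 6 / (4 * Real.pi) ≤ 1 := by
        rw [div_le_one (by positivity)]; linarith
      calc 6 / (4 * Real.pi) * Real.log s ≤ 1 * Real.log s := by gcongr
        _ ≤ s ^ 3 := by linarith
    linarith
  have hs34 : s ^ 3 ≤ s ^ 4 := by
    calc s ^ 3 = s ^ 3 * 1 := (mul_one _).symm
      _ ≤ s ^ 3 * s := by gcongr
      _ = s ^ 4 := by ring
  have hg00 : 0 ≤ g 0 := hg0 0
  have hgup : g 0 ≤ 22 * s ^ 4 := by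
    have h1 := (abs_le.1 hgl).2
    have h2 : s ^ 4 / (2 * Real.pi) ≤ s ^ 4 := by
      rw [div_le_iff₀ (by positivity)]
      have : 0 < s ^ 4 := by positivity
      nlinarith
    linarith
  -- assembling
  have hl2 : 0 < lam ^ 2 := by positivity
  have hlt : lam * t = δ := by rw [ht]; field_simp
  have hA1 : 4 * (δ + lam * t) * (lam ^ 2 * (vr μ * g 0)) ≤ 2883584 * (lam ^ 2 * s ^ 3) := by
    rw [hlt]
    calc 4 * (δ + δ) * (lam ^ 2 * (vr μ * g 0)) ≤ 4 * (δ + δ) * (lam ^ 2 * (4 * (22 * s ^ 4))) := by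
          gcongr
      _ = 2883584 * (lam ^ 2 * s ^ 3) := by
          rw [hδ]
          field_simp
          norm_num
  have hA2 : ((2 : ℕ) : ℝ) * (2 * lam ^ 8) ≤ 4 * lam ^ 2 := by
    push_cast
    linarith
  have hA3 : 2 * lam * ((2 : ℕ) : ℝ) * (2 * lam ^ 8) / κ ≤ 8 * lam ^ 2 := by
    rw [div_le_iff₀ hκ, hκdef]
    push_cast
    calc 2 * lam * 2 * (2 * lam ^ 8) = 8 * (lam ^ 8 * lam) := by ring
      _ ≤ 8 * (lam ^ 4 * (1 * s ^ 6)) := by gcongr; linarith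
      _ = 8 * lam ^ 2 * (lam ^ 2 * s ^ 6) := by ring
  have hA4 : b ^ 2 / κ = 4194304 * lam ^ 2 := by
    rw [hb2, hκdef]
    field_simp
  have hl2s : lam ^ 2 ≤ lam ^ 2 * s ^ 3 := le_mul_of_one_le_right hl2.le hs3
  have hA5 : |lam ^ 2 * (vr μ * g 0) - lam ^ 2 * (vr μ * (s ^ 4 / (2 * Real.pi)))| ≤
      84 * (lam ^ 2 * s ^ 3) := by
    rw [← mul_sub, ← mul_sub, abs_mul, abs_mul, abs_of_pos hl2, abs_of_nonneg hv0]
    calc lam ^ 2 * (vr μ * |g 0 - s ^ 4 / (2 * Real.pi)|) ≤ lam ^ 2 * (4 * (21 * s ^ 3)) := by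
          gcongr
      _ = _ := by ring
  have e : lam * mn μ - Es - lam ^ 2 * (vr μ * (s ^ 4 / (2 * Real.pi))) =
      (lam * mn μ - E - lam ^ 2 * (vr μ * g 0)) + (E - Es) +
      (lam ^ 2 * (vr μ * g 0) - lam ^ 2 * (vr μ * (s ^ 4 / (2 * Real.pi)))) := by ring
  rw [e]
  refine (abs_add_le _ _).trans ?_
  have h1 := abs_add_le (lam * mn μ - E - lam ^ 2 * (vr μ * g 0)) (E - Es)
  have h8b : 8 * b = 16384 * (lam ^ 2 * s ^ 3) := by rw [hb]; ring
  have h24 : (2 : ℝ) ^ 24 * lam ^ 2 * s ^ 3 = 16777216 * (lam ^ 2 * s ^ 3) := by norm_num; ring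
  rw [h24]
  rw [hA4] at hlev
  linarith

/-- **asymptotics of the effective band edge, `d = 2`** -/
theorem es2 (K0 : ℝ) (hK0 : 1 ≤ K0) : ∃ C : ℝ, 1 ≤ C ∧
    ∀ (μ : Measure ℝ) [IsProbabilityMeasure μ], μ (Set.Icc (-1) 1)ᶜ = 0 →
    ∀ lam : ℝ, 0 < lam → C * lam ≤ 1 → ∀ η Es : ℝ, η ≤ 1 →
      (∀ (L : ℕ) [NeZero L], K0 * (lam * L) ≤ 1 →
        ∃ G : Set (AE.T 2 L → ℝ), MeasurableSet G ∧
          1 - K0 * Real.exp (-(1 / (K0 * (lam * L) ^ 2))) ≤
            (Measure.pi fun _ : AE.T 2 L => μ).real G ∧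
          ∀ V ∈ G, AE.Core.FlatE lam η (K0 / (L : ℝ) ^ 2) Es V) →
      |Es - (lam * mn μ - vr μ / (2 * Real.pi) * lam ^ 2 * Real.log (1 / lam))| ≤
        C * lam ^ 2 * Real.log (1 / lam) ^ ((3 : ℝ) / 4) := by
  obtain ⟨s0, hs0⟩ : ∃ z : ℝ, z = 2 ^ 15 + 16 * K0 ^ 2 := ⟨_, rfl⟩
  have hK00 : 0 < K0 := by linarith
  have hs00 : 0 < s0 := by rw [hs0]; positivity
  obtain ⟨C, hC⟩ : ∃ z : ℝ, z = Real.exp (s0 ^ 4) + 2 ^ 24 + 16 * K0 ^ 3 + 2 * K0 := ⟨_, rfl⟩
  have hCe : Real.exp (s0 ^ 4) ≤ C := by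
    rw [hC]
    have : 0 < 2 ^ 24 + 16 * K0 ^ 3 + 2 * K0 := by positivity
    linarith
  have hC24 : 2 ^ 24 + 16 * K0 ^ 3 ≤ C := by
    rw [hC]
    have := Real.exp_pos (s0 ^ 4)
    linarith
  have hCK : 2 * K0 ≤ C := by
    rw [hC]
    have := Real.exp_pos (s0 ^ 4)
    have : 0 < 2 ^ 24 + 16 * K0 ^ 3 := by positivity
    linarith
  refine ⟨C, by linarith, ?_⟩
  intro μ _ hμ lam hlam hCl η Es hη H
  have hC0 : 0 < C := by linarith
  have h2K : 2 * K0 * lam ≤ 1 := by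
    refine le_trans ?_ hCl
    gcongr
  have hlam1 : lam ≤ 1 := by nlinarith
  obtain ⟨l, hl⟩ : ∃ z : ℝ, z = Real.log (1 / lam) := ⟨_, rfl⟩
  have hls0 : s0 ^ 4 ≤ l := by
    rw [hl, Real.le_log_iff_exp_le (by positivity), le_div_iff₀ hlam]
    refine le_trans ?_ hCl
    gcongr
  have hl0 : 0 < l := lt_of_lt_of_le (by positivity) hls0
  obtain ⟨s, hs⟩ : ∃ z : ℝ, z = l ^ ((1 : ℝ) / 4) := ⟨_, rfl⟩
  have hspos : 0 < s := by rw [hs]; positivity
  have hs4 : s ^ 4 = l := by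
    rw [hs, ← Real.rpow_natCast, ← Real.rpow_mul hl0.le]
    norm_num
  have hs3 : s ^ 3 = l ^ ((3 : ℝ) / 4) := by
    rw [hs, ← Real.rpow_natCast, ← Real.rpow_mul hl0.le]
    norm_num
  have hs0s : s0 ≤ s := by
    have h1 : s0 ^ 4 ≤ s ^ 4 := by rw [hs4]; exact hls0
    exact (pow_le_pow_iff_left₀ hs00.le hspos.le (by norm_num)).1 h1
  have hs15 : 2 ^ 15 ≤ s := by
    refine le_trans ?_ hs0s
    rw [hs0]
    have : 0 < 16 * K0 ^ 2 := by positivity
    linarith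
  have hs16 : 16 * K0 ^ 2 ≤ s := by
    refine le_trans ?_ hs0s
    rw [hs0]
    linarith [show (0 : ℝ) < 2 ^ 15 by positivity]
  have hs1 : 1 ≤ s := le_trans (by norm_num) hs15
  have hexp : Real.exp (-(s ^ 4)) = lam := by
    rw [hs4, hl, one_div, Real.log_inv, neg_neg, Real.exp_log hlam]
  have hllam : l ≤ 1 / lam := by rw [hl]; exact Real.log_le_self (by positivity)
  have hκ1 : lam ^ 2 * s ^ 6 ≤ 1 := by
    have h1 : lam * s ^ 4 ≤ 1 := by
      rw [hs4]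
      rw [le_div_iff₀ hlam] at hllam
      linarith
    calc lam ^ 2 * s ^ 6 ≤ lam ^ 2 * (s ^ 6 * s ^ 2) := by
          gcongr
          exact le_mul_of_one_le_right (by positivity) (one_le_pow₀ hs1)
      _ = (lam * s ^ 4) ^ 2 := by ring
      _ ≤ 1 ^ 2 := by gcongr
      _ = 1 := one_pow 2
  -- the torus
  obtain ⟨L, hLdef⟩ : ∃ n : ℕ, n = ⌊1 / (2 * K0 * lam)⌋₊ := ⟨_, rfl⟩
  have hX1 : 1 ≤ 1 / (2 * K0 * lam) := by rw [le_div_iff₀ (by positivity)]; linarith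
  have hL1 : 1 ≤ L := by rw [hLdef]; exact Nat.le_floor (by push_cast; exact hX1)
  have hLp : (0 : ℝ) < L := by exact_mod_cast hL1
  have : NeZero L := ⟨by omega⟩
  have hLle : (L : ℝ) ≤ 1 / (2 * K0 * lam) := by rw [hLdef]; exact Nat.floor_le (by positivity)
  have hLge : 1 / (4 * K0 * lam) ≤ L := by
    have h1 : 1 / (2 * K0 * lam) < L + 1 := by rw [hLdef]; exact Nat.lt_floor_add_one _
    have h2 : (1 : ℝ) ≤ L := by exact_mod_cast hL1
    have h3 : 1 / (4 * K0 * lam) = (1 / (2 * K0 * lam)) / 2 := by field_simp; norm_num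
    rw [h3]; linarith
  have hKL : 2 * K0 * (lam * L) ≤ 1 := by
    rw [le_div_iff₀ (by positivity)] at hLle
    linarith
  have hKL4 : 1 ≤ 4 * K0 * lam * L := by
    rw [div_le_iff₀ (by positivity)] at hLge
    linarith
  have hKL' : K0 * (lam * L) ≤ 1 := by
    have : 0 < K0 * (lam * L) := by positivity
    linarith
  obtain ⟨G, hG, hP, hf⟩ := H L hKL'
  have hP2 : 1 / 2 ≤ (Measure.pi fun _ : AE.T 2 L => μ).real G := by
    refine le_trans ?_ hP
    have h1 : 4 * K0 ≤ 1 / (K0 * (lam * L) ^ 2) := by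
      rw [le_div_iff₀ (by positivity)]
      have h2 : (2 * K0 * (lam * L)) ^ 2 ≤ 1 ^ 2 := pow_le_pow_left₀ (by positivity) hKL 2
      calc 4 * K0 * (K0 * (lam * L) ^ 2) = (2 * K0 * (lam * L)) ^ 2 := by ring
        _ ≤ 1 := by linarith
    have h2 : Real.exp (-(1 / (K0 * (lam * L) ^ 2))) ≤ Real.exp (-(4 * K0)) :=
      Real.exp_le_exp.2 (neg_le_neg h1)
    have h3 : K0 * Real.exp (-(4 * K0)) ≤ 1 / 4 := by
      rw [Real.exp_neg]
      have h4 : 4 * K0 ≤ Real.exp (4 * K0) := by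
        have := Real.add_one_le_exp (4 * K0)
        linarith
      rw [← div_eq_mul_inv, div_le_iff₀ (Real.exp_pos _)]
      linarith
    have h4 : K0 * Real.exp (-(1 / (K0 * (lam * L) ^ 2))) ≤ K0 * Real.exp (-(4 * K0)) := by gcongr
    linarith
  have hLL : 1 ≤ lam ^ 2 * s ^ 6 * (L : ℝ) ^ 2 := by
    have h1 : 1 ^ 2 ≤ (4 * K0 * lam * L) ^ 2 := pow_le_pow_left₀ (by norm_num) hKL4 2
    have h2 : 16 * K0 ^ 2 ≤ s ^ 6 := by
      refine hs16.trans ?_
      calc s = s * 1 := (mul_one s).symm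
        _ ≤ s * s ^ 5 := by gcongr; exact one_le_pow₀ hs1
        _ = s ^ 6 := by ring
    calc (1 : ℝ) = 1 ^ 2 := (one_pow 2).symm
      _ ≤ (4 * K0 * lam * L) ^ 2 := h1
      _ = lam ^ 2 * (16 * K0 ^ 2) * (L : ℝ) ^ 2 := by ring
      _ ≤ lam ^ 2 * s ^ 6 * (L : ℝ) ^ 2 := by gcongr
  have hlev := lev L μ hμ lam s hlam hlam1 hs15 hexp hκ1 hLL η _ Es hη G hG hP2 hf
  have hLinv : K0 / (L : ℝ) ^ 2 ≤ 16 * K0 ^ 3 * lam ^ 2 := by
    rw [div_le_iff₀ (by positivity)]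
    have h1 : 1 ^ 2 ≤ (4 * K0 * lam * L) ^ 2 := pow_le_pow_left₀ (by norm_num) hKL4 2
    calc K0 = K0 * 1 ^ 2 := by ring
      _ ≤ K0 * (4 * K0 * lam * L) ^ 2 := by gcongr
      _ = 16 * K0 ^ 3 * lam ^ 2 * (L : ℝ) ^ 2 := by ring
  rw [← hl, ← hs3]
  have hs31 : 1 ≤ s ^ 3 := one_le_pow₀ hs1
  have e : Es - (lam * mn μ - vr μ / (2 * Real.pi) * lam ^ 2 * l) =
      -(lam * mn μ - Es - lam ^ 2 * (vr μ * (s ^ 4 / (2 * Real.pi)))) := by
    rw [hs4]
    field_simp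
    ring
  rw [e, abs_neg]
  refine hlev.trans ?_
  have h1 : 16 * K0 ^ 3 * lam ^ 2 ≤ 16 * K0 ^ 3 * lam ^ 2 * s ^ 3 :=
    le_mul_of_one_le_right (by positivity) hs31
  calc 2 ^ 24 * lam ^ 2 * s ^ 3 + K0 / (L : ℝ) ^ 2 ≤
        2 ^ 24 * lam ^ 2 * s ^ 3 + 16 * K0 ^ 3 * lam ^ 2 * s ^ 3 := by linarith
    _ = (2 ^ 24 + 16 * K0 ^ 3) * lam ^ 2 * s ^ 3 := by ring
    _ ≤ C * lam ^ 2 * s ^ 3 := by gcongr

end Pool.Agent.K3h4.AN.Es
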