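import Pool.Agent.K3h4.AN.Ch
import Pool.Agent.K3h4.AN.Be
import Pool.Agent.Y663.Mf

/-! Dimension three: assembly. -/

set_option autoImplicit false
set_option linter.unusedSectionVars false
set_option linter.unusedVariables false

open scoped BigOperators
open MeasureTheory Filter Topology

namespace Pool.Agent.K3h4.AN.F3

open Pool.Agent.H4R2
open Pool.Agent.H4R2.AE (T LapW Hop)
open Pool.Agent.H4R2.AE.Good (clamp good_clamp_le good_clamp_eq)
open Pool.Agent.K3h4.AN.Pe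
open Pool.Agent.K3h4.AN.Pf
open Pool.Agent.K3h4.AN.Tp
open Pool.Agent.K3h4.AN.Ch
open Pool.Agent.Y663
open Pool.Agent.H4R2.LO (Zd)

/-- the good event -/
theorem good {d L : ℕ} [NeZero L] {κm Q P : ℝ} {R : ℝ → ℝ} (h : RH d L κm Q P R)
    (μ : Measure ℝ) [IsProbabilityMeasure μ] (hμ : μ (Set.Icc (-1) 1)ᶜ = 0) (lam : ℝ)
    (hlam : 0 < lam) (y0 : ℝ) (hy0 : 1 ≤ y0)
    (hP : P * Real.exp (-(3 * y0)) ≤ 1 / 64) (κ a : ℝ)
    (hκ : κm ≤ κ) (ha : 0 < a) (ha8 : a ≤ 1 / 8)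
    (hy : y0 ≤ yy R lam κ a) (hn : nn d L R Q κ * Real.exp (-(yy R lam κ a)) ≤ a / 32) :
    ∃ E : ℝ, |E| ≤ lam ∧ ∃ G : Set (T d L → ℝ), MeasurableSet G ∧
      1 - 2 * (nn d L R Q κ * Real.exp (-(yy R lam κ a))) ≤
        (Measure.pi fun _ : T d L => μ).real G ∧
      ∀ V ∈ G, ∃ w : T d L → ℝ, (∀ x, |w x| ≤ a) ∧
        ∀ x, ∑ i : Fin d, ((1 - Real.exp (w (x + Pi.single i 1) - w x)) +
          (1 - Real.exp (w (x - Pi.single i 1) - w x))) + lam * V x - E + κ * w x = 0 := by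
  have hκ0 : 0 < κ := lt_of_lt_of_le h.m0 hκ
  obtain ⟨E, hE, hmean⟩ := W_E (d := d) (L := L) (pen lam κ hlam hκ0) μ
  have hc := chain h μ lam hlam y0 hy0 hP κ a E hκ ha ha8 hE hmean hy hn
  have hmB := meas_Bad (d := d) (L := L) (pen lam κ hlam hκ0) E hE a
  obtain ⟨G', hG', hP', hV'⟩ := AE.Arith.pi_real_inter μ hμ (Bad (bk lam κ) lam E a)ᶜ hmB.compl
    (2 * (nn d L R Q κ * Real.exp (-(yy R lam κ a)))) (by rw [compl_compl]; exact hc)
  refine ⟨E, hE, G', hG', hP', fun V hV => ?_⟩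
  obtain ⟨h1, h2⟩ := hV' V hV
  have hw : ∀ x, |W (bk lam κ) lam E V x| ≤ a := by
    intro x
    by_contra hcon
    push Not at hcon
    exact h1 ⟨x, hcon.le⟩
  refine ⟨W (bk lam κ) lam E V, hw, fun x => ?_⟩
  have h3 := W_sol (pen lam κ hlam hκ0) E hE V x
  rw [good_clamp_eq V h2, bk_lin lam κ _ ((hw x).trans ha8)] at h3
  exact h3

theorem rh3 : ∃ A : ℝ, 1 ≤ A ∧ ∀ (L : ℕ) [NeZero L],
    RH 3 L (1 / (4 * (L : ℝ) ^ 2)) (2 ^ 28) (2 ^ 42) (fun κ => A / Real.sqrt κ) := by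
  obtain ⟨A, hA, H⟩ := Mg.green3
  refine ⟨A, hA, fun L _ => ?_⟩
  have hL := AE.Core.L_pos (L := L)
  have hA0 : 0 < A := by linarith
  have hm : 0 < 1 / (4 * (L : ℝ) ^ 2) := by positivity
  have hsq : ∀ κ : ℝ, Real.sqrt (2 ^ 28 * κ) = 2 ^ 14 * Real.sqrt κ := by
    intro κ
    rw [Real.sqrt_mul (by norm_num), show (2 : ℝ) ^ 28 = (2 ^ 14) ^ 2 by norm_num,
      Real.sqrt_sq (by norm_num)]
  refine ⟨hm, ?_, ?_, ?_, by norm_num, ?_, ?_, ?_⟩
  · intro κ hκ u Gr x0 hu hGr hh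
    have hκ0 : 0 < κ := lt_of_lt_of_le hm hκ
    refine H L κ 0 hκ0 hκ (by norm_num) u Gr x0 hu hGr (fun x => ?_)
    rw [mul_zero, neg_zero, Real.exp_zero, mul_one]
    exact hh x
  · intro κ hκ u Gr x0 hu hGr hh
    have hκ0 : 0 < κ := lt_of_lt_of_le hm hκ
    refine H L κ (1 / 8) hκ0 hκ le_rfl u Gr x0 hu hGr (fun x => ?_)
    rw [← hh x]
    norm_num
  · intro κ hκ
    have hκ0 : 0 < κ := lt_of_lt_of_le hm hκ
    have : 0 < Real.sqrt κ := Real.sqrt_pos.2 hκ0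
    positivity
  · intro κ hκ
    have hκ0 : 0 < κ := lt_of_lt_of_le hm hκ
    have : 0 < Real.sqrt κ := Real.sqrt_pos.2 hκ0
    rw [hsq]
    apply le_of_eq
    field_simp
    norm_num
  · intro κ hκ
    have hκ0 : 0 < κ := lt_of_lt_of_le hm hκ
    have : 0 < Real.sqrt κ := Real.sqrt_pos.2 hκ0
    rw [hsq]
    apply le_of_eq
    field_simp
  · intro κ hκ
    have hκ0 : 0 < κ := lt_of_lt_of_le hm hκ
    have : 0 < Real.sqrt κ := Real.sqrt_pos.2 hκ0
    rw [hsq]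
    have e : (2 ^ 28 * κ) ^ 2 * (A / (2 ^ 14 * Real.sqrt κ)) = 2 ^ 42 * (κ ^ 2 * (A / Real.sqrt κ)) := by
      field_simp
    rw [e]
    have h1 : 0 ≤ κ ^ 2 * (A / Real.sqrt κ) := by positivity
    linarith

theorem nn3 (L : ℕ) (A κ : ℝ) (hκ : 0 < κ) :
    nn 3 L (fun κ => A / Real.sqrt κ) (2 ^ 28) κ = 2 ^ 44 * A * (Real.sqrt κ * L) ^ 3 := by
  have hs : 0 < Real.sqrt κ := Real.sqrt_pos.2 hκ
  have hs2 : Real.sqrt κ ^ 2 = κ := Real.sq_sqrt hκ.le
  have hsq : Real.sqrt (2 ^ 28 * κ) = 2 ^ 14 * Real.sqrt κ := by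
    rw [Real.sqrt_mul (by norm_num), show (2 : ℝ) ^ 28 = (2 ^ 14) ^ 2 by norm_num,
      Real.sqrt_sq (by norm_num)]
  unfold nn
  beta_reduce
  rw [hsq]
  have e : (2 ^ 28 * κ) ^ 2 * (A / (2 ^ 14 * Real.sqrt κ)) = 2 ^ 42 * A * Real.sqrt κ ^ 3 := by
    rw [div_eq_mul_inv, mul_inv]
    have : Real.sqrt κ ^ 3 = κ ^ 2 * (Real.sqrt κ)⁻¹ := by
      rw [eq_mul_inv_iff_mul_eq₀ hs.ne']
      have h1 : Real.sqrt κ ^ 3 * Real.sqrt κ = (Real.sqrt κ ^ 2) ^ 2 := by ring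
      rw [h1, hs2]
    rw [this]
    ring
  rw [e]
  ring

theorem rate (C K κ lam : ℝ) (hC : 1 ≤ C) (hK : 4 * C ≤ K) (hκpos : 0 < κ) (hκ1 : κ ≤ 1)
    (hlam : 0 < lam) (hlam1 : lam ≤ 1) :
    Real.sqrt κ / (K * Real.log (2 / (κ * lam))) ≤
      Real.sqrt (κ / 2) / (C * Real.log (2 / (κ / 2 * lam))) := by
  have hbase : 2 ≤ 2 / (κ * lam) := by
    rw [le_div_iff₀ (by positivity)]
    have : κ * lam ≤ 1 := mul_le_one₀ hκ1 hlam.le hlam1
    linarith
  have hX : 0 < Real.log (2 / (κ * lam)) := Real.log_pos (by linarith)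
  have e1 : 2 / (κ / 2 * lam) = 2 * (2 / (κ * lam)) := by
    field_simp
  have hX2 : Real.log (2 / (κ / 2 * lam)) ≤ 2 * Real.log (2 / (κ * lam)) := by
    rw [e1, Real.log_mul (by norm_num) (by positivity)]
    have e2 := Real.log_le_log (by norm_num) hbase
    linarith
  have hX2pos : 0 < Real.log (2 / (κ / 2 * lam)) := by
    apply Real.log_pos
    rw [e1]
    linarith
  have hsq : Real.sqrt κ / 2 ≤ Real.sqrt (κ / 2) := by
    rw [Real.le_sqrt (by positivity) (by positivity), div_pow, Real.sq_sqrt hκpos.le]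
    linarith
  calc Real.sqrt κ / (K * Real.log (2 / (κ * lam))) ≤
        Real.sqrt κ / (4 * C * Real.log (2 / (κ * lam))) := by
        gcongr
    _ = (Real.sqrt κ / 2) / (C * (2 * Real.log (2 / (κ * lam)))) := by
        field_simp
        norm_num
    _ ≤ Real.sqrt (κ / 2) / (C * Real.log (2 / (κ / 2 * lam))) := by
        gcongr

theorem fin3 (B : ℝ) (hB : 0 < B) (η : ℝ) (hη : 0 < η) (hη' : η ≤ 1) :
    ∃ K : ℝ, 1 ≤ K ∧
    ∀ (μ : Measure ℝ) [IsProbabilityMeasure μ], μ (Set.Icc (-1) 1)ᶜ = 0 → LO.Reg B μ →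
    ∀ lam : ℝ, 0 < lam → K * lam ≤ 1 → ∃ Es : ℝ, |Es| ≤ lam ∧
      (∀ (L : ℕ) [NeZero L], K * (lam ^ 2 * L) ≤ 1 →
        ∃ G : Set (AE.T 3 L → ℝ), MeasurableSet G ∧
          1 - K * Real.exp (-(1 / (K * (lam ^ 2 * L)))) ≤
            (Measure.pi fun _ : AE.T 3 L => μ).real G ∧
          ∀ V ∈ G, AE.Core.FlatE lam η (K / (L : ℝ) ^ 2) Es V) ∧
      ∀ κ : ℝ, K * (lam ^ 4 * Real.log (Real.log (1 / lam)) ^ 2) ≤ κ → κ ≤ 1 →
        ∀ᵐ ω ∂(Measure.infinitePi fun _ : Zd 3 => μ),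
          LO.Main.Dec 3 (-1) (fun x => lam * ω x) (Set.Iic (Es - 2 * (3 : ℕ) - κ))
            (Real.sqrt κ / (K * Real.log (2 / (κ * lam)))) := by
  obtain ⟨C, ρ0, hC, hρ0, Hb⟩ := Be.belowS 3 (by norm_num) B hB
  obtain ⟨A, hA, HA⟩ := rh3
  obtain ⟨C2, hC2, Hflat⟩ := AE.Core2.gen 3 le_rfl
  have hC0 : 0 < C := by linarith
  have hA0 : 0 < A := by linarith
  have hC20 : 0 < C2 := by linarith
  have hP16 : (2 : ℝ) ^ 42 * Real.exp (-(3 * 16)) ≤ 1 / 64 := by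
    have h1 : Real.exp (-(3 * 16)) = (Real.exp (-1)) ^ 48 := by
      rw [← Real.exp_nat_mul]; norm_num
    have h2 : Real.exp (-1) ≤ 2 / 5 := by
      rw [Real.exp_neg, inv_le_comm₀ (Real.exp_pos _) (by norm_num)]
      have := Real.exp_one_gt_d9
      norm_num
      linarith
    rw [h1]
    have h3 : Real.exp (-1) ^ 48 ≤ (2 / 5) ^ 48 := pow_le_pow_left₀ (Real.exp_pos _).le h2 48
    calc (2 : ℝ) ^ 42 * Real.exp (-1) ^ 48 ≤ 2 ^ 42 * (2 / 5) ^ 48 := by gcongr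
      _ ≤ 1 / 64 := by norm_num
  obtain ⟨a, ha⟩ : ∃ z : ℝ, z = min (1 / 8) (η / C2) := ⟨_, rfl⟩
  have ha0 : 0 < a := by rw [ha]; positivity
  have ha8 : a ≤ 1 / 8 := by rw [ha]; exact min_le_left _ _
  have haC : a ≤ η / C2 := by rw [ha]; exact min_le_right _ _
  obtain ⟨c0, hc0⟩ : ∃ z : ℝ, z = a ^ 2 / (768 * A) := ⟨_, rfl⟩
  have hc00 : 0 < c0 := by rw [hc0]; positivity
  obtain ⟨S, hS⟩ : ∃ z : ℝ, z = 122880 * A := ⟨_, rfl⟩
  have hS0 : 0 < S := by rw [hS]; positivity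
  obtain ⟨K1, hK1⟩ : ∃ z : ℝ, z = S ^ 2 := ⟨_, rfl⟩
  have hS1 : 1 ≤ S := by rw [hS]; linarith
  have hK11 : 1 ≤ K1 := by rw [hK1]; exact one_le_pow₀ hS1
  -- the constant for the flat part
  obtain ⟨N0, hN0⟩ : ∃ z : ℝ, z = 2 ^ 41 * A := ⟨_, rfl⟩
  have hN00 : 0 < N0 := by rw [hN0]; positivity
  have hlog0 : 0 ≤ Real.log (32 * N0 / a) := by
    apply Real.log_nonneg
    rw [le_div_iff₀ ha0, hN0]
    linarith
  obtain ⟨kf, hkf⟩ : ∃ z : ℝ, z = 16 / c0 + Real.log (32 * N0 / a) / c0 + S := ⟨_, rfl⟩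
  have hkfp1 : 0 ≤ 16 / c0 := by positivity
  have hkfp2 : 0 ≤ Real.log (32 * N0 / a) / c0 := by positivity
  have hkf1 : 1 ≤ kf := by linarith
  have hkf0 : 0 < kf := by linarith
  have hkfc1 : 16 ≤ c0 * kf := by
    have h1 : c0 * kf = 16 + Real.log (32 * N0 / a) + c0 * S := by
      rw [hkf]; field_simp
    rw [h1]
    have : 0 < c0 * S := by positivity
    linarith
  have hkfc2 : Real.log (32 * N0 / a) ≤ c0 * kf := by
    have h1 : c0 * kf = 16 + Real.log (32 * N0 / a) + c0 * S := by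
      rw [hkf]; field_simp
    rw [h1]
    have : 0 < c0 * S := by positivity
    linarith
  obtain ⟨Z, hZ⟩ : ∃ z : ℝ, z = 2 ^ 44 * A * (729 * C ^ 3) := ⟨_, rfl⟩
  have hZ0 : 0 < Z := by rw [hZ]; positivity
  obtain ⟨m0, hm0⟩ : ∃ z : ℝ, z = min (ρ0 / 2) (1 / 256) := ⟨_, rfl⟩
  have hm00 : 0 < m0 := by rw [hm0]; positivity
  obtain ⟨lm, hlm⟩ : ∃ z : ℝ, z = Z / m0 + 81 := ⟨_, rfl⟩
  have hZm0 : 0 < Z / m0 := by positivity
  obtain ⟨K, hK⟩ : ∃ z : ℝ, z = kf + 1 / c0 + 2 * N0 + 4 * K1 + 30000 * kf ^ 2 + Real.exp lm + 8 * C + 8 := ⟨_, rfl⟩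
  have hKc0 : 0 ≤ 1 / c0 := by positivity
  have hKkf : 0 ≤ 30000 * kf ^ 2 := by positivity
  have hKe : 0 < Real.exp lm := Real.exp_pos _
  have hkf2 : 1 ≤ kf ^ 2 := one_le_pow₀ hkf1
  have hK8 : 30000 ≤ K := by linarith
  have hK0 : 0 < K := by linarith
  have hK4C : 4 * C ≤ K := by linarith
  refine ⟨K, by linarith, ?_⟩
  intro μ _ hμ hreg lam hlam hKl
  have hlam8 : lam ≤ 1 / 8 := by
    have : 30000 * lam ≤ K * lam := by gcongr
    linarith
  have hlam1 : lam ≤ 1 := by linarith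
  have hlam2 : 0 < lam ^ 2 := by positivity
  have hlamK : K ≤ 1 / lam := by rw [le_div_iff₀ hlam]; exact hKl
  obtain ⟨l, hl⟩ : ∃ z : ℝ, z = Real.log (1 / lam) := ⟨_, rfl⟩
  have hllm : lm ≤ l := by
    rw [hl, Real.le_log_iff_exp_le (by positivity)]
    linarith
  have hl81 : 81 ≤ l := by linarith
  have hl3 : 3 ≤ l := by linarith
  have hl0 : 0 < l := by linarith
  have hlle : l ≤ 1 / lam := by
    rw [hl]; exact Real.log_le_self (by positivity)
  obtain ⟨ll, hll⟩ : ∃ z : ℝ, z = Real.log l := ⟨_, rfl⟩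
  have hll1 : 1 ≤ ll := by
    rw [hll, Real.le_log_iff_exp_le hl0]
    have := Real.exp_one_lt_d9
    linarith
  have hll4 : 4 ≤ ll := by
    rw [hll, Real.le_log_iff_exp_le hl0]
    have h1 : Real.exp 4 = Real.exp 1 ^ 4 := by
      rw [← Real.exp_nat_mul]; norm_num
    have h2 : Real.exp 1 ^ 4 ≤ 3 ^ 4 :=
      pow_le_pow_left₀ (Real.exp_pos _).le (by linarith [Real.exp_one_lt_d9]) 4
    rw [h1]
    norm_num at h2
    linarith
  have hlll : ll ≤ l := by rw [hll]; exact Real.log_le_self hl0.le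
  have hll0 : 0 < ll := by linarith
  have hll2 : 1 ≤ ll ^ 2 := one_le_pow₀ hll1
  have hCl : 3 ≤ C * l := by
    calc (3 : ℝ) = 1 * 3 := by norm_num
      _ ≤ C * l := by gcongr
  -- the flat tori
  have hflat : ∀ (L : ℕ) [NeZero L], kf * (lam ^ 2 * L) ≤ 1 → ∃ E : ℝ, |E| ≤ lam ∧
      ∃ G : Set (AE.T 3 L → ℝ), MeasurableSet G ∧
          1 - 2 * (N0 * Real.exp (-(c0 / (lam ^ 2 * L)))) ≤
            (Measure.pi fun _ : AE.T 3 L => μ).real G ∧
          N0 * Real.exp (-(c0 / (lam ^ 2 * L))) ≤ a / 32 ∧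
          ∀ V ∈ G, AE.Core.FlatE lam η (1 / (L : ℝ) ^ 2) E V := by
    intro L _ hL
    have hLpos : (0 : ℝ) < L := AE.Core.L_pos (L := L)
    have hsq : Real.sqrt (1 / (4 * (L : ℝ) ^ 2)) = 1 / (2 * L) := by
      have : 1 / (4 * (L : ℝ) ^ 2) = (1 / (2 * L)) ^ 2 := by
        field_simp
        norm_num
      rw [this, Real.sqrt_sq (by positivity)]
    have hyy : yy (fun κ => A / Real.sqrt κ) lam (1 / (4 * (L : ℝ) ^ 2)) a = c0 / (lam ^ 2 * L) := by
      unfold yy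
      beta_reduce
      rw [hsq, hc0]
      field_simp
      norm_num
    have hnn : nn 3 L (fun κ => A / Real.sqrt κ) (2 ^ 28) (1 / (4 * (L : ℝ) ^ 2)) = N0 := by
      rw [nn3 L A _ (by positivity), hsq, hN0]
      field_simp
    have hcy : c0 * kf ≤ c0 / (lam ^ 2 * L) := by
      rw [le_div_iff₀ (by positivity)]
      calc c0 * kf * (lam ^ 2 * L) = c0 * (kf * (lam ^ 2 * L)) := by ring
        _ ≤ c0 * 1 := by gcongr
        _ = c0 := mul_one _
    have hne : N0 * Real.exp (-(c0 / (lam ^ 2 * L))) ≤ a / 32 := by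
      have h1 : Real.exp (-(c0 / (lam ^ 2 * L))) ≤ Real.exp (-Real.log (32 * N0 / a)) :=
        Real.exp_le_exp.2 (by linarith)
      rw [Real.exp_neg (Real.log _), Real.exp_log (by positivity)] at h1
      calc N0 * Real.exp (-(c0 / (lam ^ 2 * L))) ≤ N0 * (32 * N0 / a)⁻¹ := by gcongr
        _ = a / 32 := by field_simp
    obtain ⟨E, hE, G, hG, hP, hw⟩ := good (HA L) μ hμ lam hlam 16 (by norm_num) hP16
      (1 / (4 * (L : ℝ) ^ 2)) a le_rfl ha0 ha8 (by rw [hyy]; linarith) (by rw [hyy, hnn]; exact hne)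
    rw [hyy, hnn] at hP
    refine ⟨E, hE, G, hG, hP, hne, fun V hV => ?_⟩
    obtain ⟨w, hw1, hw2⟩ := hw V hV
    exact Hflat L lam η E hη hη' V w (fun x => (hw1 x).trans haC) hw2
  -- the largest flat torus
  set Ls : ℕ := ⌊1 / (kf * lam ^ 2)⌋₊ with hLs
  have hkl1 : kf * lam ^ 2 ≤ 1 := by
    have h1 : kf * lam ≤ 1 := by
      calc kf * lam ≤ K * lam := by gcongr; linarith
        _ ≤ 1 := hKl
    calc kf * lam ^ 2 = (kf * lam) * lam := by ring
      _ ≤ 1 * 1 := by gcongr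
      _ = 1 := by norm_num
  have hX1 : 1 ≤ 1 / (kf * lam ^ 2) := by rw [le_div_iff₀ (by positivity)]; linarith
  have hLs1 : 1 ≤ Ls := Nat.le_floor (by push_cast; exact hX1)
  have hLs0 : (0 : ℝ) < Ls := by exact_mod_cast hLs1
  have : NeZero Ls := ⟨by omega⟩
  have hLsle : (Ls : ℝ) ≤ 1 / (kf * lam ^ 2) := Nat.floor_le (by positivity)
  have hLsge : 1 / (2 * (kf * lam ^ 2)) ≤ Ls := by
    have h1 : 1 / (kf * lam ^ 2) < Ls + 1 := Nat.lt_floor_add_one _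
    have h2 : (1 : ℝ) ≤ Ls := by exact_mod_cast hLs1
    have h3 : 1 / (2 * (kf * lam ^ 2)) = (1 / (kf * lam ^ 2)) / 2 := by field_simp
    rw [h3]; linarith
  have hLsk : kf * (lam ^ 2 * Ls) ≤ 1 := by
    rw [le_div_iff₀ (by positivity)] at hLsle
    linarith
  obtain ⟨Es, hEs, Gs, hGs, hPs, hnes, hfs⟩ := hflat Ls hLsk
  have hPs2 : 1 / 2 < (Measure.pi fun _ : AE.T 3 Ls => μ).real Gs := by
    linarith
  have haps : ∀ V ∈ Gs, Mc.ApE lam (1 / (Ls : ℝ) ^ 2) Es V := fun V hV =>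
    Mc.of_flat lam η _ Es hη' V (hfs V hV)
  have hLsinv : 1 / (Ls : ℝ) ^ 2 ≤ 4 * kf ^ 2 * lam ^ 4 := by
    rw [div_le_iff₀ (by positivity)]
    have h1 : 1 ≤ 2 * (kf * lam ^ 2) * Ls := by
      rw [div_le_iff₀ (by positivity)] at hLsge
      linarith
    have h2 : 1 ^ 2 ≤ (2 * (kf * lam ^ 2) * Ls) ^ 2 := pow_le_pow_left₀ (by norm_num) h1 2
    linarith
  refine ⟨Es, hEs, ?_, ?_⟩
  · -- flat ground states
    intro L _ hL
    have hLpos : (0 : ℝ) < L := AE.Core.L_pos (L := L)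
    have hKL : kf * (lam ^ 2 * L) ≤ 1 := by
      refine le_trans ?_ hL
      gcongr
      linarith
    have hLLs : L ≤ Ls := by
      apply Nat.le_floor
      rw [le_div_iff₀ (by positivity)]
      linarith
    obtain ⟨E, hE, G, hG, hP, hne, hf⟩ := hflat L hKL
    have hPG : 1 / 2 < (Measure.pi fun _ : AE.T 3 L => μ).real G := by linarith
    have hel := Mc.el 3 (by norm_num) μ lam L Ls hLLs E Es (1 / (L : ℝ) ^ 2) (1 / (Ls : ℝ) ^ 2)
      G Gs hG hPG hPs2 (fun V hV => Mc.of_flat lam η _ E hη' V (hf V hV)) haps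
    refine ⟨G, hG, ?_, fun V hV => ?_⟩
    · refine le_trans ?_ hP
      have h1 : Real.exp (-(c0 / (lam ^ 2 * L))) ≤ Real.exp (-(1 / (K * (lam ^ 2 * L)))) := by
        refine Real.exp_le_exp.2 (neg_le_neg ?_)
        rw [← div_div]
        gcongr
        rw [div_le_iff₀ hK0]
        have h2 : 1 / c0 ≤ K := by linarith
        rw [div_le_iff₀ hc00] at h2
        linarith
      have h2 : 2 * (N0 * Real.exp (-(c0 / (lam ^ 2 * L)))) ≤
          K * Real.exp (-(1 / (K * (lam ^ 2 * L)))) := by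
        calc 2 * (N0 * Real.exp (-(c0 / (lam ^ 2 * L)))) =
              (2 * N0) * Real.exp (-(c0 / (lam ^ 2 * L))) := by ring
          _ ≤ K * Real.exp (-(1 / (K * (lam ^ 2 * L)))) := by
              gcongr
              linarith
      linarith
    · obtain ⟨E0, ψ, h1, h2⟩ := hf V hV
      refine ⟨E0, ψ, ?_, h2⟩
      have e1 : E0 - Es = (E0 - E) + (E - Es) := by ring
      rw [e1]
      refine (abs_add_le _ _).trans ?_
      have e2 : 1 / (Ls : ℝ) ^ 2 ≤ 1 / (L : ℝ) ^ 2 := by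
        apply one_div_le_one_div_of_le (by positivity)
        have : (L : ℝ) ≤ Ls := by exact_mod_cast hLLs
        gcongr
      have e3 : 3075 / (L : ℝ) ^ 2 ≤ K / (L : ℝ) ^ 2 := by
        gcongr
        linarith
      have e4 : 3075 / (L : ℝ) ^ 2 = 1 / (L : ℝ) ^ 2 + (1 / (L : ℝ) ^ 2 + 1 / (L : ℝ) ^ 2 +
          1024 * (3 : ℕ) / (L : ℝ) ^ 2) := by
        push_cast
        ring
      linarith
  · -- localization
    set κ0 : ℝ := K1 * (lam ^ 4 * ll ^ 2) with hκ0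
    have hκ00 : 0 < κ0 := by positivity
    have hsκ0 : Real.sqrt κ0 = S * (lam ^ 2 * ll) := by
      rw [hκ0, hK1]
      have : S ^ 2 * (lam ^ 4 * ll ^ 2) = (S * (lam ^ 2 * ll)) ^ 2 := by ring
      rw [this, Real.sqrt_sq (by positivity)]
    have hsκ01 : Real.sqrt κ0 ≤ 1 := by
      rw [hsκ0]
      have h1 : ll ≤ 1 / lam := hlll.trans hlle
      have h2 : lam ^ 2 * ll ≤ lam := by
        calc lam ^ 2 * ll ≤ lam ^ 2 * (1 / lam) := by gcongr
          _ = lam := by field_simp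
      have h3 : S ≤ K := by linarith
      calc S * (lam ^ 2 * ll) ≤ K * lam := by gcongr
        _ ≤ 1 := hKl
    have hsκ00 : 0 < Real.sqrt κ0 := Real.sqrt_pos.2 hκ00
    set X : ℝ := 8 * C * l / Real.sqrt κ0 with hX
    have hX0 : 0 < X := by positivity
    set L0 : ℕ := ⌈X⌉₊ with hL0
    have hL0ge : X ≤ L0 := Nat.le_ceil X
    have hL0lt : (L0 : ℝ) < X + 1 := Nat.ceil_lt_add_one hX0.le
    have hL0pos' : (0 : ℝ) < L0 := by linarith
    have hL0pos : 0 < L0 := by exact_mod_cast hL0pos'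
    have : NeZero L0 := ⟨hL0pos.ne'⟩
    have hsL : Real.sqrt κ0 * L0 ≤ 9 * C * l := by
      calc Real.sqrt κ0 * L0 ≤ Real.sqrt κ0 * (X + 1) := by gcongr
        _ = 8 * C * l + Real.sqrt κ0 := by rw [hX]; field_simp
        _ ≤ 9 * C * l := by linarith
    have hsL2 : 8 * C * l ≤ Real.sqrt κ0 * L0 := by
      calc 8 * C * l = Real.sqrt κ0 * X := by rw [hX]; field_simp
        _ ≤ _ := by gcongr
    have hκL0 : 1 / (4 * (L0 : ℝ) ^ 2) ≤ κ0 := by
      rw [div_le_iff₀ (by positivity)]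
      have h1 : (1 : ℝ) ≤ 8 * C * l := by linarith
      have h2 : 1 ^ 2 ≤ (Real.sqrt κ0 * L0) ^ 2 := pow_le_pow_left₀ (by norm_num) (h1.trans hsL2) 2
      rw [mul_pow, Real.sq_sqrt hκ00.le] at h2
      linarith
    have hyy : yy (fun κ => A / Real.sqrt κ) lam κ0 (1 / 8) = 5 * ll := by
      unfold yy
      beta_reduce
      rw [hsκ0, hS]
      field_simp
      norm_num
    have hexp : Real.exp (-(5 * ll)) = 1 / l ^ 5 := by
      rw [Real.exp_neg, show (5 : ℝ) * ll = ((5 : ℕ) : ℝ) * ll by norm_num, Real.exp_nat_mul, hll,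
        Real.exp_log hl0, one_div]
    have hnn : nn 3 L0 (fun κ => A / Real.sqrt κ) (2 ^ 28) κ0 * Real.exp (-(5 * ll)) ≤ m0 := by
      rw [nn3 L0 A κ0 hκ00, hexp]
      have h1 : (Real.sqrt κ0 * L0) ^ 3 ≤ (9 * C * l) ^ 3 := by gcongr
      calc 2 ^ 44 * A * (Real.sqrt κ0 * L0) ^ 3 * (1 / l ^ 5) ≤
            2 ^ 44 * A * (9 * C * l) ^ 3 * (1 / l ^ 5) := by gcongr
        _ = Z / l ^ 2 := by rw [hZ]; field_simp; norm_num
        _ ≤ m0 := by
            rw [div_le_iff₀ (by positivity)]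
            have h2 : Z / m0 ≤ l := by linarith
            rw [div_le_iff₀ hm00] at h2
            have h3 : l * m0 ≤ m0 * l ^ 2 := by
              have : 1 * (l * m0) ≤ l * (l * m0) := by gcongr; linarith
              linarith
            linarith
    have hm0a : m0 ≤ 1 / 256 := by rw [hm0]; exact min_le_right _ _
    have hm0b : m0 ≤ ρ0 / 2 := by rw [hm0]; exact min_le_left _ _
    obtain ⟨E0, hE0, G0, hG0, hP0, hw0⟩ := good (HA L0) μ hμ lam hlam 16 (by norm_num) hP16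
      κ0 (1 / 8) hκL0 (by norm_num) le_rfl (by
        rw [hyy]
        linarith) (by rw [hyy]; linarith)
    rw [hyy] at hP0
    have hap0 : ∀ V ∈ G0, Mc.ApE lam (κ0 * (1 / 8)) E0 V := by
      intro V hV
      obtain ⟨w, hw1, hw2⟩ := hw0 V hV
      exact Mc.of_sol lam κ0 (1 / 8) E0 hκ00.le (by norm_num) V w hw1 hw2
    set ε0 : ℝ := 2 * (nn 3 L0 (fun κ => A / Real.sqrt κ) (2 ^ 28) κ0 * Real.exp (-(5 * ll)))
      with hε0
    have hε00 : 0 ≤ ε0 := by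
      rw [hε0, nn3 L0 A κ0 hκ00]; positivity
    have hε0ρ : ε0 ≤ ρ0 := by linarith
    have hε0h : ε0 ≤ 1 / 128 := by linarith
    have hLsL0 : Ls ≤ L0 := by
      have h1 : 1 / (kf * lam ^ 2) ≤ X := by
        rw [hX, hsκ0, div_le_div_iff₀ (by positivity) (by positivity)]
        have h2 : ll * S ≤ 8 * C * l * kf := by
          have h3 : S ≤ kf := by linarith
          have h4 : ll ≤ 8 * C * l := by
            have h5 : 1 * l ≤ C * l := by gcongr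
            linarith
          calc ll * S ≤ (8 * C * l) * kf := by gcongr
            _ = _ := by ring
        calc 1 * (S * (lam ^ 2 * ll)) = (ll * S) * lam ^ 2 := by ring
          _ ≤ (8 * C * l * kf) * lam ^ 2 := by gcongr
          _ = 8 * C * l * (kf * lam ^ 2) := by ring
      have h2 : (Ls : ℝ) ≤ L0 := hLsle.trans (h1.trans hL0ge)
      exact_mod_cast h2
    have hel := Mc.el 3 (by norm_num) μ lam Ls L0 hLsL0 Es E0 (1 / (Ls : ℝ) ^ 2) (κ0 * (1 / 8))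
      Gs G0 hGs hPs2 (by
        have : 1 - ε0 ≤ (Measure.pi fun _ : AE.T 3 L0 => μ).real G0 := hP0
        linarith) haps hap0
    have hE0s : |Es - E0| ≤ 12292 * kf ^ 2 * (lam ^ 4 * ll ^ 2) + κ0 * (1 / 8) := by
      have e1 : 1024 * ((3 : ℕ) : ℝ) / (Ls : ℝ) ^ 2 = 3072 * (1 / (Ls : ℝ) ^ 2) := by
        push_cast; ring
      rw [e1] at hel
      have h1 : lam ^ 4 * 1 ≤ lam ^ 4 * ll ^ 2 := by
        gcongr
      have h2 : 12292 * kf ^ 2 * (lam ^ 4 * 1) ≤ 12292 * kf ^ 2 * (lam ^ 4 * ll ^ 2) := by gcongr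
      linarith
    have hT := Mc.torusBound μ lam (κ0 * (1 / 8)) E0 ε0 G0 hG0 hP0 hap0
    intro κ hκ hκ1
    rw [← hl, ← hll] at hκ
    have hκK : 4 * κ0 + 30000 * kf ^ 2 * (lam ^ 4 * ll ^ 2) + 8 * (lam ^ 4 * ll ^ 2) ≤ κ := by
      refine le_trans ?_ hκ
      rw [hκ0]
      have h1 : 0 < lam ^ 4 * ll ^ 2 := by positivity
      have h2 : 4 * K1 + 30000 * kf ^ 2 + 8 ≤ K := by linarith
      have h3 := mul_le_mul_of_nonneg_right h2 h1.le
      linarith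
    have hkfl : 0 ≤ 30000 * kf ^ 2 * (lam ^ 4 * ll ^ 2) := by positivity
    have hlp : 0 < lam ^ 4 * ll ^ 2 := by positivity
    have hκκ0 : κ0 ≤ κ := by linarith
    have hκpos : 0 < κ := by linarith
    have hκ8 : 8 * lam ^ 4 ≤ κ := by
      have h1 : lam ^ 4 * 1 ≤ lam ^ 4 * ll ^ 2 := by
        gcongr
      linarith
    have hlogκ : Real.log (2 / (κ / 2 * lam)) ≤ 5 * l := by
      have h1 : 2 / (κ / 2 * lam) ≤ (1 / lam) ^ 5 := by
        rw [div_le_iff₀ (by positivity)]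
        have h3 : (1 / lam) ^ 5 * (κ / 2 * lam) = κ / (2 * lam ^ 4) := by
          field_simp
        rw [h3, le_div_iff₀ (by positivity)]
        have h4 := pow_pos hlam 4
        linarith
      have h2 := Real.log_le_log (by positivity) h1
      rw [Real.log_pow] at h2
      rw [hl]
      exact_mod_cast h2
    have hsqκ : Real.sqrt κ0 ≤ Real.sqrt (κ / 2) := Real.sqrt_le_sqrt (by linarith)
    have hcond : C * Real.log (2 / (κ / 2 * lam)) / Real.sqrt (κ / 2) ≤ L0 := by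
      refine le_trans ?_ hL0ge
      rw [hX]
      calc C * Real.log (2 / (κ / 2 * lam)) / Real.sqrt (κ / 2) ≤ C * (5 * l) / Real.sqrt κ0 := by
            gcongr
        _ ≤ 8 * C * l / Real.sqrt κ0 := by
            apply div_le_div_of_nonneg_right _ hsκ00.le
            have : 0 < C * l := by positivity
            linarith
    have hb := Hb μ hreg lam hlam hlam1 L0 (E0 - κ0 * (1 / 8)) ε0 hε00 hε0ρ hT (κ / 2) (by positivity)
      (by linarith) hcond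
    filter_upwards [hb] with ω hω
    refine LO.Main.dec_mono _ _ _ _ _ _ hω ?_ ?_
    · apply Set.Iic_subset_Iic.2
      obtain ⟨h1, h2⟩ := abs_le.1 hE0s
      linarith
    · exact rate C K κ lam hC hK4C hκpos hκ1 hlam hlam1

end Pool.Agent.K3h4.AN.F3
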