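import Pool.Agent.H4R2.AE.Core2

/-! # The massive Green function of the two dimensional torus at the origin -/

set_option autoImplicit false

open scoped BigOperators

namespace Pool.Agent.K3h4.AN.Gz

open Pool.Agent.H4R2
open Pool.Agent.H4R2.AE (T LapW Hop)

variable {L : ℕ} [NeZero L]

theorem val_succ (j : ZMod L) : (j + 1).val = j.val + 1 ∨ (j.val + 1 = L ∧ (j + 1).val = 0) := by
  have hL : 0 < L := NeZero.pos L
  have h1 : j.val < L := ZMod.val_lt j
  have h2 : j + 1 = ((j.val + 1 : ℕ) : ZMod L) := by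
    push_cast
    rw [ZMod.natCast_zmod_val]
  rw [h2, ZMod.val_natCast]
  rcases Nat.lt_or_ge (j.val + 1) L with h | h
  · left
    exact Nat.mod_eq_of_lt h
  · right
    have h3 : j.val + 1 = L := by omega
    exact ⟨h3, by rw [h3, Nat.mod_self]⟩

theorem val_pred (j : ZMod L) : (j ≠ 0 ∧ (j - 1).val + 1 = j.val) ∨ (j = 0 ∧ (j - 1).val + 1 = L) := by
  have hL : 0 < L := NeZero.pos L
  by_cases hj : j = 0
  · right
    refine ⟨hj, ?_⟩
    have h := val_succ (j - 1)
    rw [sub_add_cancel, hj, ZMod.val_zero] at h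
    rcases h with h | h
    · omega
    · rw [hj]; exact h.1
  · left
    refine ⟨hj, ?_⟩
    have h := val_succ (j - 1)
    rw [sub_add_cancel] at h
    rcases h with h | h
    · omega
    · exfalso
      exact hj ((ZMod.val_eq_zero j).1 h.2)

/-- the one dimensional Green function -/
theorem green1 (s : ℝ) (hs : 0 < s) : ∃ G : ZMod L → ℝ,
    (∀ j, (2 + s) * G j - G (j + 1) - G (j - 1) = if j = 0 then 1 else 0) ∧
    1 / Real.sqrt (s * (4 + s)) ≤ G 0 ∧
    (s ≤ 5 → G 0 ≤ 1 / Real.sqrt (s * (4 + s)) + 3 / (2 * L * s)) := by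
  have hL : 0 < L := NeZero.pos L
  have hL0 : (0 : ℝ) < L := by exact_mod_cast hL
  -- the exponent
  obtain ⟨θ, hθ⟩ : ∃ z : ℝ, z = 2 * Real.arsinh (Real.sqrt s / 2) := ⟨_, rfl⟩
  have hss : 0 < Real.sqrt s := Real.sqrt_pos.2 hs
  have hsq : Real.sqrt s ^ 2 = s := Real.sq_sqrt hs.le
  have hsh : Real.sinh (θ / 2) = Real.sqrt s / 2 := by
    rw [hθ]
    rw [show 2 * Real.arsinh (Real.sqrt s / 2) / 2 = Real.arsinh (Real.sqrt s / 2) by ring,
      Real.sinh_arsinh]
  have hθ0 : 0 < θ := by
    rw [hθ]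
    have := Real.arsinh_pos_iff.2 (show 0 < Real.sqrt s / 2 by positivity)
    linarith
  have hcosh : 2 * Real.cosh θ = 2 + s := by
    have h := Real.cosh_two_mul (θ / 2)
    have h' := Real.cosh_sq (θ / 2)
    rw [show 2 * (θ / 2) = θ by ring] at h
    rw [h, h', hsh]
    ring_nf
    rw [hsq]
  have hsinh : 0 < Real.sinh θ := Real.sinh_pos_iff.2 hθ0
  have hsinh2 : 2 * Real.sinh θ = Real.sqrt (s * (4 + s)) := by
    symm
    rw [Real.sqrt_eq_iff_mul_self_eq (by positivity) (by positivity)]
    have h := Real.cosh_sq θ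
    nlinarith
  obtain ⟨y, hy⟩ : ∃ z : ℝ, z = θ * L / 2 := ⟨_, rfl⟩
  have hy0 : 0 < y := by rw [hy]; positivity
  have hsy : 0 < Real.sinh y := Real.sinh_pos_iff.2 hy0
  obtain ⟨c, hc⟩ : ∃ z : ℝ, z = 1 / (2 * Real.sinh θ * Real.sinh y) := ⟨_, rfl⟩
  have hc1 : c * (2 * Real.sinh θ * Real.sinh y) = 1 := by rw [hc]; field_simp
  refine ⟨fun j => c * Real.cosh (y - θ * j.val), fun j => ?_, ?_, fun hs5 => ?_⟩
  · beta_reduce
    have hp : Real.cosh (y - θ * ((j + 1).val : ℝ)) = Real.cosh (y - θ * (j.val : ℝ) - θ) := by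
      rcases val_succ j with h | ⟨h1, h2⟩
      · rw [h]; push_cast; congr 1; ring
      · rw [h2]
        have h3 : (j.val : ℝ) = L - 1 := by
          have : ((j.val + 1 : ℕ) : ℝ) = L := by exact_mod_cast h1
          push_cast at this
          linarith
        rw [h3, ← Real.cosh_neg (y - θ * ((L : ℝ) - 1) - θ)]
        congr 1
        rw [hy]; push_cast; ring
    rw [hp]
    rcases val_pred j with ⟨h1, h2⟩ | ⟨h1, h2⟩
    · rw [if_neg h1]
      have h3 : ((j - 1).val : ℝ) = j.val - 1 := by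
        have : (((j - 1).val + 1 : ℕ) : ℝ) = j.val := by exact_mod_cast h2
        push_cast at this
        linarith
      rw [h3, ← hcosh]
      have e1 : y - θ * ((j.val : ℝ) - 1) = (y - θ * (j.val : ℝ)) + θ := by ring
      rw [e1]
      generalize y - θ * (j.val : ℝ) = b
      rw [Real.cosh_add, Real.cosh_sub]
      ring
    · rw [if_pos h1, h1, ZMod.val_zero]
      have h3 : (((0 : ZMod L) - 1).val : ℝ) = L - 1 := by
        rw [h1] at h2
        have : ((((0 : ZMod L) - 1).val + 1 : ℕ) : ℝ) = L := by exact_mod_cast h2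
        push_cast at this
        linarith
      rw [h3, ← hcosh]
      have e1 : y - θ * ((L : ℝ) - 1) = -(y - θ) := by rw [hy]; ring
      have e2 : y - θ * ((0 : ℕ) : ℝ) = y := by push_cast; ring
      rw [e1, Real.cosh_neg, e2, Real.cosh_sub, ← hc1]
      ring
  · beta_reduce
    rw [ZMod.val_zero, ← hsinh2, hc]
    have e2 : y - θ * ((0 : ℕ) : ℝ) = y := by push_cast; ring
    rw [e2, div_mul_eq_mul_div, one_mul, div_le_div_iff₀ (by positivity) (by positivity)]
    have h1 : Real.sinh y ≤ Real.cosh y := (Real.sinh_lt_cosh y).le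
    have h2 : 0 ≤ 2 * Real.sinh θ := by positivity
    nlinarith
  · beta_reduce
    rw [ZMod.val_zero, hc]
    have e2 : y - θ * ((0 : ℕ) : ℝ) = y := by push_cast; ring
    rw [e2, div_mul_eq_mul_div, one_mul]
    -- lower bound on θ
    have hth : Real.sqrt s / 3 ≤ θ / 2 := by
      have h1 : Real.sinh (θ / 2) ≤ θ / 2 * Real.cosh (θ / 2) := by
        have hm : ∀ z ∈ Set.Icc 0 (θ / 2), HasDerivWithinAt Real.sinh (Real.cosh z)
            (Set.Icc 0 (θ / 2)) z := fun z _ => (Real.hasDerivAt_sinh z).hasDerivWithinAt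
        have hh : 0 ≤ θ / 2 := by positivity
        have := Convex.norm_image_sub_le_of_norm_hasDerivWithin_le (C := Real.cosh (θ / 2)) hm
          (fun z hz => by
            rw [Real.norm_eq_abs, abs_of_pos (Real.cosh_pos z)]
            rw [Real.cosh_le_cosh, abs_of_nonneg hz.1, abs_of_nonneg hh]
            exact hz.2) (convex_Icc 0 (θ / 2)) (Set.left_mem_Icc.2 hh) (Set.right_mem_Icc.2 hh)
        rw [Real.sinh_zero, sub_zero, sub_zero, Real.norm_eq_abs, Real.norm_eq_abs,
          abs_of_nonneg hh, abs_of_nonneg (Real.sinh_nonneg_iff.2 hh)] at this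
        linarith
      have h2 : Real.cosh (θ / 2) ≤ 3 / 2 := by
        have h3 := Real.cosh_sq (θ / 2)
        rw [hsh] at h3
        have h4 : Real.cosh (θ / 2) ^ 2 ≤ (3 / 2) ^ 2 := by
          rw [h3, div_pow, hsq]; norm_num; linarith
        exact (pow_le_pow_iff_left₀ (Real.cosh_pos _).le (by norm_num) (by norm_num)).1 h4
      rw [hsh] at h1
      have h3 : θ / 2 * Real.cosh (θ / 2) ≤ θ / 2 * (3 / 2) := by gcongr
      linarith
    have hyl : Real.sqrt s * L / 3 ≤ y := by
      rw [hy]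
      have : Real.sqrt s / 3 * L ≤ θ / 2 * L := by gcongr
      linarith
    have hcoth : Real.cosh y ≤ Real.sinh y * (1 + 1 / y) := by
      have h1 : Real.cosh y - Real.sinh y = Real.exp (-y) := Real.cosh_sub_sinh y
      have h2 : y ≤ Real.sinh y := Real.self_le_sinh_iff.2 hy0.le
      have h3 : Real.exp (-y) ≤ 1 := Real.exp_le_one_iff.2 (by linarith)
      have h4 : 1 ≤ Real.sinh y * (1 / y) := by
        rw [mul_one_div, le_div_iff₀ hy0]; linarith
      linarith
    rw [← hsinh2]
    have h5 : Real.cosh y / (2 * Real.sinh θ * Real.sinh y) ≤ 1 / (2 * Real.sinh θ) * (1 + 1 / y) := by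
      rw [div_le_iff₀ (by positivity)]
      have e3 : 1 / (2 * Real.sinh θ) * (1 + 1 / y) * (2 * Real.sinh θ * Real.sinh y) =
          Real.sinh y * (1 + 1 / y) := by field_simp
      rw [e3]
      exact hcoth
    refine h5.trans ?_
    rw [mul_add, mul_one]
    refine add_le_add le_rfl ?_
    rw [hsinh2]
    have h6 : 2 * Real.sqrt s ≤ Real.sqrt (s * (4 + s)) := by
      apply Real.le_sqrt_of_sq_le
      rw [mul_pow, hsq]
      nlinarith
    calc 1 / Real.sqrt (s * (4 + s)) * (1 / y) ≤ 1 / (2 * Real.sqrt s) * (1 / (Real.sqrt s * L / 3)) := by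
          gcongr
      _ = 3 / (2 * L * s) := by
          field_simp
          rw [hsq]

/-- orthogonality of the cosines -/
theorem cos_sum (j : ZMod L) :
    ∑ k ∈ Finset.range L, Real.cos (2 * Real.pi * k / L * j.val) = if j = 0 then (L : ℝ) else 0 := by
  have hL : 0 < L := NeZero.pos L
  have hL0 : (0 : ℝ) < L := by exact_mod_cast hL
  by_cases hj : j = 0
  · rw [if_pos hj, hj, ZMod.val_zero]
    simp
  · rw [if_neg hj]
    have hv : j.val ≠ 0 := fun h => hj ((ZMod.val_eq_zero j).1 h)
    have hvL : j.val < L := ZMod.val_lt j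
    obtain ⟨α, hα⟩ : ∃ z : ℝ, z = 2 * Real.pi / L * j.val := ⟨_, rfl⟩
    have h1 : ∀ k : ℕ, Real.cos (2 * Real.pi * k / L * j.val) = Real.cos (k * α) := by
      intro k
      congr 1
      rw [hα]; ring
    rw [Finset.sum_congr rfl fun k _ => h1 k]
    have hsin : Real.sin (α / 2) ≠ 0 := by
      apply ne_of_gt
      apply Real.sin_pos_of_pos_of_lt_pi
      · rw [hα]
        have : (0 : ℝ) < j.val := by exact_mod_cast Nat.pos_of_ne_zero hv
        have := Real.pi_pos
        positivity
      · rw [hα]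
        have h2 : (j.val : ℝ) < L := by exact_mod_cast hvL
        have h3 : 2 * Real.pi / L * (j.val : ℝ) / 2 = Real.pi * (j.val / L) := by
          field_simp
        rw [h3]
        have h4 : (j.val : ℝ) / L < 1 := by rw [div_lt_one hL0]; exact h2
        have := Real.pi_pos
        nlinarith
    have htel : ∀ n : ℕ, 2 * Real.sin (α / 2) * ∑ k ∈ Finset.range n, Real.cos (k * α) =
        Real.sin ((n : ℝ) * α - α / 2) + Real.sin (α / 2) := by
      intro n
      induction n with
      | zero =>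
        rw [Finset.sum_range_zero, mul_zero]
        have : ((0 : ℕ) : ℝ) * α - α / 2 = -(α / 2) := by push_cast; ring
        rw [this, Real.sin_neg]
        ring
      | succ n ih =>
        rw [Finset.sum_range_succ, mul_add, ih]
        have e1 : ((n + 1 : ℕ) : ℝ) * α - α / 2 = (n : ℝ) * α + α / 2 := by push_cast; ring
        rw [e1, Real.sin_add, Real.sin_sub]
        ring
    have h2 := htel L
    have h3 : (L : ℝ) * α - α / 2 = (j.val : ℝ) * (2 * Real.pi) - α / 2 := by
      rw [hα]
      field_simp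
    rw [h3, Real.sin_nat_mul_two_pi_sub] at h2
    rw [neg_add_cancel] at h2
    rcases mul_eq_zero.1 h2 with h4 | h4
    · exfalso
      exact hsin (by linarith)
    · exact h4

theorem cos_step (k : ℕ) (j : ZMod L) :
    2 * Real.cos (2 * Real.pi * k / L * j.val) - Real.cos (2 * Real.pi * k / L * (j + 1).val) -
      Real.cos (2 * Real.pi * k / L * (j - 1).val) =
      (2 - 2 * Real.cos (2 * Real.pi * k / L)) * Real.cos (2 * Real.pi * k / L * j.val) := by
  have hL : 0 < L := NeZero.pos L
  have hL0 : (0 : ℝ) < L := by exact_mod_cast hL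
  obtain ⟨α, hα⟩ : ∃ z : ℝ, z = 2 * Real.pi * k / L := ⟨_, rfl⟩
  have hαL : α * L = (k : ℝ) * (2 * Real.pi) := by rw [hα]; field_simp
  rw [← hα]
  have h1 : Real.cos (α * (j + 1).val) = Real.cos (α * j.val + α) := by
    rcases val_succ j with h | ⟨h, h'⟩
    · rw [h]; push_cast; congr 1; ring
    · rw [h']
      have h3 : (j.val : ℝ) = L - 1 := by
        have : ((j.val + 1 : ℕ) : ℝ) = L := by exact_mod_cast h
        push_cast at this
        linarith
      have e : α * (j.val : ℝ) + α = 0 + (k : ℝ) * (2 * Real.pi) := by rw [h3, ← hαL]; ring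
      rw [e, Real.cos_add_nat_mul_two_pi]
      simp
  have h2 : Real.cos (α * (j - 1).val) = Real.cos (α * j.val - α) := by
    rcases val_pred j with ⟨h, h'⟩ | ⟨h, h'⟩
    · have h3 : ((j - 1).val : ℝ) = j.val - 1 := by
        have : (((j - 1).val + 1 : ℕ) : ℝ) = j.val := by exact_mod_cast h'
        push_cast at this
        linarith
      rw [h3]; congr 1; ring
    · have h3 : ((j - 1).val : ℝ) = L - 1 := by
        have : (((j - 1).val + 1 : ℕ) : ℝ) = L := by exact_mod_cast h'
        push_cast at this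
        linarith
      rw [h3, h, ZMod.val_zero]
      have e : α * ((L : ℝ) - 1) = (α * ((0 : ℕ) : ℝ) - α) + (k : ℝ) * (2 * Real.pi) := by
        rw [← hαL]; push_cast; ring
      rw [e, Real.cos_add_nat_mul_two_pi]
  rw [h1, h2, Real.cos_add, Real.cos_sub]
  ring

end Pool.Agent.K3h4.AN.Gz
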