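import Pool.Agent.H4R2.AE.Core2
import Pool.Agent.H4R2.AE.Modi

/-! The penalised logarithmic equation with a general penalty. -/

set_option autoImplicit false
set_option linter.unusedSectionVars false
set_option linter.unusedVariables false

open scoped BigOperators
open MeasureTheory Filter Topology

namespace Pool.Agent.K3h4.AN.Pe

open Pool.Agent.H4R2
open Pool.Agent.H4R2.AE (T LapW Hop)

/-- a penalty: increasing with slope at least `κ`, and at least `2 lam` at `r` -/
structure Pen (lam κ r A : ℝ) (β : ℝ → ℝ) : Prop where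
  hlam : 0 < lam
  hκ : 0 < κ
  hr : 0 < r
  hr4 : r ≤ 1 / 4
  hA : 0 ≤ A
  cont : Continuous β
  mono : ∀ s s', s' ≤ s → κ * (s - s') ≤ β s - β s'
  lip : ∀ s s', s ≤ s' → β s' - β s ≤ A * (s' - s)
  zero : β 0 = 0
  top : 2 * lam ≤ β r
  bot : β (-r) ≤ -(2 * lam)

/-- `w` solves the penalised logarithmic eigenvalue equation -/
def IsS {d L : ℕ} (β : ℝ → ℝ) (lam : ℝ) (V : T d L → ℝ) (E : ℝ) (w : T d L → ℝ) : Prop :=
  ∀ x, ∑ i : Fin d, ((1 - Real.exp (w (x + Pi.single i 1) - w x)) +
      (1 - Real.exp (w (x - Pi.single i 1) - w x))) + lam * V x - E + β (w x) = 0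

variable {d L : ℕ}

/-- the nonlinear operator -/
noncomputable def NN (β : ℝ → ℝ) (lam E : ℝ) (V w : T d L → ℝ) (x : T d L) : ℝ :=
  ∑ i : Fin d, ((1 - Real.exp (w (x + Pi.single i 1) - w x)) +
      (1 - Real.exp (w (x - Pi.single i 1) - w x))) + lam * V x - E + β (w x)

lemma exi_cont (β : ℝ → ℝ) (hβ : Continuous β) (lam E : ℝ) (V : T d L → ℝ) (x : T d L) :
    Continuous fun w : T d L → ℝ => NN β lam E V w x := by
  unfold NN
  have h : ∀ y : T d L, Continuous fun w : T d L → ℝ => w y := fun y => continuous_apply y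
  refine Continuous.add (Continuous.sub (Continuous.add ?_ continuous_const) continuous_const) ?_
  · refine continuous_finsetSum _ fun i _ => ?_
    refine Continuous.add (Continuous.sub continuous_const ?_) (Continuous.sub continuous_const ?_)
    · exact Real.continuous_exp.comp ((h _).sub (h x))
    · exact Real.continuous_exp.comp ((h _).sub (h x))
  · exact hβ.comp (h x)

lemma exi_exp (r a a' b b' : ℝ) (ha : -r ≤ a) (ha' : a ≤ a')
    (hb : b ≤ b') (hb' : b' ≤ r) :
    (1 - Real.exp (b' - a')) - (1 - Real.exp (b - a)) ≤ Real.exp (2 * r) * (a' - a) := by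
  have h1 : Real.exp (b - a') ≤ Real.exp (b' - a') := Real.exp_le_exp.2 (by linarith)
  have h2 : Real.exp (b - a') = Real.exp (b - a) * Real.exp (-(a' - a)) := by
    rw [← Real.exp_add]; congr 1; ring
  have h3 : -(a' - a) + 1 ≤ Real.exp (-(a' - a)) := Real.add_one_le_exp _
  have h4 : Real.exp (b - a) ≤ Real.exp (2 * r) := Real.exp_le_exp.2 (by linarith)
  have h5 : 0 < Real.exp (b - a) := Real.exp_pos _
  have h6 : Real.exp (b - a) * (a' - a) ≤ Real.exp (2 * r) * (a' - a) :=
    mul_le_mul_of_nonneg_right h4 (by linarith)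
  have h7 : Real.exp (b - a) * (-(a' - a) + 1) ≤ Real.exp (b - a) * Real.exp (-(a' - a)) :=
    mul_le_mul_of_nonneg_left h3 h5.le
  nlinarith [h1, h2, h6, h7]

section pen
variable {lam κ r A : ℝ} {β : ℝ → ℝ}

lemma exi_mono (hp : Pen lam κ r A β) (E : ℝ) (V w w' : T d L → ℝ)
    (h : ∀ x, w x ≤ w' x) (hlo : ∀ x, -r ≤ w x) (hhi : ∀ x, w' x ≤ r) (x : T d L) :
    NN β lam E V w' x - NN β lam E V w x
      ≤ (2 * (d : ℝ) * Real.exp (2 * r) + A) * (w' x - w x) := by
  have hb := hp.lip (w x) (w' x) (h x)
  have hs : ∑ i : Fin d, ((1 - Real.exp (w' (x + Pi.single i 1) - w' x)) +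
      (1 - Real.exp (w' (x - Pi.single i 1) - w' x)))
      - ∑ i : Fin d, ((1 - Real.exp (w (x + Pi.single i 1) - w x)) +
      (1 - Real.exp (w (x - Pi.single i 1) - w x)))
      ≤ 2 * (d : ℝ) * Real.exp (2 * r) * (w' x - w x) := by
    rw [← Finset.sum_sub_distrib]
    calc ∑ i : Fin d, (((1 - Real.exp (w' (x + Pi.single i 1) - w' x)) +
          (1 - Real.exp (w' (x - Pi.single i 1) - w' x))) -
          ((1 - Real.exp (w (x + Pi.single i 1) - w x)) +
          (1 - Real.exp (w (x - Pi.single i 1) - w x))))
        ≤ ∑ _i : Fin d, 2 * (Real.exp (2 * r) * (w' x - w x)) := by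
          refine Finset.sum_le_sum fun i _ => ?_
          have h1 := exi_exp r (w x) (w' x) (w (x + Pi.single i 1)) (w' (x + Pi.single i 1))
            (hlo x) (h x) (h _) (hhi _)
          have h2 := exi_exp r (w x) (w' x) (w (x - Pi.single i 1)) (w' (x - Pi.single i 1))
            (hlo x) (h x) (h _) (hhi _)
          linarith
      _ = 2 * (d : ℝ) * Real.exp (2 * r) * (w' x - w x) := by
          rw [Finset.sum_const, Finset.card_univ, Fintype.card_fin, nsmul_eq_mul]
          ring
  unfold NN
  have e : (2 * (d : ℝ) * Real.exp (2 * r) + A) * (w' x - w x)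
      = 2 * (d : ℝ) * Real.exp (2 * r) * (w' x - w x) + A * (w' x - w x) := by
    ring
  rw [e]
  linarith

theorem exists_sol [NeZero L] (hp : Pen lam κ r A β) (E : ℝ)
    (V : T d L → ℝ) (hV : ∀ x, |V x| ≤ 1) (hE : |E| ≤ lam) :
    ∃ w : T d L → ℝ, IsS β lam V E w := by
  have hlam := hp.hlam
  have hr := hp.hr
  have hA00 := hp.hA
  set A1 : ℝ := 2 * (d : ℝ) * Real.exp (2 * r) + A + 1 with hA1
  have hA0 : 0 < A1 := by positivity
  set F : (T d L → ℝ) → (T d L → ℝ) := fun w x => w x - 1 / A1 * NN β lam E V w x with hF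
  have hFc : Continuous F := by
    refine continuous_pi fun x => ?_
    exact (continuous_apply x).sub (continuous_const.mul (exi_cont β hp.cont lam E V x))
  have hVE : ∀ x, -(2 * lam) ≤ lam * V x - E ∧ lam * V x - E ≤ 2 * lam := by
    intro x
    have h1 := abs_le.1 (hV x)
    have h2 := abs_le.1 hE
    constructor <;> nlinarith [h1.1, h1.2, h2.1, h2.2]
  have hmono : ∀ w w' : T d L → ℝ, (∀ x, w x ≤ w' x) → (∀ x, -r ≤ w x) →
      (∀ x, w' x ≤ r) → ∀ x, F w x ≤ F w' x := by
    intro w w' h hlo hhi x
    have h1 := exi_mono hp E V w w' h hlo hhi x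
    have h2 : NN β lam E V w' x - NN β lam E V w x ≤ A1 * (w' x - w x) := by
      have : 0 ≤ w' x - w x := by linarith [h x]
      rw [hA1]; nlinarith
    have h3 : 1 / A1 * (NN β lam E V w' x - NN β lam E V w x) ≤ w' x - w x := by
      rw [one_div, inv_mul_le_iff₀ hA0]; exact h2
    simp only [hF]
    have h4 : 1 / A1 * (NN β lam E V w' x - NN β lam E V w x)
      = 1 / A1 * NN β lam E V w' x - 1 / A1 * NN β lam E V w x := by ring
    linarith
  have htop : ∀ x, F (fun _ => r) x ≤ r := by
    intro x
    have : 0 ≤ NN β lam E V (fun _ => r) x := by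
      unfold NN
      simp only [sub_self, Real.exp_zero, add_zero, Finset.sum_const_zero]
      have := (hVE x).1
      have h5 := hp.top
      linarith
    simp only [hF]
    have h6 : 0 ≤ 1 / A1 * NN β lam E V (fun _ => r) x := by positivity
    linarith
  have hbot : ∀ x, -r ≤ F (fun _ => -r) x := by
    intro x
    have : NN β lam E V (fun _ => -r) x ≤ 0 := by
      unfold NN
      simp only [sub_self, Real.exp_zero, add_zero, Finset.sum_const_zero]
      have := (hVE x).2
      have h5 := hp.bot
      linarith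
    simp only [hF]
    have h6 : 1 / A1 * NN β lam E V (fun _ => -r) x ≤ 0 :=
      mul_nonpos_of_nonneg_of_nonpos (by positivity) this
    linarith
  set W : ℕ → (T d L → ℝ) := fun n => F^[n] (fun _ => r) with hW
  have hWs : ∀ n, W (n + 1) = F (W n) := by
    intro n; simp only [hW]; rw [Function.iterate_succ_apply']
  have hinv : ∀ n, (∀ x, -r ≤ W n x) ∧ (∀ x, W n x ≤ r) ∧ (∀ x, W (n + 1) x ≤ W n x) := by
    intro n
    induction n with
    | zero =>
      have h0 : W 0 = fun _ => r := by simp [hW]
      refine ⟨?_, ?_, ?_⟩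
      · intro x; rw [h0]; linarith
      · intro x; rw [h0]
      · intro x; rw [hWs 0, h0]; exact htop x
    | succ n ih =>
      obtain ⟨h1, h2, h3⟩ := ih
      have h4 : ∀ x, -r ≤ W (n + 1) x := by
        intro x
        rw [hWs n]
        refine le_trans (hbot x) ?_
        exact hmono _ _ h1 (fun _ => le_refl _) h2 x
      refine ⟨h4, ?_, ?_⟩
      · intro x; exact le_trans (h3 x) (h2 x)
      · intro x
        rw [hWs (n + 1)]
        calc F (W (n + 1)) x ≤ F (W n) x := hmono _ _ h3 h4 h2 x
          _ = W (n + 1) x := by rw [hWs n]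
  have hanti : ∀ x, Antitone fun n => W n x :=
    fun x => antitone_nat_of_succ_le fun n => (hinv n).2.2 x
  have hlim : Tendsto W atTop (𝓝 fun x => ⨅ n, W n x) := by
    rw [tendsto_pi_nhds]
    intro x
    refine tendsto_atTop_ciInf (hanti x) ⟨-r, ?_⟩
    rintro _ ⟨n, rfl⟩
    exact (hinv n).1 x
  have hlim1 : Tendsto (fun n => W (n + 1)) atTop (𝓝 fun x => ⨅ n, W n x) :=
    hlim.comp (tendsto_add_atTop_nat 1)
  have hlim2 : Tendsto (fun n => W (n + 1)) atTop (𝓝 (F fun x => ⨅ n, W n x)) := by
    have : (fun n => W (n + 1)) = fun n => F (W n) := funext hWs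
    rw [this]
    exact (hFc.tendsto _).comp hlim
  have hfix := tendsto_nhds_unique hlim1 hlim2
  refine ⟨fun x => ⨅ n, W n x, ?_⟩
  intro x
  have hx := congrFun hfix x
  simp only [hF] at hx
  have hz : 1 / A1 * NN β lam E V (fun x => ⨅ n, W n x) x = 0 := by linarith
  have hz' : NN β lam E V (fun x => ⨅ n, W n x) x = 0 := by
    rcases mul_eq_zero.1 hz with h | h
    · exact absurd h (by positivity)
    · exact h
  exact hz'

variable [NeZero L]

/-- comparison principle with two penalties, on the value of `w' - w` at its maximum -/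
theorem compare (hp : Pen lam κ r A β)
    (V V' : T d L → ℝ) (E E' : ℝ) (w w' : T d L → ℝ) (hw : IsS β lam V E w)
    (hw' : IsS β lam V' E' w') (M : ℝ) (hM : 0 ≤ M)
    (h : ∀ x, lam * (V x - V' x) + (E' - E) ≤ M) : ∀ x, w' x - w x ≤ M / κ := by
  have hκ := hp.hκ
  obtain ⟨x0, hx0⟩ := Finite.exists_max (fun x => w' x - w x)
  suffices hs : w' x0 - w x0 ≤ M / κ from fun x => (hx0 x).trans hs
  by_cases hc : w' x0 - w x0 ≤ 0
  · exact hc.trans (by positivity)
  push Not at hc
  have e1 := hw x0
  have e2 := hw' x0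
  have e3 : ∑ i : Fin d, ((1 - Real.exp (w (x0 + Pi.single i 1) - w x0)) +
      (1 - Real.exp (w (x0 - Pi.single i 1) - w x0))) ≤
      ∑ i : Fin d, ((1 - Real.exp (w' (x0 + Pi.single i 1) - w' x0)) +
      (1 - Real.exp (w' (x0 - Pi.single i 1) - w' x0))) := by
    refine Finset.sum_le_sum fun i _ => ?_
    have a1 := hx0 (x0 + Pi.single i 1)
    have a2 := hx0 (x0 - Pi.single i 1)
    beta_reduce at a1 a2
    have b1 : Real.exp (w' (x0 + Pi.single i 1) - w' x0) ≤ Real.exp (w (x0 + Pi.single i 1) - w x0) :=
      Real.exp_le_exp.2 (by linarith)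
    have b2 : Real.exp (w' (x0 - Pi.single i 1) - w' x0) ≤ Real.exp (w (x0 - Pi.single i 1) - w x0) :=
      Real.exp_le_exp.2 (by linarith)
    linarith
  have e4 := hp.mono (w' x0) (w x0) (by linarith)
  rw [le_div_iff₀ hκ]
  have := h x0
  nlinarith

theorem unique (hp : Pen lam κ r A β)
    (V : T d L → ℝ) (E : ℝ) (w w' : T d L → ℝ) (hw : IsS β lam V E w)
    (hw' : IsS β lam V E w') : w' = w := by
  funext x
  have h1 := compare hp V V E E w w' hw hw' 0 le_rfl (fun x => by simp) x
  have h2 := compare hp V V E E w' w hw' hw 0 le_rfl (fun x => by simp) x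
  simp only [zero_div] at h1 h2
  linarith

/-- sign of the difference operator at a maximum -/
theorem sum_max (w : T d L → ℝ) (x1 : T d L) (hx1 : ∀ y, w y ≤ w x1) :
    0 ≤ ∑ i : Fin d, ((1 - Real.exp (w (x1 + Pi.single i 1) - w x1)) +
        (1 - Real.exp (w (x1 - Pi.single i 1) - w x1))) := by
  refine Finset.sum_nonneg fun i _ => ?_
  have b1 : Real.exp (w (x1 + Pi.single i 1) - w x1) ≤ 1 :=
    Real.exp_le_one_iff.2 (by linarith [hx1 (x1 + Pi.single i 1)])
  have b2 : Real.exp (w (x1 - Pi.single i 1) - w x1) ≤ 1 :=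
    Real.exp_le_one_iff.2 (by linarith [hx1 (x1 - Pi.single i 1)])
  linarith

theorem sum_min (w : T d L → ℝ) (x1 : T d L) (hx1 : ∀ y, w x1 ≤ w y) :
    ∑ i : Fin d, ((1 - Real.exp (w (x1 + Pi.single i 1) - w x1)) +
        (1 - Real.exp (w (x1 - Pi.single i 1) - w x1))) ≤ 0 := by
  refine Finset.sum_nonpos fun i _ => ?_
  have b1 : 1 ≤ Real.exp (w (x1 + Pi.single i 1) - w x1) :=
    Real.one_le_exp (by linarith [hx1 (x1 + Pi.single i 1)])
  have b2 : 1 ≤ Real.exp (w (x1 - Pi.single i 1) - w x1) :=
    Real.one_le_exp (by linarith [hx1 (x1 - Pi.single i 1)])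
  linarith

theorem bound (hp : Pen lam κ r A β) (E : ℝ) (hE : |E| ≤ lam)
    (V w : T d L → ℝ) (hV : ∀ x, |V x| ≤ 1) (hw : IsS β lam V E w) : ∀ x, |w x| ≤ r := by
  have hlam := hp.hlam
  have hκ := hp.hκ
  have hE' := abs_le.1 hE
  obtain ⟨x1, hx1⟩ := Finite.exists_max w
  obtain ⟨x2, hx2⟩ := Finite.exists_min w
  have u1 : w x1 ≤ r := by
    by_contra hc
    push Not at hc
    have e1 := hw x1
    have e2 := sum_max w x1 hx1
    have e3 := hp.mono (w x1) r hc.le
    have e5 := (abs_le.1 (hV x1)).1
    have e6 := hp.top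
    have e4 : 0 < κ * (w x1 - r) := mul_pos hκ (by linarith)
    nlinarith
  have u2 : -r ≤ w x2 := by
    by_contra hc
    push Not at hc
    have e1 := hw x2
    have e2 := sum_min w x2 hx2
    have e3 := hp.mono (-r) (w x2) hc.le
    have e4 : 0 < κ * (-r - w x2) := mul_pos hκ (by linarith)
    have e5 := (abs_le.1 (hV x2)).2
    have e6 := hp.bot
    nlinarith
  intro x
  rw [abs_le]
  exact ⟨u2.trans (hx2 x), (hx1 x).trans u1⟩

theorem nonneg (hp : Pen lam κ r A β)
    (V w : T d L → ℝ) (hV : ∀ x, |V x| ≤ 1) (hw : IsS β lam V lam w) : ∀ x, 0 ≤ w x := by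
  have hlam := hp.hlam
  have hκ := hp.hκ
  obtain ⟨x2, hx2⟩ := Finite.exists_min w
  have u2 : 0 ≤ w x2 := by
    by_contra hc
    push Not at hc
    have e1 := hw x2
    have e2 := sum_min w x2 hx2
    have e3 := hp.mono 0 (w x2) hc.le
    rw [hp.zero] at e3
    have e4 : 0 < κ * (0 - w x2) := mul_pos hκ (by linarith)
    have e5 := (abs_le.1 (hV x2)).2
    nlinarith
  exact fun x => u2.trans (hx2 x)

theorem nonpos (hp : Pen lam κ r A β)
    (V w : T d L → ℝ) (hV : ∀ x, |V x| ≤ 1) (hw : IsS β lam V (-lam) w) : ∀ x, w x ≤ 0 := by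
  have hlam := hp.hlam
  have hκ := hp.hκ
  obtain ⟨x1, hx1⟩ := Finite.exists_max w
  have u1 : w x1 ≤ 0 := by
    by_contra hc
    push Not at hc
    have e1 := hw x1
    have e2 := sum_max w x1 hx1
    have e3 := hp.mono (w x1) 0 hc.le
    rw [hp.zero] at e3
    have e4 : 0 < κ * (w x1 - 0) := mul_pos hκ (by linarith)
    have e5 := (abs_le.1 (hV x1)).1
    nlinarith
  exact fun x => (hx1 x).trans u1

omit [NeZero L] in
theorem shift (E : ℝ) (V w : T d L → ℝ) (a : T d L) (hw : IsS β lam V E w) :
    IsS β lam (fun x => V (x + a)) E (fun x => w (x + a)) := by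
  intro x
  have h := hw (x + a)
  have e1 : ∀ i : Fin d, x + a + Pi.single i 1 = x + Pi.single i 1 + a := fun i => by abel
  have e2 : ∀ i : Fin d, x + a - Pi.single i 1 = x - Pi.single i 1 + a := fun i => by abel
  simp only [e1, e2] at h
  exact h

end pen

/-- the key identity, for two potentials, two energies and two penalties -/
theorem key [NeZero L] (β β' : ℝ → ℝ) (lam E E' : ℝ) (V V' w w' : T d L → ℝ) (hw : IsS β lam V E w)
    (hw' : IsS β' lam V' E' w') (x : T d L) :
    LapW (fun y => Real.exp (w y)) (fun y => Real.exp (w' y - w y)) x =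
      -((lam * (V' x - V x) + (β' (w' x) - β (w x)) - (E' - E)) *
        Real.exp (w x + w' x)) := by
  have h1 := hw x
  have h2 := hw' x
  unfold LapW
  have e1 : ∀ y : T d L, Real.exp (w x) * Real.exp (w y) *
      (Real.exp (w' x - w x) - Real.exp (w' y - w y)) =
      Real.exp (w x + w' x) * ((1 - Real.exp (w' y - w' x)) - (1 - Real.exp (w y - w x))) := by
    intro y
    have a1 : Real.exp (w x) * Real.exp (w y) * Real.exp (w' x - w x) = Real.exp (w y + w' x) := by
      rw [← Real.exp_add, ← Real.exp_add]; congr 1; ring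
    have a2 : Real.exp (w x) * Real.exp (w y) * Real.exp (w' y - w y) = Real.exp (w x + w' y) := by
      rw [← Real.exp_add, ← Real.exp_add]; congr 1; ring
    have a3 : Real.exp (w x + w' x) * Real.exp (w' y - w' x) = Real.exp (w x + w' y) := by
      rw [← Real.exp_add]; congr 1; ring
    have a4 : Real.exp (w x + w' x) * Real.exp (w y - w x) = Real.exp (w y + w' x) := by
      rw [← Real.exp_add]; congr 1; ring
    rw [mul_sub, a1, a2]
    have : Real.exp (w x + w' x) * (1 - Real.exp (w' y - w' x) - (1 - Real.exp (w y - w x))) =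
      Real.exp (w x + w' x) * Real.exp (w y - w x) -
        Real.exp (w x + w' x) * Real.exp (w' y - w' x) := by ring
    rw [this, a3, a4]
  have e2 : ∑ i : Fin d, (Real.exp (w x) * Real.exp (w (x + Pi.single i 1)) *
      (Real.exp (w' x - w x) - Real.exp (w' (x + Pi.single i 1) - w (x + Pi.single i 1))) +
      Real.exp (w x) * Real.exp (w (x - Pi.single i 1)) *
      (Real.exp (w' x - w x) - Real.exp (w' (x - Pi.single i 1) - w (x - Pi.single i 1)))) =
      Real.exp (w x + w' x) *
      (∑ i : Fin d, ((1 - Real.exp (w' (x + Pi.single i 1) - w' x)) +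
        (1 - Real.exp (w' (x - Pi.single i 1) - w' x))) -
      ∑ i : Fin d, ((1 - Real.exp (w (x + Pi.single i 1) - w x)) +
        (1 - Real.exp (w (x - Pi.single i 1) - w x)))) := by
    rw [← Finset.sum_sub_distrib, Finset.mul_sum]
    refine Finset.sum_congr rfl fun i _ => ?_
    rw [e1, e1]
    ring
  rw [e2]
  have h3 : ∑ i : Fin d, ((1 - Real.exp (w' (x + Pi.single i 1) - w' x)) +
        (1 - Real.exp (w' (x - Pi.single i 1) - w' x))) -
      ∑ i : Fin d, ((1 - Real.exp (w (x + Pi.single i 1) - w x)) +
        (1 - Real.exp (w (x - Pi.single i 1) - w x))) =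
      -(lam * (V' x - V x) + (β' (w' x) - β (w x)) - (E' - E)) := by
    linarith
  rw [h3]
  ring

/-- pointwise claim -/
theorem claim [NeZero L] {lam κ r A : ℝ} {β : ℝ → ℝ} (hp : Pen lam κ r A β) (E : ℝ)
    (hE : |E| ≤ lam)
    (V w V' w' : T d L → ℝ) (hV : ∀ x, |V x| ≤ 1) (hV' : ∀ x, |V' x| ≤ 1)
    (hw : IsS β lam V E w) (hw' : IsS β lam V' E w') (z x0 : T d L)
    (hVV' : ∀ y, y ≠ z → V' y = V y) (Gr : T d L → ℝ)
    (hGr : ∀ x, LapW (fun y => Real.exp (w y)) Gr x + κ * Real.exp (-(2 * r)) * Gr x =
      if x = x0 then 1 else 0) (hGr0 : ∀ x, 0 ≤ Gr x) :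
    |w' x0 - w x0| ≤ 2 * Real.exp 1 * lam * Gr z := by
  have hlam := hp.hlam
  have hκ := hp.hκ
  have hr0 := hp.hr
  have hr4 := hp.hr4
  have bw := bound hp E hE V w hV hw
  have bw' := bound hp E hE V' w' hV' hw'
  have hprod : ∀ x, Real.exp (-(2 * r)) ≤ Real.exp (w x + w' x) := by
    intro x
    apply Real.exp_le_exp.mpr
    have := abs_le.mp (bw x)
    have := abs_le.mp (bw' x)
    linarith
  have hprod' : ∀ x, Real.exp (w x + w' x) ≤ Real.exp (2 * r) := by
    intro x
    apply Real.exp_le_exp.mpr
    have := abs_le.mp (bw x)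
    have := abs_le.mp (bw' x)
    linarith
  have hS : ∀ s : ℝ, 0 ≤ s → s ≤ 2 → ∀ x, lam * s * Real.exp (w x + w' x) ≤
      2 * lam * Real.exp (2 * r) := by
    intro s hs hs2 x
    have h1 := hprod' x
    have h2 : lam * s ≤ 2 * lam := by nlinarith
    exact mul_le_mul h2 h1 (Real.exp_pos _).le (by positivity)
  have hGz := hGr0 z
  -- key estimate exp (4δ) * (2 lam exp (4δ)) ≤ 2 e lam
  have hconst : Real.exp (2 * r) * (2 * lam * Real.exp (2 * r) * Gr z) ≤
      2 * Real.exp 1 * lam * Gr z := by
    have : Real.exp (2 * r) * Real.exp (2 * r) ≤ Real.exp 1 := by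
      rw [← Real.exp_add]
      exact Real.exp_le_exp.mpr (by linarith)
    have h2 : Real.exp (2 * r) * (2 * lam * Real.exp (2 * r) * Gr z) =
      (Real.exp (2 * r) * Real.exp (2 * r)) * (2 * lam * Gr z) := by ring
    rw [h2]
    have h3 : (Real.exp (2 * r) * Real.exp (2 * r)) * (2 * lam * Gr z) ≤
        Real.exp 1 * (2 * lam * Gr z) := mul_le_mul_of_nonneg_right this (by positivity)
    linarith
  rcases le_total (V' z) (V z) with hz | hz
  · -- case A : w' ≥ w
    have hle : ∀ x, w x ≤ w' x := by
      have := compare hp V' V E E w' w hw' hw 0 le_rfl (by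
        intro x
        by_cases hx : x = z
        · subst hx
          nlinarith
        · rw [hVV' x hx]; simp)
      intro x
      have := this x
      rw [zero_div] at this
      linarith
    have hmain := AE.Sens.green_bound (fun y => Real.exp (w y)) Gr
      (fun y => Real.exp (w' y - w y) - 1) (κ * Real.exp (-(2 * r))) (2 * lam * Real.exp (2 * r))
      x0 z hGr hGr0 (by
        intro x
        have hk := key β β lam E E V V' w w' hw hw' x
        have hL : LapW (fun y => Real.exp (w y)) (fun y => Real.exp (w' y - w y) - 1) x =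
            LapW (fun y => Real.exp (w y)) (fun y => Real.exp (w' y - w y)) x := by
          unfold LapW
          refine Finset.sum_congr rfl fun i _ => ?_
          simp only
          ring
        rw [sub_self, sub_zero] at hk
        rw [hL, hk]
        have hb := hp.mono (w' x) (w x) (hle x)
        set t := w' x - w x with ht
        have ht0 : 0 ≤ t := by have := hle x; linarith
        have hu2 : Real.exp (w x + w' x) = Real.exp (2 * w x) * Real.exp t := by
          rw [← Real.exp_add]; congr 1; rw [ht]; ring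
        have htt : Real.exp t - 1 ≤ t * Real.exp t := by
          have h1 : 1 - t ≤ Real.exp (-t) := by
            have := Real.add_one_le_exp (-t); linarith
          have h2 : (1 - t) * Real.exp t ≤ Real.exp (-t) * Real.exp t :=
            mul_le_mul_of_nonneg_right h1 (Real.exp_pos _).le
          rw [← Real.exp_add] at h2
          simp at h2
          linarith
        have he0 : 0 ≤ Real.exp t - 1 := by
          have := Real.one_le_exp ht0; linarith
        have h2w : Real.exp (-(2 * r)) ≤ Real.exp (2 * w x) := by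
          apply Real.exp_le_exp.mpr
          have := abs_le.mp (bw x)
          linarith
        have h3 : κ * Real.exp (-(2 * r)) * (Real.exp t - 1) ≤
            (β (w' x) - β (w x)) * Real.exp (w x + w' x) := by
          calc κ * Real.exp (-(2 * r)) * (Real.exp t - 1)
              ≤ κ * Real.exp (2 * w x) * (Real.exp t - 1) := by
                apply mul_le_mul_of_nonneg_right _ he0
                exact mul_le_mul_of_nonneg_left h2w hκ.le
            _ ≤ κ * Real.exp (2 * w x) * (t * Real.exp t) := by
                apply mul_le_mul_of_nonneg_left htt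
                positivity
            _ = (κ * t) * Real.exp (w x + w' x) := by rw [hu2]; ring
            _ ≤ _ := by
                apply mul_le_mul_of_nonneg_right _ (Real.exp_pos _).le
                exact hb
        by_cases hx : x = z
        · subst hx
          rw [if_pos rfl]
          have h4 := hS (V x - V' x) (by linarith) (by
            have := abs_le.mp (hV x)
            have := abs_le.mp (hV' x)
            linarith) x
          nlinarith
        · rw [if_neg hx, hVV' x hx]
          nlinarith)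
    have h5 : w' x0 - w x0 ≤ Real.exp (w' x0 - w x0) - 1 := by
      have := Real.add_one_le_exp (w' x0 - w x0); linarith
    rw [abs_of_nonneg (by have := hle x0; linarith)]
    have h6 : 1 ≤ Real.exp (2 * r) := Real.one_le_exp (by linarith)
    have h7 : 0 ≤ 2 * lam * Real.exp (2 * r) * Gr z := by positivity
    nlinarith
  · -- case B : w' ≤ w
    have hle : ∀ x, w' x ≤ w x := by
      have := compare hp V V' E E w w' hw hw' 0 le_rfl (by
        intro x
        by_cases hx : x = z
        · subst hx
          nlinarith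
        · rw [hVV' x hx]; simp)
      intro x
      have := this x
      rw [zero_div] at this
      linarith
    have hmain := AE.Sens.green_bound (fun y => Real.exp (w y)) Gr
      (fun y => 1 - Real.exp (w' y - w y)) (κ * Real.exp (-(2 * r))) (2 * lam * Real.exp (2 * r))
      x0 z hGr hGr0 (by
        intro x
        have hk := key β β lam E E V V' w w' hw hw' x
        have hL : LapW (fun y => Real.exp (w y)) (fun y => 1 - Real.exp (w' y - w y)) x =
            -LapW (fun y => Real.exp (w y)) (fun y => Real.exp (w' y - w y)) x := by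
          unfold LapW
          rw [← Finset.sum_neg_distrib]
          refine Finset.sum_congr rfl fun i _ => ?_
          simp only
          ring
        rw [sub_self, sub_zero] at hk
        rw [hL, hk]
        have hb := hp.mono (w x) (w' x) (hle x)
        set t := w' x - w x with ht
        have ht0 : t ≤ 0 := by have := hle x; linarith
        have he0 : 0 ≤ 1 - Real.exp t := by
          have := Real.exp_le_one_iff.mpr ht0; linarith
        have htt : 1 - Real.exp t ≤ -t := by
          have := Real.add_one_le_exp t; linarith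
        have h3 : κ * Real.exp (-(2 * r)) * (1 - Real.exp t) ≤
            (β (w x) - β (w' x)) * Real.exp (w x + w' x) := by
          calc κ * Real.exp (-(2 * r)) * (1 - Real.exp t)
              ≤ κ * Real.exp (w x + w' x) * (1 - Real.exp t) := by
                apply mul_le_mul_of_nonneg_right _ he0
                exact mul_le_mul_of_nonneg_left (hprod x) hκ.le
            _ ≤ κ * Real.exp (w x + w' x) * (-t) := by
                apply mul_le_mul_of_nonneg_left htt
                positivity
            _ = (κ * (w x - w' x)) * Real.exp (w x + w' x) := by rw [ht]; ring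
            _ ≤ _ := by
                apply mul_le_mul_of_nonneg_right _ (Real.exp_pos _).le
                exact hb
        by_cases hx : x = z
        · subst hx
          rw [if_pos rfl]
          have h4 := hS (V' x - V x) (by linarith) (by
            have := abs_le.mp (hV x)
            have := abs_le.mp (hV' x)
            linarith) x
          nlinarith
        · rw [if_neg hx, hVV' x hx]
          nlinarith)
    have h5 : w x0 - w' x0 ≤ Real.exp (2 * r) * (1 - Real.exp (w' x0 - w x0)) := by
      set t := w' x0 - w x0 with ht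
      have h1 : w x0 - w' x0 ≤ Real.exp (w x0 - w' x0) - 1 := by
        have := Real.add_one_le_exp (w x0 - w' x0); linarith
      have h2 : Real.exp (w x0 - w' x0) - 1 = Real.exp (w x0 - w' x0) * (1 - Real.exp t) := by
        rw [mul_sub, mul_one, ← Real.exp_add, ht]
        have : w x0 - w' x0 + (w' x0 - w x0) = 0 := by ring
        rw [this, Real.exp_zero]
      have h3 : Real.exp (w x0 - w' x0) ≤ Real.exp (2 * r) := by
        apply Real.exp_le_exp.mpr
        have := abs_le.mp (bw x0)
        have := abs_le.mp (bw' x0)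
        linarith
      have h4 : 0 ≤ 1 - Real.exp t := by
        have : t ≤ 0 := by have := hle x0; linarith
        have := Real.exp_le_one_iff.mpr this; linarith
      calc w x0 - w' x0 ≤ Real.exp (w x0 - w' x0) * (1 - Real.exp t) := by linarith
        _ ≤ _ := mul_le_mul_of_nonneg_right h3 h4
    rw [abs_of_nonpos (by have := hle x0; linarith)]
    have h6 : 0 < Real.exp (2 * r) := Real.exp_pos _
    have h7 := mul_le_mul_of_nonneg_left hmain h6.le
    linarith


end Pool.Agent.K3h4.AN.Pe
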