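import Pool.Agent.K3h4.AN.Pe
import Pool.Agent.H4R2.AE.Goodt

/-! The solution of the penalised equation as a function of the potential. -/

set_option autoImplicit false
set_option linter.unusedSectionVars false
set_option linter.unusedVariables false

open scoped BigOperators
open MeasureTheory Filter Topology

namespace Pool.Agent.K3h4.AN.Pf

open Pool.Agent.H4R2
open Pool.Agent.H4R2.AE (T LapW Hop)
open Pool.Agent.H4R2.AE.Good (clamp good_clamp_le good_clamp_eq good_clamp_lip good_mp)
open Pool.Agent.K3h4.AN.Pe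

variable {d L : ℕ} [NeZero L]

/-- the solution of the penalised equation -/
noncomputable def W (β : ℝ → ℝ) (lam E : ℝ) (V : T d L → ℝ) : T d L → ℝ :=
  open Classical in
  if h : ∃ w : T d L → ℝ, IsS β lam (clamp V) E w then Classical.choose h else 0

section pen
variable {lam κ r A : ℝ} {β : ℝ → ℝ}

lemma W_sol (hp : Pen lam κ r A β) (E : ℝ) (hE : |E| ≤ lam) (V : T d L → ℝ) :
    IsS β lam (clamp V) E (W β lam E V) := by
  have h : ∃ w : T d L → ℝ, IsS β lam (clamp V) E w :=
    exists_sol hp E (clamp V) (good_clamp_le V) hE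
  unfold W
  rw [dif_pos h]
  exact Classical.choose_spec h

lemma W_lip1 (hp : Pen lam κ r A β) (E E' : ℝ) (V V' : T d L → ℝ)
    (hE : |E| ≤ lam) (hE' : |E'| ≤ lam) (x : T d L) :
    W β lam E' V' x - W β lam E V x ≤ (lam * dist V V' + |E - E'|) / κ := by
  have hlam := hp.hlam
  refine compare hp (clamp V) (clamp V') E E' _ _
    (W_sol hp E hE V) (W_sol hp E' hE' V') _ (by positivity) ?_ x
  intro y
  have h1 : clamp V y - clamp V' y ≤ dist V V' := by
    refine (le_abs_self _).trans ((good_clamp_lip V V' y).trans ?_)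
    rw [← Real.dist_eq]
    exact dist_le_pi_dist V V' y
  have h2 : E' - E ≤ |E - E'| := by
    rw [abs_sub_comm]; exact le_abs_self _
  have h3 := mul_le_mul_of_nonneg_left h1 hlam.le
  linarith

lemma W_lip (hp : Pen lam κ r A β) (E E' : ℝ) (V V' : T d L → ℝ)
    (hE : |E| ≤ lam) (hE' : |E'| ≤ lam) (x : T d L) :
    |W β lam E V x - W β lam E' V' x| ≤ (lam * dist V V' + |E - E'|) / κ := by
  rw [abs_le]
  have h1 := W_lip1 hp E E' V V' hE hE' x
  have h2 := W_lip1 hp E' E V' V hE' hE x
  rw [dist_comm V' V, abs_sub_comm E' E] at h2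
  constructor <;> linarith

lemma W_cont (hp : Pen lam κ r A β) (E : ℝ) (hE : |E| ≤ lam) (x : T d L) :
    Continuous fun V : T d L → ℝ => W β lam E V x := by
  have hlam := hp.hlam
  have hκ := hp.hκ
  refine (LipschitzWith.of_dist_le_mul (K := ⟨lam / κ, by positivity⟩) ?_).continuous
  intro V V'
  rw [Real.dist_eq]
  refine (W_lip hp E E V V' hE hE x).trans ?_
  rw [sub_self, abs_zero, add_zero]
  show lam * dist V V' / κ ≤ lam / κ * dist V V'
  rw [div_mul_eq_mul_div]

lemma W_bound (hp : Pen lam κ r A β) (E : ℝ) (hE : |E| ≤ lam) (V : T d L → ℝ) (x : T d L) :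
    |W β lam E V x| ≤ r :=
  bound hp E hE (clamp V) _ (good_clamp_le V) (W_sol hp E hE V) x

lemma W_int (hp : Pen lam κ r A β) (E : ℝ) (hE : |E| ≤ lam)
    (μ : Measure ℝ) [IsProbabilityMeasure μ] (x : T d L) :
    Integrable (fun V : T d L → ℝ => W β lam E V x) (Measure.pi fun _ : T d L => μ) := by
  refine Integrable.of_bound (C := r)
    (W_cont hp E hE x).measurable.aestronglyMeasurable ?_
  filter_upwards with V
  rw [Real.norm_eq_abs]
  exact W_bound hp E hE V x

lemma W_shift (hp : Pen lam κ r A β) (E : ℝ) (hE : |E| ≤ lam) (V : T d L → ℝ) (a x : T d L) :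
    W β lam E (fun y => V (y + a)) x = W β lam E V (x + a) := by
  have h1 := Pe.shift E (clamp V) _ a (W_sol hp E hE V)
  have h2 := W_sol hp E hE (fun y => V (y + a))
  have h3 : clamp (fun y => V (y + a)) = fun y => clamp V (y + a) := rfl
  rw [h3] at h2
  have h4 := unique hp _ E _ _ h1 h2
  exact congrFun h4 x

lemma W_mean (hp : Pen lam κ r A β) (E : ℝ) (hE : |E| ≤ lam)
    (μ : Measure ℝ) [IsProbabilityMeasure μ] (x : T d L) :
    ∫ V, W β lam E V x ∂(Measure.pi fun _ : T d L => μ)
      = ∫ V, W β lam E V 0 ∂(Measure.pi fun _ : T d L => μ) := by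
  have h1 : ∀ V : T d L → ℝ, W β lam E V x = W β lam E (fun y => V (y + x)) 0 := by
    intro V
    rw [W_shift hp E hE V x 0, zero_add]
  simp_rw [h1]
  have hmp := good_mp (L := L) μ x
  have h2 := integral_map (μ := Measure.pi fun _ : T d L => μ) hmp.measurable.aemeasurable
    (f := fun V : T d L → ℝ => W β lam E V 0)
    (W_cont hp E hE 0).measurable.aestronglyMeasurable
  rw [hmp.map_eq] at h2
  exact h2.symm

lemma W_E (hp : Pen lam κ r A β)
    (μ : Measure ℝ) [IsProbabilityMeasure μ] :
    ∃ E : ℝ, |E| ≤ lam ∧ ∀ x, ∫ V, W (d := d) (L := L) β lam E V x ∂(Measure.pi fun _ : T d L => μ) = 0 := by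
  have hlam := hp.hlam
  have hκ := hp.hκ
  set f : ℝ → ℝ := fun E => ∫ V, W (d := d) (L := L) β lam E V 0 ∂(Measure.pi fun _ : T d L => μ)
    with hf
  have hab : ∀ E ∈ Set.Icc (-lam) lam, |E| ≤ lam := fun E hE => abs_le.2 hE
  have hcont : ContinuousOn f (Set.Icc (-lam) lam) := by
    have hl : LipschitzOnWith ⟨1 / κ, by positivity⟩ f (Set.Icc (-lam) lam) := by
      refine LipschitzOnWith.of_dist_le_mul ?_
      intro E hE E' hE'
      rw [Real.dist_eq, Real.dist_eq]
      simp only [hf]
      rw [← integral_sub (W_int hp E (hab E hE) μ 0)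
        (W_int hp E' (hab E' hE') μ 0)]
      have h1 := norm_integral_le_of_norm_le_const (μ := Measure.pi fun _ : T d L => μ)
        (f := fun V : T d L → ℝ => W β lam E V 0 - W β lam E' V 0)
        (C := |E - E'| / κ) (Filter.Eventually.of_forall fun V => by
          have := W_lip hp E E' V V (hab E hE) (hab E' hE') 0
          rw [dist_self, mul_zero, zero_add] at this
          rw [Real.norm_eq_abs]; exact this)
      rw [Real.norm_eq_abs] at h1
      refine h1.trans ?_
      rw [probReal_univ, mul_one]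
      show |E - E'| / κ ≤ 1 / κ * |E - E'|
      rw [div_mul_eq_mul_div, one_mul]
    exact hl.continuousOn
  have h0 : f (-lam) ≤ 0 := by
    refine integral_nonpos fun V => ?_
    have hE : |-lam| ≤ lam := by rw [abs_neg, abs_of_pos hlam]
    exact nonpos hp (clamp V) _ (good_clamp_le V)
      (W_sol hp (-lam) hE V) 0
  have h1 : 0 ≤ f lam := by
    refine integral_nonneg fun V => ?_
    have hE : |lam| ≤ lam := by rw [abs_of_pos hlam]
    exact Pe.nonneg hp (clamp V) _ (good_clamp_le V)
      (W_sol hp lam hE V) 0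
  obtain ⟨E, hE, hE0⟩ := intermediate_value_Icc (by linarith : -lam ≤ lam) hcont ⟨h0, h1⟩
  refine ⟨E, hab E hE, fun x => ?_⟩
  rw [W_mean hp E (hab E hE) μ x]
  exact hE0

lemma W_anti (hp : Pen lam κ r A β) (E : ℝ) (hE : |E| ≤ lam) (V V' : T d L → ℝ)
    (h : ∀ y, clamp V y ≤ clamp V' y) (x : T d L) :
    W β lam E V' x ≤ W β lam E V x := by
  have hlam := hp.hlam
  have := compare hp (clamp V) (clamp V') E E _ _
    (W_sol hp E hE V) (W_sol hp E hE V') 0 le_rfl
    (by
      intro y
      have := mul_le_mul_of_nonneg_left (sub_nonpos.2 (h y)) hlam.le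
      linarith) x
  rw [zero_div] at this
  linarith

/-- the `ℓ²` hypothesis on Green functions -/
def GH (d L : ℕ) [NeZero L] (k R : ℝ) : Prop :=
  ∀ (u Gr : T d L → ℝ) (x0 : T d L), (∀ x, 1 / 2 ≤ u x) → (∀ x, 0 ≤ Gr x) →
      (∀ x, LapW u Gr x + k * Gr x = if x = x0 then 1 else 0) → ∑ z, Gr z ^ 2 ≤ R

/-- sensitivity: the Green function of the solution -/
lemma W_green (hp : Pen lam κ r A β) (E : ℝ) (hE : |E| ≤ lam) (V : T d L → ℝ) (x : T d L) :
    ∃ Gr : T d L → ℝ, (∀ y, 0 ≤ Gr y) ∧ (∀ y, 1 / 2 ≤ Real.exp (W β lam E V y)) ∧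
      (∀ y, LapW (fun y => Real.exp (W β lam E V y)) Gr y + κ * Real.exp (-(2 * r)) * Gr y =
        if y = x then 1 else 0) ∧
      ∀ (z : T d L) (t : ℝ), |W β lam E (Function.update V z t) x - W β lam E V x| ≤
        6 * lam * Gr z := by
  have hlam := hp.hlam
  have hκ := hp.hκ
  have hw := W_sol hp E hE V
  have bw := W_bound hp E hE V
  obtain ⟨Gr, hGr⟩ := AE.Lin.solve (fun y => Real.exp (W β lam E V y))
    (fun _ : T d L => κ * Real.exp (-(2 * r))) (fun y => if y = x then (1 : ℝ) else 0)
    (fun y => Real.exp_pos _) (fun _ => by positivity)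
  have hGr0 : ∀ y, 0 ≤ Gr y :=
    AE.Lin.nonneg (fun y => Real.exp (W β lam E V y)) (fun _ => κ * Real.exp (-(2 * r))) Gr
      (fun y => Real.exp_pos _) (fun _ => by positivity) (by
      intro y; rw [hGr y]; split_ifs <;> norm_num)
  have hu : ∀ y, 1 / 2 ≤ Real.exp (W β lam E V y) := by
    intro y
    have h1 := (abs_le.1 (bw y)).1
    have h2 := Real.add_one_le_exp (W β lam E V y)
    linarith [hp.hr4]
  refine ⟨Gr, hGr0, hu, hGr, fun z t => ?_⟩
  have hc := claim hp E hE (clamp V) _
    (clamp (Function.update V z t)) _ (good_clamp_le V) (good_clamp_le _) hw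
    (W_sol hp E hE (Function.update V z t)) z x
    (fun y hy => by unfold AE.Good.clamp; rw [Function.update_of_ne hy]) Gr hGr hGr0
  have he : Real.exp 1 ≤ 3 := by
    have := Real.exp_one_lt_d9; linarith
  refine hc.trans ?_
  have h2 : 0 ≤ lam * Gr z := mul_nonneg hlam.le (hGr0 z)
  nlinarith

lemma W_sens (hp : Pen lam κ r A β) (R : ℝ) (hG : GH d L (κ * Real.exp (-(2 * r))) R)
    (E : ℝ) (hE : |E| ≤ lam) (V : T d L → ℝ) (x : T d L) (t : T d L → ℝ) (D : T d L → ℝ)
    (hD0 : ∀ z, 0 ≤ D z)
    (hD : ∀ z, D z ≤ |W β lam E (Function.update V z (t z)) x - W β lam E V x|) :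
    ∑ z, D z ^ 2 ≤ 36 * lam ^ 2 * R := by
  obtain ⟨Gr, h0, h1, h2, h3⟩ := W_green hp E hE V x
  have h4 := hG _ Gr x h1 h0 h2
  calc ∑ z, D z ^ 2 ≤ ∑ z, (6 * lam * Gr z) ^ 2 := by
        refine Finset.sum_le_sum fun z _ => ?_
        exact pow_le_pow_left₀ (hD0 z) ((hD z).trans (h3 z (t z))) 2
    _ = 36 * lam ^ 2 * ∑ z, Gr z ^ 2 := by
        rw [Finset.mul_sum]
        exact Finset.sum_congr rfl fun z _ => by ring
    _ ≤ _ := mul_le_mul_of_nonneg_left h4 (by positivity)

/-- exponential moments -/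
theorem mgf (hp : Pen lam κ r A β) (R : ℝ) (hR : 0 ≤ R)
    (hG : GH d L (κ * Real.exp (-(2 * r))) R) (μ : Measure ℝ) [IsProbabilityMeasure μ]
    (E : ℝ) (hE : |E| ≤ lam) (x : T d L)
    (hmean : ∫ V, W β lam E V x ∂(Measure.pi fun _ : T d L => μ) = 0) (θ : ℝ) :
    ∫ V, Real.exp (θ * W β lam E V x) ∂(Measure.pi fun _ : T d L => μ) ≤
      Real.exp (36 * lam ^ 2 * R * θ ^ 2) := by
  have hmeas := (W_cont (d := d) (L := L) hp E hE x).measurable
  rcases lt_trichotomy θ 0 with hθ | hθ | hθ
  · have hm := AE.Ent.mgf μ (fun V : T d L → ℝ => -W β lam E V x) hmeas.neg r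
      (fun V => by rw [abs_neg]; exact W_bound hp E hE V x) (-1) (by
        intro V z
        exact neg_le_neg (W_anti hp E hE _ V (AE.Goodt.goodt_down V z) x)) 2 (36 * lam ^ 2 * R)
      (by norm_num) (by positivity) (by
        intro t ht V
        have h1 := W_sens hp R hG E hE V x (fun _ => -1)
          (fun z => -W β lam E V x - -W β lam E (Function.update V z (-1)) x) (by
            intro z
            have := W_anti hp E hE _ V (AE.Goodt.goodt_down V z) x
            linarith) (by
            intro z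
            refine le_trans (le_of_eq ?_) (le_abs_self _)
            ring)
        calc _ ≤ ∑ z, (t * (-W β lam E V x - -W β lam E (Function.update V z (-1)) x)) ^ 2 :=
              Finset.sum_le_sum fun z _ => min_le_left _ _
          _ = t ^ 2 * ∑ z, (-W β lam E V x - -W β lam E (Function.update V z (-1)) x) ^ 2 := by
              rw [Finset.mul_sum]
              exact Finset.sum_congr rfl fun z _ => by ring
          _ ≤ t ^ 2 * (36 * lam ^ 2 * R) := mul_le_mul_of_nonneg_left h1 (sq_nonneg _)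
          _ = 36 * lam ^ 2 * R * t ^ (2 : ℝ) := by rw [Real.rpow_two]; ring) (-θ) (by linarith)
    rw [integral_neg, hmean, neg_zero, mul_zero, zero_add, Real.rpow_two] at hm
    simp only [neg_mul_neg] at hm
    refine hm.trans (Real.exp_le_exp.2 (le_of_eq ?_))
    ring
  · subst hθ
    simp
  · have hm := AE.Ent.mgf μ (fun V : T d L → ℝ => W β lam E V x) hmeas r
      (fun V => W_bound hp E hE V x) 1 (by
        intro V z
        exact W_anti hp E hE V _ (AE.Goodt.goodt_up V z) x) 2 (36 * lam ^ 2 * R)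
      (by norm_num) (by positivity) (by
        intro t ht V
        have h1 := W_sens hp R hG E hE V x (fun _ => 1)
          (fun z => W β lam E V x - W β lam E (Function.update V z 1) x) (by
            intro z
            have := W_anti hp E hE V _ (AE.Goodt.goodt_up V z) x
            linarith) (by
            intro z
            rw [abs_sub_comm]
            exact le_abs_self _)
        calc _ ≤ ∑ z, (t * (W β lam E V x - W β lam E (Function.update V z 1) x)) ^ 2 :=
              Finset.sum_le_sum fun z _ => min_le_left _ _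
          _ = t ^ 2 * ∑ z, (W β lam E V x - W β lam E (Function.update V z 1) x) ^ 2 := by
              rw [Finset.mul_sum]
              exact Finset.sum_congr rfl fun z _ => by ring
          _ ≤ t ^ 2 * (36 * lam ^ 2 * R) := mul_le_mul_of_nonneg_left h1 (sq_nonneg _)
          _ = 36 * lam ^ 2 * R * t ^ (2 : ℝ) := by rw [Real.rpow_two]; ring) θ hθ
    rw [hmean, mul_zero, zero_add, Real.rpow_two] at hm
    refine hm.trans (Real.exp_le_exp.2 (le_of_eq ?_))
    ring

/-- Gaussian tail -/
theorem tail (hp : Pen lam κ r A β) (R : ℝ) (hR : 0 < R)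
    (hG : GH d L (κ * Real.exp (-(2 * r))) R) (μ : Measure ℝ) [IsProbabilityMeasure μ]
    (E : ℝ) (hE : |E| ≤ lam) (x : T d L)
    (hmean : ∫ V, W β lam E V x ∂(Measure.pi fun _ : T d L => μ) = 0) (δ : ℝ) (hδ : 0 < δ) :
    (Measure.pi fun _ : T d L => μ).real {V | δ ≤ |W β lam E V x|} ≤
      2 * Real.exp (-(δ ^ 2 / (144 * lam ^ 2 * R))) := by
  have hlam := hp.hlam
  set θ : ℝ := δ / (72 * lam ^ 2 * R) with hθ
  have hθ0 : 0 < θ := by positivity
  have hmeas := (W_cont (d := d) (L := L) hp E hE x).measurable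
  have key : ∀ s : ℝ, (s = 1 ∨ s = -1) → (Measure.pi fun _ : T d L => μ).real
      {V | δ ≤ s * W β lam E V x} ≤ Real.exp (-(δ ^ 2 / (144 * lam ^ 2 * R))) := by
    intro s hs
    have hs2 : s ^ 2 = 1 := by rcases hs with h | h <;> rw [h] <;> norm_num
    have hm := mgf hp R hR.le hG μ E hE x hmean (θ * s)
    have hint : Integrable (fun V : T d L → ℝ => Real.exp (θ * s * W β lam E V x))
        (Measure.pi fun _ : T d L => μ) := by
      refine Integrable.of_bound (C := Real.exp (|θ * s| * r))
        (by fun_prop : Measurable fun V : T d L → ℝ =>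
          Real.exp (θ * s * W β lam E V x)).aestronglyMeasurable ?_
      filter_upwards with V
      rw [Real.norm_eq_abs, abs_of_pos (Real.exp_pos _)]
      refine Real.exp_le_exp.2 ?_
      calc θ * s * W β lam E V x ≤ |θ * s * W β lam E V x| := le_abs_self _
        _ = |θ * s| * |W β lam E V x| := abs_mul _ _
        _ ≤ _ := mul_le_mul_of_nonneg_left (W_bound hp E hE V x) (abs_nonneg _)
    have hmk := mul_meas_ge_le_integral_of_nonneg (μ := Measure.pi fun _ : T d L => μ)
      (f := fun V : T d L → ℝ => Real.exp (θ * s * W β lam E V x))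
      (Filter.Eventually.of_forall fun ω => (Real.exp_pos _).le) hint (Real.exp (θ * δ))
    have hset : {V : T d L → ℝ | Real.exp (θ * δ) ≤ Real.exp (θ * s * W β lam E V x)} =
        {V | δ ≤ s * W β lam E V x} := by
      ext ω
      simp only [Set.mem_ofPred_eq, Real.exp_le_exp, mul_assoc]
      exact ⟨fun h => le_of_mul_le_mul_left h hθ0, fun h => mul_le_mul_of_nonneg_left h hθ0.le⟩
    rw [hset] at hmk
    have h2 := hmk.trans hm
    have h3 : (Measure.pi fun _ : T d L => μ).real {V | δ ≤ s * W β lam E V x} =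
        Real.exp (-(θ * δ)) * (Real.exp (θ * δ) *
        (Measure.pi fun _ : T d L => μ).real {V | δ ≤ s * W β lam E V x}) := by
      rw [← mul_assoc, ← Real.exp_add]; simp
    rw [h3]
    refine (mul_le_mul_of_nonneg_left h2 (Real.exp_pos _).le).trans (le_of_eq ?_)
    rw [← Real.exp_add, mul_pow, hs2, hθ]
    congr 1
    field_simp
    ring
  have hsub : {V : T d L → ℝ | δ ≤ |W β lam E V x|} ⊆
      {V | δ ≤ 1 * W β lam E V x} ∪ {V | δ ≤ -1 * W β lam E V x} := by
    intro V hV
    rcases le_abs.1 (show δ ≤ |W β lam E V x| from hV) with h | h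
    · exact Or.inl (by rw [Set.mem_ofPred_eq, one_mul]; exact h)
    · exact Or.inr (by rw [Set.mem_ofPred_eq, neg_one_mul]; exact h)
  refine (measureReal_mono hsub).trans ((measureReal_union_le _ _).trans ?_)
  have h1 := key 1 (Or.inl rfl)
  have h2 := key (-1) (Or.inr rfl)
  linarith

end pen

end Pool.Agent.K3h4.AN.Pf
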