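import Pool.Agent.K3h4.AN.Pf

/-! # The level of the penalised equation to second order: pointwise identities -/

set_option autoImplicit false
set_option linter.unusedSectionVars false
set_option linter.unusedVariables false

open scoped BigOperators
open MeasureTheory

namespace Pool.Agent.K3h4.AN.Sa

open Pool.Agent.H4R2
open Pool.Agent.H4R2.AE (T LapW Hop)
open Pool.Agent.K3h4.AN.Pe
open Pool.Agent.K3h4.AN.Pf

variable {d L : ℕ} [NeZero L]

/-- `2 ∑ (cosh ∇w - 1)` -/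
noncomputable def CC (w : T d L → ℝ) : ℝ :=
  ∑ i : Fin d, ∑ x, 2 * (Real.cosh (w (x + Pi.single i 1) - w x) - 1)

/-- `∑ (|f| + |f⁺|) (cosh ∇w - 1)` -/
noncomputable def RR (f w : T d L → ℝ) : ℝ :=
  ∑ i : Fin d, ∑ x, (|f x| + |f (x + Pi.single i 1)|) *
    (Real.cosh (w (x + Pi.single i 1) - w x) - 1)

theorem test (w f : T d L → ℝ) :
    ∑ x, f x * ∑ i : Fin d, ((1 - Real.exp (w (x + Pi.single i 1) - w x)) +
      (1 - Real.exp (w (x - Pi.single i 1) - w x))) =
    ∑ i : Fin d, ∑ x, ((f (x + Pi.single i 1) - f x) * Real.sinh (w (x + Pi.single i 1) - w x) -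
      (f x + f (x + Pi.single i 1)) * (Real.cosh (w (x + Pi.single i 1) - w x) - 1)) := by
  have h1 : ∀ x, f x * ∑ i : Fin d, ((1 - Real.exp (w (x + Pi.single i 1) - w x)) +
      (1 - Real.exp (w (x - Pi.single i 1) - w x))) =
      ∑ i : Fin d, (f x * (1 - Real.exp (w (x + Pi.single i 1) - w x)) +
        f x * (1 - Real.exp (w (x - Pi.single i 1) - w x))) := by
    intro x
    rw [Finset.mul_sum]
    exact Finset.sum_congr rfl fun i _ => by ring
  rw [Finset.sum_congr rfl fun x _ => h1 x, Finset.sum_comm]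
  refine Finset.sum_congr rfl fun i _ => ?_
  rw [Finset.sum_add_distrib]
  have h2 : ∑ x : T d L, f x * (1 - Real.exp (w (x - Pi.single i 1) - w x)) =
      ∑ x : T d L, f (x + Pi.single i 1) * (1 - Real.exp (w x - w (x + Pi.single i 1))) := by
    refine (AE.Green.sum_shift (fun x : T d L =>
      f x * (1 - Real.exp (w (x - Pi.single i 1) - w x))) (Pi.single i 1)).symm.trans ?_
    simp only [add_sub_cancel_right]
  rw [h2, ← Finset.sum_add_distrib]
  refine Finset.sum_congr rfl fun x _ => ?_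
  obtain ⟨a, ha⟩ : ∃ a, a = w (x + Pi.single i 1) - w x := ⟨_, rfl⟩
  have ha' : w x - w (x + Pi.single i 1) = -a := by rw [ha]; ring
  rw [ha', ← ha, Real.sinh_eq, Real.cosh_eq]
  ring

theorem cosh_sub_one_nonneg (a : ℝ) : 0 ≤ Real.cosh a - 1 := by
  linarith [Real.one_le_cosh a]

theorem sq_le_mul_sinh (a : ℝ) : a ^ 2 ≤ a * Real.sinh a := by
  rcases le_total 0 a with h | h
  · have := Real.self_le_sinh_iff.2 h
    nlinarith
  · have := Real.sinh_le_self_iff.2 h
    nlinarith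

/-- `2 (cosh a - 1) ≤ a sinh a` -/
theorem cosh_le_sinh (a : ℝ) : 2 * (Real.cosh a - 1) ≤ a * Real.sinh a := by
  have h1 : Real.cosh a - 1 = 2 * Real.sinh (a / 2) ^ 2 := by
    have h := Real.cosh_two_mul (a / 2)
    have h' := Real.cosh_sq (a / 2)
    rw [show 2 * (a / 2) = a by ring] at h
    rw [h, h']; ring
  have h2 : Real.sinh a = 2 * Real.sinh (a / 2) * Real.cosh (a / 2) := by
    have h := Real.sinh_two_mul (a / 2)
    rw [show 2 * (a / 2) = a by ring] at h
    exact h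
  rw [h1, h2]
  have key : ∀ b : ℝ, 2 * Real.sinh b ^ 2 ≤ 2 * b * (Real.sinh b * Real.cosh b) := by
    intro b
    have hs : ∀ c : ℝ, 0 ≤ c → Real.sinh c ≤ c * Real.cosh c := by
      intro c hc
      have hm : ∀ y ∈ Set.Icc 0 c, HasDerivWithinAt Real.sinh (Real.cosh y) (Set.Icc 0 c) y :=
        fun y _ => (Real.hasDerivAt_sinh y).hasDerivWithinAt
      have := Convex.norm_image_sub_le_of_norm_hasDerivWithin_le (C := Real.cosh c) hm
        (fun y hy => by
          rw [Real.norm_eq_abs, abs_of_pos (Real.cosh_pos y)]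
          rw [Real.cosh_le_cosh, abs_of_nonneg hy.1, abs_of_nonneg hc]
          exact hy.2) (convex_Icc 0 c) (Set.left_mem_Icc.2 hc) (Set.right_mem_Icc.2 hc)
      rw [Real.sinh_zero, sub_zero, sub_zero, Real.norm_eq_abs, Real.norm_eq_abs,
        abs_of_nonneg hc, abs_of_nonneg (Real.sinh_nonneg_iff.2 hc)] at this
      linarith
    rcases le_total 0 b with h | h
    · have h3 := hs b h
      have h4 := Real.sinh_nonneg_iff.2 h
      nlinarith
    · have h3 := hs (-b) (by linarith)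
      rw [Real.sinh_neg, Real.cosh_neg] at h3
      have h4 := Real.sinh_nonpos_iff.2 h
      nlinarith
  have := key (a / 2)
  linarith

/-- `cosh a - 1 ≤ a²` for `|a| ≤ 1` -/
theorem cosh_le (a : ℝ) (h : |a| ≤ 1) : Real.cosh a - 1 ≤ a ^ 2 := by
  have h1 := Real.cosh_le_exp_half_sq a
  have h2 : a ^ 2 ≤ 1 := by
    rw [← sq_abs]
    have := abs_nonneg a
    nlinarith
  have h3 : Real.exp (a ^ 2 / 2) ≤ 1 + a ^ 2 := by
    have h4 : |a ^ 2 / 2| ≤ 1 := by
      rw [abs_of_nonneg (by positivity)]; linarith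
    have h5 := Real.abs_exp_sub_one_le h4
    have h6 := le_abs_self (Real.exp (a ^ 2 / 2) - 1)
    rw [abs_of_nonneg (by positivity : 0 ≤ a ^ 2 / 2)] at h5
    linarith
  linarith

section
variable {lam κ r A : ℝ} {β : ℝ → ℝ}

/-- sum of the equation -/
theorem P0 (lam E : ℝ) (β : ℝ → ℝ) (v w : T d L → ℝ) (hw : IsS β lam v E w) :
    CC w = lam * ∑ x, v x - (Fintype.card (T d L) : ℝ) * E + ∑ x, β (w x) := by
  have h1 := test w (fun _ => 1)
  have h2 : ∑ x, (1 : ℝ) * ∑ i : Fin d, ((1 - Real.exp (w (x + Pi.single i 1) - w x)) +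
      (1 - Real.exp (w (x - Pi.single i 1) - w x))) = ∑ x, (E - lam * v x - β (w x)) := by
    refine Finset.sum_congr rfl fun x _ => ?_
    have := hw x
    linarith
  rw [h2] at h1
  unfold CC
  have h3 : ∑ i : Fin d, ∑ x : T d L, (((1 : ℝ) - 1) * Real.sinh (w (x + Pi.single i 1) - w x) -
      (1 + 1) * (Real.cosh (w (x + Pi.single i 1) - w x) - 1)) =
      -∑ i : Fin d, ∑ x, 2 * (Real.cosh (w (x + Pi.single i 1) - w x) - 1) := by
    rw [← Finset.sum_neg_distrib]
    refine Finset.sum_congr rfl fun i _ => ?_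
    rw [← Finset.sum_neg_distrib]
    exact Finset.sum_congr rfl fun x _ => by ring
  rw [h3] at h1
  rw [Finset.sum_sub_distrib, Finset.sum_sub_distrib, Finset.sum_const, Finset.card_univ,
    nsmul_eq_mul, ← Finset.mul_sum] at h1
  linarith

theorem eqn (lam E m : ℝ) (β : ℝ → ℝ) (v w f : T d L → ℝ) (hw : IsS β lam v E w) :
    ∑ i : Fin d, ∑ x, ((f (x + Pi.single i 1) - f x) * Real.sinh (w (x + Pi.single i 1) - w x) -
      (f x + f (x + Pi.single i 1)) * (Real.cosh (w (x + Pi.single i 1) - w x) - 1)) +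
      lam * ∑ x, f x * (v x - m) - (E - lam * m) * ∑ x, f x + ∑ x, f x * β (w x) = 0 := by
  have h1 := test w f
  have h2 : ∑ x, f x * ∑ i : Fin d, ((1 - Real.exp (w (x + Pi.single i 1) - w x)) +
      (1 - Real.exp (w (x - Pi.single i 1) - w x))) =
      ∑ x, (-(lam * (f x * (v x - m))) + (E - lam * m) * f x - f x * β (w x)) := by
    refine Finset.sum_congr rfl fun x _ => ?_
    have := hw x
    have h3 : ∑ i : Fin d, ((1 - Real.exp (w (x + Pi.single i 1) - w x)) +
      (1 - Real.exp (w (x - Pi.single i 1) - w x))) = E - lam * v x - β (w x) := by linarith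
    rw [h3]; ring
  rw [h2, Finset.sum_sub_distrib, Finset.sum_add_distrib, Finset.sum_neg_distrib,
    ← Finset.mul_sum, ← Finset.mul_sum] at h1
  linarith

/-- the quadratic form of `-Δ + κ` -/
theorem form (κ : ℝ) (f h : T d L → ℝ) :
    ∑ x, f x * (LapW (fun _ => 1) h x + κ * h x) =
      ∑ i : Fin d, ∑ x, (f (x + Pi.single i 1) - f x) * (h (x + Pi.single i 1) - h x) +
        κ * ∑ x, f x * h x := by
  have h1 := AE.Lin.bilin (fun _ : T d L => (1 : ℝ)) f h
  have h2 : ∑ x, f x * (LapW (fun _ => 1) h x + κ * h x) =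
      ∑ x, f x * LapW (fun _ => 1) h x + κ * ∑ x, f x * h x := by
    rw [Finset.mul_sum, ← Finset.sum_add_distrib]
    exact Finset.sum_congr rfl fun x _ => by ring
  rw [h2, h1, Finset.sum_comm]
  congr 1
  exact Finset.sum_congr rfl fun i _ => Finset.sum_congr rfl fun x _ => by ring

/-- upper bound for the energy of the solution -/
theorem P1 (hp : Pen lam κ r A β) (E m : ℝ) (v w l : T d L → ℝ) (hw : IsS β lam v E w)
    (hl : ∀ x, LapW (fun _ => 1) l x + κ * l x = v x - m) :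
    CC w ≤ lam ^ 2 * ∑ x, l x * (v x - m) + 2 * RR w w + 2 * ((E - lam * m) * ∑ x, w x) := by
  have hlam := hp.hlam
  have hκ := hp.hκ
  have h1 := eqn lam E m β v w w hw
  rw [Finset.sum_congr rfl fun i _ => Finset.sum_sub_distrib _ _, Finset.sum_sub_distrib] at h1
  obtain ⟨SS, hSS⟩ : ∃ z : ℝ, z = ∑ i : Fin d, ∑ x, (w (x + Pi.single i 1) - w x) *
    Real.sinh (w (x + Pi.single i 1) - w x) := ⟨_, rfl⟩
  obtain ⟨R1, hR1⟩ : ∃ z : ℝ, z = ∑ i : Fin d, ∑ x, (w x + w (x + Pi.single i 1)) *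
    (Real.cosh (w (x + Pi.single i 1) - w x) - 1) := ⟨_, rfl⟩
  obtain ⟨Dw, hDw⟩ : ∃ z : ℝ, z = ∑ i : Fin d, ∑ x, (w (x + Pi.single i 1) - w x) ^ 2 := ⟨_, rfl⟩
  obtain ⟨B, hB⟩ : ∃ z : ℝ, z = ∑ x, w x * β (w x) := ⟨_, rfl⟩
  obtain ⟨M, hM⟩ : ∃ z : ℝ, z = ∑ x, w x ^ 2 := ⟨_, rfl⟩
  rw [← hSS, ← hR1, ← hB] at h1
  have a1 : R1 ≤ RR w w := by
    rw [hR1]
    unfold RR
    refine Finset.sum_le_sum fun i _ => Finset.sum_le_sum fun x _ => ?_
    refine mul_le_mul_of_nonneg_right ?_ (cosh_sub_one_nonneg _)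
    exact add_le_add (le_abs_self _) (le_abs_self _)
  have a2 : Dw ≤ SS := by
    rw [hDw, hSS]
    exact Finset.sum_le_sum fun i _ => Finset.sum_le_sum fun x _ => sq_le_mul_sinh _
  have a3 : CC w ≤ SS := by
    rw [hSS]
    unfold CC
    exact Finset.sum_le_sum fun i _ => Finset.sum_le_sum fun x _ => cosh_le_sinh _
  have a4 : κ * M ≤ B := by
    rw [hM, hB, Finset.mul_sum]
    refine Finset.sum_le_sum fun x _ => ?_
    rcases le_total 0 (w x) with h | h
    · have := hp.mono (w x) 0 h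
      rw [hp.zero, sub_zero, sub_zero] at this
      nlinarith
    · have := hp.mono 0 (w x) h
      rw [hp.zero, zero_sub, zero_sub] at this
      nlinarith
  -- the linear field
  have b1 := form κ w l
  rw [Finset.sum_congr rfl fun x _ => by rw [hl x]] at b1
  have b2 := form κ l l
  rw [Finset.sum_congr rfl fun x _ => by rw [hl x]] at b2
  obtain ⟨Dl, hDl⟩ : ∃ z : ℝ, z = ∑ i : Fin d, ∑ x, (l (x + Pi.single i 1) - l x) ^ 2 := ⟨_, rfl⟩
  obtain ⟨Ml, hMl⟩ : ∃ z : ℝ, z = ∑ x, l x ^ 2 := ⟨_, rfl⟩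
  have b3 : ∑ x, l x * (v x - m) = Dl + κ * Ml := by
    rw [b2, hDl, hMl]
    congr 1
    · exact Finset.sum_congr rfl fun i _ => Finset.sum_congr rfl fun x _ => by ring
    · congr 1
      exact Finset.sum_congr rfl fun x _ => by ring
  have b4 : -(lam * ∑ x, w x * (v x - m)) ≤ 1 / 2 * (Dw + κ * M) + lam ^ 2 / 2 * (Dl + κ * Ml) := by
    rw [b1, hDw, hM, hDl, hMl]
    have c1 : -(lam * ∑ i : Fin d, ∑ x, (w (x + Pi.single i 1) - w x) *
        (l (x + Pi.single i 1) - l x)) ≤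
        1 / 2 * ∑ i : Fin d, ∑ x, (w (x + Pi.single i 1) - w x) ^ 2 +
          lam ^ 2 / 2 * ∑ i : Fin d, ∑ x, (l (x + Pi.single i 1) - l x) ^ 2 := by
      simp only [Finset.mul_sum, ← Finset.sum_add_distrib, ← Finset.sum_neg_distrib]
      refine Finset.sum_le_sum fun i _ => Finset.sum_le_sum fun x _ => ?_
      nlinarith [sq_nonneg ((w (x + Pi.single i 1) - w x) + lam * (l (x + Pi.single i 1) - l x))]
    have c2 : -(lam * ∑ x, w x * l x) ≤ 1 / 2 * ∑ x, w x ^ 2 + lam ^ 2 / 2 * ∑ x, l x ^ 2 := by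
      simp only [Finset.mul_sum, ← Finset.sum_add_distrib, ← Finset.sum_neg_distrib]
      refine Finset.sum_le_sum fun x _ => ?_
      nlinarith [sq_nonneg (w x + lam * l x)]
    have c3 := mul_le_mul_of_nonneg_left c2 hκ.le
    linarith
  have hM0 : 0 ≤ κ * M := by
    rw [hM]
    exact mul_nonneg hκ.le (Finset.sum_nonneg fun x _ => sq_nonneg _)
  rw [b3]
  linarith

/-- lower bound for the energy of the solution -/
theorem P2 (hp : Pen lam κ r A β) (E m : ℝ) (v w l : T d L → ℝ) (hw : IsS β lam v E w)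
    (hl : ∀ x, LapW (fun _ => 1) l x + κ * l x = v x - m) (hwb : ∀ x, |w x| ≤ 1 / 4) :
    lam ^ 2 * ∑ x, l x * (v x - m) ≤ CC w + RR w w / 2 + (∑ x, β (w x) ^ 2) / κ +
      2 * lam * RR l w + 2 * (lam * ((E - lam * m) * ∑ x, l x)) := by
  have hlam := hp.hlam
  have hκ := hp.hκ
  have h1 := eqn lam E m β v w l hw
  rw [Finset.sum_congr rfl fun i _ => Finset.sum_sub_distrib _ _, Finset.sum_sub_distrib] at h1
  obtain ⟨R2, hR2⟩ : ∃ z : ℝ, z = ∑ i : Fin d, ∑ x, (l x + l (x + Pi.single i 1)) *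
    (Real.cosh (w (x + Pi.single i 1) - w x) - 1) := ⟨_, rfl⟩
  rw [← hR2] at h1
  have a1 : R2 ≤ RR l w := by
    rw [hR2]
    unfold RR
    refine Finset.sum_le_sum fun i _ => Finset.sum_le_sum fun x _ => ?_
    refine mul_le_mul_of_nonneg_right ?_ (cosh_sub_one_nonneg _)
    exact add_le_add (le_abs_self _) (le_abs_self _)
  have b2 := form κ l l
  rw [Finset.sum_congr rfl fun x _ => by rw [hl x]] at b2
  obtain ⟨Dl, hDl⟩ : ∃ z : ℝ, z = ∑ i : Fin d, ∑ x, (l (x + Pi.single i 1) - l x) ^ 2 := ⟨_, rfl⟩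
  obtain ⟨Ml, hMl⟩ : ∃ z : ℝ, z = ∑ x, l x ^ 2 := ⟨_, rfl⟩
  have b3 : ∑ x, l x * (v x - m) = Dl + κ * Ml := by
    rw [b2, hDl, hMl]
    congr 1
    · exact Finset.sum_congr rfl fun i _ => Finset.sum_congr rfl fun x _ => by ring
    · congr 1
      exact Finset.sum_congr rfl fun x _ => by ring
  obtain ⟨Sh, hSh⟩ : ∃ z : ℝ, z = ∑ i : Fin d, ∑ x, Real.sinh (w (x + Pi.single i 1) - w x) ^ 2 :=
    ⟨_, rfl⟩
  obtain ⟨Be, hBe⟩ : ∃ z : ℝ, z = ∑ x, β (w x) ^ 2 := ⟨_, rfl⟩
  have c1 : -(2 * lam * ∑ i : Fin d, ∑ x, (l (x + Pi.single i 1) - l x) *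
      Real.sinh (w (x + Pi.single i 1) - w x)) ≤ lam ^ 2 * Dl + Sh := by
    rw [hDl, hSh]
    simp only [Finset.mul_sum, ← Finset.sum_add_distrib, ← Finset.sum_neg_distrib]
    refine Finset.sum_le_sum fun i _ => Finset.sum_le_sum fun x _ => ?_
    nlinarith [sq_nonneg (lam * (l (x + Pi.single i 1) - l x) +
      Real.sinh (w (x + Pi.single i 1) - w x))]
  have c2 : -(2 * lam * ∑ x, l x * β (w x)) ≤ lam ^ 2 * (κ * Ml) + Be / κ := by
    rw [hMl, hBe, Finset.sum_div]
    simp only [Finset.mul_sum, ← Finset.sum_add_distrib, ← Finset.sum_neg_distrib]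
    refine Finset.sum_le_sum fun x _ => ?_
    have e : lam ^ 2 * (κ * l x ^ 2) + β (w x) ^ 2 / κ + 2 * lam * (l x * β (w x)) =
        (lam * κ * l x + β (w x)) ^ 2 / κ := by
      field_simp
      ring
    have : 0 ≤ (lam * κ * l x + β (w x)) ^ 2 / κ := by positivity
    linarith
  have c3 : Sh ≤ CC w + RR w w / 2 := by
    rw [hSh]
    unfold CC RR
    rw [Finset.sum_div, ← Finset.sum_add_distrib]
    refine Finset.sum_le_sum fun i _ => ?_
    rw [Finset.sum_div, ← Finset.sum_add_distrib]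
    refine Finset.sum_le_sum fun x _ => ?_
    obtain ⟨a, ha⟩ : ∃ a, a = w (x + Pi.single i 1) - w x := ⟨_, rfl⟩
    rw [← ha]
    have h2 : |a| ≤ |w x| + |w (x + Pi.single i 1)| := by
      rw [ha, add_comm |w x|]
      exact abs_sub _ _
    have h3 : |a| ≤ 1 / 2 := by
      have := hwb x
      have := hwb (x + Pi.single i 1)
      linarith
    have h4 := cosh_le a (by linarith)
    have h5 : a ^ 2 ≤ (|w x| + |w (x + Pi.single i 1)|) / 2 := by
      rw [← sq_abs]
      nlinarith [abs_nonneg a]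
    have h6 := cosh_sub_one_nonneg a
    have h7 : Real.sinh a ^ 2 = 2 * (Real.cosh a - 1) + (Real.cosh a - 1) * (Real.cosh a - 1) := by
      have := Real.cosh_sq a
      nlinarith
    rw [h7]
    have h8 : (Real.cosh a - 1) * (Real.cosh a - 1) ≤
        ((|w x| + |w (x + Pi.single i 1)|) / 2) * (Real.cosh a - 1) :=
      mul_le_mul_of_nonneg_right (h4.trans h5) h6
    linarith
  rw [b3, ← hBe]
  rw [b3] at h1
  have h2 : 2 * lam * (∑ i : Fin d, ∑ x, (l (x + Pi.single i 1) - l x) *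
      Real.sinh (w (x + Pi.single i 1) - w x) - R2 + lam * (Dl + κ * Ml) -
      (E - lam * m) * ∑ x, l x + ∑ x, l x * β (w x)) = 0 := by
    rw [h1, mul_zero]
  have h3 : 2 * lam * R2 ≤ 2 * lam * RR l w := by gcongr
  linarith

end

end Pool.Agent.K3h4.AN.Sa
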