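import Pool.Agent.K3h4.AN.Sa

/-! # The level of the penalised equation to second order: expectations -/

set_option autoImplicit false
set_option linter.unusedSectionVars false
set_option linter.unusedVariables false

open scoped BigOperators
open MeasureTheory

namespace Pool.Agent.K3h4.AN.Sa

open Pool.Agent.H4R2
open Pool.Agent.H4R2.AE (T LapW Hop)
open Pool.Agent.H4R2.AE.Good (clamp good_clamp_le good_clamp_eq)
open Pool.Agent.K3h4.AN.Pe
open Pool.Agent.K3h4.AN.Pf

variable {d L : ℕ} [NeZero L]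

/-- clamp of a number -/
noncomputable def ph (t : ℝ) : ℝ := max (-1) (min 1 t)

theorem ph_cont : Continuous ph := by
  unfold ph
  fun_prop

theorem ph_abs (t : ℝ) : |ph t| ≤ 1 := by
  unfold ph
  rw [abs_le]
  constructor
  · exact le_max_left _ _
  · exact max_le (by norm_num) (min_le_left _ _)

theorem ph_mono {s t : ℝ} (h : s ≤ t) : ph s ≤ ph t := by
  unfold ph
  exact max_le_max le_rfl (min_le_min le_rfl h)

theorem clamp_ph (V : T d L → ℝ) (x : T d L) : clamp V x = ph (V x) := rfl

/-- the mean -/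
noncomputable def mn (μ : Measure ℝ) : ℝ := ∫ t, ph t ∂μ

/-- the variance -/
noncomputable def vr (μ : Measure ℝ) : ℝ := ∫ t, (ph t - mn μ) ^ 2 ∂μ

theorem mn_abs (μ : Measure ℝ) [IsProbabilityMeasure μ] : |mn μ| ≤ 1 := by
  unfold mn
  have := norm_integral_le_of_norm_le_const (μ := μ) (f := ph) (C := 1)
    (Filter.Eventually.of_forall fun t => by rw [Real.norm_eq_abs]; exact ph_abs t)
  simpa using this

theorem int_cb (μ : Measure ℝ) [IsProbabilityMeasure μ] {F : (T d L → ℝ) → ℝ} (B : ℝ)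
    (hF : Continuous F) (hB : ∀ V, |F V| ≤ B) :
    Integrable F (Measure.pi fun _ : T d L => μ) :=
  Integrable.of_bound (C := B) hF.measurable.aestronglyMeasurable
    (Filter.Eventually.of_forall fun V => by rw [Real.norm_eq_abs]; exact hB V)

/-- the linear field -/
noncomputable def lf (m : ℝ) (g : T d L → ℝ) (V : T d L → ℝ) (x : T d L) : ℝ :=
  ∑ z, g (x - z) * (ph (V z) - m)

theorem lf_cont (m : ℝ) (g : T d L → ℝ) (x : T d L) : Continuous fun V => lf m g V x := by
  unfold lf
  refine continuous_finsetSum _ fun z _ => ?_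
  exact continuous_const.mul ((ph_cont.comp (continuous_apply z)).sub continuous_const)

theorem lf_eq (m κ : ℝ) (g : T d L → ℝ)
    (hg : ∀ x, LapW (fun _ => 1) g x + κ * g x = if x = 0 then 1 else 0) (V : T d L → ℝ)
    (x : T d L) : LapW (fun _ => 1) (lf m g V) x + κ * lf m g V x = ph (V x) - m := by
  have h1 : ∀ e : T d L, lf m g V (x + e) = ∑ z, g (x - z + e) * (ph (V z) - m) := by
    intro e
    unfold lf
    refine Finset.sum_congr rfl fun z _ => ?_
    congr 2
    abel
  have h2 : ∀ e : T d L, lf m g V (x - e) = ∑ z, g (x - z - e) * (ph (V z) - m) := by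
    intro e
    unfold lf
    refine Finset.sum_congr rfl fun z _ => ?_
    congr 2
    abel
  have h3 : LapW (fun _ => 1) (lf m g V) x = ∑ z, LapW (fun _ => 1) g (x - z) * (ph (V z) - m) := by
    unfold LapW
    simp only [h1, h2]
    have h4 : ∀ z, (∑ i : Fin d, (1 * 1 * (g (x - z) - g (x - z + Pi.single i 1)) +
        1 * 1 * (g (x - z) - g (x - z - Pi.single i 1)))) * (ph (V z) - m) =
        ∑ i : Fin d, ((g (x - z) * (ph (V z) - m) - g (x - z + Pi.single i 1) * (ph (V z) - m)) +
          (g (x - z) * (ph (V z) - m) - g (x - z - Pi.single i 1) * (ph (V z) - m))) := by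
      intro z
      rw [Finset.sum_mul]
      exact Finset.sum_congr rfl fun i _ => by ring
    rw [Finset.sum_congr rfl fun z _ => h4 z, Finset.sum_comm]
    refine Finset.sum_congr rfl fun i _ => ?_
    rw [Finset.sum_add_distrib, Finset.sum_sub_distrib, Finset.sum_sub_distrib]
    unfold lf
    ring
  rw [h3]
  unfold lf
  rw [Finset.mul_sum, ← Finset.sum_add_distrib]
  have h5 : ∀ z, LapW (fun _ => 1) g (x - z) * (ph (V z) - m) + κ * (g (x - z) * (ph (V z) - m)) =
      (if x - z = 0 then 1 else 0) * (ph (V z) - m) := by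
    intro z
    rw [← hg]; ring
  rw [Finset.sum_congr rfl fun z _ => h5 z, Finset.sum_eq_single x]
  · simp
  · intro z _ hz
    rw [if_neg, zero_mul]
    intro h
    exact hz (sub_eq_zero.1 h).symm
  · intro h
    exact absurd (Finset.mem_univ x) h

theorem sum_g (κ : ℝ) (hκ : 0 < κ) (g : T d L → ℝ)
    (hg : ∀ x, LapW (fun _ => 1) g x + κ * g x = if x = 0 then 1 else 0) : ∑ x, g x = 1 / κ := by
  have h3 : ∑ x, (LapW (fun _ => 1) g x + κ * g x) = 1 := by
    rw [Finset.sum_congr rfl fun x _ => hg x]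
    simp
  rw [Finset.sum_add_distrib, AE.Lin.sum_lapW, zero_add, ← Finset.mul_sum] at h3
  rw [eq_div_iff hκ.ne']
  linarith

theorem lf_abs (m κ : ℝ) (hκ : 0 < κ) (hm : |m| ≤ 1) (g : T d L → ℝ) (hg0 : ∀ x, 0 ≤ g x)
    (hg : ∀ x, LapW (fun _ => 1) g x + κ * g x = if x = 0 then 1 else 0) (V : T d L → ℝ)
    (x : T d L) : |lf m g V x| ≤ 2 / κ := by
  unfold lf
  refine (Finset.abs_sum_le_sum_abs _ _).trans ?_
  have h1 : ∀ z, |g (x - z) * (ph (V z) - m)| ≤ g (x - z) * 2 := by
    intro z
    rw [abs_mul, abs_of_nonneg (hg0 _)]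
    refine mul_le_mul_of_nonneg_left ?_ (hg0 _)
    refine (abs_sub _ _).trans ?_
    have := ph_abs (V z)
    linarith
  refine (Finset.sum_le_sum fun z _ => h1 z).trans (le_of_eq ?_)
  rw [← Finset.sum_mul]
  have h2 : ∑ z, g (x - z) = ∑ z, g z :=
    Fintype.sum_equiv (Equiv.subLeft x) _ _ fun z => rfl
  rw [h2, sum_g κ hκ g hg]
  ring

theorem lf_upd (m : ℝ) (g : T d L → ℝ) (V : T d L → ℝ) (x z : T d L) (t : ℝ) :
    lf m g (Function.update V z t) x - lf m g V x = g (x - z) * (ph t - ph (V z)) := by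
  unfold lf
  rw [← Finset.sum_sub_distrib, Finset.sum_eq_single z]
  · rw [Function.update_self]; ring
  · intro y _ hy
    rw [Function.update_of_ne hy]; ring
  · intro h
    exact absurd (Finset.mem_univ z) h

theorem ph_meas (c : ℝ) : Measurable fun t => ph t - c := (ph_cont.sub continuous_const).measurable

theorem ph_int (μ : Measure ℝ) [IsProbabilityMeasure μ] : Integrable ph μ :=
  Integrable.of_bound (C := 1) ph_cont.measurable.aestronglyMeasurable
    (Filter.Eventually.of_forall fun t => by rw [Real.norm_eq_abs]; exact ph_abs t)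

theorem int_ph (μ : Measure ℝ) [IsProbabilityMeasure μ] (x : T d L) :
    ∫ V, (ph (V x) - mn μ) ∂(Measure.pi fun _ : T d L => μ) = 0 := by
  have h1 := integral_comp_eval (μ := fun _ : T d L => μ) (i := x) (f := fun t => ph t - mn μ)
    (ph_meas _).aestronglyMeasurable
  rw [h1, integral_sub (ph_int μ) (integrable_const _), integral_const]
  simp [mn]

theorem int_ph2 (μ : Measure ℝ) [IsProbabilityMeasure μ] (x z : T d L) :
    ∫ V, (ph (V z) - mn μ) * (ph (V x) - mn μ) ∂(Measure.pi fun _ : T d L => μ) =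
      if x = z then vr μ else 0 := by
  by_cases h : x = z
  · subst h
    rw [if_pos rfl]
    have h1 := integral_comp_eval (μ := fun _ : T d L => μ) (i := x)
      (f := fun t => (ph t - mn μ) ^ 2) ((ph_meas _).pow_const 2).aestronglyMeasurable
    unfold vr
    rw [← h1]
    exact integral_congr_ae (Filter.Eventually.of_forall fun V => by ring)
  · rw [if_neg h]
    have h1 := ProbabilityTheory.iIndepFun_pi (μ := fun _ : T d L => μ)
      (X := fun _ t => ph t - mn μ) (fun _ => (ph_meas _).aemeasurable)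
    have h2 := h1.indepFun (i := z) (j := x) (fun h' => h h'.symm)
    have h3 := h2.integral_fun_mul_eq_mul_integral
      (((ph_meas (mn μ)).comp (measurable_pi_apply z)).aestronglyMeasurable)
      (((ph_meas (mn μ)).comp (measurable_pi_apply x)).aestronglyMeasurable)
    rw [h3, int_ph, zero_mul]

theorem lf_mean (μ : Measure ℝ) [IsProbabilityMeasure μ] (g : T d L → ℝ) (x : T d L) :
    ∫ V, lf (mn μ) g V x ∂(Measure.pi fun _ : T d L => μ) = 0 := by
  unfold lf
  rw [integral_finsetSum]
  · refine Finset.sum_eq_zero fun z _ => ?_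
    rw [integral_const_mul, int_ph, mul_zero]
  · intro z _
    refine int_cb μ (|g (x - z)| * 2) (continuous_const.mul
      ((ph_cont.comp (continuous_apply z)).sub continuous_const)) fun V => ?_
    rw [abs_mul]
    refine mul_le_mul_of_nonneg_left ?_ (abs_nonneg _)
    refine (abs_sub _ _).trans ?_
    have := ph_abs (V z)
    have := mn_abs μ
    linarith

/-- the energy of the linear field -/
theorem lf_var (μ : Measure ℝ) [IsProbabilityMeasure μ] (g : T d L → ℝ) (x : T d L) :
    ∫ V, lf (mn μ) g V x * (ph (V x) - mn μ) ∂(Measure.pi fun _ : T d L => μ) = vr μ * g 0 := by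
  have h1 : ∀ V : T d L → ℝ, lf (mn μ) g V x * (ph (V x) - mn μ) =
      ∑ z, g (x - z) * ((ph (V z) - mn μ) * (ph (V x) - mn μ)) := by
    intro V
    unfold lf
    rw [Finset.sum_mul]
    exact Finset.sum_congr rfl fun z _ => by ring
  rw [integral_congr_ae (Filter.Eventually.of_forall h1), integral_finsetSum]
  · have h2 : ∀ z, ∫ V, g (x - z) * ((ph (V z) - mn μ) * (ph (V x) - mn μ))
        ∂(Measure.pi fun _ : T d L => μ) = if z = x then vr μ * g 0 else 0 := by
      intro z
      rw [integral_const_mul, int_ph2]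
      by_cases h : x = z
      · subst h; simp [mul_comm]
      · rw [if_neg h, if_neg (fun h' => h h'.symm), mul_zero]
    rw [Finset.sum_congr rfl fun z _ => h2 z]
    simp
  · intro z _
    refine int_cb μ (|g (x - z)| * 4) (continuous_const.mul
      (((ph_cont.comp (continuous_apply z)).sub continuous_const).mul
      ((ph_cont.comp (continuous_apply x)).sub continuous_const))) fun V => ?_
    rw [abs_mul, abs_mul]
    refine mul_le_mul_of_nonneg_left ?_ (abs_nonneg _)
    have h3 : ∀ y : T d L, |ph (V y) - mn μ| ≤ 2 := by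
      intro y
      refine (abs_sub _ _).trans ?_
      have := ph_abs (V y)
      have := mn_abs μ
      linarith
    have := h3 z
    have := h3 x
    nlinarith [abs_nonneg (ph (V z) - mn μ), abs_nonneg (ph (V x) - mn μ)]

/-- Gaussian tail from a moment generating function bound -/
theorem tail_of_mgf (μ : Measure ℝ) [IsProbabilityMeasure μ] (F : (T d L → ℝ) → ℝ)
    (hF : Continuous F) (B : ℝ) (hB : ∀ V, |F V| ≤ B) (K : ℝ) (hK : 0 < K)
    (h : ∀ θ : ℝ, ∫ V, Real.exp (θ * F V) ∂(Measure.pi fun _ : T d L => μ) ≤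
      Real.exp (K * θ ^ 2)) (t : ℝ) (ht : 0 < t) :
    (Measure.pi fun _ : T d L => μ).real {V | t ≤ |F V|} ≤ 2 * Real.exp (-(t ^ 2 / (4 * K))) := by
  obtain ⟨θ, hθ⟩ : ∃ z : ℝ, z = t / (2 * K) := ⟨_, rfl⟩
  have hθ0 : 0 < θ := by rw [hθ]; positivity
  have key : ∀ s : ℝ, (s = 1 ∨ s = -1) → (Measure.pi fun _ : T d L => μ).real
      {V | t ≤ s * F V} ≤ Real.exp (-(t ^ 2 / (4 * K))) := by
    intro s hs
    have hs2 : s ^ 2 = 1 := by rcases hs with h | h <;> rw [h] <;> norm_num
    have hm := h (θ * s)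
    have hint : Integrable (fun V : T d L → ℝ => Real.exp (θ * s * F V))
        (Measure.pi fun _ : T d L => μ) := by
      refine int_cb μ (Real.exp (|θ * s| * B)) (Real.continuous_exp.comp (continuous_const.mul hF))
        fun V => ?_
      rw [abs_of_pos (Real.exp_pos _)]
      refine Real.exp_le_exp.2 ?_
      calc θ * s * F V ≤ |θ * s * F V| := le_abs_self _
        _ = |θ * s| * |F V| := abs_mul _ _
        _ ≤ _ := mul_le_mul_of_nonneg_left (hB V) (abs_nonneg _)
    have hmk := mul_meas_ge_le_integral_of_nonneg (μ := Measure.pi fun _ : T d L => μ)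
      (f := fun V : T d L → ℝ => Real.exp (θ * s * F V))
      (Filter.Eventually.of_forall fun ω => (Real.exp_pos _).le) hint (Real.exp (θ * t))
    have hset : {V : T d L → ℝ | Real.exp (θ * t) ≤ Real.exp (θ * s * F V)} =
        {V | t ≤ s * F V} := by
      ext ω
      simp only [Set.mem_ofPred_eq, Real.exp_le_exp, mul_assoc]
      exact ⟨fun h => le_of_mul_le_mul_left h hθ0, fun h => mul_le_mul_of_nonneg_left h hθ0.le⟩
    rw [hset] at hmk
    have h2 := hmk.trans hm
    have h3 : (Measure.pi fun _ : T d L => μ).real {V | t ≤ s * F V} =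
        Real.exp (-(θ * t)) * (Real.exp (θ * t) *
        (Measure.pi fun _ : T d L => μ).real {V | t ≤ s * F V}) := by
      rw [← mul_assoc, ← Real.exp_add]; simp
    rw [h3]
    refine (mul_le_mul_of_nonneg_left h2 (Real.exp_pos _).le).trans (le_of_eq ?_)
    rw [← Real.exp_add, mul_pow, hs2, hθ]
    congr 1
    field_simp
    ring
  have hsub : {V : T d L → ℝ | t ≤ |F V|} ⊆ {V | t ≤ 1 * F V} ∪ {V | t ≤ -1 * F V} := by
    intro V hV
    have hV' : t ≤ |F V| := hV
    rcases le_abs.1 hV' with h | h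
    · left
      show t ≤ 1 * F V
      linarith
    · right
      show t ≤ -1 * F V
      linarith
  have h1 := key 1 (Or.inl rfl)
  have h2 := key (-1) (Or.inr rfl)
  have h3 := (measureReal_mono hsub).trans (measureReal_union_le (μ := Measure.pi fun _ : T d L => μ)
    {V | t ≤ 1 * F V} {V | t ≤ -1 * F V})
  linarith

theorem lf_mgf (μ : Measure ℝ) [IsProbabilityMeasure μ] (κ R : ℝ) (hκ : 0 < κ) (hR : 0 ≤ R)
    (g : T d L → ℝ) (hg0 : ∀ x, 0 ≤ g x)
    (hg : ∀ x, LapW (fun _ => 1) g x + κ * g x = if x = 0 then 1 else 0)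
    (hg2 : ∑ x, g x ^ 2 ≤ R) (x : T d L) (θ : ℝ) :
    ∫ V, Real.exp (θ * lf (mn μ) g V x) ∂(Measure.pi fun _ : T d L => μ) ≤
      Real.exp (4 * R * θ ^ 2) := by
  have hsum : ∑ z, g (x - z) ^ 2 ≤ R := by
    refine le_trans (le_of_eq ?_) hg2
    exact Fintype.sum_equiv (Equiv.subLeft x) _ _ fun z => rfl
  have hph1 : ph 1 = 1 := by unfold ph; norm_num
  have hphm : ph (-1) = -1 := by unfold ph; norm_num
  rcases lt_trichotomy θ 0 with hθ | hθ | hθ
  · have hm := AE.Ent.mgf μ (fun V : T d L → ℝ => -lf (mn μ) g V x)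
      (lf_cont (mn μ) g x).measurable.neg (2 / κ)
      (fun V => by rw [abs_neg]; exact lf_abs (mn μ) κ hκ (mn_abs μ) g hg0 hg V x) 1 (by
        intro V z
        have h1 := lf_upd (mn μ) g V x z 1
        have h2 : 0 ≤ g (x - z) * (ph 1 - ph (V z)) := by
          refine mul_nonneg (hg0 _) ?_
          have := (abs_le.1 (ph_abs (V z))).2
          rw [hph1]; linarith
        linarith) 2 (4 * R) (by norm_num) (by positivity) (by
        intro t ht V
        calc _ ≤ ∑ z, (t * (-lf (mn μ) g V x - -lf (mn μ) g (Function.update V z 1) x)) ^ 2 :=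
              Finset.sum_le_sum fun z _ => min_le_left _ _
          _ ≤ ∑ z, t ^ 2 * (4 * g (x - z) ^ 2) := by
              refine Finset.sum_le_sum fun z _ => ?_
              have h1 := lf_upd (mn μ) g V x z 1
              have h2 : -lf (mn μ) g V x - -lf (mn μ) g (Function.update V z 1) x =
                  g (x - z) * (ph 1 - ph (V z)) := by linarith
              rw [h2, mul_pow, mul_pow]
              have h3 : (ph 1 - ph (V z)) ^ 2 ≤ 4 := by
                have := abs_le.1 (ph_abs (V z))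
                rw [hph1]
                nlinarith
              have h4 : 0 ≤ g (x - z) ^ 2 := sq_nonneg _
              have h5 : 0 ≤ t ^ 2 := sq_nonneg _
              refine mul_le_mul_of_nonneg_left ?_ h5
              nlinarith
          _ = t ^ 2 * (4 * ∑ z, g (x - z) ^ 2) := by
              rw [Finset.mul_sum, Finset.mul_sum]
          _ ≤ t ^ 2 * (4 * R) := by gcongr
          _ = 4 * R * t ^ (2 : ℝ) := by rw [Real.rpow_two]; ring) (-θ) (by linarith)
    rw [integral_neg, lf_mean, neg_zero, mul_zero, zero_add, Real.rpow_two] at hm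
    simp only [neg_mul_neg] at hm
    refine hm.trans (Real.exp_le_exp.2 (le_of_eq ?_))
    ring
  · subst hθ
    simp
  · have hm := AE.Ent.mgf μ (fun V : T d L → ℝ => lf (mn μ) g V x)
      (lf_cont (mn μ) g x).measurable (2 / κ)
      (fun V => lf_abs (mn μ) κ hκ (mn_abs μ) g hg0 hg V x) (-1) (by
        intro V z
        have h1 := lf_upd (mn μ) g V x z (-1)
        have h2 : 0 ≤ g (x - z) * (ph (V z) - ph (-1)) := by
          refine mul_nonneg (hg0 _) ?_
          have := (abs_le.1 (ph_abs (V z))).1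
          rw [hphm]; linarith
        linarith) 2 (4 * R) (by norm_num) (by positivity) (by
        intro t ht V
        calc _ ≤ ∑ z, (t * (lf (mn μ) g V x - lf (mn μ) g (Function.update V z (-1)) x)) ^ 2 :=
              Finset.sum_le_sum fun z _ => min_le_left _ _
          _ ≤ ∑ z, t ^ 2 * (4 * g (x - z) ^ 2) := by
              refine Finset.sum_le_sum fun z _ => ?_
              have h1 := lf_upd (mn μ) g V x z (-1)
              have h2 : lf (mn μ) g V x - lf (mn μ) g (Function.update V z (-1)) x =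
                  -(g (x - z) * (ph (-1) - ph (V z))) := by linarith
              rw [h2, mul_pow, neg_sq, mul_pow]
              have h3 : (ph (-1) - ph (V z)) ^ 2 ≤ 4 := by
                have := abs_le.1 (ph_abs (V z))
                rw [hphm]
                nlinarith
              have h4 : 0 ≤ g (x - z) ^ 2 := sq_nonneg _
              have h5 : 0 ≤ t ^ 2 := sq_nonneg _
              refine mul_le_mul_of_nonneg_left ?_ h5
              nlinarith
          _ = t ^ 2 * (4 * ∑ z, g (x - z) ^ 2) := by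
              rw [Finset.mul_sum, Finset.mul_sum]
          _ ≤ t ^ 2 * (4 * R) := by gcongr
          _ = 4 * R * t ^ (2 : ℝ) := by rw [Real.rpow_two]; ring) θ hθ
    rw [lf_mean, mul_zero, zero_add, Real.rpow_two] at hm
    refine hm.trans (Real.exp_le_exp.2 (le_of_eq ?_))
    ring

/-- second moment from a moment generating function bound -/
theorem sq_of_mgf (μ : Measure ℝ) [IsProbabilityMeasure μ] (F : (T d L → ℝ) → ℝ)
    (hF : Continuous F) (B : ℝ) (hB : ∀ V, |F V| ≤ B) (K : ℝ) (hK : 0 < K)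
    (h : ∀ θ : ℝ, ∫ V, Real.exp (θ * F V) ∂(Measure.pi fun _ : T d L => μ) ≤
      Real.exp (K * θ ^ 2)) :
    ∫ V, F V ^ 2 ∂(Measure.pi fun _ : T d L => μ) ≤ 4 * K := by
  obtain ⟨θ, hθ⟩ : ∃ z : ℝ, z = 1 / Real.sqrt K := ⟨_, rfl⟩
  have hsK : 0 < Real.sqrt K := Real.sqrt_pos.2 hK
  have hθ2 : K * θ ^ 2 = 1 := by
    rw [hθ, div_pow, Real.sq_sqrt hK.le]
    field_simp
  have hB0 : 0 ≤ B := (abs_nonneg _).trans (hB 0)
  have hi : ∀ s : ℝ, Integrable (fun V : T d L → ℝ => Real.exp (s * F V))
      (Measure.pi fun _ : T d L => μ) := by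
    intro s
    refine int_cb μ (Real.exp (|s| * B)) (Real.continuous_exp.comp (continuous_const.mul hF))
      fun V => ?_
    rw [abs_of_pos (Real.exp_pos _)]
    refine Real.exp_le_exp.2 ?_
    calc s * F V ≤ |s * F V| := le_abs_self _
      _ = |s| * |F V| := abs_mul _ _
      _ ≤ _ := mul_le_mul_of_nonneg_left (hB V) (abs_nonneg _)
  have hi2 : Integrable (fun V : T d L → ℝ => F V ^ 2) (Measure.pi fun _ : T d L => μ) := by
    refine int_cb μ (B ^ 2) (hF.pow 2) fun V => ?_
    rw [abs_of_nonneg (sq_nonneg _), ← sq_abs]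
    exact pow_le_pow_left₀ (abs_nonneg _) (hB V) 2
  have hpt : ∀ V : T d L → ℝ, θ ^ 2 * F V ^ 2 ≤ Real.exp (θ * F V) + Real.exp (-θ * F V) - 2 := by
    intro V
    have h1 := Real.cosh_eq (θ * F V)
    have h2 : (θ * F V) ^ 2 / 2 + 1 ≤ Real.cosh (θ * F V) := by
      have h3 : Real.cosh (θ * F V) - 1 = 2 * Real.sinh (θ * F V / 2) ^ 2 := by
        have h := Real.cosh_two_mul (θ * F V / 2)
        have h' := Real.cosh_sq (θ * F V / 2)
        rw [show 2 * (θ * F V / 2) = θ * F V by ring] at h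
        rw [h, h']; ring
      have h4 : (θ * F V / 2) ^ 2 ≤ Real.sinh (θ * F V / 2) ^ 2 := by
        rw [sq_le_sq, Real.abs_sinh]
        rw [Real.self_le_sinh_iff]
        exact abs_nonneg _
      nlinarith
    have h5 : -θ * F V = -(θ * F V) := by ring
    rw [h5]
    nlinarith
  have h1 := integral_mono (hi2.const_mul (θ ^ 2)) (((hi θ).add (hi (-θ))).sub (integrable_const 2))
    hpt
  rw [integral_const_mul, integral_sub' ((hi θ).add (hi (-θ))) (integrable_const 2),
    integral_add' (hi θ) (hi (-θ)), integral_const] at h1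
  have h2 := h θ
  have h3 := h (-θ)
  rw [neg_sq, hθ2] at h3
  rw [hθ2] at h2
  have he := Real.exp_one_lt_d9
  simp only [probReal_univ, smul_eq_mul, one_mul] at h1
  have h4 : θ ^ 2 * ∫ V, F V ^ 2 ∂(Measure.pi fun _ : T d L => μ) ≤ 4 := by linarith
  have h5 : K * (θ ^ 2 * ∫ V, F V ^ 2 ∂(Measure.pi fun _ : T d L => μ)) ≤ K * 4 := by gcongr
  have h6 : K * (θ ^ 2 * ∫ V, F V ^ 2 ∂(Measure.pi fun _ : T d L => μ)) =
      ∫ V, F V ^ 2 ∂(Measure.pi fun _ : T d L => μ) := by
    rw [← mul_assoc, hθ2, one_mul]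
  linarith

/-- splitting of `RR` -/
theorem RR_le (f w : T d L → ℝ) (hwb : ∀ x, |w x| ≤ 1 / 4) (M δ : ℝ) (hδ : 0 ≤ δ)
    (hf : ∀ x, |f x| ≤ M) :
    RR f w ≤ δ * CC w + M / 4 * ∑ i : Fin d, ∑ x : T d L,
      ((if δ ≤ |f x| then (1 : ℝ) else 0) + (if δ ≤ |f (x + Pi.single i 1)| then 1 else 0)) := by
  unfold RR CC
  rw [Finset.mul_sum, Finset.mul_sum, ← Finset.sum_add_distrib]
  refine Finset.sum_le_sum fun i _ => ?_
  rw [Finset.mul_sum, Finset.mul_sum, ← Finset.sum_add_distrib]
  refine Finset.sum_le_sum fun x _ => ?_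
  obtain ⟨a, ha⟩ : ∃ a, a = w (x + Pi.single i 1) - w x := ⟨_, rfl⟩
  rw [← ha]
  have h2 : |a| ≤ 1 / 2 := by
    rw [ha]
    refine (abs_sub _ _).trans ?_
    have := hwb x
    have := hwb (x + Pi.single i 1)
    linarith
  have h3 := cosh_le a (by linarith)
  have h4 : Real.cosh a - 1 ≤ 1 / 4 := by
    refine h3.trans ?_
    rw [← sq_abs]
    nlinarith [abs_nonneg a]
  have h5 := cosh_sub_one_nonneg a
  have key : ∀ y : T d L, |f y| * (Real.cosh a - 1) ≤
      δ * (Real.cosh a - 1) + M / 4 * (if δ ≤ |f y| then (1 : ℝ) else 0) := by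
    intro y
    have hM : 0 ≤ M := (abs_nonneg _).trans (hf y)
    by_cases hy : δ ≤ |f y|
    · rw [if_pos hy]
      have h6 : |f y| * (Real.cosh a - 1) ≤ M * (1 / 4) := mul_le_mul (hf y) h4 h5 hM
      have : 0 ≤ δ * (Real.cosh a - 1) := mul_nonneg hδ h5
      linarith
    · rw [if_neg hy]
      push Not at hy
      have := mul_le_mul_of_nonneg_right hy.le h5
      linarith
  have k1 := key x
  have k2 := key (x + Pi.single i 1)
  linarith

theorem CC_nonneg (w : T d L → ℝ) : 0 ≤ CC w := by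
  unfold CC
  refine Finset.sum_nonneg fun i _ => Finset.sum_nonneg fun x _ => ?_
  have := cosh_sub_one_nonneg (w (x + Pi.single i 1) - w x)
  linarith

theorem RR_nonneg (f w : T d L → ℝ) : 0 ≤ RR f w := by
  unfold RR
  refine Finset.sum_nonneg fun i _ => Finset.sum_nonneg fun x _ => ?_
  exact mul_nonneg (by positivity) (cosh_sub_one_nonneg _)

theorem card_pos' : (0 : ℝ) < (Fintype.card (T d L) : ℝ) := by
  exact_mod_cast Fintype.card_pos

theorem CC_bd (w : T d L → ℝ) (hwb : ∀ x, |w x| ≤ 1 / 4) :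
    CC w ≤ (d : ℝ) * (Fintype.card (T d L) : ℝ) := by
  unfold CC
  have h : ∀ (i : Fin d), ∑ x : T d L, 2 * (Real.cosh (w (x + Pi.single i 1) - w x) - 1) ≤
      (Fintype.card (T d L) : ℝ) := by
    intro i
    have h1 : ∀ x ∈ (Finset.univ : Finset (T d L)),
        2 * (Real.cosh (w (x + Pi.single i 1) - w x) - 1) ≤ 1 := by
      intro x _
      have h2 : |w (x + Pi.single i 1) - w x| ≤ 1 / 2 := by
        refine (abs_sub _ _).trans ?_
        have := hwb x
        have := hwb (x + Pi.single i 1)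
        linarith
      have h3 := cosh_le (w (x + Pi.single i 1) - w x) (by linarith)
      rw [← sq_abs] at h3
      nlinarith [abs_nonneg (w (x + Pi.single i 1) - w x)]
    refine (Finset.sum_le_sum h1).trans (le_of_eq ?_)
    rw [Finset.sum_const, Finset.card_univ, nsmul_eq_mul, mul_one]
  refine (Finset.sum_le_sum fun i _ => h i).trans (le_of_eq ?_)
  rw [Finset.sum_const, Finset.card_univ, Fintype.card_fin, nsmul_eq_mul]

theorem RR_bd (f w : T d L → ℝ) (hwb : ∀ x, |w x| ≤ 1 / 4) (M : ℝ) (hf : ∀ x, |f x| ≤ M) :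
    RR f w ≤ M * CC w := by
  unfold RR CC
  rw [Finset.mul_sum]
  refine Finset.sum_le_sum fun i _ => ?_
  rw [Finset.mul_sum]
  refine Finset.sum_le_sum fun x _ => ?_
  have h5 := cosh_sub_one_nonneg (w (x + Pi.single i 1) - w x)
  have h6 : |f x| + |f (x + Pi.single i 1)| ≤ 2 * M := by
    have := hf x
    have := hf (x + Pi.single i 1)
    linarith
  calc _ ≤ 2 * M * (Real.cosh (w (x + Pi.single i 1) - w x) - 1) :=
        mul_le_mul_of_nonneg_right h6 h5
    _ = _ := by ring

section
variable {lam κ A : ℝ} {β : ℝ → ℝ}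

open Classical in
theorem level (hp : Pen lam κ (1 / 4) A β) (μ : Measure ℝ) [IsProbabilityMeasure μ] (E : ℝ)
    (hE : |E| ≤ lam)
    (hmean : ∀ x, ∫ V, W (d := d) (L := L) β lam E V x ∂(Measure.pi fun _ : T d L => μ) = 0)
    (g : T d L → ℝ) (hg0 : ∀ x, 0 ≤ g x)
    (hg : ∀ x, LapW (fun _ => 1) g x + κ * g x = if x = 0 then 1 else 0)
    (δ t p q B1 B2 : ℝ) (hδ : 0 ≤ δ) (ht : 0 ≤ t)
    (hpx : ∀ x, (Measure.pi fun _ : T d L => μ).real {V | δ ≤ |W β lam E V x|} ≤ p)
    (hqx : ∀ x, (Measure.pi fun _ : T d L => μ).real {V | t ≤ |lf (mn μ) g V x|} ≤ q)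
    (hB1 : ∀ x, |∫ V, β (W β lam E V x) ∂(Measure.pi fun _ : T d L => μ)| ≤ B1)
    (hB2 : ∀ x, ∫ V, β (W β lam E V x) ^ 2 ∂(Measure.pi fun _ : T d L => μ) ≤ B2) :
    |lam * mn μ - E - lam ^ 2 * (vr μ * g 0)| ≤
      4 * (δ + lam * t) * (lam ^ 2 * (vr μ * g 0)) + d * p + 2 * lam * d * q / κ + B1 + B2 / κ := by
  have hlam := hp.hlam
  have hκ := hp.hκ
  have hwb : ∀ (V : T d L → ℝ) x, |W β lam E V x| ≤ 1 / 4 := fun V x => W_bound hp E hE V x
  have hwc : ∀ x, Continuous fun V : T d L → ℝ => W β lam E V x := fun x => W_cont hp E hE x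
  have hsol : ∀ V : T d L → ℝ, IsS β lam (clamp V) E (W β lam E V) := fun V => W_sol hp E hE V
  have hlc : ∀ x, Continuous fun V : T d L → ℝ => lf (mn μ) g V x := fun x => lf_cont (mn μ) g x
  have hlb : ∀ (V : T d L → ℝ) x, |lf (mn μ) g V x| ≤ 2 / κ := fun V x =>
    lf_abs (mn μ) κ hκ (mn_abs μ) g hg0 hg V x
  have hl : ∀ (V : T d L → ℝ) x, LapW (fun _ => 1) (lf (mn μ) g V) x + κ * lf (mn μ) g V x =
      clamp V x - mn μ := fun V x => lf_eq (mn μ) κ g hg V x
  obtain ⟨N, hN⟩ : ∃ z : ℝ, z = (Fintype.card (T d L) : ℝ) := ⟨_, rfl⟩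
  have hN0 : 0 < N := by rw [hN]; exact card_pos'
  have hβb : ∀ (V : T d L → ℝ) x, |β (W β lam E V x)| ≤ A * (1 / 4) := by
    intro V x
    have hA := hp.hA
    rcases le_total 0 (W β lam E V x) with h | h
    · have h1 := hp.lip 0 _ h
      have h2 := hp.mono _ 0 h
      rw [hp.zero, sub_zero, sub_zero] at h1 h2
      have h3 : 0 ≤ β (W β lam E V x) := le_trans (by positivity) h2
      rw [abs_of_nonneg h3]
      have := hwb V x
      rw [abs_of_nonneg h] at this
      nlinarith
    · have h1 := hp.lip _ 0 h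
      have h2 := hp.mono 0 _ h
      rw [hp.zero, zero_sub, zero_sub] at h1 h2
      have h4 : 0 ≤ -W β lam E V x := by linarith
      have h3 : 0 ≤ -β (W β lam E V x) := le_trans (by positivity) h2
      rw [abs_of_nonpos (by linarith)]
      have := hwb V x
      rw [abs_of_nonpos h] at this
      nlinarith
  have hβc : ∀ x, Continuous fun V : T d L → ℝ => β (W β lam E V x) := fun x =>
    hp.cont.comp (hwc x)
  -- integrability
  have hCCc : Continuous fun V : T d L → ℝ => CC (W β lam E V) := by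
    unfold CC
    refine continuous_finsetSum _ fun i _ => continuous_finsetSum _ fun x _ => ?_
    exact continuous_const.mul ((Real.continuous_cosh.comp ((hwc _).sub (hwc _))).sub
      continuous_const)
  have iCC : Integrable (fun V => CC (W β lam E V)) (Measure.pi fun _ : T d L => μ) :=
    int_cb μ (d * (Fintype.card (T d L) : ℝ)) hCCc fun V => by
      rw [abs_of_nonneg (CC_nonneg _)]
      exact CC_bd _ (hwb V)
  have iRR : ∀ (F : (T d L → ℝ) → T d L → ℝ) (M : ℝ), (∀ x, Continuous fun V => F V x) →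
      (∀ V x, |F V x| ≤ M) → Integrable (fun V => RR (F V) (W β lam E V))
        (Measure.pi fun _ : T d L => μ) := by
    intro F M hF hM
    have hM0 : 0 ≤ M := (abs_nonneg _).trans (hM 0 0)
    refine int_cb μ (M * (d * (Fintype.card (T d L) : ℝ))) ?_ fun V => ?_
    · unfold RR
      refine continuous_finsetSum _ fun i _ => continuous_finsetSum _ fun x _ => ?_
      exact ((hF _).abs.add (hF _).abs).mul ((Real.continuous_cosh.comp ((hwc _).sub (hwc _))).sub
        continuous_const)
    · rw [abs_of_nonneg (RR_nonneg _ _)]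
      exact (RR_bd _ _ (hwb V) M (hM V)).trans (mul_le_mul_of_nonneg_left (CC_bd _ (hwb V)) hM0)
  have iRw := iRR (fun V => W β lam E V) (1 / 4) hwc hwb
  have iRl := iRR (fun V => lf (mn μ) g V) (2 / κ) hlc hlb
  have iw : ∀ x, Integrable (fun V => W β lam E V x) (Measure.pi fun _ : T d L => μ) := fun x =>
    int_cb μ (1 / 4) (hwc x) fun V => hwb V x
  have il : ∀ x, Integrable (fun V => lf (mn μ) g V x) (Measure.pi fun _ : T d L => μ) := fun x =>
    int_cb μ (2 / κ) (hlc x) fun V => hlb V x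
  have iβ : ∀ x, Integrable (fun V => β (W β lam E V x)) (Measure.pi fun _ : T d L => μ) := fun x =>
    int_cb μ (A * (1 / 4)) (hβc x) fun V => hβb V x
  have iβ2 : ∀ x, Integrable (fun V => β (W β lam E V x) ^ 2) (Measure.pi fun _ : T d L => μ) :=
    fun x => int_cb μ ((A * (1 / 4)) ^ 2) ((hβc x).pow 2) fun V => by
      rw [abs_of_nonneg (sq_nonneg _), ← sq_abs]
      exact pow_le_pow_left₀ (abs_nonneg _) (hβb V x) 2
  have hvb : ∀ (V : T d L → ℝ) x, |ph (V x) - mn μ| ≤ 2 := by
    intro V x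
    refine (abs_sub _ _).trans ?_
    have := ph_abs (V x)
    have := mn_abs μ
    linarith
  have hvc : ∀ x, Continuous fun V : T d L → ℝ => ph (V x) - mn μ := fun x =>
    (ph_cont.comp (continuous_apply x)).sub continuous_const
  have iv : ∀ x, Integrable (fun V : T d L → ℝ => ph (V x) - mn μ)
      (Measure.pi fun _ : T d L => μ) := fun x => int_cb μ 2 (hvc x) fun V => hvb V x
  have ilv : ∀ x, Integrable (fun V : T d L → ℝ => lf (mn μ) g V x * (ph (V x) - mn μ))
      (Measure.pi fun _ : T d L => μ) := fun x => int_cb μ (2 / κ * 2) ((hlc x).mul (hvc x))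
        fun V => by
          rw [abs_mul]
          exact mul_le_mul (hlb V x) (hvb V x) (abs_nonneg _) (by positivity)
  -- sums
  have sw : ∫ V, ∑ x, W β lam E V x ∂(Measure.pi fun _ : T d L => μ) = 0 := by
    rw [integral_finsetSum _ fun x _ => iw x]
    exact Finset.sum_eq_zero fun x _ => hmean x
  have sl : ∫ V, ∑ x, lf (mn μ) g V x ∂(Measure.pi fun _ : T d L => μ) = 0 := by
    rw [integral_finsetSum _ fun x _ => il x]
    exact Finset.sum_eq_zero fun x _ => lf_mean μ g x
  have sv : ∫ V, ∑ x, (ph (V x) - mn μ) ∂(Measure.pi fun _ : T d L => μ) = 0 := by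
    rw [integral_finsetSum _ fun x _ => iv x]
    exact Finset.sum_eq_zero fun x _ => int_ph μ x
  have slv : ∫ V, ∑ x, lf (mn μ) g V x * (ph (V x) - mn μ) ∂(Measure.pi fun _ : T d L => μ) =
      N * (vr μ * g 0) := by
    rw [integral_finsetSum _ fun x _ => ilv x, Finset.sum_congr rfl fun x _ => lf_var μ g x,
      Finset.sum_const, Finset.card_univ, nsmul_eq_mul, ← hN]
  have sβ : |∫ V, ∑ x, β (W β lam E V x) ∂(Measure.pi fun _ : T d L => μ)| ≤ N * B1 := by
    rw [integral_finsetSum _ fun x _ => iβ x]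
    refine (Finset.abs_sum_le_sum_abs _ _).trans ((Finset.sum_le_sum fun x _ => hB1 x).trans
      (le_of_eq ?_))
    rw [Finset.sum_const, Finset.card_univ, nsmul_eq_mul, ← hN]
  have sβ2 : ∫ V, ∑ x, β (W β lam E V x) ^ 2 ∂(Measure.pi fun _ : T d L => μ) ≤ N * B2 := by
    rw [integral_finsetSum _ fun x _ => iβ2 x]
    refine (Finset.sum_le_sum fun x _ => hB2 x).trans (le_of_eq ?_)
    rw [Finset.sum_const, Finset.card_univ, nsmul_eq_mul, ← hN]
  have isw := integrable_finsetSum (μ := Measure.pi fun _ : T d L => μ) Finset.univ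
    fun x _ => iw x
  have isl := integrable_finsetSum (μ := Measure.pi fun _ : T d L => μ) Finset.univ
    fun x _ => il x
  have isv := integrable_finsetSum (μ := Measure.pi fun _ : T d L => μ) Finset.univ
    fun x _ => iv x
  have islv := integrable_finsetSum (μ := Measure.pi fun _ : T d L => μ) Finset.univ
    fun x _ => ilv x
  have isβ := integrable_finsetSum (μ := Measure.pi fun _ : T d L => μ) Finset.univ
    fun x _ => iβ x
  have isβ2 := integrable_finsetSum (μ := Measure.pi fun _ : T d L => μ) Finset.univ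
    fun x _ => iβ2 x
  obtain ⟨cb, hcb⟩ : ∃ z : ℝ, z = ∫ V, CC (W β lam E V) ∂(Measure.pi fun _ : T d L => μ) :=
    ⟨_, rfl⟩
  obtain ⟨rw', hrw⟩ : ∃ z : ℝ, z = ∫ V, RR (W β lam E V) (W β lam E V)
    ∂(Measure.pi fun _ : T d L => μ) := ⟨_, rfl⟩
  obtain ⟨rl, hrl⟩ : ∃ z : ℝ, z = ∫ V, RR (lf (mn μ) g V) (W β lam E V)
    ∂(Measure.pi fun _ : T d L => μ) := ⟨_, rfl⟩
  obtain ⟨G0, hG0⟩ : ∃ z : ℝ, z = lam ^ 2 * (vr μ * g 0) := ⟨_, rfl⟩
  have hcb0 : 0 ≤ cb := by rw [hcb]; exact integral_nonneg fun V => CC_nonneg _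
  -- the mean equation
  have h6 : cb = N * (lam * mn μ - E) +
      ∫ V, ∑ x, β (W β lam E V x) ∂(Measure.pi fun _ : T d L => μ) := by
    have hpt : ∀ V : T d L → ℝ, CC (W β lam E V) = lam * ∑ x, (ph (V x) - mn μ) +
        N * (lam * mn μ - E) + ∑ x, β (W β lam E V x) := by
      intro V
      have h := P0 lam E β (clamp V) (W β lam E V) (hsol V)
      rw [h, ← hN, Finset.sum_sub_distrib, Finset.sum_const, Finset.card_univ, nsmul_eq_mul, ← hN]
      have : ∑ x, clamp V x = ∑ x, ph (V x) := rfl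
      rw [this]
      ring
    rw [hcb, integral_congr_ae (Filter.Eventually.of_forall hpt)]
    have e1 := integral_add ((isv.const_mul lam).add (integrable_const (N * (lam * mn μ - E)))) isβ
    have e2 := integral_add (isv.const_mul lam) (integrable_const (μ := Measure.pi
      fun _ : T d L => μ) (N * (lam * mn μ - E)))
    simp only [Pi.add_apply] at e1
    rw [e1, e2, integral_const_mul, sv, integral_const]
    simp
  -- first bound
  have h3 : cb ≤ N * G0 + 2 * rw' := by
    have hpt : ∀ V : T d L → ℝ, CC (W β lam E V) ≤ lam ^ 2 * ∑ x, lf (mn μ) g V x *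
        (ph (V x) - mn μ) + 2 * RR (W β lam E V) (W β lam E V) +
        2 * (E - lam * mn μ) * ∑ x, W β lam E V x := by
      intro V
      have h := P1 hp E (mn μ) (clamp V) (W β lam E V) (lf (mn μ) g V) (hsol V) (hl V)
      refine h.trans (le_of_eq ?_)
      have : ∑ x, lf (mn μ) g V x * (clamp V x - mn μ) =
        ∑ x, lf (mn μ) g V x * (ph (V x) - mn μ) := rfl
      rw [this]
      ring
    have h := integral_mono iCC (((islv.const_mul (lam ^ 2)).add (iRw.const_mul 2)).add
      (isw.const_mul (2 * (E - lam * mn μ)))) hpt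
    rw [integral_add' ((islv.const_mul (lam ^ 2)).add (iRw.const_mul 2))
      (isw.const_mul (2 * (E - lam * mn μ))), integral_add' (islv.const_mul (lam ^ 2))
      (iRw.const_mul 2), integral_const_mul, integral_const_mul, integral_const_mul, sw, slv,
      ← hcb, ← hrw] at h
    rw [hG0]
    linarith
  have h1 : rw' ≤ cb / 4 := by
    have hpt : ∀ V : T d L → ℝ, RR (W β lam E V) (W β lam E V) ≤ 1 / 4 * CC (W β lam E V) :=
      fun V => RR_bd _ _ (hwb V) (1 / 4) (hwb V)
    have h := integral_mono iRw (iCC.const_mul (1 / 4)) hpt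
    rw [integral_const_mul, ← hcb, ← hrw] at h
    linarith
  have hcb2 : cb ≤ 2 * (N * G0) := by linarith
  -- indicator sums
  have hind : ∀ (F : (T d L → ℝ) → T d L → ℝ) (s r : ℝ), (∀ x, Continuous fun V => F V x) →
      (∀ x, (Measure.pi fun _ : T d L => μ).real {V | s ≤ |F V x|} ≤ r) →
      Integrable (fun V => ∑ i : Fin d, ∑ x : T d L, ((if s ≤ |F V x| then (1 : ℝ) else 0) +
          (if s ≤ |F V (x + Pi.single i 1)| then 1 else 0))) (Measure.pi fun _ : T d L => μ) ∧
      ∫ V, ∑ i : Fin d, ∑ x : T d L, ((if s ≤ |F V x| then (1 : ℝ) else 0) +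
          (if s ≤ |F V (x + Pi.single i 1)| then 1 else 0)) ∂(Measure.pi fun _ : T d L => μ) ≤
          2 * d * N * r := by
    intro F s r hF hr
    have hms : ∀ x, MeasurableSet {V : T d L → ℝ | s ≤ |F V x|} := fun x =>
      (isClosed_le continuous_const (hF x).abs).measurableSet
    have he : ∀ x, (fun V : T d L → ℝ => if s ≤ |F V x| then (1 : ℝ) else 0) =
        Set.indicator {V : T d L → ℝ | s ≤ |F V x|} 1 := by
      intro x
      funext V
      simp [Set.indicator_apply]
    have hi : ∀ x, Integrable (fun V : T d L → ℝ => if s ≤ |F V x| then (1 : ℝ) else 0)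
        (Measure.pi fun _ : T d L => μ) := by
      intro x
      rw [he x]
      exact (integrable_const (1 : ℝ)).indicator (hms x)
    have hv : ∀ x, ∫ V : T d L → ℝ, (if s ≤ |F V x| then (1 : ℝ) else 0)
        ∂(Measure.pi fun _ : T d L => μ) ≤ r := by
      intro x
      rw [he x, integral_indicator_one (hms x)]
      exact hr x
    have hi2 : ∀ (i : Fin d) (x : T d L), Integrable (fun V : T d L → ℝ =>
        ((if s ≤ |F V x| then (1 : ℝ) else 0) +
          (if s ≤ |F V (x + Pi.single i 1)| then 1 else 0))) (Measure.pi fun _ : T d L => μ) :=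
      fun i x => (hi x).add (hi (x + Pi.single i 1))
    have hi3 : ∀ (i : Fin d), Integrable (fun V : T d L → ℝ => ∑ x : T d L,
        ((if s ≤ |F V x| then (1 : ℝ) else 0) +
          (if s ≤ |F V (x + Pi.single i 1)| then 1 else 0))) (Measure.pi fun _ : T d L => μ) :=
      fun i => integrable_finsetSum _ fun x _ => hi2 i x
    refine ⟨integrable_finsetSum _ fun i _ => hi3 i, ?_⟩
    rw [integral_finsetSum _ fun i _ => hi3 i]
    have h4 : ∀ i : Fin d, ∫ V, ∑ x : T d L, ((if s ≤ |F V x| then (1 : ℝ) else 0) +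
          (if s ≤ |F V (x + Pi.single i 1)| then 1 else 0)) ∂(Measure.pi fun _ : T d L => μ) ≤
          N * (2 * r) := by
      intro i
      rw [integral_finsetSum _ fun x _ => hi2 i x]
      refine (Finset.sum_le_sum (g := fun _ => 2 * r) fun x _ => ?_).trans (le_of_eq ?_)
      · rw [integral_add (hi x) (hi (x + Pi.single i 1))]
        have := hv x
        have := hv (x + Pi.single i 1)
        linarith
      · rw [Finset.sum_const, Finset.card_univ, nsmul_eq_mul, ← hN]
    refine (Finset.sum_le_sum fun i _ => h4 i).trans (le_of_eq ?_)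
    rw [Finset.sum_const, Finset.card_univ, Fintype.card_fin, nsmul_eq_mul]
    ring
  have h2 : rw' ≤ δ * cb + d / 8 * (N * p) := by
    obtain ⟨k1, k2⟩ := hind (fun V => W β lam E V) δ p hwc hpx
    have hpt : ∀ V : T d L → ℝ, RR (W β lam E V) (W β lam E V) ≤ δ * CC (W β lam E V) +
        1 / 4 / 4 * ∑ i : Fin d, ∑ x : T d L, ((if δ ≤ |W β lam E V x| then (1 : ℝ) else 0) +
          (if δ ≤ |W β lam E V (x + Pi.single i 1)| then 1 else 0)) := fun V => by
      convert RR_le (W β lam E V) (W β lam E V) (hwb V) (1 / 4) δ hδ (hwb V)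
    have h := integral_mono iRw ((iCC.const_mul δ).add (k1.const_mul (1 / 4 / 4))) hpt
    rw [integral_add' (iCC.const_mul δ) (k1.const_mul (1 / 4 / 4)), integral_const_mul,
      integral_const_mul, ← hcb, ← hrw] at h
    have h7 : 1 / 4 / 4 * ∫ V, ∑ i : Fin d, ∑ x : T d L,
        ((if δ ≤ |W β lam E V x| then (1 : ℝ) else 0) +
          (if δ ≤ |W β lam E V (x + Pi.single i 1)| then 1 else 0))
          ∂(Measure.pi fun _ : T d L => μ) ≤ 1 / 4 / 4 * (2 * d * N * p) := by
      gcongr
    linarith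
  have h4 : rl ≤ t * cb + d * (N * q) / κ := by
    obtain ⟨k1, k2⟩ := hind (fun V => lf (mn μ) g V) t q hlc hqx
    have hpt : ∀ V : T d L → ℝ, RR (lf (mn μ) g V) (W β lam E V) ≤ t * CC (W β lam E V) +
        2 / κ / 4 * ∑ i : Fin d, ∑ x : T d L, ((if t ≤ |lf (mn μ) g V x| then (1 : ℝ) else 0) +
          (if t ≤ |lf (mn μ) g V (x + Pi.single i 1)| then 1 else 0)) := fun V => by
      convert RR_le (lf (mn μ) g V) (W β lam E V) (hwb V) (2 / κ) t ht (hlb V)
    have h := integral_mono iRl ((iCC.const_mul t).add (k1.const_mul (2 / κ / 4))) hpt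
    rw [integral_add' (iCC.const_mul t) (k1.const_mul (2 / κ / 4)), integral_const_mul,
      integral_const_mul, ← hcb, ← hrl] at h
    have h7 : 2 / κ / 4 * ∫ V, ∑ i : Fin d, ∑ x : T d L,
        ((if t ≤ |lf (mn μ) g V x| then (1 : ℝ) else 0) +
          (if t ≤ |lf (mn μ) g V (x + Pi.single i 1)| then 1 else 0))
          ∂(Measure.pi fun _ : T d L => μ) ≤ 2 / κ / 4 * (2 * d * N * q) := by
      gcongr
    have h8 : 2 / κ / 4 * (2 * d * N * q) = d * (N * q) / κ := by ring
    linarith
  have h5 : N * G0 ≤ cb + rw' / 2 + N * B2 / κ + 2 * lam * rl := by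
    have hpt : ∀ V : T d L → ℝ, lam ^ 2 * ∑ x, lf (mn μ) g V x * (ph (V x) - mn μ) ≤
        CC (W β lam E V) + 1 / 2 * RR (W β lam E V) (W β lam E V) +
          1 / κ * (∑ x, β (W β lam E V x) ^ 2) + 2 * lam * RR (lf (mn μ) g V) (W β lam E V) +
          2 * lam * (E - lam * mn μ) * ∑ x, lf (mn μ) g V x := by
      intro V
      have h := P2 hp E (mn μ) (clamp V) (W β lam E V) (lf (mn μ) g V) (hsol V) (hl V) (hwb V)
      have e : ∑ x, lf (mn μ) g V x * (clamp V x - mn μ) =
        ∑ x, lf (mn μ) g V x * (ph (V x) - mn μ) := rfl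
      rw [e] at h
      refine h.trans (le_of_eq ?_)
      ring
    have h := integral_mono (islv.const_mul (lam ^ 2)) ((((iCC.add (iRw.const_mul (1 / 2))).add
      (isβ2.const_mul (1 / κ))).add (iRl.const_mul (2 * lam))).add
      (isl.const_mul (2 * lam * (E - lam * mn μ)))) hpt
    rw [integral_add' (((iCC.add (iRw.const_mul (1 / 2))).add
      (isβ2.const_mul (1 / κ))).add (iRl.const_mul (2 * lam)))
      (isl.const_mul (2 * lam * (E - lam * mn μ))), integral_add' ((iCC.add
      (iRw.const_mul (1 / 2))).add (isβ2.const_mul (1 / κ))) (iRl.const_mul (2 * lam)),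
      integral_add' (iCC.add (iRw.const_mul (1 / 2))) (isβ2.const_mul (1 / κ)),
      integral_add' iCC (iRw.const_mul (1 / 2)), integral_const_mul, integral_const_mul,
      integral_const_mul, integral_const_mul, integral_const_mul, sl, slv, ← hcb, ← hrw,
      ← hrl] at h
    have h7 : 1 / κ * ∫ V, ∑ x, β (W β lam E V x) ^ 2 ∂(Measure.pi fun _ : T d L => μ) ≤
        1 / κ * (N * B2) := by gcongr
    have h8 : 1 / κ * (N * B2) = N * B2 / κ := by ring
    rw [hG0]
    linarith
  -- conclusion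
  rw [← hG0]
  have hp0 : 0 ≤ p := le_trans measureReal_nonneg (hpx 0)
  have hq0 : 0 ≤ q := le_trans measureReal_nonneg (hqx 0)
  have hG00 : 0 ≤ G0 := by
    by_contra hc
    push Not at hc
    nlinarith
  have hB10 : 0 ≤ B1 := (abs_nonneg _).trans (hB1 0)
  have hB20 : 0 ≤ B2 := le_trans (integral_nonneg fun V => sq_nonneg _) (hB2 0)
  obtain ⟨sb1, sb2⟩ := abs_le.1 sβ
  have hδcb : δ * cb ≤ δ * (2 * (N * G0)) := by gcongr
  have htcb : lam * t * cb ≤ lam * t * (2 * (N * G0)) := by gcongr
  have hlrl : 2 * lam * rl ≤ 2 * lam * (t * cb + d * (N * q) / κ) := by gcongr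
  have hdp : 0 ≤ (d : ℝ) * (N * p) := by positivity
  have hdq : 0 ≤ lam * ((d : ℝ) * (N * q) / κ) := by positivity
  have hdδ : 0 ≤ δ * (N * G0) := by positivity
  have hlt : 0 ≤ lam * t * (N * G0) := by positivity
  have hNB2 : 0 ≤ N * B2 / κ := by positivity
  have fin : N * |lam * mn μ - E - G0| ≤ N * (4 * (δ + lam * t) * G0 + d * p +
      2 * lam * d * q / κ + B1 + B2 / κ) := by
    rw [← abs_of_pos hN0, ← abs_mul, abs_of_pos hN0]
    have e1 : N * (lam * mn μ - E - G0) = cb - N * G0 -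
        ∫ V, ∑ x, β (W β lam E V x) ∂(Measure.pi fun _ : T d L => μ) := by
      rw [h6]; ring
    have e2 : N * (4 * (δ + lam * t) * G0 + d * p + 2 * lam * d * q / κ + B1 + B2 / κ) =
        4 * (δ * (N * G0)) + 4 * (lam * t * (N * G0)) + d * (N * p) +
          2 * (lam * (d * (N * q) / κ)) + N * B1 + N * B2 / κ := by ring
    rw [e1, e2, abs_le]
    constructor
    · linarith
    · linarith
  exact le_of_mul_le_mul_left fin hN0

end

end Pool.Agent.K3h4.AN.Sa
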