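import Pool.Agent.H4R2.LO.Fin
import Pool.Agent.K3h4.AN.G2

/-! Spread-out states at both band edges: from real eigenfunctions at the lower edge (copied in part
from the result `EdgeThreeDim` of `MP_28b024_mp`). -/

set_option autoImplicit false

open scoped BigOperators ENNReal NNReal
open MeasureTheory

namespace Pool.Agent.K3h4.AN.Sp

/-- `(H ψ)(x) = -∑_{|y-x|=1} (ψ(y) - ψ(x)) + λ ω_x ψ(x)` -/
noncomputable def H {d : ℕ} (lam : ℝ) (ω : (Fin d → ℤ) → ℝ) (u : (Fin d → ℤ) → ℂ)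
    (x : Fin d → ℤ) : ℂ :=
  -∑ i : Fin d, ((u (x + Pi.single i 1) - u x) + (u (x - Pi.single i 1) - u x)) +
    ((lam * ω x : ℝ) : ℂ) * u x

/-- the discrete torus -/
abbrev T (d L : ℕ) : Type := Fin d → ZMod L

/-- square summable functions -/
def SqSummable {d : ℕ} (u : (Fin d → ℤ) → ℂ) : Prop := Summable fun x => ‖u x‖ ^ 2

/-- spectral measure of `δ_x` -/
def IsSpectralMeasureAt {d : ℕ} (A : ((Fin d → ℤ) → ℂ) → (Fin d → ℤ) → ℂ) (x : Fin d → ℤ)
    (m : Measure ℝ) : Prop :=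
  IsFiniteMeasure m ∧ ∀ n : ℕ, Integrable (fun E : ℝ => E ^ n) m ∧
    ((∫ E, E ^ n ∂m : ℝ) : ℂ) = A^[n] (Pi.single x 1) x

theorem H_eq {d : ℕ} (lam : ℝ) (ω : (Fin d → ℤ) → ℝ) :
    H lam ω = Pool.Agent.H4R2.LO.Hg (-1) (fun x => lam * ω x + 2 * d) := by
  funext u x
  unfold H Pool.Agent.H4R2.LO.Hg
  have h : ∑ i : Fin d, ((u (x + Pi.single i 1) - u x) + (u (x - Pi.single i 1) - u x)) =
      ∑ i : Fin d, (u (x + Pi.single i 1) + u (x - Pi.single i 1)) - 2 * (d : ℂ) * u x := by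
    rw [Finset.sum_add_distrib, Finset.sum_sub_distrib, Finset.sum_sub_distrib,
      Finset.sum_add_distrib]
    simp
    ring
  rw [h]
  push_cast
  ring

open Pool.Agent.H541R3.AND.Trans in
theorem re_eq {d : ℕ} (lam E : ℝ) (ω : (Fin d → ℤ) → ℝ) (u : (Fin d → ℤ) → ℂ)
    (h : ∀ x, H lam ω u x = (E : ℂ) * u x) :
    (∀ x, HZ lam ω (fun y => (u y).re) x = E * (u x).re) ∧
      ∀ x, HZ lam ω (fun y => (u y).im) x = E * (u x).im := by
  have e : ∀ x, (∑ i : Fin d, (2 * u x - u (x + Pi.single i 1) - u (x - Pi.single i 1))) +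
      ((lam * ω x : ℝ) : ℂ) * u x = (E : ℂ) * u x := by
    intro x
    rw [← h x]
    unfold H
    rw [← Finset.sum_neg_distrib]
    congr 1
    exact Finset.sum_congr rfl fun i _ => by ring
  constructor
  · intro x
    have := congrArg Complex.re (e x)
    rw [Complex.add_re, Complex.re_sum, Complex.re_ofReal_mul, Complex.re_ofReal_mul] at this
    rw [← this]
    unfold HZ
    congr 1
    refine Finset.sum_congr rfl fun i _ => ?_
    simp
  · intro x
    have := congrArg Complex.im (e x)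
    rw [Complex.add_im, Complex.im_sum, Complex.im_ofReal_mul, Complex.im_ofReal_mul] at this
    rw [← this]
    unfold HZ
    congr 1
    refine Finset.sum_congr rfl fun i _ => ?_
    simp

open Pool.Agent.H541R3.AND.Trans in
theorem iter_real {d : ℕ} (lam : ℝ) (ω : (Fin d → ℤ) → ℝ) (x0 : Fin d → ℤ) (n : ℕ) :
    (H lam ω)^[n] (Pi.single x0 1) =
      fun x => (((HZ lam ω)^[n] (Pi.single x0 1) x : ℝ) : ℂ) := by
  induction n with
  | zero =>
    funext x
    simp only [Function.iterate_zero, id]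
    by_cases hx : x = x0
    · subst hx; simp
    · rw [Pi.single_eq_of_ne hx, Pi.single_eq_of_ne hx]; simp
  | succ n ih =>
    rw [Function.iterate_succ_apply', Function.iterate_succ_apply', ih]
    funext x
    unfold H HZ
    push_cast
    rw [← Finset.sum_neg_distrib]
    congr 1
    exact Finset.sum_congr rfl fun i _ => by ring

open Pool.Agent.H4R2.LO.Main in
/-- conjugation by the staggered sign exchanges the two edges -/
theorem flip {d : ℕ} (lam E : ℝ) (ω : (Fin d → ℤ) → ℝ) (u : (Fin d → ℤ) → ℂ)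
    (h : ∀ x, H lam ω u x = (E : ℂ) * u x) :
    ∀ x, H lam (fun y => -ω y) (fun y => sgn y * u y) x =
      ((4 * d - E : ℝ) : ℂ) * (sgn x * u x) := by
  rw [H_eq] at h
  have h1 := stag (-1) (fun x => lam * ω x + 2 * d) E u h
  have h2 := neg_gen (- -1) _ E _ h1
  have h3 := shift_gen _ (4 * d) _ _ _ h2
  rw [neg_neg] at h3
  intro x
  have h4 := h3 x
  rw [H_eq]
  have e1 : (fun x => -(lam * ω x + 2 * (d : ℝ)) + 4 * d) =
      fun x => lam * -ω x + 2 * (d : ℝ) := by
    funext x; ring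
  rw [e1] at h4
  rw [h4]
  congr 2
  ring

open Pool.Agent.H541R3.AND.Trans Pool.Agent.H541R3.AND.Deloc in
/-- the eigenfunction bound for complex eigenfunctions -/
theorem eig_complex {d : ℕ} (lam E B : ℝ) (ω : (Fin d → ℤ) → ℝ) (x0 : Fin d → ℤ)
    (hB : ∀ φ : (Fin d → ℤ) → ℝ, Summable (fun x => φ x ^ 2) →
        (∀ x, HZ lam ω φ x = E * φ x) → φ x0 ^ 2 ≤ B * ∑' x, φ x ^ 2)
    (u : (Fin d → ℤ) → ℂ) (hu : SqSummable u) (h : ∀ x, H lam ω u x = (E : ℂ) * u x) :
    ‖u x0‖ ^ 2 ≤ B * ∑' x, ‖u x‖ ^ 2 := by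
  have hn : ∀ x, ‖u x‖ ^ 2 = (u x).re ^ 2 + (u x).im ^ 2 := by
    intro x
    rw [← Complex.normSq_eq_norm_sq, Complex.normSq_apply]
    ring
  have s1 : Summable fun x => (u x).re ^ 2 :=
    Summable.of_nonneg_of_le (fun x => sq_nonneg _)
      (fun x => by rw [hn x]; nlinarith [sq_nonneg (u x).im]) hu
  have s2 : Summable fun x => (u x).im ^ 2 :=
    Summable.of_nonneg_of_le (fun x => sq_nonneg _)
      (fun x => by rw [hn x]; nlinarith [sq_nonneg (u x).re]) hu
  obtain ⟨h1, h2⟩ := re_eq lam E ω u h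
  have a1 := hB _ s1 h1
  have a2 := hB _ s2 h2
  rw [tsum_congr hn, s1.tsum_add s2, hn x0, mul_add]
  exact add_le_add a1 a2

open Pool.Agent.H541R3.AND.Trans Pool.Agent.H541R3.AND.Deloc in
/-- probability that the origin of a box is bad -/
theorem bad_prob {d : ℕ} (μ : Measure ℝ) [IsProbabilityMeasure μ] (h : ℕ)
    (G : Set (T d (2 * h + 1) → ℝ)) (hG : MeasurableSet G) (x : Fin d → ℤ) :
    (Measure.infinitePi fun _ : Fin d → ℤ => μ).real {ω | VT h ω x ∉ G} =
      (Measure.pi fun _ : T d (2 * h + 1) => μ).real Gᶜ := by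
  have hinj : Function.Injective fun t : T d (2 * h + 1) => x + lift t :=
    fun s t hst => lift_inj (add_left_cancel hst)
  have hmap := Measure.map_infinitePi_infinitePi_of_inj (P := fun _ : Fin d → ℤ => μ) hinj
  rw [Measure.infinitePi_eq_pi (μ := fun _ : T d (2 * h + 1) => μ)] at hmap
  have hm : Measurable (fun (ω : (Fin d → ℤ) → ℝ) (t : T d (2 * h + 1)) => ω (x + lift t)) := by
    fun_prop
  rw [← hmap, map_measureReal_apply hm hG.compl]
  rfl


/-! ### The upper edge of the spectral measures -/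

/-- the staggered sign -/
noncomputable def sr {d : ℕ} (x : Fin d → ℤ) : ℝ := ((-1 : ℝ) ^ (∑ i, x i))

theorem sr_add {d : ℕ} (x : Fin d → ℤ) (i : Fin d) : sr (x + Pi.single i 1) = -sr x := by
  unfold sr
  have h : ∑ j, (x + Pi.single i 1 : Fin d → ℤ) j = (∑ j, x j) + 1 := by
    simp [Finset.sum_add_distrib, Finset.sum_pi_single']
  rw [h, zpow_add₀ (by norm_num)]
  simp

theorem sr_sub {d : ℕ} (x : Fin d → ℤ) (i : Fin d) : sr (x - Pi.single i 1) = -sr x := by
  have h := sr_add (x - Pi.single i 1) i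
  rw [sub_add_cancel] at h
  linarith

theorem sr_sq {d : ℕ} (x : Fin d → ℤ) : sr x * sr x = 1 := by
  unfold sr
  rw [← mul_zpow]
  simp

open Pool.Agent.H541R3.AND.Trans in
theorem hz_flip {d : ℕ} (lam : ℝ) (V f : (Fin d → ℤ) → ℝ) :
    HZ lam (fun y => -V y) (fun y => sr y * f y) =
      fun x => sr x * QZ (4 * d - 1) 1 lam V f x := by
  funext x
  unfold QZ HZ
  have h : ∑ i : Fin d, (2 * (sr x * f x) - sr (x + Pi.single i 1) * f (x + Pi.single i 1) -
      sr (x - Pi.single i 1) * f (x - Pi.single i 1)) =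
      sr x * (4 * d * f x - ∑ i : Fin d, (2 * f x - f (x + Pi.single i 1) -
        f (x - Pi.single i 1))) := by
    have e : (4 * (d : ℝ)) * f x = ∑ _i : Fin d, 4 * f x := by
      rw [Finset.sum_const, Finset.card_univ, Fintype.card_fin, nsmul_eq_mul]; ring
    rw [e, ← Finset.sum_sub_distrib, Finset.mul_sum]
    refine Finset.sum_congr rfl fun i _ => ?_
    rw [sr_add, sr_sub]
    ring
  rw [h]
  ring

open Pool.Agent.H541R3.AND.Trans in
theorem hz_flip_iter {d : ℕ} (lam : ℝ) (V f : (Fin d → ℤ) → ℝ) (n : ℕ) :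
    (HZ lam (fun y => -V y))^[n] (fun y => sr y * f y) =
      fun x => sr x * (QZ (4 * d - 1) 1 lam V)^[n] f x := by
  induction n with
  | zero => rfl
  | succ n ih =>
    rw [Function.iterate_succ_apply', ih, hz_flip, Function.iterate_succ_apply']

open Pool.Agent.H541R3.AND.Trans Pool.Agent.H541R3.AND.Deloc in
/-- the reflected spectral measure -/
theorem spec_flip {d : ℕ} (lam : ℝ) (ω : (Fin d → ℤ) → ℝ) (x0 : Fin d → ℤ) (m : Measure ℝ)
    (hm : ∀ j : ℕ, Integrable (fun E : ℝ => E ^ j) m ∧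
      ∫ E, E ^ j ∂m = (HZ lam ω)^[j] (Pi.single x0 1) x0) (j : ℕ) :
    Integrable (fun E : ℝ => E ^ j) (m.map fun E : ℝ => 4 * (d : ℝ) - E) ∧
      ∫ E, E ^ j ∂(m.map fun E : ℝ => 4 * (d : ℝ) - E) =
        (HZ lam (fun y => -ω y))^[j] (Pi.single x0 1) x0 := by
  have h1 := moments (4 * d - 1) 1 lam ω x0 m hm j 0
  have hq : ∀ E : ℝ, q (4 * d - 1) 1 E = 4 * d - E := fun E => by unfold q; ring
  simp only [pow_zero, one_mul, Function.iterate_zero, id, hq] at h1
  have hmeas : Measurable fun E : ℝ => 4 * (d : ℝ) - E := by fun_prop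
  have hpow : AEStronglyMeasurable (fun E : ℝ => E ^ j) (m.map fun E : ℝ => 4 * (d : ℝ) - E) := by
    apply Measurable.aestronglyMeasurable
    fun_prop
  refine ⟨?_, ?_⟩
  · rw [integrable_map_measure hpow hmeas.aemeasurable]
    exact h1.1
  · rw [integral_map hmeas.aemeasurable hpow, h1.2]
    have e : (Pi.single x0 1 : (Fin d → ℤ) → ℝ) =
        fun y => sr y * (fun y => sr x0 * (Pi.single x0 1 : (Fin d → ℤ) → ℝ) y) y := by
      funext y
      by_cases hy : y = x0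
      · subst hy
        simp only [Pi.single_eq_same]
        rw [mul_one, sr_sq]
      · simp only [Pi.single_eq_of_ne hy, mul_zero]
    have e2 := hz_flip_iter lam ω (fun y => sr x0 * (Pi.single x0 1 : (Fin d → ℤ) → ℝ) y) j
    rw [← e] at e2
    rw [e2]
    have e3 : ∀ (n : ℕ) (a : ℝ) (g : (Fin d → ℤ) → ℝ),
        (QZ (4 * (d : ℝ) - 1) 1 lam ω)^[n] (fun y => a * g y) =
          fun x => a * (QZ (4 * (d : ℝ) - 1) 1 lam ω)^[n] g x := by
      intro n a g
      induction n with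
      | zero => rfl
      | succ n ih =>
        rw [Function.iterate_succ_apply', ih, Function.iterate_succ_apply']
        funext x
        obtain ⟨k, hk⟩ : ∃ k, k = (QZ (4 * (d : ℝ) - 1) 1 lam ω)^[n] g := ⟨_, rfl⟩
        rw [← hk]
        have h2 := hz_lin lam ω k (fun _ => 0) a 0 x
        simp only [mul_zero, add_zero, zero_mul] at h2
        unfold QZ
        rw [h2]
        ring
    rw [e3]
    beta_reduce
    rw [← mul_assoc, sr_sq, one_mul]


open Pool.Agent.H541R3.AND.Trans Pool.Agent.H541R3.AND.Deloc in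
/-- both edges -/
theorem two_sided {d : ℕ} (C lam e1 e2 : ℝ) (ω : (Fin d → ℤ) → ℝ) (x : Fin d → ℤ)
    (D1 : ∀ E : ℝ, E ≤ e1 → ∀ φ : (Fin d → ℤ) → ℝ, Summable (fun x => φ x ^ 2) →
      (∀ x, HZ lam ω φ x = E * φ x) → φ x ^ 2 ≤ C * ∑' x, φ x ^ 2)
    (D2 : ∀ m : Measure ℝ, IsFiniteMeasure m →
      (∀ j : ℕ, Integrable (fun E : ℝ => E ^ j) m ∧
        ∫ E, E ^ j ∂m = (HZ lam ω)^[j] (Pi.single x 1) x) → m.real (Set.Iic e1) ≤ C)
    (D3 : ∀ E : ℝ, E ≤ e2 → ∀ φ : (Fin d → ℤ) → ℝ, Summable (fun x => φ x ^ 2) →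
      (∀ x, HZ lam (fun y => -ω y) φ x = E * φ x) → φ x ^ 2 ≤ C * ∑' x, φ x ^ 2)
    (D4 : ∀ m : Measure ℝ, IsFiniteMeasure m →
      (∀ j : ℕ, Integrable (fun E : ℝ => E ^ j) m ∧
        ∫ E, E ^ j ∂m = (HZ lam (fun y => -ω y))^[j] (Pi.single x 1) x) →
        m.real (Set.Iic e2) ≤ C) :
    (∀ (E : ℝ) (u : (Fin d → ℤ) → ℂ), (E ≤ e1 ∨ 4 * d - e2 ≤ E) → SqSummable u →
      (∀ y, H lam ω u y = (E : ℂ) * u y) → ‖u x‖ ^ 2 ≤ C * ∑' y, ‖u y‖ ^ 2) ∧
    ∀ m : Measure ℝ, IsSpectralMeasureAt (H lam ω) x m →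
      m.real (Set.Iic e1) ≤ C ∧ m.real (Set.Ici (4 * d - e2)) ≤ C := by
  refine ⟨fun E u hE hu hEu => ?_, fun m hm => ?_⟩
  · rcases hE with hE | hE
    · exact eig_complex lam E _ ω x (fun φ hφ hφE => D1 E hE φ hφ hφE) u hu hEu
    · have hf := flip lam E ω u hEu
      have hn : ∀ y, ‖Pool.Agent.H4R2.LO.Main.sgn y * u y‖ = ‖u y‖ := fun y => by
        rw [norm_mul, Pool.Agent.H4R2.LO.Main.sgn_norm, one_mul]
      have hu' : SqSummable (fun y => Pool.Agent.H4R2.LO.Main.sgn y * u y) := by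
        unfold SqSummable
        simp only [hn]
        exact hu
      have := eig_complex lam (4 * d - E) _ (fun y => -ω y) x
        (fun φ hφ hφE => D3 (4 * d - E) (by linarith) φ hφ hφE) _ hu' hf
      simp only [hn] at this
      exact this
  · have hmom : ∀ j : ℕ, Integrable (fun E : ℝ => E ^ j) m ∧
        ∫ E, E ^ j ∂m = (HZ lam ω)^[j] (Pi.single x 1) x := by
      intro j
      refine ⟨(hm.2 j).1, ?_⟩
      have h5 := (hm.2 j).2
      rw [iter_real] at h5
      exact Complex.ofReal_injective h5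
    refine ⟨D2 m hm.1 hmom, ?_⟩
    have hfin := hm.1
    have hmeas : Measurable fun E : ℝ => 4 * (d : ℝ) - E := by fun_prop
    have h6 := D4 (m.map fun E : ℝ => 4 * (d : ℝ) - E) (Measure.isFiniteMeasure_map m _)
      (spec_flip lam ω x m hmom)
    rw [map_measureReal_apply hmeas measurableSet_Iic] at h6
    have e : (fun E : ℝ => 4 * (d : ℝ) - E) ⁻¹' Set.Iic e2 = Set.Ici (4 * d - e2) := by
      ext E
      simp only [Set.mem_preimage, Set.mem_Iic, Set.mem_Ici]
      constructor <;> intro h <;> linarith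
    rw [e] at h6
    exact h6

end Pool.Agent.K3h4.AN.Sp
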