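import Pool.Agent.K3h4.AN.Tw

/-! Comparison of the solutions with two masses: probability. -/

set_option autoImplicit false
set_option linter.unusedSectionVars false
set_option linter.unusedVariables false

open scoped BigOperators
open MeasureTheory Filter Topology

namespace Pool.Agent.K3h4.AN.Tp

open Pool.Agent.H4R2
open Pool.Agent.H4R2.AE (T LapW Hop)
open Pool.Agent.H4R2.AE.Good (clamp good_clamp_le good_clamp_eq)
open Pool.Agent.K3h4.AN.Pe
open Pool.Agent.K3h4.AN.Pf

variable {d L : ℕ} [NeZero L]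

/-- the event that the solution is not bounded by `a` -/
def Bad (β : ℝ → ℝ) (lam E a : ℝ) : Set (T d L → ℝ) := {V | ∃ x, a ≤ |W β lam E V x|}

theorem meas_Bad {lam κ r A : ℝ} {β : ℝ → ℝ} (hp : Pen lam κ r A β) (E : ℝ) (hE : |E| ≤ lam)
    (a : ℝ) : MeasurableSet (Bad (d := d) (L := L) β lam E a) := by
  have : Bad (d := d) (L := L) β lam E a = ⋃ x, {V : T d L → ℝ | a ≤ |W β lam E V x|} := by
    ext V; simp [Bad]
  rw [this]
  refine MeasurableSet.iUnion fun x => ?_
  exact measurableSet_le measurable_const (W_cont hp E hE x).abs.measurable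

/-- crude union bound -/
theorem union {lam κ r A : ℝ} {β : ℝ → ℝ} (hp : Pen lam κ r A β) (R : ℝ) (hR : 0 < R)
    (hG : GH d L (κ * Real.exp (-(2 * r))) R) (μ : Measure ℝ) [IsProbabilityMeasure μ]
    (E : ℝ) (hE : |E| ≤ lam)
    (hmean : ∀ x, ∫ V, W β lam E V x ∂(Measure.pi fun _ : T d L => μ) = 0) (a : ℝ) (ha : 0 < a) :
    (Measure.pi fun _ : T d L => μ).real (Bad β lam E a) ≤
      (L : ℝ) ^ d * (2 * Real.exp (-(a ^ 2 / (144 * lam ^ 2 * R)))) := by
  have hc : Bad (d := d) (L := L) β lam E a = ⋃ x, {V : T d L → ℝ | a ≤ |W β lam E V x|} := by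
    ext V; simp [Bad]
  rw [hc]
  refine (measureReal_iUnion_fintype_le _).trans ?_
  refine (Finset.sum_le_sum fun x _ => tail hp R hR hG μ E hE x (hmean x) a ha).trans ?_
  rw [Finset.sum_const, nsmul_eq_mul, Finset.card_univ, AE.Sens.card_T]

/-- comparison of the energies -/
theorem en {lam κ1 κ2 r1 r2 A1 A2 : ℝ} {β1 β2 : ℝ → ℝ} (p1 : Pen lam κ1 r1 A1 β1)
    (p2 : Pen lam κ2 r2 A2 β2) (μ : Measure ℝ) [IsProbabilityMeasure μ] (E1 E2 : ℝ)
    (hE1 : |E1| ≤ lam) (hE2 : |E2| ≤ lam)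
    (hmean : ∫ V, W β2 lam E2 V 0 ∂(Measure.pi fun _ : T d L => μ) = 0) (a δ b1 b2 : ℝ)
    (ha : 2 * a ≤ δ) (hb1 : ∀ s, |s| ≤ a → |β1 s| ≤ b1) (hb2 : β2 δ ≤ b2) (hb2' : -b2 ≤ β2 (-δ))
    (hε : (Measure.pi fun _ : T d L => μ).real (Bad β1 lam E1 a) * (r2 + (δ - 2 * a)) < δ - 2 * a) :
    |E2 - E1| ≤ b1 + b2 := by
  set P := Measure.pi fun _ : T d L => μ with hP
  have hB : MeasurableSet (Bad (d := d) (L := L) β1 lam E1 a) := meas_Bad p1 E1 hE1 a
  have hint : Integrable (fun V : T d L → ℝ => (δ - 2 * a) -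
      (Bad β1 lam E1 a).indicator (fun _ => r2 + (δ - 2 * a)) V) P :=
    (integrable_const _).sub ((integrable_const _).indicator hB)
  have hval : ∫ V, ((δ - 2 * a) - (Bad β1 lam E1 a).indicator (fun _ => r2 + (δ - 2 * a)) V) ∂P =
      (δ - 2 * a) - P.real (Bad β1 lam E1 a) * (r2 + (δ - 2 * a)) := by
    rw [integral_sub (integrable_const _) ((integrable_const _).indicator hB), integral_const,
      integral_indicator_const _ hB]
    simp
  have hr2 := p2.hr
  have key : ∀ s : ℝ, (s = 1 ∨ s = -1) →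
      (∀ V : T d L → ℝ, V ∉ Bad β1 lam E1 a → δ - 2 * a ≤ s * W β2 lam E2 V 0) → False := by
    intro s hs h
    have h1 : ∫ V, ((δ - 2 * a) - (Bad β1 lam E1 a).indicator (fun _ => r2 + (δ - 2 * a)) V) ∂P ≤
        ∫ V, s * W β2 lam E2 V 0 ∂P := by
      refine integral_mono hint ((W_int p2 E2 hE2 μ 0).const_mul s) fun V => ?_
      beta_reduce
      have hb := W_bound p2 E2 hE2 V 0
      by_cases hV : V ∈ Bad β1 lam E1 a
      · rw [Set.indicator_of_mem hV]
        have : -r2 ≤ s * W β2 lam E2 V 0 := by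
          obtain ⟨c1, c2⟩ := abs_le.1 hb
          rcases hs with hs | hs <;> rw [hs] <;> linarith
        linarith
      · rw [Set.indicator_of_notMem hV, sub_zero]
        exact h V hV
    rw [hval, integral_const_mul, hmean, mul_zero] at h1
    linarith
  have hw1 : ∀ V : T d L → ℝ, V ∉ Bad β1 lam E1 a → ∀ x, |W β1 lam E1 V x| ≤ a := by
    intro V hV x
    by_contra hc
    push Not at hc
    exact hV ⟨x, hc.le⟩
  by_contra hcon
  push Not at hcon
  rcases lt_abs.1 hcon with h | h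
  · refine key 1 (Or.inl rfl) fun V hV => ?_
    rw [one_mul]
    exact Tw.en_up p1 p2 (clamp V) _ _ E1 E2 (W_sol p1 E1 hE1 V) (W_sol p2 E2 hE2 V) a b1 δ b2
      (hw1 V hV) hb1 hb2 h 0
  · refine key (-1) (Or.inr rfl) fun V hV => ?_
    have := Tw.en_dn p1 p2 (clamp V) _ _ E1 E2 (W_sol p1 E1 hE1 V) (W_sol p2 E2 hE2 V) a b1 δ b2
      (hw1 V hV) hb1 hb2' (by linarith) 0
    linarith

/-- Markov's inequality for the sum of exponentials -/
theorem markov {lam κ r A : ℝ} {β : ℝ → ℝ} (hp : Pen lam κ r A β) (R : ℝ) (hR : 0 ≤ R)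
    (hG : GH d L (κ * Real.exp (-(2 * r))) R) (μ : Measure ℝ) [IsProbabilityMeasure μ]
    (E : ℝ) (hE : |E| ≤ lam)
    (hmean : ∀ x, ∫ V, W β lam E V x ∂(Measure.pi fun _ : T d L => μ) = 0) (p a : ℝ) (hp0 : 0 ≤ p)
    (ha : 0 ≤ a) (s : ℝ) (hs : s = 1 ∨ s = -1) (t : ℝ) (ht : 0 < t) :
    (Measure.pi fun _ : T d L => μ).real {V | t ≤ ∑ x : T d L,
      (1 + Real.exp (2 * p * a) * Real.exp (2 * p * s * W β lam E V x))} ≤
      2 * (L : ℝ) ^ d * Real.exp (2 * p * a + 144 * lam ^ 2 * R * p ^ 2) / t := by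
  set P := Measure.pi fun _ : T d L => μ with hP
  have hs2 : s ^ 2 = 1 := by rcases hs with h | h <;> rw [h] <;> norm_num
  have hint : ∀ x, Integrable (fun V : T d L → ℝ => Real.exp (2 * p * s * W β lam E V x)) P := by
    intro x
    have hmeas := (W_cont (d := d) (L := L) hp E hE x).measurable
    refine Integrable.of_bound (C := Real.exp (|2 * p * s| * r))
      (by fun_prop : Measurable fun V : T d L → ℝ =>
        Real.exp (2 * p * s * W β lam E V x)).aestronglyMeasurable ?_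
    filter_upwards with V
    rw [Real.norm_eq_abs, abs_of_pos (Real.exp_pos _)]
    refine Real.exp_le_exp.2 ?_
    calc 2 * p * s * W β lam E V x ≤ |2 * p * s * W β lam E V x| := le_abs_self _
      _ = |2 * p * s| * |W β lam E V x| := abs_mul _ _
      _ ≤ _ := mul_le_mul_of_nonneg_left (W_bound hp E hE V x) (abs_nonneg _)
  have hint2 : ∀ x ∈ Finset.univ, Integrable (fun V : T d L → ℝ =>
      1 + Real.exp (2 * p * a) * Real.exp (2 * p * s * W β lam E V x)) P :=
    fun x _ => (integrable_const _).add ((hint x).const_mul _)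
  have hE1 : ∫ V, ∑ x : T d L, (1 + Real.exp (2 * p * a) * Real.exp (2 * p * s * W β lam E V x)) ∂P ≤
      2 * (L : ℝ) ^ d * Real.exp (2 * p * a + 144 * lam ^ 2 * R * p ^ 2) := by
    rw [integral_finsetSum _ hint2]
    calc _ ≤ ∑ _x : T d L, 2 * Real.exp (2 * p * a + 144 * lam ^ 2 * R * p ^ 2) := by
          refine Finset.sum_le_sum fun x _ => ?_
          rw [integral_add (integrable_const _) ((hint x).const_mul _), integral_const_mul,
            integral_const]
          have h1 := mgf hp R hR hG μ E hE x (hmean x) (2 * p * s)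
          have h2 : Real.exp (36 * lam ^ 2 * R * (2 * p * s) ^ 2) =
              Real.exp (144 * lam ^ 2 * R * p ^ 2) := by
            congr 1
            rw [mul_pow, hs2]
            ring
          rw [h2] at h1
          have h3 : 1 ≤ Real.exp (2 * p * a + 144 * lam ^ 2 * R * p ^ 2) :=
            Real.one_le_exp (by positivity)
          have h4 := mul_le_mul_of_nonneg_left h1 (Real.exp_pos (2 * p * a)).le
          rw [← Real.exp_add] at h4
          simp only [probReal_univ, smul_eq_mul, mul_one]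
          linarith
      _ = _ := by
          rw [Finset.sum_const, nsmul_eq_mul, Finset.card_univ, AE.Sens.card_T]
          ring
  have hmk := mul_meas_ge_le_integral_of_nonneg (μ := P)
    (f := fun V : T d L → ℝ => ∑ x : T d L,
      (1 + Real.exp (2 * p * a) * Real.exp (2 * p * s * W β lam E V x)))
    (Filter.Eventually.of_forall fun V => Finset.sum_nonneg fun x _ => by positivity)
    (integrable_finsetSum _ hint2) t
  rw [le_div_iff₀ ht, mul_comm]
  exact hmk.trans hE1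

/-- the recursion -/
theorem two {lam κ1 κ2 r1 r2 A1 A2 : ℝ} {β1 β2 : ℝ → ℝ} (p1 : Pen lam κ1 r1 A1 β1)
    (p2 : Pen lam κ2 r2 A2 β2) (μ : Measure ℝ) [IsProbabilityMeasure μ] (E1 E2 : ℝ)
    (hE1 : |E1| ≤ lam) (hE2 : |E2| ≤ lam)
    (hmean : ∀ x, ∫ V, W β2 lam E2 V x ∂(Measure.pi fun _ : T d L => μ) = 0) (a a2 b1 b2 e : ℝ)
    (ha : 0 < a) (ha4 : a ≤ 1 / 4)
    (hb1 : ∀ s, |s| ≤ a → |β1 s| ≤ b1) (hb2 : ∀ s, |s| ≤ a → |β2 s| ≤ b2) (he : |E2 - E1| ≤ e)
    (k R1 R2 : ℝ) (hk : 0 < k) (hR1 : 0 < R1) (hR2 : 0 < R2) (hG1 : GH d L k R1)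
    (hG2 : GH d L (κ2 * Real.exp (-(2 * r2))) R2) (p : ℝ) (hp : 1 ≤ p) :
    (Measure.pi fun _ : T d L => μ).real (Bad β2 lam E2 a2) ≤
      (Measure.pi fun _ : T d L => μ).real (Bad β1 lam E1 a) +
      4 * (((p * (2 * (b1 + b2 + e)) + k) ^ 2 * R1) * (L : ℝ) ^ d) *
        Real.exp (-(2 * p * (a2 - 2 * a)) + 144 * lam ^ 2 * R2 * p ^ 2) := by
  set P := Measure.pi fun _ : T d L => μ with hP
  set M : ℝ := (p * (2 * (b1 + b2 + e)) + k) ^ 2 * R1 with hM
  have hb10 : 0 ≤ b1 := (abs_nonneg _).trans (hb1 0 (by rw [abs_zero]; exact ha.le))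
  have hb20 : 0 ≤ b2 := (abs_nonneg _).trans (hb2 0 (by rw [abs_zero]; exact ha.le))
  have he0 : 0 ≤ e := (abs_nonneg _).trans he
  have hM0 : 0 < M := by
    rw [hM]
    have : 0 < p * (2 * (b1 + b2 + e)) + k := by positivity
    positivity
  set t : ℝ := Real.exp (2 * p * (a2 - a)) / M with ht
  have ht0 : 0 < t := by positivity
  set S : ℝ → Set (T d L → ℝ) := fun s => {V | t ≤ ∑ x : T d L,
      (1 + Real.exp (2 * p * a) * Real.exp (2 * p * s * W β2 lam E2 V x))} with hS
  have hsub : Bad (d := d) (L := L) β2 lam E2 a2 ⊆ Bad β1 lam E1 a ∪ (S 1 ∪ S (-1)) := by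
    intro V hV
    by_cases hV1 : V ∈ Bad β1 lam E1 a
    · exact Or.inl hV1
    right
    obtain ⟨x0, hx0⟩ := hV
    have hw1 : ∀ x, |W β1 lam E1 V x| ≤ a := by
      intro x
      by_contra hc
      push Not at hc
      exact hV1 ⟨x, hc.le⟩
    have hw2 : ∀ x, |W β2 lam E2 V x| ≤ 1 / 4 := fun x => (W_bound p2 E2 hE2 V x).trans p2.hr4
    have main : ∀ s : ℝ, (s = 1 ∨ s = -1) → a2 ≤ s * W β2 lam E2 V x0 → V ∈ S s := by
      intro s hs h
      have h1 := Tw.det p1 p2 (clamp V) _ _ E1 E2 (W_sol p1 E1 hE1 V) (W_sol p2 E2 hE2 V) a b1 b2 e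
        hw1 ha4 hw2 hb1 hb2 he k R1 hk hG1 p hp s hs x0
      have hsa : ∀ x, |s * W β1 lam E1 V x| ≤ a := by
        intro x
        rcases hs with h | h <;> rw [h]
        · rw [one_mul]; exact hw1 x
        · rw [neg_one_mul, abs_neg]; exact hw1 x
      show t ≤ _
      rw [ht, div_le_iff₀ hM0]
      have h2 : Real.exp (2 * p * (a2 - a)) ≤
          Real.exp (2 * p * (s * (W β2 lam E2 V x0 - W β1 lam E1 V x0))) := by
        refine Real.exp_le_exp.2 (mul_le_mul_of_nonneg_left ?_ (by positivity))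
        have := (abs_le.1 (hsa x0)).2
        linarith
      refine h2.trans (h1.trans ?_)
      rw [← hM, mul_comm]
      refine mul_le_mul_of_nonneg_right (Finset.sum_le_sum fun x _ => ?_) hM0.le
      rcases le_total 0 (s * (W β2 lam E2 V x - W β1 lam E1 V x)) with h3 | h3
      · rw [max_eq_left h3]
        have h4 : Real.exp (2 * p * (s * (W β2 lam E2 V x - W β1 lam E1 V x))) ≤
            Real.exp (2 * p * a) * Real.exp (2 * p * s * W β2 lam E2 V x) := by
          rw [← Real.exp_add]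
          refine Real.exp_le_exp.2 ?_
          have h5 := (abs_le.1 (hsa x)).1
          have h6 : s * (W β2 lam E2 V x - W β1 lam E1 V x) ≤ a + s * W β2 lam E2 V x := by
            linarith
          have h7 := mul_le_mul_of_nonneg_left h6 (by positivity : 0 ≤ 2 * p)
          linarith
        linarith
      · rw [max_eq_right h3, mul_zero, Real.exp_zero]
        have h4 : 0 ≤ Real.exp (2 * p * a) * Real.exp (2 * p * s * W β2 lam E2 V x) := by positivity
        linarith
    rcases le_abs.1 hx0 with h | h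
    · exact Or.inl (main 1 (Or.inl rfl) (by rw [one_mul]; exact h))
    · exact Or.inr (main (-1) (Or.inr rfl) (by rw [neg_one_mul]; exact h))
  have hmk : ∀ s : ℝ, (s = 1 ∨ s = -1) → P.real (S s) ≤ 2 * (M * (L : ℝ) ^ d) *
      Real.exp (-(2 * p * (a2 - 2 * a)) + 144 * lam ^ 2 * R2 * p ^ 2) := by
    intro s hs
    refine (markov p2 R2 hR2.le hG2 μ E2 hE2 hmean p a (by linarith) ha.le s hs t ht0).trans
      (le_of_eq ?_)
    rw [ht, div_div_eq_mul_div, div_eq_mul_inv, ← Real.exp_neg]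
    have h1 : Real.exp (-(2 * p * (a2 - 2 * a)) + 144 * lam ^ 2 * R2 * p ^ 2) =
        Real.exp (2 * p * a + 144 * lam ^ 2 * R2 * p ^ 2) * Real.exp (-(2 * p * (a2 - a))) := by
      rw [← Real.exp_add]; congr 1; ring
    rw [h1]
    ring
  refine (measureReal_mono hsub).trans ((measureReal_union_le _ _).trans ?_)
  have h1 := measureReal_union_le (μ := P) (S 1) (S (-1))
  have h2 := hmk 1 (Or.inl rfl)
  have h3 := hmk (-1) (Or.inr rfl)
  linarith

end Pool.Agent.K3h4.AN.Tp
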