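import Pool.Agent.K3h4.AN.Pf

/-! Comparison of the solutions with two masses. -/

set_option autoImplicit false
set_option linter.unusedSectionVars false
set_option linter.unusedVariables false

open scoped BigOperators
open MeasureTheory Filter Topology

namespace Pool.Agent.K3h4.AN.Tw

open Pool.Agent.H4R2
open Pool.Agent.H4R2.AE (T LapW Hop)
open Pool.Agent.H4R2.AE.Good (clamp good_clamp_le good_clamp_eq)
open Pool.Agent.K3h4.AN.Pe
open Pool.Agent.K3h4.AN.Pf

variable {d L : ℕ} [NeZero L]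

theorem trunc (u D : T d L → ℝ) (hu : ∀ x, 0 < u x) (q : ℝ) (hq : 0 ≤ q)
    (h : ∀ x, 0 ≤ D x → LapW u (fun y => Real.exp (D y)) x ≤ q * Real.exp (D x)) (x : T d L) :
    LapW u (fun y => Real.exp (max (D y) 0)) x ≤ q * Real.exp (max (D x) 0) := by
  rcases le_total 0 (D x) with hx | hx
  · rw [max_eq_left hx]
    refine le_trans ?_ (h x hx)
    unfold LapW
    beta_reduce
    rw [max_eq_left hx]
    refine Finset.sum_le_sum fun i _ => ?_
    have a1 : Real.exp (D (x + Pi.single i 1)) ≤ Real.exp (max (D (x + Pi.single i 1)) 0) :=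
      Real.exp_le_exp.2 (le_max_left _ _)
    have a2 : Real.exp (D (x - Pi.single i 1)) ≤ Real.exp (max (D (x - Pi.single i 1)) 0) :=
      Real.exp_le_exp.2 (le_max_left _ _)
    have b1 : 0 < u x * u (x + Pi.single i 1) := mul_pos (hu _) (hu _)
    have b2 : 0 < u x * u (x - Pi.single i 1) := mul_pos (hu _) (hu _)
    exact add_le_add (mul_le_mul_of_nonneg_left (by linarith) b1.le)
      (mul_le_mul_of_nonneg_left (by linarith) b2.le)
  · rw [max_eq_right hx, Real.exp_zero, mul_one]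
    refine le_trans ?_ hq
    unfold LapW
    beta_reduce
    rw [max_eq_right hx, Real.exp_zero]
    refine Finset.sum_nonpos fun i _ => ?_
    have a1 : 1 ≤ Real.exp (max (D (x + Pi.single i 1)) 0) := Real.one_le_exp (le_max_right _ _)
    have a2 : 1 ≤ Real.exp (max (D (x - Pi.single i 1)) 0) := Real.one_le_exp (le_max_right _ _)
    have b1 : 0 < u x * u (x + Pi.single i 1) := mul_pos (hu _) (hu _)
    have b2 : 0 < u x * u (x - Pi.single i 1) := mul_pos (hu _) (hu _)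
    have c1 := mul_nonpos_of_nonneg_of_nonpos b1.le (sub_nonpos.2 a1)
    have c2 := mul_nonpos_of_nonneg_of_nonpos b2.le (sub_nonpos.2 a2)
    linarith

theorem conv (p A B : ℝ) (hp : 1 ≤ p) :
    Real.exp (p * A) - Real.exp (p * B) ≤
      p * Real.exp ((p - 1) * A) * (Real.exp A - Real.exp B) := by
  have h1 := one_add_mul_self_le_rpow_one_add (s := Real.exp (B - A) - 1)
    (by linarith [Real.exp_pos (B - A)]) hp
  rw [add_sub_cancel, ← Real.exp_mul] at h1
  have h2 : Real.exp (p * A) * (1 + p * (Real.exp (B - A) - 1)) ≤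
      Real.exp (p * A) * Real.exp ((B - A) * p) := mul_le_mul_of_nonneg_left h1 (Real.exp_pos _).le
  rw [← Real.exp_add] at h2
  have h3 : p * A + (B - A) * p = p * B := by ring
  rw [h3] at h2
  have h4 : Real.exp (p * A) = Real.exp ((p - 1) * A) * Real.exp A := by
    rw [← Real.exp_add]; congr 1; ring
  have h5 : Real.exp A * Real.exp (B - A) = Real.exp B := by
    rw [← Real.exp_add]; congr 1; ring
  have h6 : Real.exp (p * A) * (1 + p * (Real.exp (B - A) - 1)) =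
      Real.exp (p * A) - p * Real.exp ((p - 1) * A) * (Real.exp A - Real.exp B) := by
    rw [← h5, h4]
    ring
  linarith

theorem pow (u D : T d L → ℝ) (hu : ∀ x, 0 < u x) (q : ℝ)
    (h : ∀ x, LapW u (fun y => Real.exp (D y)) x ≤ q * Real.exp (D x)) (p : ℝ) (hp : 1 ≤ p)
    (x : T d L) :
    LapW u (fun y => Real.exp (p * D y)) x ≤ p * q * Real.exp (p * D x) := by
  have h1 : LapW u (fun y => Real.exp (p * D y)) x ≤
      p * Real.exp ((p - 1) * D x) * LapW u (fun y => Real.exp (D y)) x := by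
    unfold LapW
    rw [Finset.mul_sum]
    refine Finset.sum_le_sum fun i _ => ?_
    have a1 := conv p (D x) (D (x + Pi.single i 1)) hp
    have a2 := conv p (D x) (D (x - Pi.single i 1)) hp
    have b1 : 0 < u x * u (x + Pi.single i 1) := mul_pos (hu _) (hu _)
    have b2 : 0 < u x * u (x - Pi.single i 1) := mul_pos (hu _) (hu _)
    have c1 := mul_le_mul_of_nonneg_left a1 b1.le
    have c2 := mul_le_mul_of_nonneg_left a2 b2.le
    beta_reduce
    linarith
  have h2 : 0 ≤ p * Real.exp ((p - 1) * D x) := by positivity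
  have h3 := mul_le_mul_of_nonneg_left (h x) h2
  have h4 : Real.exp (p * D x) = Real.exp ((p - 1) * D x) * Real.exp (D x) := by
    rw [← Real.exp_add]; congr 1; ring
  rw [h4]
  linarith

theorem supb (u h : T d L → ℝ) (hu : ∀ x, 1 / 2 ≤ u x) (hh : ∀ x, 0 ≤ h x) (q k R : ℝ) (hk : 0 < k)
    (hq : 0 ≤ q) (hG : GH d L k R) (h1 : ∀ x, LapW u h x ≤ q * h x) (x0 : T d L) :
    h x0 ^ 2 ≤ (q + k) ^ 2 * R * ∑ x, h x ^ 2 := by
  have hu0 : ∀ x, 0 < u x := fun x => by linarith [hu x]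
  obtain ⟨g, hg⟩ := AE.Lin.solve u (fun _ : T d L => k) (fun y => if y = x0 then (1 : ℝ) else 0)
    hu0 (fun _ => hk)
  have hg0 : ∀ y, 0 ≤ g y :=
    AE.Lin.nonneg u (fun _ => k) g hu0 (fun _ => hk) (by
      intro y; rw [hg y]; split_ifs <;> norm_num)
  have hR := hG u g x0 hu hg0 hg
  have e1 : ∑ x, h x * (LapW u g x + k * g x) = h x0 := by
    simp only [hg]
    simp
  have e2 : ∑ x, h x * (LapW u g x + k * g x) = ∑ x, g x * (LapW u h x + k * h x) := by
    simp only [mul_add, Finset.sum_add_distrib]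
    rw [AE.Lin.symm u h g]
    congr 1
    exact Finset.sum_congr rfl fun x _ => by ring
  have e3 : h x0 ≤ (q + k) * ∑ x, g x * h x := by
    rw [← e1, e2, Finset.mul_sum]
    refine Finset.sum_le_sum fun x _ => ?_
    have := mul_le_mul_of_nonneg_left (h1 x) (hg0 x)
    linarith
  have e4 := Finset.sum_mul_sq_le_sq_mul_sq Finset.univ g h
  have e5 : 0 ≤ ∑ x, h x ^ 2 := Finset.sum_nonneg fun x _ => sq_nonneg _
  calc h x0 ^ 2 ≤ ((q + k) * ∑ x, g x * h x) ^ 2 := pow_le_pow_left₀ (hh x0) e3 2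
    _ = (q + k) ^ 2 * (∑ x, g x * h x) ^ 2 := by ring
    _ ≤ (q + k) ^ 2 * ((∑ x, g x ^ 2) * ∑ x, h x ^ 2) :=
        mul_le_mul_of_nonneg_left e4 (sq_nonneg _)
    _ ≤ (q + k) ^ 2 * (R * ∑ x, h x ^ 2) := by gcongr
    _ = _ := by ring

/-- the main deterministic estimate, abstractly -/
theorem core (w D : T d L → ℝ) (hw : ∀ x, |w x| ≤ 1 / 4) (q0 k R : ℝ) (hk : 0 < k)
    (hq : 0 ≤ q0) (hG : GH d L k R)
    (h : ∀ x, 0 ≤ D x → LapW (fun y => Real.exp (w y)) (fun y => Real.exp (D y)) x ≤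
      q0 * (Real.exp (2 * w x) * Real.exp (D x))) (p : ℝ) (hp : 1 ≤ p) (x0 : T d L) :
    Real.exp (2 * p * D x0) ≤ (p * (2 * q0) + k) ^ 2 * R *
      ∑ x, Real.exp (2 * p * max (D x) 0) := by
  have hu : ∀ x, 1 / 2 ≤ Real.exp (w x) := fun x => by
    have := (abs_le.1 (hw x)).1
    have := Real.add_one_le_exp (w x)
    linarith
  have h2 : ∀ x, Real.exp (2 * w x) ≤ 2 := fun x => by
    have h3 := (abs_le.1 (hw x)).2
    have h4 : Real.exp (2 * w x) ≤ Real.exp (1 / 2) := Real.exp_le_exp.2 (by linarith)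
    have h5 : Real.exp (1 / 2) ≤ 2 := by
      have h5 : Real.exp (1 / 2) ^ 2 = Real.exp 1 := by
        rw [← Real.exp_nat_mul]
        norm_num
      have h6 := Real.exp_one_lt_d9
      have h7 := Real.exp_pos (1 / 2)
      nlinarith
    exact h4.trans h5
  have e1 := trunc (fun y => Real.exp (w y)) D (fun x => Real.exp_pos _) (2 * q0) (by linarith) (by
    intro x hx
    refine (h x hx).trans ?_
    have h3 := mul_le_mul_of_nonneg_right (h2 x) (Real.exp_pos (D x)).le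
    have h4 := mul_le_mul_of_nonneg_left h3 hq
    linarith)
  have e2 := pow (fun y => Real.exp (w y)) (fun y => max (D y) 0) (fun x => Real.exp_pos _)
    (2 * q0) e1 p hp
  have e3 := supb (fun y => Real.exp (w y)) (fun y => Real.exp (p * max (D y) 0)) hu
    (fun x => (Real.exp_pos _).le) (p * (2 * q0)) k R hk (by positivity) hG e2 x0
  have e4 : ∀ x, Real.exp (p * max (D x) 0) ^ 2 = Real.exp (2 * p * max (D x) 0) := fun x => by
    rw [← Real.exp_nat_mul]
    congr 1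
    push_cast
    ring
  simp only [e4] at e3
  refine le_trans (Real.exp_le_exp.2 ?_) e3
  have := le_max_left (D x0) 0
  have hp2 : 0 ≤ 2 * p := by linarith
  exact mul_le_mul_of_nonneg_left this hp2

/-- deterministic comparison of two solutions -/
theorem det {lam κ1 κ2 r1 r2 A1 A2 : ℝ} {β1 β2 : ℝ → ℝ} (p1 : Pen lam κ1 r1 A1 β1)
    (p2 : Pen lam κ2 r2 A2 β2) (V w1 w2 : T d L → ℝ) (E1 E2 : ℝ) (h1 : IsS β1 lam V E1 w1)
    (h2 : IsS β2 lam V E2 w2) (a b1 b2 e : ℝ) (hw1 : ∀ x, |w1 x| ≤ a) (ha : a ≤ 1 / 4)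
    (hw2 : ∀ x, |w2 x| ≤ 1 / 4)
    (hb1 : ∀ s, |s| ≤ a → |β1 s| ≤ b1) (hb2 : ∀ s, |s| ≤ a → |β2 s| ≤ b2) (he : |E2 - E1| ≤ e)
    (k R : ℝ) (hk : 0 < k) (hG : GH d L k R) (p : ℝ) (hp : 1 ≤ p) (s : ℝ) (hs : s = 1 ∨ s = -1)
    (x0 : T d L) :
    Real.exp (2 * p * (s * (w2 x0 - w1 x0))) ≤ (p * (2 * (b1 + b2 + e)) + k) ^ 2 * R *
      ∑ x, Real.exp (2 * p * max (s * (w2 x - w1 x)) 0) := by
  have ha0 : 0 ≤ a := (abs_nonneg _).trans (hw1 x0)
  have hmono : ∀ s s', s' ≤ s → β2 s' ≤ β2 s := fun s s' hss => by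
    have := p2.mono s s' hss
    have h3 := mul_nonneg p2.hκ.le (sub_nonneg.2 hss)
    linarith
  have hb10 : 0 ≤ b1 := (abs_nonneg _).trans (hb1 0 (by rw [abs_zero]; exact ha0))
  have hb20 : 0 ≤ b2 := (abs_nonneg _).trans (hb2 0 (by rw [abs_zero]; exact ha0))
  have he0 : 0 ≤ e := (abs_nonneg _).trans he
  obtain ⟨he1, he2⟩ := abs_le.1 he
  have haa : |a| ≤ a := by rw [abs_of_nonneg ha0]
  have hana : |-a| ≤ a := by rw [abs_neg, abs_of_nonneg ha0]
  rcases hs with hs | hs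
  · subst hs
    simp only [one_mul]
    refine core w1 (fun x => w2 x - w1 x) (fun x => (hw1 x).trans ha) (b1 + b2 + e) k R hk
      (by positivity) hG (fun x hx => ?_) p hp x0
    rw [key β1 β2 lam E1 E2 V V w1 w2 h1 h2 x]
    have e1 : Real.exp (w1 x + w2 x) = Real.exp (2 * w1 x) * Real.exp (w2 x - w1 x) := by
      rw [← Real.exp_add]; congr 1; ring
    rw [← e1, sub_self, mul_zero, zero_add, ← neg_mul]
    refine mul_le_mul_of_nonneg_right ?_ (Real.exp_pos _).le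
    have e2 := hmono (w2 x) (-a) (by
      have := (abs_le.1 (hw1 x)).1
      linarith)
    have e3 := (abs_le.1 (hb2 (-a) hana)).1
    have e4 := (abs_le.1 (hb1 _ (hw1 x))).2
    linarith
  · subst hs
    have hr : ∀ x, -1 * (w2 x - w1 x) = w1 x - w2 x := fun x => by ring
    simp only [hr]
    refine core w2 (fun x => w1 x - w2 x) hw2 (b1 + b2 + e) k R hk
      (by positivity) hG (fun x hx => ?_) p hp x0
    rw [key β2 β1 lam E2 E1 V V w2 w1 h2 h1 x]
    have e1 : Real.exp (w2 x + w1 x) = Real.exp (2 * w2 x) * Real.exp (w1 x - w2 x) := by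
      rw [← Real.exp_add]; congr 1; ring
    rw [← e1, sub_self, mul_zero, zero_add, ← neg_mul]
    refine mul_le_mul_of_nonneg_right ?_ (Real.exp_pos _).le
    have e2 := hmono a (w2 x) (by
      have := (abs_le.1 (hw1 x)).2
      linarith)
    have e3 := (abs_le.1 (hb2 a haa)).2
    have e4 := (abs_le.1 (hb1 _ (hw1 x))).1
    linarith

/-- one-sided comparison of energies, deterministic part: if `E2` is too large then `w2` is
large everywhere -/
theorem en_up {lam κ1 κ2 r1 r2 A1 A2 : ℝ} {β1 β2 : ℝ → ℝ} (p1 : Pen lam κ1 r1 A1 β1)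
    (p2 : Pen lam κ2 r2 A2 β2) (V w1 w2 : T d L → ℝ) (E1 E2 : ℝ) (h1 : IsS β1 lam V E1 w1)
    (h2 : IsS β2 lam V E2 w2) (a b1 δ b2 : ℝ) (hw1 : ∀ x, |w1 x| ≤ a)
    (hb1 : ∀ s, |s| ≤ a → |β1 s| ≤ b1) (hb2 : β2 δ ≤ b2) (he : b1 + b2 < E2 - E1)
    (x : T d L) : δ - 2 * a ≤ w2 x := by
  obtain ⟨x0, hx0⟩ := Finite.exists_min (fun x => w2 x - w1 x)
  have e1 := h1 x0
  have e2 := h2 x0
  have e3 : ∑ i : Fin d, ((1 - Real.exp (w2 (x0 + Pi.single i 1) - w2 x0)) +
      (1 - Real.exp (w2 (x0 - Pi.single i 1) - w2 x0))) ≤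
      ∑ i : Fin d, ((1 - Real.exp (w1 (x0 + Pi.single i 1) - w1 x0)) +
      (1 - Real.exp (w1 (x0 - Pi.single i 1) - w1 x0))) := by
    refine Finset.sum_le_sum fun i _ => ?_
    have a1 := hx0 (x0 + Pi.single i 1)
    have a2 := hx0 (x0 - Pi.single i 1)
    beta_reduce at a1 a2
    have b1 : Real.exp (w1 (x0 + Pi.single i 1) - w1 x0) ≤ Real.exp (w2 (x0 + Pi.single i 1) - w2 x0) :=
      Real.exp_le_exp.2 (by linarith)
    have b2 : Real.exp (w1 (x0 - Pi.single i 1) - w1 x0) ≤ Real.exp (w2 (x0 - Pi.single i 1) - w2 x0) :=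
      Real.exp_le_exp.2 (by linarith)
    linarith
  have e4 := (abs_le.1 (hb1 _ (hw1 x0))).1
  have e5 : b2 < β2 (w2 x0) := by linarith
  have e6 : δ < w2 x0 := by
    by_contra hc
    push Not at hc
    have := p2.mono δ (w2 x0) hc
    have h3 := mul_nonneg p2.hκ.le (sub_nonneg.2 hc)
    linarith
  have e7 := hx0 x
  beta_reduce at e7
  have e8 := (abs_le.1 (hw1 x0)).2
  have e9 := (abs_le.1 (hw1 x)).1
  linarith

theorem en_dn {lam κ1 κ2 r1 r2 A1 A2 : ℝ} {β1 β2 : ℝ → ℝ} (p1 : Pen lam κ1 r1 A1 β1)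
    (p2 : Pen lam κ2 r2 A2 β2) (V w1 w2 : T d L → ℝ) (E1 E2 : ℝ) (h1 : IsS β1 lam V E1 w1)
    (h2 : IsS β2 lam V E2 w2) (a b1 δ b2 : ℝ) (hw1 : ∀ x, |w1 x| ≤ a)
    (hb1 : ∀ s, |s| ≤ a → |β1 s| ≤ b1) (hb2 : -b2 ≤ β2 (-δ)) (he : b1 + b2 < E1 - E2)
    (x : T d L) : w2 x ≤ -(δ - 2 * a) := by
  obtain ⟨x0, hx0⟩ := Finite.exists_max (fun x => w2 x - w1 x)
  have e1 := h1 x0
  have e2 := h2 x0
  have e3 : ∑ i : Fin d, ((1 - Real.exp (w1 (x0 + Pi.single i 1) - w1 x0)) +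
      (1 - Real.exp (w1 (x0 - Pi.single i 1) - w1 x0))) ≤
      ∑ i : Fin d, ((1 - Real.exp (w2 (x0 + Pi.single i 1) - w2 x0)) +
      (1 - Real.exp (w2 (x0 - Pi.single i 1) - w2 x0))) := by
    refine Finset.sum_le_sum fun i _ => ?_
    have a1 := hx0 (x0 + Pi.single i 1)
    have a2 := hx0 (x0 - Pi.single i 1)
    beta_reduce at a1 a2
    have b1 : Real.exp (w2 (x0 + Pi.single i 1) - w2 x0) ≤ Real.exp (w1 (x0 + Pi.single i 1) - w1 x0) :=
      Real.exp_le_exp.2 (by linarith)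
    have b2 : Real.exp (w2 (x0 - Pi.single i 1) - w2 x0) ≤ Real.exp (w1 (x0 - Pi.single i 1) - w1 x0) :=
      Real.exp_le_exp.2 (by linarith)
    linarith
  have e4 := (abs_le.1 (hb1 _ (hw1 x0))).2
  have e5 : β2 (w2 x0) < -b2 := by linarith
  have e6 : w2 x0 < -δ := by
    by_contra hc
    push Not at hc
    have := p2.mono (w2 x0) (-δ) hc
    have h3 := mul_nonneg p2.hκ.le (sub_nonneg.2 hc)
    linarith
  have e7 := hx0 x
  beta_reduce at e7
  have e8 := (abs_le.1 (hw1 x0)).1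
  have e9 := (abs_le.1 (hw1 x)).2
  linarith

end Pool.Agent.K3h4.AN.Tw
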